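import Mathlib
import Pool.Agent.H621R3.LFDefs

set_option autoImplicit false
set_option linter.unusedSectionVars false

/-!
Free `p`-spaces over `p`-metric spaces. A `p`-metric space `(M, d)` is encoded by the metric
`dist = d ^ p`, a `p`-Banach space by the `p`-th power of its `p`-norm
(`Pool.Agent.H621R3.LF.PBanach`).
-/

namespace Pool.Agent.R276.FP

open UniformSpace MeasureTheory
open Pool.Agent.H621R3.LF (PBanach)

/-- `F` with the map `δ` is the free `p`-space over the `p`-metric space `M` with base point `base`,
where the metric of `M` is the `p`-th power `d ^ p` of the `p`-metric `d` and the norm of a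
`p`-Banach space is the `p`-th power of its `p`-norm: `δ` is isometric, `δ base = 0`, and every
Lipschitz map `f` from `M` into a `p`-Banach space with `f base = 0` has a unique bounded linear
extension through `δ`, and it has the same constant. -/
structure IsFree (p : ℝ) {M : Type} [MetricSpace M] (base : M) {F : Type}
    [NormedAddCommGroup F] [Module ℝ F] (δ : M → F) : Prop where
  pbanach : PBanach p F
  isometric : ∀ x y, ‖δ x - δ y‖ = dist x y
  map_base : δ base = 0
  lift : ∀ (Y : Type) [NormedAddCommGroup Y] [Module ℝ Y], PBanach p Y →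
    ∀ (f : M → Y) (L : ℝ), 0 ≤ L → f base = 0 → (∀ x y, ‖f x - f y‖ ≤ L * dist x y) →
      ∃ T : F →L[ℝ] Y, (∀ x, T (δ x) = f x) ∧ ∀ v, ‖T v‖ ≤ L * ‖v‖
  unique : ∀ (Y : Type) [NormedAddCommGroup Y] [Module ℝ Y], PBanach p Y →
    ∀ T T' : F →L[ℝ] Y, (∀ x, T (δ x) = T' (δ x)) → T = T'

section Gauge

variable {p : ℝ} {M : Type} [MetricSpace M]

/-- admissible `p`-th powers of `p`-seminorms on finitely supported functions -/
structure Good (p : ℝ) (base : M) (q : (M →₀ ℝ) → ℝ) : Prop where
  nonneg : ∀ v, 0 ≤ q v
  add_le : ∀ v w, q (v + w) ≤ q v + q w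
  smul : ∀ (c : ℝ) v, q (c • v) = |c| ^ p * q v
  le : ∀ x y, q (Finsupp.single x 1 - Finsupp.single y 1) ≤ dist x y
  map_base : q (Finsupp.single base 1) = 0

theorem good_zero (base : M) : Good p base (fun _ => 0) where
  nonneg _ := le_rfl
  add_le _ _ := by simp
  smul _ _ := by simp
  le _ _ := by positivity
  map_base := rfl

instance (base : M) : Nonempty {q : (M →₀ ℝ) → ℝ // Good p base q} := ⟨⟨_, good_zero base⟩⟩

theorem Good.single_le {base : M} {q : (M →₀ ℝ) → ℝ} (h : Good p base q) (x : M) (c : ℝ) :
    q (Finsupp.single x c) ≤ |c| ^ p * dist x base := by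
  have h1 : (Finsupp.single x c : M →₀ ℝ) = c • Finsupp.single x 1 := by simp
  rw [h1, h.smul]
  refine mul_le_mul_of_nonneg_left ?_ (by positivity)
  have h2 : (Finsupp.single x 1 : M →₀ ℝ) =
      (Finsupp.single x 1 - Finsupp.single base 1) + Finsupp.single base 1 := by abel
  rw [h2]
  have h3 := h.add_le (Finsupp.single x 1 - Finsupp.single base 1) (Finsupp.single base 1)
  have h4 := h.le x base
  rw [h.map_base] at h3
  linarith

theorem gauge_bdd (hp : 0 < p) (base : M) (v : M →₀ ℝ) :
    BddAbove (Set.range fun q : {q : (M →₀ ℝ) → ℝ // Good p base q} => q.1 v) := by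
  have h : ∃ B : ℝ, ∀ q : {q : (M →₀ ℝ) → ℝ // Good p base q}, q.1 v ≤ B := by
    induction v using Finsupp.induction_linear with
    | zero =>
      refine ⟨0, fun q => ?_⟩
      have h1 := q.2.smul 0 0
      rw [abs_zero, Real.zero_rpow hp.ne', zero_mul, smul_zero] at h1
      exact h1.le
    | add f g hf hg =>
      obtain ⟨B, hB⟩ := hf
      obtain ⟨B', hB'⟩ := hg
      exact ⟨B + B', fun q => (q.2.add_le f g).trans (add_le_add (hB q) (hB' q))⟩
    | single a c => exact ⟨_, fun q => q.2.single_le a c⟩
  obtain ⟨B, hB⟩ := h
  exact ⟨B, by rintro _ ⟨q, rfl⟩; exact hB q⟩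

/-- the largest admissible function -/
noncomputable def gauge' (p : ℝ) (base : M) (v : M →₀ ℝ) : ℝ :=
  ⨆ q : {q : (M →₀ ℝ) → ℝ // Good p base q}, q.1 v

theorem Good.le_gauge (hp : 0 < p) {base : M} {q : (M →₀ ℝ) → ℝ} (h : Good p base q)
    (v : M →₀ ℝ) : q v ≤ gauge' p base v :=
  le_ciSup (gauge_bdd hp base v) ⟨q, h⟩

theorem good_gauge (hp : 0 < p) (base : M) : Good p base (gauge' p base) where
  nonneg v := (good_zero base).le_gauge hp v
  add_le v w := by
    refine ciSup_le fun q => ?_
    exact (q.2.add_le v w).trans (add_le_add (q.2.le_gauge hp v) (q.2.le_gauge hp w))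
  smul c v := by
    unfold gauge'
    rw [Real.mul_iSup_of_nonneg (by positivity)]
    exact iSup_congr fun q => q.2.smul c v
  le x y := ciSup_le fun q => q.2.le x y
  map_base := by
    refine le_antisymm (ciSup_le fun q => q.2.map_base.le) ?_
    exact (good_zero base).le_gauge hp _

/-- pulling back along a Lipschitz map -/
theorem good_of_lip {base : M} {Y : Type*} [NormedAddCommGroup Y] [Module ℝ Y]
    [PBanach p Y] (f : M → Y) (h0 : f base = 0) (hf : ∀ x y, ‖f x - f y‖ ≤ dist x y) :
    Good p base (fun v => ‖Finsupp.linearCombination ℝ f v‖) where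
  nonneg _ := norm_nonneg _
  add_le v w := by
    rw [map_add]
    exact norm_add_le _ _
  smul c v := by rw [map_smul, PBanach.norm_smul (p := p)]
  le x y := by
    rw [map_sub, Finsupp.linearCombination_single, Finsupp.linearCombination_single, one_smul,
      one_smul]
    exact hf x y
  map_base := by rw [Finsupp.linearCombination_single, h0, smul_zero, norm_zero]

/-- the layer functional -/
noncomputable def lay (base y : M) (t : ℝ) (z : M) : ℝ :=
  (Set.Iio (dist z y)).indicator 1 t - (Set.Iio (dist base y)).indicator 1 t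

theorem lay_base (base y : M) (t : ℝ) : lay base y t base = 0 := by simp [lay]

theorem lay_sub (base y : M) (t : ℝ) (x z : M) :
    lay base y t x - lay base y t z =
      (Set.Iio (dist x y)).indicator 1 t - (Set.Iio (dist z y)).indicator 1 t :=
  sub_sub_sub_cancel_right _ _ _

theorem int_layer_aux (hp : 0 < p) {a b : ℝ} (ha : 0 ≤ a) (hab : a ≤ b) :
    ∫ t in Set.Ioi (0 : ℝ), |(Set.Iio a).indicator (1 : ℝ → ℝ) t - (Set.Iio b).indicator 1 t| ^ p =
      b - a := by
  have h1 : ∀ t : ℝ, |(Set.Iio a).indicator (1 : ℝ → ℝ) t - (Set.Iio b).indicator 1 t| ^ p =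
      (Set.Ico a b).indicator (fun _ => (1 : ℝ)) t := by
    intro t
    by_cases h2 : t < a
    · have h3 : t < b := h2.trans_le hab
      have h4 : ¬ a ≤ t := not_le.mpr h2
      simp [Set.indicator, h2, h3, h4, Real.zero_rpow hp.ne']
    · by_cases h3 : t < b
      · have h4 : a ≤ t := not_lt.mp h2
        simp [Set.indicator, h2, h3, h4]
      · simp [Set.indicator, h2, h3, Real.zero_rpow hp.ne']
  simp only [h1]
  rw [← integral_Ici_eq_integral_Ioi, setIntegral_indicator measurableSet_Ico]
  have h2 : Set.Ici (0 : ℝ) ∩ Set.Ico a b = Set.Ico a b :=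
    Set.inter_eq_right.mpr fun t ht => ha.trans ht.1
  rw [h2, setIntegral_const, smul_eq_mul, mul_one, Real.volume_real_Ico_of_le hab]

theorem int_layer (hp : 0 < p) {a b : ℝ} (ha : 0 ≤ a) (hb : 0 ≤ b) :
    ∫ t in Set.Ioi (0 : ℝ), |(Set.Iio a).indicator (1 : ℝ → ℝ) t - (Set.Iio b).indicator 1 t| ^ p =
      |a - b| := by
  rcases le_total a b with h | h
  · rw [int_layer_aux hp ha h, abs_sub_comm, abs_of_nonneg (sub_nonneg.mpr h)]
  · simp only [abs_sub_comm ((Set.Iio a).indicator (1 : ℝ → ℝ) _)]
    rw [int_layer_aux hp hb h, abs_of_nonneg (sub_nonneg.mpr h)]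

/-- the function whose integral is the layer functional -/
noncomputable def layF (p : ℝ) (base y : M) (v : M →₀ ℝ) (t : ℝ) : ℝ :=
  |Finsupp.linearCombination ℝ (lay base y t) v| ^ p

theorem meas_lin (base y : M) (v : M →₀ ℝ) :
    Measurable fun t => Finsupp.linearCombination ℝ (lay base y t) v := by
  have h : (fun t => Finsupp.linearCombination ℝ (lay base y t) v) =
      fun t => ∑ x ∈ v.support, v x * lay base y t x := by
    funext t
    rw [Finsupp.linearCombination_apply]
    rfl
  rw [h]
  refine Finset.measurable_fun_sum _ fun x _ => ?_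
  refine Measurable.const_mul ?_ _
  unfold lay
  exact (measurable_one.indicator measurableSet_Iio).sub
    (measurable_one.indicator measurableSet_Iio)

theorem layF_int (hp : 0 < p) (base y : M) (v : M →₀ ℝ) :
    IntegrableOn (layF p base y v) (Set.Ioi 0) := by
  obtain ⟨R, hR⟩ : ∃ R : ℝ, 0 ≤ R ∧ (∀ x ∈ v.support, dist x y ≤ R) ∧ dist base y ≤ R := by
    refine ⟨(∑ x ∈ v.support, dist x y) + dist base y, by positivity, fun x hx => ?_, ?_⟩
    · have := Finset.single_le_sum (f := fun x => dist x y) (fun x _ => dist_nonneg) hx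
      have h2 : 0 ≤ dist base y := dist_nonneg
      linarith
    · have : 0 ≤ ∑ x ∈ v.support, dist x y := Finset.sum_nonneg fun x _ => dist_nonneg
      linarith
  have hsupp : ∀ t ∉ Set.Ioo (0 : ℝ) R, t ∈ Set.Ioi (0 : ℝ) → layF p base y v t = 0 := by
    intro t ht ht0
    have htR : R ≤ t := by
      by_contra h
      exact ht ⟨ht0, not_le.mp h⟩
    unfold layF
    have : Finsupp.linearCombination ℝ (lay base y t) v = 0 := by
      rw [Finsupp.linearCombination_apply]
      refine Finset.sum_eq_zero fun x hx => ?_
      have h1 : t ∉ Set.Iio (dist x y) := by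
        simp only [Set.mem_Iio, not_lt]
        exact (hR.2.1 x hx).trans htR
      have h2 : t ∉ Set.Iio (dist base y) := by
        simp only [Set.mem_Iio, not_lt]
        exact hR.2.2.trans htR
      simp [lay, h1, h2]
    rw [this, abs_zero, Real.zero_rpow hp.ne']
  have hbd : ∀ t, ‖layF p base y v t‖ ≤ (∑ x ∈ v.support, |v x| * 2) ^ p := by
    intro t
    have h0 : 0 ≤ layF p base y v t := by unfold layF; positivity
    rw [Real.norm_of_nonneg h0]
    unfold layF
    refine Real.rpow_le_rpow (abs_nonneg _) ?_ hp.le
    rw [Finsupp.linearCombination_apply, Finsupp.sum]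
    refine (Finset.abs_sum_le_sum_abs _ _).trans (Finset.sum_le_sum fun x _ => ?_)
    rw [smul_eq_mul, abs_mul]
    refine mul_le_mul_of_nonneg_left ?_ (abs_nonneg _)
    unfold lay
    have a1 : |(Set.Iio (dist x y)).indicator (1 : ℝ → ℝ) t| ≤ 1 := by
      by_cases h : t ∈ Set.Iio (dist x y) <;> simp [h]
    have a2 : |(Set.Iio (dist base y)).indicator (1 : ℝ → ℝ) t| ≤ 1 := by
      by_cases h : t ∈ Set.Iio (dist base y) <;> simp [h]
    exact (abs_sub _ _).trans (by linarith)
  have hm : Measurable (layF p base y v) := by
    unfold layF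
    exact ((meas_lin base y v).abs).pow_const p
  have hI : IntegrableOn (layF p base y v) (Set.Ioo 0 R) := by
    refine Measure.integrableOn_of_bounded (M := (∑ x ∈ v.support, |v x| * 2) ^ p) ?_
      hm.aestronglyMeasurable ?_
    · rw [Real.volume_Ioo]
      exact ENNReal.ofReal_ne_top
    · exact Filter.Eventually.of_forall hbd
  refine hI.of_forall_sdiff_eq_zero measurableSet_Ioi ?_
  intro t ht
  exact hsupp t ht.2 ht.1

theorem good_layer (hp : 0 < p) (hp1 : p ≤ 1) (base y : M) :
    Good p base (fun v => ∫ t in Set.Ioi (0 : ℝ), layF p base y v t) where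
  nonneg v := by
    refine integral_nonneg fun t => ?_
    show 0 ≤ layF p base y v t
    unfold layF
    positivity
  add_le v w := by
    rw [← integral_add (layF_int hp base y v) (layF_int hp base y w)]
    refine integral_mono (layF_int hp base y _)
      ((layF_int hp base y v).add (layF_int hp base y w)) fun t => ?_
    show layF p base y (v + w) t ≤ layF p base y v t + layF p base y w t
    unfold layF
    rw [map_add]
    refine (Real.rpow_le_rpow (abs_nonneg _) (abs_add_le _ _) hp.le).trans ?_
    exact Real.rpow_add_le_add_rpow (abs_nonneg _) (abs_nonneg _) hp.le hp1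
  smul c v := by
    rw [← integral_const_mul]
    refine integral_congr_ae (Filter.Eventually.of_forall fun t => ?_)
    show layF p base y (c • v) t = |c| ^ p * layF p base y v t
    unfold layF
    rw [map_smul, smul_eq_mul, abs_mul, Real.mul_rpow (abs_nonneg _) (abs_nonneg _)]
  le x z := by
    have h1 : ∀ t, layF p base y (Finsupp.single x 1 - Finsupp.single z 1) t =
        |(Set.Iio (dist x y)).indicator 1 t - (Set.Iio (dist z y)).indicator 1 t| ^ p := by
      intro t
      unfold layF
      rw [map_sub, Finsupp.linearCombination_single, Finsupp.linearCombination_single, one_smul,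
        one_smul, lay_sub]
    simp only [h1]
    rw [int_layer hp dist_nonneg dist_nonneg]
    exact abs_dist_sub_le x z y
  map_base := by
    have : ∀ t, layF p base y (Finsupp.single base 1) t = 0 := by
      intro t
      unfold layF
      rw [Finsupp.linearCombination_single, lay_base, smul_zero, abs_zero, Real.zero_rpow hp.ne']
    simp only [this, integral_zero]

theorem gauge_neg (hp : 0 < p) (base : M) (v : M →₀ ℝ) : gauge' p base (-v) = gauge' p base v := by
  have h1 := (good_gauge hp base).smul (-1) v
  rw [abs_neg, abs_one, Real.one_rpow, one_mul, neg_one_smul] at h1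
  exact h1

theorem gauge_isometric (hp : 0 < p) (hp1 : p ≤ 1) (base x y : M) :
    gauge' p base (Finsupp.single x 1 - Finsupp.single y 1) = dist x y := by
  refine le_antisymm ((good_gauge hp base).le x y) ?_
  have h1 := (good_layer hp hp1 base y).le_gauge hp (Finsupp.single x 1 - Finsupp.single y 1)
  have h2 : ∀ t, layF p base y (Finsupp.single x 1 - Finsupp.single y 1) t =
      |(Set.Iio (dist x y)).indicator 1 t - (Set.Iio (dist y y)).indicator 1 t| ^ p := by
    intro t
    unfold layF
    rw [map_sub, Finsupp.linearCombination_single, Finsupp.linearCombination_single, one_smul,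
      one_smul, lay_sub]
  simp only [h2] at h1
  rw [int_layer hp dist_nonneg dist_nonneg, dist_self, sub_zero, abs_of_nonneg dist_nonneg] at h1
  exact h1

/-- a nonzero coefficient off the base point is seen by the gauge when `M` is uniformly discrete -/
theorem good_coeff [DecidableEq M] (hp : 0 < p) (hp1 : p ≤ 1) (base k : M) (hk : k ≠ base)
    (hd : ∀ x y : M, x ≠ y → 1 ≤ dist x y) : Good p base (fun v => |v k| ^ p) where
  nonneg _ := by positivity
  add_le v w := by
    rw [Finsupp.add_apply]
    refine (Real.rpow_le_rpow (abs_nonneg _) (abs_add_le _ _) hp.le).trans ?_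
    exact Real.rpow_add_le_add_rpow (abs_nonneg _) (abs_nonneg _) hp.le hp1
  smul c v := by
    rw [Finsupp.smul_apply, smul_eq_mul, abs_mul, Real.mul_rpow (abs_nonneg _) (abs_nonneg _)]
  le x z := by
    by_cases h : x = z
    · subst h
      simp [Real.zero_rpow hp.ne']
    · refine le_trans ?_ (hd x z h)
      refine Real.rpow_le_one (abs_nonneg _) ?_ hp.le
      rw [Finsupp.sub_apply]
      by_cases h1 : x = k
      · have h2 : z ≠ k := fun h3 => h (h1.trans h3.symm)
        rw [Finsupp.single_apply, Finsupp.single_apply, if_pos h1, if_neg h2]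
        simp
      · rw [Finsupp.single_apply, Finsupp.single_apply, if_neg h1]
        by_cases h2 : z = k
        · rw [if_pos h2]; simp
        · rw [if_neg h2]; simp
  map_base := by
    rw [Finsupp.single_apply, if_neg hk.symm, abs_zero, Real.zero_rpow hp.ne']

end Gauge

section Space

variable {p : ℝ} {M : Type} [MetricSpace M]

/-- finitely supported functions with the `p`-norm -/
def PreFree (p : ℝ) (_hp : 0 < p) (_base : M) : Type := M →₀ ℝ

variable {hp : 0 < p} {base : M}

noncomputable instance : AddCommGroup (PreFree p hp base) :=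
  inferInstanceAs (AddCommGroup (M →₀ ℝ))
noncomputable instance : Module ℝ (PreFree p hp base) := inferInstanceAs (Module ℝ (M →₀ ℝ))

noncomputable instance : SeminormedAddCommGroup (PreFree p hp base) :=
  AddGroupSeminorm.toSeminormedAddCommGroup
    { toFun := gauge' p base
      map_zero' := by
        have h1 := (good_gauge hp base).smul 0 0
        rw [abs_zero, Real.zero_rpow hp.ne', zero_mul, smul_zero] at h1
        exact h1
      add_le' := (good_gauge hp base).add_le
      neg' := fun v => gauge_neg hp base v }

theorem PreFree.norm_eq (v : PreFree p hp base) : ‖v‖ = gauge' p base v := rfl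

theorem PreFree.norm_smul' (c : ℝ) (v : PreFree p hp base) : ‖c • v‖ = |c| ^ p * ‖v‖ :=
  (good_gauge hp base).smul c v

instance : UniformContinuousConstSMul ℝ (PreFree p hp base) where
  uniformContinuous_const_smul c := by
    have h : LipschitzWith (Real.toNNReal (|c| ^ p)) fun v : PreFree p hp base => c • v := by
      refine LipschitzWith.of_dist_le_mul fun v w => ?_
      rw [dist_eq_norm, dist_eq_norm, ← smul_sub, PreFree.norm_smul',
        Real.coe_toNNReal _ (by positivity)]
    exact h.uniformContinuous

theorem continuous_csmul {Y : Type*} [NormedAddCommGroup Y] [Module ℝ Y] [PBanach p Y] (c : ℝ) :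
    Continuous fun y : Y => c • y := by
  have h : LipschitzWith (Real.toNNReal (|c| ^ p)) fun v : Y => c • v := by
    refine LipschitzWith.of_dist_le_mul fun v w => ?_
    rw [dist_eq_norm, dist_eq_norm, ← smul_sub, PBanach.norm_smul (p := p),
      Real.coe_toNNReal _ (by positivity)]
  exact h.continuous

/-- the identity map -/
def toPF (hp : 0 < p) (base : M) (v : M →₀ ℝ) : PreFree p hp base := v

/-- the free space -/
abbrev Fr (p : ℝ) (hp : 0 < p) (base : M) : Type := Completion (PreFree p hp base)

/-- the embedding of the finitely supported functions -/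
noncomputable def emb (hp : 0 < p) (base : M) (v : M →₀ ℝ) : Fr p hp base :=
  (toPF hp base v : Completion (PreFree p hp base))

theorem emb_zero : emb hp base 0 = 0 := Completion.coe_zero
theorem emb_add (v w : M →₀ ℝ) : emb hp base (v + w) = emb hp base v + emb hp base w :=
  Completion.coe_add (toPF hp base v) (toPF hp base w)
theorem emb_sub (v w : M →₀ ℝ) : emb hp base (v - w) = emb hp base v - emb hp base w :=
  Completion.coe_sub (toPF hp base v) (toPF hp base w)
theorem emb_smul (c : ℝ) (v : M →₀ ℝ) : emb hp base (c • v) = c • emb hp base v :=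
  Completion.coe_smul c (toPF hp base v)
theorem norm_emb (v : M →₀ ℝ) : ‖emb hp base v‖ = gauge' p base v :=
  Completion.norm_coe (toPF hp base v)

theorem emb_induction {P : Fr p hp base → Prop}
    (v : Fr p hp base) (hc : IsClosed {v | P v}) (h : ∀ w, P (emb hp base w)) :
    P v :=
  Completion.induction_on v hc h

/-- the canonical embedding -/
noncomputable def dirac (hp : 0 < p) (base : M) (x : M) : Fr p hp base :=
  emb hp base (Finsupp.single x 1)

instance : PBanach p (Fr p hp base) where
  complete := inferInstance
  norm_smul c v := by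
    refine Completion.induction_on v ?_ ?_
    · refine isClosed_eq ?_ ?_
      · exact continuous_norm.comp (continuous_const_smul c)
      · exact continuous_const.mul continuous_norm
    · intro v
      rw [← Completion.coe_smul, Completion.norm_coe, Completion.norm_coe, PreFree.norm_smul']

theorem dirac_ext {Y : Type*} [NormedAddCommGroup Y] [Module ℝ Y]
    (T T' : Fr p hp base →L[ℝ] Y)
    (h : ∀ x, T (dirac hp base x) = T' (dirac hp base x)) : T = T' := by
  ext v
  refine emb_induction v (isClosed_eq T.continuous T'.continuous) ?_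
  intro w
  induction w using Finsupp.induction_linear with
  | zero => rw [emb_zero, map_zero, map_zero]
  | add f g hf hg => rw [emb_add, map_add, map_add, hf, hg]
  | single a c =>
    have h1 : (Finsupp.single a c : M →₀ ℝ) = c • Finsupp.single a 1 := by simp
    rw [h1, emb_smul, map_smul, map_smul]
    congr 1
    exact h a

theorem lin_bound {Y : Type*} [NormedAddCommGroup Y] [Module ℝ Y] [PBanach p Y] (hp : 0 < p)
    (f : M → Y) (L : ℝ) (hL : 0 ≤ L) (h0 : f base = 0)
    (hf : ∀ x y, ‖f x - f y‖ ≤ L * dist x y) (v : M →₀ ℝ) :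
    ‖Finsupp.linearCombination ℝ f v‖ ≤ L * gauge' p base v := by
  rcases hL.eq_or_lt with h | hLpos
  · subst h
    have hz : ∀ x, f x = 0 := by
      intro x
      have := hf x base
      rw [zero_mul, h0, sub_zero] at this
      simpa using this
    have : Finsupp.linearCombination ℝ f v = 0 := by
      rw [Finsupp.linearCombination_apply]
      exact Finset.sum_eq_zero fun x _ => by
        show v x • f x = 0
        rw [hz, smul_zero]
    rw [this, norm_zero, zero_mul]
  · have key : Good p base (fun v => L⁻¹ * ‖Finsupp.linearCombination ℝ f v‖) :=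
      { nonneg := fun v => by positivity
        add_le := fun v w => by
          rw [map_add, ← mul_add]
          exact mul_le_mul_of_nonneg_left (norm_add_le _ _) (by positivity)
        smul := fun c v => by
          rw [map_smul, PBanach.norm_smul (p := p)]
          ring
        le := fun x y => by
          rw [map_sub, Finsupp.linearCombination_single, Finsupp.linearCombination_single,
            one_smul, one_smul]
          calc L⁻¹ * ‖f x - f y‖ ≤ L⁻¹ * (L * dist x y) :=
                mul_le_mul_of_nonneg_left (hf x y) (by positivity)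
            _ = dist x y := by field_simp
        map_base := by
          rw [Finsupp.linearCombination_single, h0, smul_zero, norm_zero, mul_zero] }
    have h1 := key.le_gauge hp v
    calc ‖Finsupp.linearCombination ℝ f v‖ = L * (L⁻¹ * ‖Finsupp.linearCombination ℝ f v‖) := by
          field_simp
      _ ≤ L * gauge' p base v := mul_le_mul_of_nonneg_left h1 hL

theorem exists_extension {Y : Type*} [NormedAddCommGroup Y] [Module ℝ Y] [PBanach p Y]
    (f : M → Y) (L : ℝ) (hL : 0 ≤ L) (h0 : f base = 0)
    (hf : ∀ x y, ‖f x - f y‖ ≤ L * dist x y) :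
    ∃ T : Fr p hp base →L[ℝ] Y,
      (∀ x, T (dirac hp base x) = f x) ∧ ∀ v, ‖T v‖ ≤ L * ‖v‖ := by
  have : CompleteSpace Y := PBanach.complete p
  let T0 : PreFree p hp base →+ Y :=
    (Finsupp.linearCombination ℝ f : (M →₀ ℝ) →ₗ[ℝ] Y).toAddMonoidHom
  have hT0 : ∀ v : PreFree p hp base, ‖T0 v‖ ≤ L * ‖v‖ := fun v =>
    lin_bound hp f L hL h0 hf v
  have hc : Continuous T0 := AddMonoidHomClass.continuous_of_bound T0 _ hT0
  let T1 : Completion (PreFree p hp base) →+ Y := T0.extension hc
  have hT1 : Continuous T1 := T0.continuous_extension hc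
  have hcoe : ∀ v : M →₀ ℝ, T1 (emb hp base v) = Finsupp.linearCombination ℝ f v :=
    fun v => T0.extension_coe hc (toPF hp base v)
  let T : Fr p hp base →L[ℝ] Y :=
    { toFun := T1
      map_add' := T1.map_add
      map_smul' := fun c v => by
        refine emb_induction (P := fun v => T1 (c • v) = (RingHom.id ℝ) c • T1 v) v ?_ ?_
        · exact isClosed_eq (hT1.comp (continuous_const_smul c))
            ((continuous_csmul (p := p) c).comp hT1)
        · intro v
          rw [← emb_smul, hcoe, hcoe, map_smul, RingHom.id_apply]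
      cont := hT1 }
  refine ⟨T, fun x => ?_, fun v => ?_⟩
  · show T1 _ = _
    unfold dirac
    rw [hcoe, Finsupp.linearCombination_single, one_smul]
  · show ‖T1 v‖ ≤ _
    refine emb_induction (P := fun v => ‖T1 v‖ ≤ L * ‖v‖) v ?_ ?_
    · exact isClosed_le (continuous_norm.comp hT1) (continuous_const.mul continuous_norm)
    · intro v
      rw [hcoe, norm_emb]
      exact lin_bound hp f L hL h0 hf v

theorem dirac_base : dirac hp base base = 0 := by
  rw [← norm_eq_zero]
  unfold dirac
  rw [norm_emb]
  exact (good_gauge hp base).map_base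

theorem dirac_iso (hp1 : p ≤ 1) (x y : M) :
    ‖dirac hp base x - dirac hp base y‖ = dist x y := by
  unfold dirac
  rw [← emb_sub, norm_emb]
  exact gauge_isometric hp hp1 base x y

theorem isFree_fr (hp : 0 < p) (hp1 : p ≤ 1) (base : M) : IsFree p base (dirac hp base) where
  pbanach := inferInstance
  isometric := dirac_iso hp1
  map_base := dirac_base
  lift := fun _ _ _ _ f L hL h0 hf => exists_extension f L hL h0 hf
  unique := fun _ _ _ _ T T' h => dirac_ext T T' h

/-- the linear map induced by a contraction of pointed spaces -/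
theorem exists_map {N : Type} [MetricSpace N] {base' : N} (hp1 : p ≤ 1) (f : M → N)
    (h0 : f base = base') (hf : ∀ x y, dist (f x) (f y) ≤ dist x y) :
    ∃ T : Fr p hp base →L[ℝ] Fr p hp base',
      (∀ x, T (dirac hp base x) = dirac hp base' (f x)) ∧ ∀ v, ‖T v‖ ≤ ‖v‖ := by
  obtain ⟨T, hT, hT'⟩ := exists_extension (p := p) (hp := hp) (base := base)
    (fun x => dirac hp base' (f x)) 1 zero_le_one (by rw [h0, dirac_base]) (fun x y => by
      rw [dirac_iso hp1, one_mul]
      exact hf x y)
  exact ⟨T, hT, fun v => by simpa using hT' v⟩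

end Space

end Pool.Agent.R276.FP
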