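import Mathlib
import Pool.Agent.R276.FPa

set_option autoImplicit false
set_option linter.unusedSectionVars false

/-!
The direct limit of the iterated free `p`-spaces is its own free `p`-space.
-/

namespace Pool.Agent.R276.FP

open UniformSpace Filter
open Pool.Agent.H621R3.LF (PBanach)

/-- extension of a bounded linear map to the completion -/
theorem extend_lin {p : ℝ} {E : Type} [SeminormedAddCommGroup E] [Module ℝ E]
    [UniformContinuousConstSMul ℝ E] {Y : Type} [NormedAddCommGroup Y] [Module ℝ Y]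
    [PBanach p Y] (T0 : E →ₗ[ℝ] Y) (L : ℝ) (h : ∀ v, ‖T0 v‖ ≤ L * ‖v‖) :
    ∃ T : Completion E →L[ℝ] Y, (∀ v : E, T v = T0 v) ∧ ∀ v, ‖T v‖ ≤ L * ‖v‖ := by
  have : CompleteSpace Y := PBanach.complete p
  have hc : Continuous T0.toAddMonoidHom := AddMonoidHomClass.continuous_of_bound _ _ h
  let T1 : Completion E →+ Y := T0.toAddMonoidHom.extension hc
  have hT1 : Continuous T1 := T0.toAddMonoidHom.continuous_extension hc
  have hcoe : ∀ v : E, T1 v = T0 v := fun v => T0.toAddMonoidHom.extension_coe hc v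
  let T : Completion E →L[ℝ] Y :=
    { toFun := T1
      map_add' := T1.map_add
      map_smul' := fun c v => by
        refine Completion.induction_on v ?_ ?_
        · exact isClosed_eq (hT1.comp (continuous_const_smul c))
            ((continuous_csmul (p := p) c).comp hT1)
        · intro v
          rw [← Completion.coe_smul, hcoe, hcoe, map_smul, RingHom.id_apply]
      cont := hT1 }
  refine ⟨T, fun x => hcoe x, fun v => ?_⟩
  show ‖T1 v‖ ≤ _
  refine Completion.induction_on v ?_ ?_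
  · exact isClosed_le (continuous_norm.comp hT1) (continuous_const.mul continuous_norm)
  · intro v
    rw [hcoe, Completion.norm_coe]
    exact h v

/-- a `p`-Banach space -/
structure PB (p : ℝ) where
  /-- the space -/
  E : Type
  [g : NormedAddCommGroup E]
  [m : Module ℝ E]
  [pb : PBanach p E]

attribute [instance] PB.g PB.m PB.pb

variable {p : ℝ}

/-- a contraction with a contractive left inverse -/
structure Pair (A B : PB p) where
  /-- the embedding -/
  T : A.E →L[ℝ] B.E
  /-- the retraction -/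
  S : B.E →L[ℝ] A.E
  hT : ∀ v, ‖T v‖ ≤ ‖v‖
  hS : ∀ v, ‖S v‖ ≤ ‖v‖
  hST : ∀ v, S (T v) = v

theorem Pair.norm_T {A B : PB p} (P : Pair A B) (v : A.E) : ‖P.T v‖ = ‖v‖ := by
  refine le_antisymm (P.hT v) ?_
  have := P.hS (P.T v)
  rwa [P.hST] at this

/-- the free space over a `p`-Banach space -/
noncomputable def frPB (hp : 0 < p) (A : PB p) : PB p := ⟨Fr p hp (0 : A.E)⟩

theorem exists_pair (hp : 0 < p) (hp1 : p ≤ 1) {A B : PB p} (P : Pair A B) :
    ∃ Q : Pair (frPB hp A) (frPB hp B),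
      ∀ v : A.E, Q.T (dirac hp (0 : A.E) v) = dirac hp (0 : B.E) (P.T v) := by
  obtain ⟨T, hT, hT'⟩ := exists_map (hp := hp) (base := (0 : A.E)) (base' := (0 : B.E)) hp1
    (fun v => P.T v) (map_zero _) (fun x y => by
      rw [dist_eq_norm, dist_eq_norm, ← map_sub]
      exact P.hT _)
  obtain ⟨S, hS, hS'⟩ := exists_map (hp := hp) (base := (0 : B.E)) (base' := (0 : A.E)) hp1
    (fun v => P.S v) (map_zero _) (fun x y => by
      rw [dist_eq_norm, dist_eq_norm, ← map_sub]
      exact P.hS _)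
  have hST : S.comp T = ContinuousLinearMap.id ℝ _ := by
    refine dirac_ext _ _ fun v => ?_
    rw [ContinuousLinearMap.comp_apply, hT, hS, P.hST, ContinuousLinearMap.id_apply]
  exact ⟨⟨T, S, hT', hS', fun v => congrArg (fun U => U v) hST⟩, hT⟩

/-- the iterated free spaces -/
noncomputable def V (hp : 0 < p) : ℕ → PB p
  | 0 => ⟨Fr p hp (0 : ℕ)⟩
  | n + 1 => frPB hp (V hp n)

/-- the canonical map of one stage to the next -/
noncomputable def dl (hp : 0 < p) (n : ℕ) (v : (V hp n).E) : (V hp (n + 1)).E :=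
  dirac hp (0 : (V hp n).E) v

theorem exists_TS0 (hp : 0 < p) (hp1 : p ≤ 1) :
    ∃ (T : Fr p hp (0 : ℕ) →L[ℝ] Fr p hp (0 : Fr p hp (0 : ℕ)))
      (S : Fr p hp (0 : Fr p hp (0 : ℕ)) →L[ℝ] Fr p hp (0 : ℕ)),
      (∀ v, ‖T v‖ ≤ ‖v‖) ∧ (∀ v, ‖S v‖ ≤ ‖v‖) ∧ ∀ v, S (T v) = v := by
  obtain ⟨T, hT, hT'⟩ := exists_map (hp := hp) (base := (0 : ℕ)) (base' := (0 : Fr p hp (0 : ℕ)))
    hp1 (fun k => dirac hp (0 : ℕ) k) dirac_base (fun x y => by
      rw [dist_eq_norm (dirac hp (0 : ℕ) x)]
      exact (dirac_iso hp1 x y).le)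
  obtain ⟨S, hS, hS'⟩ := exists_extension (p := p) (hp := hp) (base := (0 : Fr p hp (0 : ℕ)))
    (fun v : Fr p hp (0 : ℕ) => v) 1 zero_le_one rfl (fun x y => by rw [one_mul, dist_eq_norm])
  have hST : S.comp T = ContinuousLinearMap.id ℝ _ := by
    refine dirac_ext _ _ fun v => ?_
    rw [ContinuousLinearMap.comp_apply, hT, hS, ContinuousLinearMap.id_apply]
  refine ⟨T, S, hT', fun v => ?_, fun v => congrArg (fun U => U v) hST⟩
  have := hS' v
  rwa [one_mul] at this

theorem exists_pair0 (hp : 0 < p) (hp1 : p ≤ 1) : Nonempty (Pair (V hp 0) (V hp 1)) := by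
  obtain ⟨T, S, h1, h2, h3⟩ := exists_TS0 hp hp1
  exact ⟨⟨T, S, h1, h2, h3⟩⟩

/-- the connecting maps -/
noncomputable def TS (hp : 0 < p) (hp1 : p ≤ 1) : ∀ n, Pair (V hp n) (V hp (n + 1))
  | 0 => (exists_pair0 hp hp1).some
  | n + 1 => (exists_pair hp hp1 (TS hp hp1 n)).choose

theorem TS_dl (hp : 0 < p) (hp1 : p ≤ 1) (n : ℕ) (v : (V hp n).E) :
    (TS hp hp1 (n + 1)).T (dl hp n v) = dl hp (n + 1) ((TS hp hp1 n).T v) :=
  (exists_pair hp hp1 (TS hp hp1 n)).choose_spec v

/-- the eventual value of a sequence -/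
noncomputable def evv {α : Type} [Nonempty α] (u : ℕ → α) : α :=
  Classical.epsilon fun c => ∀ᶠ n in atTop, u n = c

theorem evv_eq {α : Type} [Nonempty α] {u : ℕ → α} {c : α} (h : ∀ᶠ n in atTop, u n = c) :
    evv u = c := by
  have h1 : ∀ᶠ n in atTop, u n = evv u := Classical.epsilon_spec (p := fun c => ∀ᶠ n in atTop,
    u n = c) ⟨c, h⟩
  obtain ⟨n, h2, h3⟩ := (h1.and h).exists
  rw [← h2, h3]

theorem evv_spec {α : Type} [Nonempty α] {u : ℕ → α} (h : ∀ᶠ n in atTop, u (n + 1) = u n) :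
    ∀ᶠ n in atTop, u n = evv u := by
  obtain ⟨N, hN⟩ := eventually_atTop.mp h
  have h1 : ∀ᶠ n in atTop, u n = u N := by
    refine eventually_atTop.mpr ⟨N, fun n hn => ?_⟩
    induction n, hn using Nat.le_induction with
    | base => rfl
    | succ n hn ih => rw [hN n hn, ih]
  rwa [evv_eq h1]

variable (hp : 0 < p) (hp1 : p ≤ 1)

/-- eventually compatible sequences -/
def PreS : Submodule ℝ (∀ n, (V hp n).E) where
  carrier := {x | ∀ᶠ n in atTop, x (n + 1) = (TS hp hp1 n).T (x n)}
  add_mem' := fun {x y} hx hy => by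
    filter_upwards [hx, hy] with n h1 h2
    rw [Pi.add_apply, Pi.add_apply, map_add, h1, h2]
  zero_mem' := Eventually.of_forall fun n => by
    rw [Pi.zero_apply, Pi.zero_apply, map_zero]
  smul_mem' := fun c x hx => by
    filter_upwards [hx] with n h1
    rw [Pi.smul_apply, Pi.smul_apply, map_smul, h1]

/-- the space of eventually compatible sequences -/
def Pre : Type := PreS hp hp1

noncomputable instance : AddCommGroup (Pre hp hp1) := inferInstanceAs (AddCommGroup (PreS hp hp1))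
noncomputable instance : Module ℝ (Pre hp hp1) := inferInstanceAs (Module ℝ (PreS hp hp1))

variable {hp hp1}

/-- the coordinates -/
def Pre.c (x : Pre hp hp1) (n : ℕ) : (V hp n).E := x.1 n

theorem Pre.add_c (x y : Pre hp hp1) (n : ℕ) : (x + y).c n = x.c n + y.c n := rfl
theorem Pre.neg_c (x : Pre hp hp1) (n : ℕ) : (-x).c n = -x.c n := rfl
theorem Pre.sub_c (x y : Pre hp hp1) (n : ℕ) : (x - y).c n = x.c n - y.c n := rfl
theorem Pre.zero_c (n : ℕ) : (0 : Pre hp hp1).c n = 0 := rfl
theorem Pre.smul_c (a : ℝ) (x : Pre hp hp1) (n : ℕ) : (a • x).c n = a • x.c n := rfl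

theorem Pre.ev (x : Pre hp hp1) : ∀ᶠ n in atTop, x.c (n + 1) = (TS hp hp1 n).T (x.c n) := x.2

theorem Pre.norm_ev (x : Pre hp hp1) :
    ∀ᶠ n in atTop, ‖x.c n‖ = evv fun n => ‖x.c n‖ := by
  refine evv_spec ?_
  filter_upwards [x.ev] with n hn
  rw [hn, Pair.norm_T]

noncomputable instance : SeminormedAddCommGroup (Pre hp hp1) :=
  AddGroupSeminorm.toSeminormedAddCommGroup
    { toFun := fun x => evv fun n => ‖x.c n‖
      map_zero' := evv_eq (Eventually.of_forall fun n => by rw [Pre.zero_c, norm_zero])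
      add_le' := fun x y => by
        obtain ⟨n, h1, h2, h3⟩ := (x.norm_ev.and (y.norm_ev.and (x + y).norm_ev)).exists
        rw [← h1, ← h2, ← h3, Pre.add_c]
        exact norm_add_le _ _
      neg' := fun x => by
        refine evv_eq ?_
        filter_upwards [x.norm_ev] with n hn
        rw [Pre.neg_c, norm_neg, hn] }

theorem Pre.norm_def (x : Pre hp hp1) : ‖x‖ = evv fun n => ‖x.c n‖ := rfl

theorem Pre.norm_ev' (x : Pre hp hp1) : ∀ᶠ n in atTop, ‖x.c n‖ = ‖x‖ := x.norm_ev

theorem Pre.norm_smul' (a : ℝ) (x : Pre hp hp1) : ‖a • x‖ = |a| ^ p * ‖x‖ := by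
  obtain ⟨n, h1, h2⟩ := (x.norm_ev'.and (a • x).norm_ev').exists
  rw [← h1, ← h2, Pre.smul_c, PBanach.norm_smul (p := p)]

instance : UniformContinuousConstSMul ℝ (Pre hp hp1) where
  uniformContinuous_const_smul c := by
    have h : LipschitzWith (Real.toNNReal (|c| ^ p)) fun v : Pre hp hp1 => c • v := by
      refine LipschitzWith.of_dist_le_mul fun v w => ?_
      rw [dist_eq_norm, dist_eq_norm, ← smul_sub, Pre.norm_smul',
        Real.coe_toNNReal _ (by positivity)]
    exact h.uniformContinuous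

variable (hp hp1)

/-- the direct limit -/
abbrev X : Type := Completion (Pre hp hp1)

variable {hp hp1}

instance : PBanach p (X hp hp1) where
  complete := inferInstance
  norm_smul c v := by
    refine Completion.induction_on v ?_ ?_
    · refine isClosed_eq ?_ ?_
      · exact continuous_norm.comp (continuous_const_smul c)
      · exact continuous_const.mul continuous_norm
    · intro v
      rw [← Completion.coe_smul, Completion.norm_coe, Completion.norm_coe, Pre.norm_smul']

/-- the sequence starting with a vector of `V n` -/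
noncomputable def seqOf (hp : 0 < p) (hp1 : p ≤ 1) (n : ℕ) (v : (V hp n).E) (k : ℕ) :
    (V hp k).E :=
  if h : n ≤ k then Nat.leRecOn (C := fun k => (V hp k).E) h (fun {k} w => (TS hp hp1 k).T w) v
  else 0

theorem seqOf_self (n : ℕ) (v : (V hp n).E) : seqOf hp hp1 n v n = v := by
  unfold seqOf
  rw [dif_pos le_rfl, Nat.leRecOn_self]

theorem seqOf_succ {n k : ℕ} (h : n ≤ k) (v : (V hp n).E) :
    seqOf hp hp1 n v (k + 1) = (TS hp hp1 k).T (seqOf hp hp1 n v k) := by
  unfold seqOf
  rw [dif_pos h, dif_pos (h.trans (Nat.le_succ k)), Nat.leRecOn_succ h]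

/-- the inclusion of a stage -/
noncomputable def io (hp : 0 < p) (hp1 : p ≤ 1) (n : ℕ) (v : (V hp n).E) : Pre hp hp1 :=
  ⟨seqOf hp hp1 n v, eventually_atTop.mpr ⟨n, fun _ hk => seqOf_succ hk v⟩⟩

theorem io_self (n : ℕ) (v : (V hp n).E) : (io hp hp1 n v).c n = v := seqOf_self n v

theorem io_succ {n k : ℕ} (h : n ≤ k) (v : (V hp n).E) :
    (io hp hp1 n v).c (k + 1) = (TS hp hp1 k).T ((io hp hp1 n v).c k) := seqOf_succ h v

/-- a compatible sequence is determined by one coordinate -/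
theorem comp_unique {x y : Pre hp hp1} {n : ℕ}
    (hx : ∀ k, n ≤ k → x.c (k + 1) = (TS hp hp1 k).T (x.c k))
    (hy : ∀ k, n ≤ k → y.c (k + 1) = (TS hp hp1 k).T (y.c k)) (h : x.c n = y.c n) :
    (x : X hp hp1) = y := by
  have h1 : ∀ k, n ≤ k → x.c k = y.c k := by
    intro k hk
    induction k, hk using Nat.le_induction with
    | base => exact h
    | succ k hk ih => rw [hx k hk, hy k hk, ih]
  rw [← sub_eq_zero, ← Completion.coe_sub, ← norm_eq_zero, Completion.norm_coe, Pre.norm_def]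
  refine evv_eq (eventually_atTop.mpr ⟨n, fun k hk => ?_⟩)
  rw [Pre.sub_c, h1 k hk, sub_self, norm_zero]

theorem io_coe_T (n : ℕ) (v : (V hp n).E) :
    (io hp hp1 (n + 1) ((TS hp hp1 n).T v) : X hp hp1) = io hp hp1 n v := by
  refine comp_unique (n := n + 1) (fun k hk => io_succ hk _)
    (fun k hk => io_succ ((Nat.le_succ n).trans hk) _) ?_
  rw [io_self, io_succ le_rfl, io_self]

theorem io_ev (x : Pre hp hp1) : ∀ᶠ n in atTop, (io hp hp1 n (x.c n) : X hp hp1) = x := by
  obtain ⟨N, hN⟩ := eventually_atTop.mp x.ev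
  refine eventually_atTop.mpr ⟨N, fun n hn => ?_⟩
  exact comp_unique (n := n) (fun k hk => io_succ hk _) (fun k hk => hN k (hn.trans hk))
    (io_self _ _)

theorem norm_of_comp {x : Pre hp hp1} {n : ℕ}
    (hx : ∀ k, n ≤ k → x.c (k + 1) = (TS hp hp1 k).T (x.c k)) : ‖x‖ = ‖x.c n‖ := by
  rw [Pre.norm_def]
  refine evv_eq (eventually_atTop.mpr ⟨n, fun k hk => ?_⟩)
  induction k, hk using Nat.le_induction with
  | base => rfl
  | succ k hk ih => rw [hx k hk, Pair.norm_T, ih]

/-- the inclusion of a stage, as a map into the limit -/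
noncomputable def inc (hp : 0 < p) (hp1 : p ≤ 1) (n : ℕ) : (V hp n).E →ₗ[ℝ] X hp hp1 where
  toFun v := (io hp hp1 n v : X hp hp1)
  map_add' v w := by
    rw [← Completion.coe_add]
    refine comp_unique (n := n) (fun k hk => io_succ hk _) (fun k hk => ?_) ?_
    · rw [Pre.add_c, Pre.add_c, io_succ hk, io_succ hk, map_add]
    · rw [Pre.add_c, io_self, io_self, io_self]
  map_smul' a v := by
    rw [RingHom.id_apply, ← Completion.coe_smul]
    refine comp_unique (n := n) (fun k hk => io_succ hk _) (fun k hk => ?_) ?_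
    · rw [Pre.smul_c, Pre.smul_c, io_succ hk, map_smul]
    · rw [Pre.smul_c, io_self, io_self]

theorem inc_apply (n : ℕ) (v : (V hp n).E) : inc hp hp1 n v = (io hp hp1 n v : X hp hp1) := rfl

theorem norm_inc (n : ℕ) (v : (V hp n).E) : ‖inc hp hp1 n v‖ = ‖v‖ := by
  rw [inc_apply, Completion.norm_coe, norm_of_comp (n := n) (fun k hk => io_succ hk _), io_self]

theorem inc_T (n : ℕ) (v : (V hp n).E) :
    inc hp hp1 (n + 1) ((TS hp hp1 n).T v) = inc hp hp1 n v := io_coe_T n v

/-- the canonical map of the direct limit, on sequences -/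
noncomputable def del0 (x : Pre hp hp1) : Pre hp hp1 :=
  ⟨fun n => Nat.casesOn n 0 fun n => dl hp n (x.c n), by
    have h := (tendsto_add_atTop_iff_nat (f := fun n : ℕ => n) 1).mpr tendsto_id
    refine (tendsto_sub_atTop_nat 1).eventually x.ev |>.mp ?_
    filter_upwards [eventually_ge_atTop 1] with n hn h1
    obtain ⟨m, rfl⟩ := Nat.exists_eq_add_of_le' hn
    rw [Nat.add_sub_cancel] at h1
    show dl hp (m + 1) (x.c (m + 1)) = (TS hp hp1 (m + 1)).T (dl hp m (x.c m))
    rw [TS_dl, h1]⟩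

theorem del0_succ (x : Pre hp hp1) (n : ℕ) : (del0 x).c (n + 1) = dl hp n (x.c n) := rfl

end Pool.Agent.R276.FP
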