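import Mathlib
import Pool.Agent.R276.FPb

set_option autoImplicit false
set_option linter.unusedSectionVars false

/-!
The direct limit of the iterated free `p`-spaces is its own free `p`-space: the universal property.
-/

namespace Pool.Agent.R276.FP

open UniformSpace Filter
open Pool.Agent.H621R3.LF (PBanach)

variable {p : ℝ} {hp : 0 < p} {hp1 : p ≤ 1}

theorem norm_dl (n : ℕ) (v w : (V hp n).E) (hp1 : p ≤ 1) : ‖dl hp n v - dl hp n w‖ = ‖v - w‖ := by
  have h := dirac_iso (hp := hp) (base := (0 : (V hp n).E)) hp1 v w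
  rw [dist_eq_norm] at h
  exact h

theorem dl_zero (n : ℕ) : dl hp n 0 = 0 := dirac_base

theorem dl_ext {n : ℕ} {Y : Type} [NormedAddCommGroup Y] [Module ℝ Y]
    (T T' : (V hp (n + 1)).E →L[ℝ] Y) (h : ∀ v, T (dl hp n v) = T' (dl hp n v)) : T = T' :=
  dirac_ext (base := (0 : (V hp n).E)) T T' h

theorem del0_iso (x y : Pre hp hp1) : ‖del0 x - del0 y‖ = ‖x - y‖ := by
  have h := (tendsto_add_atTop_nat 1).eventually (del0 x - del0 y).norm_ev'
  obtain ⟨n, h1, h2⟩ := (h.and (x - y).norm_ev').exists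
  rw [← h1, ← h2, Pre.sub_c, Pre.sub_c, del0_succ, del0_succ, norm_dl n _ _ hp1]

theorem isometry_del0 : Isometry fun x : Pre hp hp1 => (del0 x : X hp hp1) := by
  refine Isometry.of_dist_eq fun x y => ?_
  rw [Completion.dist_eq, dist_eq_norm, dist_eq_norm, del0_iso]

/-- the canonical map of the direct limit -/
noncomputable def del (hp : 0 < p) (hp1 : p ≤ 1) : X hp hp1 → X hp hp1 :=
  Completion.extension fun x : Pre hp hp1 => (del0 x : X hp hp1)

theorem del_coe (x : Pre hp hp1) : del hp hp1 x = del0 x :=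
  Completion.extension_coe isometry_del0.uniformContinuous x

theorem isometry_del : Isometry (del hp hp1) := isometry_del0.completion_extension

theorem del_inc (n : ℕ) (v : (V hp n).E) :
    del hp hp1 (inc hp hp1 n v) = inc hp hp1 (n + 1) (dl hp n v) := by
  rw [inc_apply, inc_apply, del_coe]
  refine comp_unique (n := n + 1) (fun k hk => ?_) (fun k hk => io_succ hk _) ?_
  · obtain ⟨m, rfl⟩ := Nat.exists_eq_add_of_le' (le_trans (Nat.le_add_left 1 n) hk)
    have hm : n ≤ m := Nat.le_of_add_le_add_right hk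
    rw [del0_succ, del0_succ, io_succ hm, TS_dl]
  · rw [del0_succ, io_self, io_self]

/-- the inclusion of a stage as a continuous linear map -/
noncomputable def incL (hp : 0 < p) (hp1 : p ≤ 1) (n : ℕ) : (V hp n).E →L[ℝ] X hp hp1 :=
  { inc hp hp1 n with
    cont := AddMonoidHomClass.continuous_of_bound (inc hp hp1 n) 1 fun v => by
      rw [norm_inc, one_mul] }

theorem incL_apply (n : ℕ) (v : (V hp n).E) : incL hp hp1 n v = inc hp hp1 n v := rfl

theorem inc_ev (x : Pre hp hp1) : ∀ᶠ n in atTop, inc hp hp1 n (x.c n) = x := io_ev x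

theorem X_unique {Y : Type} [NormedAddCommGroup Y] [Module ℝ Y]
    (T T' : X hp hp1 →L[ℝ] Y) (h : ∀ x, T (del hp hp1 x) = T' (del hp hp1 x)) : T = T' := by
  ext v
  refine Completion.induction_on v (isClosed_eq T.continuous T'.continuous) ?_
  intro x
  obtain ⟨n, hn⟩ := ((tendsto_add_atTop_nat 1).eventually (inc_ev x)).exists
  rw [← hn, ← incL_apply]
  have h1 : T.comp (incL hp hp1 (n + 1)) = T'.comp (incL hp hp1 (n + 1)) := by
    refine dl_ext _ _ fun w => ?_
    rw [ContinuousLinearMap.comp_apply, ContinuousLinearMap.comp_apply, incL_apply, ← del_inc, h]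
  exact congrArg (fun U => U (x.c (n + 1))) h1

theorem X_lift {Y : Type} [NormedAddCommGroup Y] [Module ℝ Y] [PBanach p Y]
    (f : X hp hp1 → Y) (L : ℝ) (hL : 0 ≤ L) (h0 : f 0 = 0)
    (hf : ∀ x y, ‖f x - f y‖ ≤ L * dist x y) :
    ∃ T : X hp hp1 →L[ℝ] Y, (∀ x, T (del hp hp1 x) = f x) ∧ ∀ v, ‖T v‖ ≤ L * ‖v‖ := by
  have hex : ∀ n, ∃ T : (V hp (n + 1)).E →L[ℝ] Y,
      (∀ v : (V hp n).E, T (dl hp n v) = f (inc hp hp1 n v)) ∧ ∀ w, ‖T w‖ ≤ L * ‖w‖ := fun n =>
    exists_extension (hp := hp) (base := (0 : (V hp n).E)) (fun v => f (inc hp hp1 n v)) L hL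
      (by rw [map_zero, h0]) (fun x y => by
        refine (hf _ _).trans (le_of_eq ?_)
        rw [dist_eq_norm, dist_eq_norm, ← map_sub, norm_inc])
  choose Tn hTn hTn' using hex
  have hcomp : ∀ n w, Tn (n + 1) ((TS hp hp1 (n + 1)).T w) = Tn n w := by
    intro n w
    have h1 : (Tn (n + 1)).comp (TS hp hp1 (n + 1)).T = Tn n := by
      refine dl_ext _ _ fun v => ?_
      rw [ContinuousLinearMap.comp_apply, TS_dl, hTn, hTn, inc_T]
    exact congrArg (fun U => U w) h1
  have hev : ∀ x : Pre hp hp1, ∀ᶠ n in atTop,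
      Tn n (x.c (n + 1)) = evv fun n => Tn n (x.c (n + 1)) := by
    intro x
    refine evv_spec ?_
    filter_upwards [(tendsto_add_atTop_nat 1).eventually x.ev] with n hn
    rw [hn, hcomp]
  let T0 : Pre hp hp1 →ₗ[ℝ] Y :=
    { toFun := fun x => evv fun n => Tn n (x.c (n + 1))
      map_add' := fun x y => by
        refine evv_eq ?_
        filter_upwards [hev x, hev y] with n h1 h2
        rw [Pre.add_c, map_add, h1, h2]
      map_smul' := fun a x => by
        refine evv_eq ?_
        filter_upwards [hev x] with n h1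
        rw [Pre.smul_c, map_smul, h1, RingHom.id_apply] }
  have hT0 : ∀ x, T0 x = evv fun n => Tn n (x.c (n + 1)) := fun _ => rfl
  have hb : ∀ x, ‖T0 x‖ ≤ L * ‖x‖ := by
    intro x
    obtain ⟨n, h1, h2⟩ :=
      ((hev x).and ((tendsto_add_atTop_nat 1).eventually x.norm_ev')).exists
    rw [hT0, ← h1, ← h2]
    exact hTn' n _
  obtain ⟨T, hT, hT'⟩ := extend_lin (p := p) T0 L hb
  refine ⟨T, fun x => ?_, hT'⟩
  have hfc : Continuous f := by
    have : LipschitzWith (Real.toNNReal L) f := by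
      refine LipschitzWith.of_dist_le_mul fun x y => ?_
      rw [dist_eq_norm, Real.coe_toNNReal L hL]
      exact hf x y
    exact this.continuous
  refine Completion.induction_on x
    (isClosed_eq (T.continuous.comp isometry_del.continuous) hfc) ?_
  intro x
  rw [del_coe, hT, hT0]
  refine evv_eq ?_
  filter_upwards [inc_ev x] with n hn
  rw [del0_succ, hTn, hn]

theorem del_zero : del hp hp1 0 = 0 := by
  have h := del_inc (hp := hp) (hp1 := hp1) 0 0
  rwa [map_zero, dl_zero, map_zero] at h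

theorem isFree_X (hp : 0 < p) (hp1 : p ≤ 1) : IsFree p (0 : X hp hp1) (del hp hp1) where
  pbanach := inferInstance
  isometric := fun x y => by
    rw [← dist_eq_norm]
    exact isometry_del.dist_eq x y
  map_base := del_zero
  lift := fun _ _ _ _ f L hL h0 hf => X_lift f L hL h0 hf
  unique := fun _ _ _ _ T T' h => X_unique T T' h

/-- free spaces are unique -/
theorem free_iso {M : Type} [MetricSpace M] {base : M} {F G : Type} [NormedAddCommGroup F]
    [Module ℝ F] [NormedAddCommGroup G] [Module ℝ G] {δ : M → F} {ε : M → G}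
    (hF : IsFree p base δ) (hG : IsFree p base ε) :
    ∃ e : F ≃ₗ[ℝ] G, (∀ x, e (δ x) = ε x) ∧ ∀ v, ‖e v‖ = ‖v‖ := by
  obtain ⟨A, hA, hA'⟩ := hF.lift G hG.pbanach ε 1 zero_le_one hG.map_base (fun x y => by
    rw [hG.isometric, one_mul])
  obtain ⟨B, hB, hB'⟩ := hG.lift F hF.pbanach δ 1 zero_le_one hF.map_base (fun x y => by
    rw [hF.isometric, one_mul])
  have hBA : B.comp A = ContinuousLinearMap.id ℝ F :=
    hF.unique F hF.pbanach _ _ fun x => by
      rw [ContinuousLinearMap.comp_apply, hA, hB, ContinuousLinearMap.id_apply]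
  have hAB : A.comp B = ContinuousLinearMap.id ℝ G :=
    hG.unique G hG.pbanach _ _ fun x => by
      rw [ContinuousLinearMap.comp_apply, hB, hA, ContinuousLinearMap.id_apply]
  have h1 : ∀ v, B (A v) = v := fun v => congrArg (fun U => U v) hBA
  have h2 : ∀ v, A (B v) = v := fun v => congrArg (fun U => U v) hAB
  refine ⟨{ A.toLinearMap with invFun := B, left_inv := h1, right_inv := h2 }, hA, fun v => ?_⟩
  show ‖A v‖ = ‖v‖
  refine le_antisymm (by simpa using hA' v) ?_
  have h3 := hB' (A v)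
  rwa [h1, one_mul] at h3

/-- the finitely supported functions on `ℕ` in the first stage -/
noncomputable def embV (hp : 0 < p) : (ℕ →₀ ℝ) →ₗ[ℝ] (V hp 0).E where
  toFun := fun v => emb hp (0 : ℕ) v
  map_add' := fun v w => emb_add v w
  map_smul' := fun c v => emb_smul c v

theorem norm_embV (v : ℕ →₀ ℝ) : ‖embV hp v‖ = gauge' p (0 : ℕ) v :=
  norm_emb (hp := hp) (base := (0 : ℕ)) v

theorem not_fd (hp : 0 < p) (hp1 : p ≤ 1) : ¬ FiniteDimensional ℝ (X hp hp1) := by
  intro hfd
  -- the injective linear map from the finitely supported functions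
  have hpos : ∀ v : ℕ →₀ ℝ, gauge' p (0 : ℕ) (v.mapDomain Nat.succ) = 0 → v = 0 := by
    intro v hv
    ext k
    have h1 := (good_coeff hp hp1 (0 : ℕ) (k + 1) (Nat.succ_ne_zero k) (fun x y hxy => by
      rw [Nat.dist_eq]
      have : (1 : ℤ) ≤ |(x : ℤ) - y| := Int.one_le_abs (by omega)
      exact_mod_cast this)).le_gauge hp (v.mapDomain Nat.succ)
    rw [hv] at h1
    have h2 : (v.mapDomain Nat.succ) (k + 1) = v k :=
      Finsupp.mapDomain_apply Nat.succ_injective v k
    simp only [h2] at h1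
    have h3 : |v k| ^ p = 0 := le_antisymm h1 (by positivity)
    have h4 := (Real.rpow_eq_zero (abs_nonneg _) hp.ne').mp h3
    simpa using h4
  let Λ : (ℕ →₀ ℝ) →ₗ[ℝ] X hp hp1 :=
    (inc hp hp1 0).comp ((embV hp) ∘ₗ (Finsupp.lmapDomain ℝ ℝ Nat.succ))
  have hinj : Function.Injective Λ := by
    rw [← LinearMap.ker_eq_bot, LinearMap.ker_eq_bot']
    intro v hv
    have h1 : ‖inc hp hp1 0 (embV hp (v.mapDomain Nat.succ))‖ = 0 := by
      have : Λ v = inc hp hp1 0 (embV hp (v.mapDomain Nat.succ)) := rfl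
      rw [← this, hv, norm_zero]
    rw [norm_inc, norm_embV] at h1
    exact hpos v h1
  have hfin : FiniteDimensional ℝ (ℕ →₀ ℝ) := FiniteDimensional.of_injective Λ hinj
  have := Module.Finite.finite_basis (Finsupp.basisSingleOne (R := ℝ) (ι := ℕ))
  exact not_finite ℕ

end Pool.Agent.R276.FP
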