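import Mathlib

set_option autoImplicit false

/-!
The Lipschitz-free space of a pointed metric space, given by its universal property.
-/

namespace Pool.Agent.R276.FreeDef

/-- `F` with the map `δ : X → F` is the Lipschitz-free space over the metric space `X` with base
point `o`: `δ` is an isometric embedding with `δ o = 0`, and for every Banach space `Y` and every
map `f : X → Y` with `f o = 0` and Lipschitz constant `L` there is a unique bounded linear
`T : F → Y` with `T (δ x) = f x` for all `x`, and `‖T‖ ≤ L`. -/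
structure IsFreeSpace {X : Type} [MetricSpace X] (o : X) {F : Type} [NormedAddCommGroup F]
    [NormedSpace ℝ F] (δ : X → F) : Prop where
  complete : CompleteSpace F
  base : δ o = 0
  isometric : ∀ x y, ‖δ x - δ y‖ = dist x y
  lift : ∀ (Y : Type) [NormedAddCommGroup Y] [NormedSpace ℝ Y] [CompleteSpace Y] (f : X → Y)
    (L : ℝ), 0 ≤ L → f o = 0 → (∀ x y, ‖f x - f y‖ ≤ L * dist x y) →
      ∃ T : F →L[ℝ] Y, (∀ x, T (δ x) = f x) ∧ ‖T‖ ≤ L
  unique : ∀ (Y : Type) [NormedAddCommGroup Y] [NormedSpace ℝ Y] [CompleteSpace Y]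
    (T T' : F →L[ℝ] Y), (∀ x, T (δ x) = T' (δ x)) → T = T'

end Pool.Agent.R276.FreeDef
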