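import Pool.Agent.TH326.L1e

set_option autoImplicit false

namespace Pool.Agent.R276.G

open scoped BigOperators
open Pool.Agent.TH326.L1 (RL M Phi WUC M_eq M_add M_sub M_smul M_neg M_zero M_congr M_sum M_close
  Phi_add_left Phi_smul_left Phi_single Phi_add_right Phi_smul_right Phi_zero_left avg cont_line
  avg_bound avg_sub avg_RL avg_abs avg_close Dir Dir_own psi psi_nonneg psi_le_one one_sub_psi_le
  psi_ne_zero RL_psi sg sg_abs subdiv)

variable {E : Type} [NormedAddCommGroup E] [NormedSpace ℝ E]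

/-- coordinate structure: norm one projections `P n` on the span of the first `n` basis vectors -/
structure DG (E : Type) [NormedAddCommGroup E] [NormedSpace ℝ E] where
  P : ℕ → E →ₗ[ℝ] E
  c : ℕ → E → ℝ
  e : ℕ → E
  P_zero : ∀ x, P 0 x = 0
  P_succ : ∀ n x, P (n + 1) x = P n x + c n x • e n
  norm_e : ∀ n, ‖e n‖ = 1
  c_le : ∀ n x, |c n x| ≤ ‖x‖
  c_P : ∀ m n x, m < n → c m (P n x) = c m x
  P_low : ∀ m n x, m ≤ n → P m (P n x) = P m x
  P_high : ∀ m n x, m ≤ n → P n (P m x) = P m x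
  norm_P : ∀ n x, ‖P n x‖ ≤ ‖x‖
  tend : ∀ x, Filter.Tendsto (fun n => P n x) Filter.atTop (nhds x)

/-- Lipschitz with constant `A` in the first `N` coordinates and `B` in the others -/
def LipN (D : DG E) (N : ℕ) (A B : ℝ) (g : E → ℝ) : Prop :=
  ∀ x y, |g x - g y| ≤ A * ‖D.P N (x - y)‖ + B * ‖(x - y) - D.P N (x - y)‖

/-- `g` depends on the first `n` coordinates -/
def Cyl (D : DG E) (n : ℕ) (g : E → ℝ) : Prop := ∀ x, g (D.P n x) = g x

theorem Cyl.mono {D : DG E} {m n : ℕ} {g : E → ℝ} (h : Cyl D m g) (hmn : m ≤ n) :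
    Cyl D n g := by
  intro x
  rw [← h (D.P n x), D.P_low m n x hmn, h x]

theorem Cyl.add {D : DG E} {n : ℕ} {g h : E → ℝ} (hg : Cyl D n g) (hh : Cyl D n h) :
    Cyl D n (g + h) := by
  intro x
  simp only [Pi.add_apply]
  rw [hg x, hh x]

theorem Cyl.smul {D : DG E} {n : ℕ} {g : E → ℝ} (c : ℝ) (hg : Cyl D n g) :
    Cyl D n (c • g) := by
  intro x
  simp only [Pi.smul_apply]
  rw [hg x]

/-- uniformly bounded functionals -/
def NB (μ : ℕ → E →₀ ℝ) (b : ℝ) : Prop :=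
  ∀ (j : ℕ) (g : E → ℝ) (K : ℝ), 0 ≤ K → RL K g → |M (μ j) g| ≤ b * K

theorem avg_cyl (D : DG E) {s : ℝ} {e : E} {g : E → ℝ} {n : ℕ} (hg : Cyl D n g) :
    Cyl D n (avg s e g) := by
  intro x
  unfold avg
  congr 1
  congr 1
  ext τ
  rw [← hg (D.P n x + τ • e), ← hg (x + τ • e), map_add, map_add, D.P_high n n x le_rfl]

theorem smooth (D : DG E) {K ε : ℝ} (hK : 0 ≤ K) {n : ℕ} {g : E → ℝ} (hg : RL K g)
    (hε : ∀ x, |g x| ≤ ε) (hn : Cyl D n g) (N : ℕ) : ∀ {η : ℝ}, 0 < η →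
    ∃ g' : E → ℝ, RL K g' ∧ (∀ x, |g' x| ≤ ε) ∧ Cyl D n g' ∧ (∀ x, |g' x - g x| ≤ η) ∧
      ∃ C : ℝ, 0 ≤ C ∧ ∃ d : ℕ → E → ℝ, ∀ k, k < N → Dir C (D.e k) g' (d k) ∧
        (∀ x, |d k x| ≤ K) ∧ RL C (d k) ∧ Cyl D n (d k) := by
  induction N with
  | zero =>
    intro η hη
    exact ⟨g, hg, hε, hn, fun x => by simp [hη.le], 0, le_rfl, fun _ _ => 0,
      fun k hk => absurd hk (Nat.not_lt_zero k)⟩
  | succ N ih =>
    intro η hη
    obtain ⟨g1, hg1, hε1, hn1, hcl1, C, hC, d, hd⟩ := ih (half_pos hη)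
    set s : ℝ := η / (2 * (K + 1)) with hs
    have hspos : 0 < s := by positivity
    have hKs : K * s ≤ η / 2 := by
      rw [hs]
      have h1 : K * (η / (2 * (K + 1))) = (K / (K + 1)) * (η / 2) := by field_simp
      rw [h1]
      have h2 : K / (K + 1) ≤ 1 := by
        rw [div_le_one (by positivity)]; linarith
      have h3 : 0 ≤ η / 2 := by positivity
      nlinarith
    have hKsn : 0 ≤ 2 * K / s := by positivity
    refine ⟨avg s (D.e N) g1, avg_RL hspos hK hg1, avg_abs hspos hε1, avg_cyl D hn1, ?_,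
      C + 2 * K / s, by positivity,
      fun k => if k = N then (fun x => (g1 (x + s • D.e N) - g1 x) / s)
        else avg s (D.e N) (d k), ?_⟩
    · intro x
      have h1 := avg_close hspos (D.norm_e N) hK hg1 x
      have h2 := hcl1 x
      have h3 := abs_add_le (avg s (D.e N) g1 x - g1 x) (g1 x - g x)
      rw [sub_add_sub_cancel] at h3
      linarith
    · intro k hk
      by_cases hkN : k = N
      · subst hkN
        simp only [if_true]
        refine ⟨(Dir_own (D.norm_e k) hK hg1 hspos).mono (by linarith), ?_, ?_, ?_⟩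
        · intro x
          rw [abs_div, abs_of_pos hspos, div_le_iff₀ hspos]
          have := hg1 (x + s • D.e k) x
          rwa [add_sub_cancel_left, norm_smul, D.norm_e, mul_one, Real.norm_eq_abs,
            abs_of_pos hspos] at this
        · intro x y
          have h1 := hg1 (x + s • D.e k) (y + s • D.e k)
          rw [add_sub_add_right_eq_sub] at h1
          have h2 := hg1 x y
          have h3 : |(g1 (x + s • D.e k) - g1 x) / s - (g1 (y + s • D.e k) - g1 y) / s| =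
              |(g1 (x + s • D.e k) - g1 (y + s • D.e k)) - (g1 x - g1 y)| / s := by
            rw [← sub_div, abs_div, abs_of_pos hspos]
            congr 2; ring
          rw [h3, div_le_iff₀ hspos]
          have h4 := abs_sub (g1 (x + s • D.e k) - g1 (y + s • D.e k)) (g1 x - g1 y)
          have h5 : (C + 2 * K / s) * ‖x - y‖ * s = C * ‖x - y‖ * s + 2 * K * ‖x - y‖ := by
            field_simp
          rw [h5]
          have h6 : 0 ≤ C * ‖x - y‖ * s := by positivity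
          linarith
        · intro x
          simp only
          rw [← hn1 (D.P n x + s • D.e k), ← hn1 (x + s • D.e k), map_add, map_add,
            D.P_high n n x le_rfl, hn1 x]
      · simp only [if_neg hkN]
        have hk' : k < N := by omega
        obtain ⟨h1, h2, h3, h4⟩ := hd k hk'
        exact ⟨(h1.avg (hg1.continuous hK) (h3.continuous hC) hspos).mono (by linarith),
          avg_abs hspos h2, (avg_RL hspos hC h3).mono (by linarith), avg_cyl D h4⟩

/-- supply of small smooth functions -/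
def Supply (D : DG E) (μ : ℕ → E →₀ ℝ) (N : ℕ) (c : ℝ) : Prop :=
  ∀ ε : ℝ, 0 < ε → ∃ p : ℕ, ∀ j, p ≤ j → ∃ (g : E → ℝ) (n : ℕ) (C : ℝ) (d : ℕ → E → ℝ),
    RL 2 g ∧ (∀ x, |g x| ≤ ε) ∧ Cyl D n g ∧ c ≤ M (μ j) g ∧ 0 ≤ C ∧
      ∀ k, k < N → Dir C (D.e k) g (d k) ∧ (∀ x, |d k x| ≤ 2) ∧ RL C (d k) ∧ Cyl D n (d k)

theorem supply (D : DG E) {μ : ℕ → E →₀ ℝ} {a : ℝ} (ha : 0 < a)
    (hs : ∀ ε : ℝ, 0 < ε → ∃ p : ℕ, ∀ j, p ≤ j → ∃ g : E → ℝ, RL 2 g ∧ (∀ x, |g x| ≤ ε) ∧
      a / 2 ≤ M (μ j) g)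
    (N : ℕ) : Supply D μ N (a / 4) := by
  intro ε hε
  obtain ⟨p, hp⟩ := hs ε hε
  refine ⟨p, fun j hj => ?_⟩
  obtain ⟨g, hg, hgε, hgM⟩ := hp j hj
  set W : ℝ := ∑ x ∈ (μ j).support, |μ j x| with hWdef
  have hW0 : 0 ≤ W := Finset.sum_nonneg fun _ _ => abs_nonneg _
  set η : ℝ := a / (16 * (W + 1)) with hη
  have hηpos : 0 < η := by positivity
  have hWη : W * (2 * η) ≤ a / 8 := by
    have h1 : W * (2 * η) = (W / (W + 1)) * (a / 8) := by
      rw [hη]; field_simp; ring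
    rw [h1]
    have h2 : W / (W + 1) ≤ 1 := by rw [div_le_one (by positivity)]; linarith
    have h3 : 0 ≤ a / 8 := by positivity
    nlinarith
  have hev : ∀ᶠ n in Filter.atTop, ∀ x ∈ (μ j).support, |g (D.P n x) - g x| ≤ η := by
    rw [Filter.eventually_all_finset]
    intro x _
    have h1 : Filter.Tendsto (fun n => g (D.P n x)) Filter.atTop (nhds (g x)) :=
      ((hg.continuous (by norm_num)).tendsto x).comp (D.tend x)
    have h2 := Metric.tendsto_atTop.mp h1 η hηpos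
    obtain ⟨n0, hn0⟩ := h2
    exact Filter.eventually_atTop.mpr ⟨n0, fun n hn => (by
      have := hn0 n hn; rw [Real.dist_eq] at this; exact this.le)⟩
  obtain ⟨n, hn⟩ := hev.exists
  set g1 : E → ℝ := fun x => g (D.P n x) with hg1
  have hg1L : RL 2 g1 := by
    intro x y
    simp only [hg1]
    refine (hg _ _).trans ?_
    rw [← map_sub]
    exact mul_le_mul_of_nonneg_left (D.norm_P n _) (by norm_num)
  have hg1c : Cyl D n g1 := by
    intro x
    simp only [hg1]
    rw [D.P_low n n x le_rfl]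
  have hM1 := M_close (μ j) (g := g1) (h := g) (η := η)
    (by simp only [hg1]; rw [map_zero, sub_self, abs_zero]; exact hηpos.le) hn
  obtain ⟨g2, hg2, hg2ε, hg2c, hcl, C, hC, d, hd⟩ :=
    smooth D (by norm_num : (0:ℝ) ≤ 2) hg1L (fun x => hgε _) hg1c N hηpos
  have hM2 := M_close (μ j) (g := g2) (h := g1) (η := η) (hcl 0) (fun x _ => hcl x)
  rw [abs_le] at hM1 hM2
  refine ⟨g2, n, C, d, hg2, hg2ε, hg2c, ?_, hC, hd⟩
  linarith [hM1.1, hM2.1]

theorem psi_cyl (D : DG E) {N n : ℕ} {Λ : ℝ} {T : ℕ → E → ℝ} (hT : ∀ k, k < N → Cyl D n (T k)) :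
    Cyl D n (psi N Λ T) := by
  intro x
  unfold psi
  congr 3
  refine Finset.sum_congr rfl fun k hk => ?_
  rw [hT k (Finset.mem_range.mp hk) x]

/-- the state of the construction after `i` steps -/
def St (D : DG E) (μ : ℕ → E →₀ ℝ) (N p : ℕ) (Λ η c : ℝ) (i : ℕ) : Prop :=
  ∃ (Ω : Type) (_ : Fintype Ω) (_ : Nonempty Ω) (f : Ω → E → ℝ) (T : Ω → ℕ → E → ℝ)
    (θ : Ω → ℕ →₀ ℝ) (n q : ℕ) (C : ℝ), 0 ≤ C ∧
    (∀ ω, Cyl D n (f ω)) ∧ (∀ ω k, k < N → Cyl D n (T ω k)) ∧
    (∀ ω k, k < N → ∀ (x : E) (t : ℝ),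
      |f ω (x + t • D.e k) - f ω x - t * T ω k x| ≤ i * η * |t| + C * t ^ 2) ∧
    (∀ ω k, k < N → ∀ x, |T ω k x| ≤ Λ + 2) ∧
    (∀ ω k, k < N → RL C (T ω k)) ∧
    (∀ ω, RL (i * 3) (f ω)) ∧
    (∀ x k, k < N → ∑ ω, (T ω k x) ^ 2 ≤ Fintype.card Ω * (i * 4)) ∧
    (∀ ω j, |θ ω j| ≤ 1) ∧ (∀ ω j, j < p → θ ω j = 0) ∧ (∀ ω j, q ≤ j → θ ω j = 0) ∧
    (∀ ω, (θ ω).support.card ≤ i) ∧
    Fintype.card Ω * (i * (c / 2)) ≤ ∑ ω, Phi μ (θ ω) (f ω)

theorem St_zero (D : DG E) (μ : ℕ → E →₀ ℝ) (N p : ℕ) {Λ η c : ℝ} (hΛ : 0 < Λ) :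
    St D μ N p Λ η c 0 := by
  refine ⟨Unit, inferInstance, inferInstance, fun _ _ => 0, fun _ _ _ => 0, fun _ => 0, 0, 0, 0,
    le_rfl, fun _ _ => rfl, fun _ _ _ _ => rfl, fun _ _ _ _ _ => by simp, fun _ _ _ _ => ?_,
    fun _ _ _ => Pool.Agent.TH326.L1.RL.const le_rfl 0,
    fun _ => Pool.Agent.TH326.L1.RL.const (by simp) 0, fun _ _ _ => by simp,
    by simp, by simp, by simp, by simp, ?_⟩
  · rw [abs_zero]; positivity
  · simp [Phi_zero_left]

theorem St_succ (D : DG E) {μ : ℕ → E →₀ ℝ} {b : ℝ} (hb : 0 ≤ b) (hW : NB μ b) (N p : ℕ)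
    {Λ η c κ : ℝ} (hΛ : 0 < Λ) (hη : 0 < η) (hc : 0 < c) (hsup : Supply D μ N c)
    (hκ0 : 0 ≤ κ) (hκ : 2 * b * κ ≤ c / 4) (i : ℕ) (hi : N * (i * 4) ≤ κ * Λ ^ 2)
    (hSt : St D μ N p Λ η c i) : St D μ N p Λ η c (i + 1) := by
  classical
  obtain ⟨Ω, _, _, f, T, θ, n, q, C, hC, hfc, hTc, hfT, hTB, hTL, hfL, hT2, hθ1, hθp, hθq,
    hθc, hPhi⟩ := hSt
  set B : ℝ := Λ + 2 with hBdef
  have hB : 0 ≤ B := by positivity
  set Cψ : ℝ := N * (2 * C * B) / Λ ^ 2 with hCψdef
  have hCψ : 0 ≤ Cψ := by positivity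
  set ψ : Ω → E → ℝ := fun ω => psi N Λ (T ω) with hψdef
  have hψ0 : ∀ ω x, 0 ≤ ψ ω x := fun ω x => psi_nonneg _ _ _ _
  have hψ1 : ∀ ω x, ψ ω x ≤ 1 := fun ω x => psi_le_one _ _ _ _
  have hψa : ∀ ω x, |ψ ω x| ≤ 1 := fun ω x => by rw [abs_of_nonneg (hψ0 ω x)]; exact hψ1 ω x
  have hψL : ∀ ω, RL Cψ (ψ ω) := fun ω => RL_psi hC hB (hTL ω) (hTB ω)
  have hψc : ∀ ω, Cyl D n (ψ ω) := fun ω => psi_cyl D (hTc ω)
  -- choice of ε
  set η' : ℝ := min η (min 1 (c / (4 * (b + 1)))) with hη'def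
  have hη'pos : 0 < η' := by
    refine lt_min hη (lt_min one_pos (by positivity))
  have hη'1 : η' ≤ η := min_le_left _ _
  have hη'2 : η' ≤ 1 := (min_le_right _ _).trans (min_le_left _ _)
  have hη'3 : η' ≤ c / (4 * (b + 1)) := (min_le_right _ _).trans (min_le_right _ _)
  set ε : ℝ := η' / (Cψ + 1) with hεdef
  have hε : 0 < ε := by positivity
  have hεC : ε * Cψ ≤ η' := by
    have h1 : ε * Cψ = (Cψ / (Cψ + 1)) * η' := by rw [hεdef]; field_simp
    rw [h1]
    have h2 : Cψ / (Cψ + 1) ≤ 1 := by rw [div_le_one (by positivity)]; linarith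
    nlinarith
  have hεC0 : 0 ≤ ε * Cψ := by positivity
  obtain ⟨pε, hpε⟩ := hsup ε hε
  set j : ℕ := max p (max q pε) with hj
  have hjp : p ≤ j := le_max_left _ _
  have hjq : q ≤ j := (le_max_left _ _).trans (le_max_right _ _)
  have hjε : pε ≤ j := (le_max_right _ _).trans (le_max_right _ _)
  obtain ⟨g, ng, Cg, d, hg, hgε, hgc, hgM, hCg, hd⟩ := hpε j hjε
  -- new data
  have hgψL : ∀ ω, RL 3 (g * ψ ω) := fun ω =>
    (hg.mul (hψL ω) hgε (hψa ω)).mono (by linarith)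
  have habs : ∀ s : ℝ, |s| = 1 → ∀ ω i, |(θ ω + s • Finsupp.single j (1:ℝ)) i| ≤ 1 := by
    intro σ hσ ω i
    simp only [Finsupp.add_apply, Finsupp.smul_apply, smul_eq_mul, Finsupp.single_apply]
    by_cases hij : j = i
    · subst hij
      simp [hθq ω j hjq, hσ]
    · simp [hij, hθ1 ω i]
  refine ⟨Ω × Bool, inferInstance, inferInstance, fun w => f w.1 + sg w.2 • (g * ψ w.1),
    fun w k => T w.1 k + sg w.2 • (d k * ψ w.1),
    fun w => θ w.1 + sg w.2 • Finsupp.single j (1:ℝ), max n ng, j + 1,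
    C + Cg + 2 * Cψ, by positivity, ?_, ?_, ?_, ?_, ?_, ?_, ?_, ?_, ?_, ?_, ?_, ?_⟩
  · rintro ⟨ω, s⟩
    refine ((hfc ω).mono (le_max_left _ _)).add (Cyl.smul _ ?_)
    intro x
    simp only [Pi.mul_apply]
    rw [(hgc.mono (le_max_right n ng)) x, ((hψc ω).mono (le_max_left n ng)) x]
  · rintro ⟨ω, s⟩ k hk
    refine ((hTc ω k hk).mono (le_max_left _ _)).add (Cyl.smul _ ?_)
    intro x
    simp only [Pi.mul_apply]
    rw [((hd k hk).2.2.2.mono (le_max_right n ng)) x, ((hψc ω).mono (le_max_left n ng)) x]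
  · rintro ⟨ω, s⟩ k hk x t
    simp only [Pi.add_apply, Pi.smul_apply, Pi.mul_apply, smul_eq_mul]
    have h1 := hfT ω k hk x t
    have h2 := (hd k hk).1 x t
    have h3 : |ψ ω (x + t • D.e k) - ψ ω x| ≤ Cψ * |t| := by
      have := hψL ω (x + t • D.e k) x
      rwa [add_sub_cancel_left, norm_smul, D.norm_e, mul_one, Real.norm_eq_abs] at this
    have e1 : f ω (x + t • D.e k) + sg s * (g (x + t • D.e k) * ψ ω (x + t • D.e k)) -
        (f ω x + sg s * (g x * ψ ω x)) - t * (T ω k x + sg s * (d k x * ψ ω x)) =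
        (f ω (x + t • D.e k) - f ω x - t * T ω k x) +
        (sg s * (ψ ω x * (g (x + t • D.e k) - g x - t * d k x)) +
         sg s * (g (x + t • D.e k) * (ψ ω (x + t • D.e k) - ψ ω x))) := by ring
    rw [e1]
    have h4 : |sg s * (ψ ω x * (g (x + t • D.e k) - g x - t * d k x))| ≤ Cg * t ^ 2 := by
      rw [abs_mul, sg_abs, one_mul, abs_mul]
      calc |ψ ω x| * |g (x + t • D.e k) - g x - t * d k x|
          ≤ 1 * (Cg * t ^ 2) := mul_le_mul (hψa ω x) h2 (abs_nonneg _) zero_le_one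
        _ = Cg * t ^ 2 := one_mul _
    have h5 : |sg s * (g (x + t • D.e k) * (ψ ω (x + t • D.e k) - ψ ω x))| ≤ η * |t| := by
      rw [abs_mul, sg_abs, one_mul, abs_mul]
      calc |g (x + t • D.e k)| * |ψ ω (x + t • D.e k) - ψ ω x|
          ≤ ε * (Cψ * |t|) := mul_le_mul (hgε _) h3 (abs_nonneg _) hε.le
        _ = ε * Cψ * |t| := by ring
        _ ≤ η * |t| := mul_le_mul_of_nonneg_right (hεC.trans hη'1) (abs_nonneg _)
    have h6 := abs_add_le (f ω (x + t • D.e k) - f ω x - t * T ω k x)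
      (sg s * (ψ ω x * (g (x + t • D.e k) - g x - t * d k x)) +
         sg s * (g (x + t • D.e k) * (ψ ω (x + t • D.e k) - ψ ω x)))
    have h7 := abs_add_le (sg s * (ψ ω x * (g (x + t • D.e k) - g x - t * d k x)))
         (sg s * (g (x + t • D.e k) * (ψ ω (x + t • D.e k) - ψ ω x)))
    have h8 : 0 ≤ 2 * Cψ * t ^ 2 := by positivity
    push_cast
    nlinarith
  · rintro ⟨ω, s⟩ k hk x
    simp only [Pi.add_apply, Pi.smul_apply, Pi.mul_apply, smul_eq_mul]
    by_cases hz : ψ ω x = 0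
    · rw [hz, mul_zero, mul_zero, add_zero]; exact hTB ω k hk x
    · have h1 : |T ω k x| ≤ Λ := psi_ne_zero hΛ hz hk
      have h2 : |sg s * (d k x * ψ ω x)| ≤ 2 := by
        rw [abs_mul, sg_abs, one_mul, abs_mul]
        calc |d k x| * |ψ ω x| ≤ 2 * 1 :=
              mul_le_mul ((hd k hk).2.1 x) (hψa ω x) (abs_nonneg _) (by norm_num)
          _ = 2 := by norm_num
      have h3 := abs_add_le (T ω k x) (sg s * (d k x * ψ ω x))
      linarith
  · rintro ⟨ω, s⟩ k hk
    have h1 := ((hd k hk).2.2.1.mul (hψL ω) (hd k hk).2.1 (hψa ω)).smul (sg s)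
    rw [sg_abs, one_mul] at h1
    exact ((hTL ω k hk).add h1).mono (by linarith)
  · rintro ⟨ω, s⟩
    have h1 := (hgψL ω).smul (sg s)
    rw [sg_abs, one_mul] at h1
    refine ((hfL ω).add h1).mono ?_
    push_cast
    linarith
  · intro x k hk
    rw [Fintype.sum_prod_type]
    have h1 : ∀ ω : Ω, ∑ s : Bool, ((T ω k + sg s • (d k * ψ ω)) x) ^ 2 ≤
        2 * (T ω k x) ^ 2 + 8 := by
      intro ω
      rw [Fintype.sum_bool]
      simp only [Pi.add_apply, Pi.smul_apply, Pi.mul_apply, smul_eq_mul, sg, if_true]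
      simp only [Bool.false_eq_true, if_false]
      have h2 : (d k x * ψ ω x) ^ 2 ≤ 4 := by
        rw [← sq_abs, abs_mul]
        have h3 : |d k x| * |ψ ω x| ≤ 2 * 1 :=
          mul_le_mul ((hd k hk).2.1 x) (hψa ω x) (abs_nonneg _) (by norm_num)
        have h4 : 0 ≤ |d k x| * |ψ ω x| := by positivity
        nlinarith
      nlinarith
    refine (Finset.sum_le_sum fun ω _ => h1 ω).trans ?_
    rw [Finset.sum_add_distrib, ← Finset.mul_sum, Finset.sum_const, Finset.card_univ,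
      nsmul_eq_mul, Fintype.card_prod, Fintype.card_bool]
    have := hT2 x k hk
    push_cast
    linarith
  · rintro ⟨ω, s⟩ i
    exact habs _ (sg_abs s) ω i
  · rintro ⟨ω, s⟩ i hi
    simp only [Finsupp.add_apply, Finsupp.smul_apply, smul_eq_mul, Finsupp.single_apply]
    rw [hθp ω i hi, if_neg (by omega)]
    simp
  · rintro ⟨ω, s⟩ i hi
    simp only [Finsupp.add_apply, Finsupp.smul_apply, smul_eq_mul, Finsupp.single_apply]
    rw [hθq ω i (by omega), if_neg (by omega)]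
    simp
  · rintro ⟨ω, s⟩
    refine (Finset.card_le_card Finsupp.support_add).trans ((Finset.card_union_le _ _).trans ?_)
    refine add_le_add (hθc ω) ?_
    rw [Finsupp.smul_single]
    exact (Finset.card_le_card Finsupp.support_single_subset).trans (by simp)
  · rw [Fintype.sum_prod_type]
    have h1 : ∀ ω : Ω, ∑ s : Bool, Phi μ (θ ω + sg s • Finsupp.single j (1:ℝ))
        (f ω + sg s • (g * ψ ω)) = 2 * Phi μ (θ ω) (f ω) + 2 * M (μ j) (g * ψ ω) := by
      intro ω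
      rw [Fintype.sum_bool]
      simp only [Phi_add_left, Phi_smul_left, Phi_add_right, Phi_smul_right, Phi_single]
      simp only [sg, if_true, Bool.false_eq_true, if_false]
      ring
    simp only [h1]
    rw [Finset.sum_add_distrib, ← Finset.mul_sum, ← Finset.mul_sum]
    -- the average pairing
    set φ : E → ℝ := fun x => ∑ ω : Ω, (1 - ψ ω x) with hφ
    have hcard : (0:ℝ) ≤ Fintype.card Ω := Nat.cast_nonneg _
    have hφa : ∀ x, |φ x| ≤ Fintype.card Ω * κ := by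
      intro x
      have h2 : 0 ≤ φ x := Finset.sum_nonneg fun ω _ => by linarith [hψ1 ω x]
      rw [abs_of_nonneg h2]
      have h3 : φ x ≤ ∑ ω : Ω, (∑ k ∈ Finset.range N, (T ω k x) ^ 2) / Λ ^ 2 :=
        Finset.sum_le_sum fun ω _ => one_sub_psi_le N Λ (T ω) x
      refine h3.trans ?_
      rw [← Finset.sum_div, Finset.sum_comm, div_le_iff₀ (by positivity)]
      have h4 : ∑ k ∈ Finset.range N, ∑ ω : Ω, (T ω k x) ^ 2 ≤
          ∑ k ∈ Finset.range N, (Fintype.card Ω * (i * 4) : ℝ) :=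
        Finset.sum_le_sum fun k hk => hT2 x k (Finset.mem_range.mp hk)
      rw [Finset.sum_const, Finset.card_range, nsmul_eq_mul] at h4
      refine h4.trans ?_
      have h5 := mul_le_mul_of_nonneg_left hi hcard
      linarith
    have hφL : RL (Fintype.card Ω * Cψ) φ := by
      intro x y
      simp only [hφ]
      rw [← Finset.sum_sub_distrib]
      refine (Finset.abs_sum_le_sum_abs _ _).trans ?_
      have h2 : ∀ ω ∈ (Finset.univ : Finset Ω), |1 - ψ ω x - (1 - ψ ω y)| ≤ Cψ * ‖x - y‖ := by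
        intro ω _
        have := hψL ω y x
        rw [norm_sub_rev] at this
        refine le_trans (le_of_eq ?_) this
        congr 1; ring
      refine (Finset.sum_le_sum h2).trans ?_
      rw [Finset.sum_const, Finset.card_univ, nsmul_eq_mul]
      exact le_of_eq (by ring)
    have hgφ : |M (μ j) (g * φ)| ≤ Fintype.card Ω * (c / 2) := by
      have h2 := hg.mul hφL hgε hφa
      have h3 := hW j _ _ (by positivity) h2
      refine h3.trans ?_
      have h4 : b * (ε * Cψ) ≤ c / 4 := by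
        have h5 : b * (ε * Cψ) ≤ b * (c / (4 * (b + 1))) :=
          mul_le_mul_of_nonneg_left (hεC.trans hη'3) hb
        have h6 : b * (c / (4 * (b + 1))) = (b / (b + 1)) * (c / 4) := by field_simp
        have h7 : b / (b + 1) ≤ 1 := by rw [div_le_one (by positivity)]; linarith
        rw [h6] at h5
        nlinarith
      have h8 : b * (2 * (Fintype.card Ω * κ) + ε * (Fintype.card Ω * Cψ)) =
          Fintype.card Ω * (2 * b * κ + b * (ε * Cψ)) := by ring
      rw [h8]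
      exact mul_le_mul_of_nonneg_left (by linarith) hcard
    have hsumM : ∑ ω : Ω, M (μ j) (g * ψ ω) =
        Fintype.card Ω * M (μ j) g - M (μ j) (g * φ) := by
      rw [← M_sum]
      have h2 : ∑ ω : Ω, g * ψ ω = (Fintype.card Ω : ℝ) • g - g * φ := by
        ext x
        simp only [Finset.sum_apply, Pi.mul_apply, Pi.sub_apply, Pi.smul_apply, smul_eq_mul, hφ]
        rw [← Finset.mul_sum, Finset.sum_sub_distrib, Finset.sum_const, Finset.card_univ,
          nsmul_eq_mul, mul_one]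
        ring
      rw [h2, M_sub, M_smul]
    rw [hsumM, Fintype.card_prod, Fintype.card_bool]
    have h9 := (abs_le.mp hgφ).2
    have h10 := mul_le_mul_of_nonneg_left hgM hcard
    push_cast
    linarith

theorem LipN_of_dir (D : DG E) {N : ℕ} {A B : ℝ} {f : E → ℝ} (hA : 0 ≤ A)
    (h : ∀ k, k < N → ∀ (x : E) (t : ℝ), |f (x + t • D.e k) - f x| ≤ A * |t|)
    (hB : RL B f) : LipN D N (N * A) B f := by
  intro x y
  have key : ∀ m, m ≤ N → |f (y + D.P m (x - y)) - f y| ≤ m * A * ‖D.P N (x - y)‖ := by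
    intro m
    induction m with
    | zero => intro _; rw [D.P_zero]; simp
    | succ m ih =>
      intro hm
      have h1 := ih (by omega)
      have h2 := h m (by omega) (y + D.P m (x - y)) (D.c m (x - y))
      have h4 : |D.c m (x - y)| ≤ ‖D.P N (x - y)‖ := by
        rw [← D.c_P m N (x - y) (by omega)]; exact D.c_le _ _
      have h5 := mul_le_mul_of_nonneg_left h4 hA
      rw [D.P_succ, ← add_assoc]
      have h3 := abs_add_le (f (y + D.P m (x - y) + D.c m (x - y) • D.e m) -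
        f (y + D.P m (x - y))) (f (y + D.P m (x - y)) - f y)
      rw [sub_add_sub_cancel] at h3
      push_cast
      linarith
  have h1 := key N le_rfl
  have h2 := hB x (y + D.P N (x - y))
  rw [← sub_sub] at h2
  have h3 := abs_add_le (f x - f (y + D.P N (x - y))) (f (y + D.P N (x - y)) - f y)
  rw [sub_add_sub_cancel] at h3
  linarith

end Pool.Agent.R276.G
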