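import Pool.Agent.R276.Gb

set_option autoImplicit false

namespace Pool.Agent.R276.G

open scoped BigOperators
open Pool.Agent.TH326.L1 (RL M Phi WUC M_eq M_add M_sub M_smul M_neg M_zero M_congr M_sum M_close
  Phi_add_left Phi_smul_left Phi_single Phi_add_right Phi_smul_right Phi_zero_left avg cont_line
  avg_bound avg_sub avg_RL avg_abs avg_close Dir Dir_own psi psi_nonneg psi_le_one one_sub_psi_le
  psi_ne_zero RL_psi sg sg_abs subdiv smallsup)

variable {E : Type} [NormedAddCommGroup E] [NormedSpace ℝ E]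

/-- orthogonality of the coordinate structure -/
def Split2 (D : DG E) : Prop := ∀ n x, ‖x‖ ^ 2 = ‖D.P n x‖ ^ 2 + ‖x - D.P n x‖ ^ 2

theorem tail_step (D : DG E) (hD : Split2 D) {G g : E → ℝ} {N : ℕ} {A η L : ℝ} (hA : 0 ≤ A)
    (hη : 0 ≤ η) (hL : 0 ≤ L) (hAL : (A + η) ^ 2 + 1 ≤ L ^ 2)
    (hG : RL A G) (hGN : Cyl D N G) (hg : LipN D N η 1 g) (σ : ℝ) (hσ : |σ| = 1) :
    RL L (G + σ • g) := by
  intro x y
  simp only [Pi.add_apply, Pi.smul_apply, smul_eq_mul]
  have h1 : |G x - G y| ≤ A * ‖D.P N (x - y)‖ := by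
    rw [← hGN x, ← hGN y, map_sub]
    exact hG _ _
  have h2 := hg x y
  have h3 := hD N (x - y)
  have h4 : |σ * g x - σ * g y| = |g x - g y| := by
    rw [← mul_sub, abs_mul, hσ, one_mul]
  have h5 : |G x + σ * g x - (G y + σ * g y)| ≤ |G x - G y| + |σ * g x - σ * g y| := by
    have := abs_add_le (G x - G y) (σ * g x - σ * g y)
    refine le_trans (le_of_eq ?_) this
    congr 1; ring
  rw [h4] at h5
  set u : ℝ := ‖D.P N (x - y)‖ with hu
  set v : ℝ := ‖x - y - D.P N (x - y)‖ with hv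
  have hu0 : 0 ≤ u := norm_nonneg _
  have hv0 : 0 ≤ v := norm_nonneg _
  have h6 : |G x + σ * g x - (G y + σ * g y)| ≤ (A + η) * u + v := by linarith
  refine h6.trans ?_
  refine abs_le_of_sq_le_sq' ?_ (by positivity) |>.2
  rw [mul_pow, h3]
  have h7 : ((A + η) * u + v) ^ 2 ≤ ((A + η) ^ 2 + 1) * (u ^ 2 + v ^ 2) := by
    nlinarith [sq_nonneg ((A + η) * v - u)]
  refine h7.trans ?_
  exact mul_le_mul_of_nonneg_right hAL (by positivity)

/-- the tail lemma -/
theorem tail (D : DG E) (hD : Split2 D) {μ : ℕ → E →₀ ℝ} {b : ℝ} (hb : 0 ≤ b) (hW : WUC μ b)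
    {δ : ℝ} (hδ : 0 < δ) : ∃ N p : ℕ, ∀ θ : ℕ →₀ ℝ, (∀ j, |θ j| ≤ 1) → (∀ j, j < p → θ j = 0) →
      ∀ (n : ℕ) (g : E → ℝ) (A B : ℝ), Cyl D n g → 0 ≤ A → 0 ≤ B → LipN D N A B g →
        Phi μ θ g ≤ b * A + δ * B := by
  by_contra hcon
  push Not at hcon
  have norm1 : ∀ N p : ℕ, ∃ θ : ℕ →₀ ℝ, (∀ j, |θ j| ≤ 1) ∧ (∀ j, j < p → θ j = 0) ∧
      ∃ (n : ℕ) (g : E → ℝ) (η : ℝ), Cyl D n g ∧ 0 ≤ η ∧ LipN D N η 1 g ∧
        b * η + δ < Phi μ θ g := by
    intro N p
    obtain ⟨θ, hθ, hθp, n, g, A, B, hn, hA, hB, hAB, hlt⟩ := hcon N p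
    have hBpos : 0 < B := by
      rcases hB.lt_or_eq with h | h
      · exact h
      · exfalso
        subst h
        have h1 : RL A g := by
          intro x y
          refine (hAB x y).trans ?_
          rw [zero_mul, add_zero]
          exact mul_le_mul_of_nonneg_left (D.norm_P N _) hA
        have h2 := hW θ hθ g A hA h1
        linarith
    refine ⟨θ, hθ, hθp, n, B⁻¹ • g, B⁻¹ * A, hn.smul _, by positivity, ?_, ?_⟩
    · intro x y
      simp only [Pi.smul_apply, smul_eq_mul]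
      rw [← mul_sub, abs_mul, abs_of_pos (by positivity : 0 < B⁻¹)]
      have h1 := mul_le_mul_of_nonneg_left (hAB x y) (by positivity : 0 ≤ B⁻¹)
      refine h1.trans (le_of_eq ?_)
      field_simp
    · rw [Phi_smul_right]
      have h1 := mul_lt_mul_of_pos_left hlt (by positivity : 0 < B⁻¹)
      refine lt_of_le_of_lt (le_of_eq ?_) h1
      field_simp
  have key : ∀ K : ℕ, ∃ (G : E → ℝ) (N n : ℕ) (S : ℝ) (θ : ℕ →₀ ℝ), Cyl D N G ∧ 0 ≤ S ∧
      RL (S + Real.sqrt K) G ∧ (∀ j, |θ j| ≤ 1) ∧ (∀ j, n ≤ j → θ j = 0) ∧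
      b * S + K * δ ≤ Phi μ θ G := by
    intro K
    induction K with
    | zero =>
      exact ⟨0, 0, 0, 0, 0, fun x => rfl, le_rfl,
        Pool.Agent.TH326.L1.RL.zero (by simp), by simp, by simp,
        by simp [Phi_zero_left]⟩
    | succ K ih =>
      obtain ⟨G, N, n, S, θ, hGN, hS, hG, hθ, hθn, hK⟩ := ih
      obtain ⟨θ', hθ', hθ'p, m, g, η, hgm, hη, hgL, hlt⟩ := norm1 N n
      obtain ⟨n', hn', hθ'n⟩ : ∃ n', n ≤ n' ∧ ∀ j, n' ≤ j → θ' j = 0 := by
        refine ⟨max n (θ'.support.sup id + 1), le_max_left _ _, fun j hj => ?_⟩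
        by_contra hne
        have h1 : j ∈ θ'.support := Finsupp.mem_support_iff.mpr hne
        have h2 : j ≤ θ'.support.sup id := Finset.le_sup (f := id) h1
        have h3 := (le_max_right n (θ'.support.sup id + 1)).trans hj
        omega
      have habs : ∀ σ : ℝ, |σ| = 1 → ∀ i, |(θ + σ • θ') i| ≤ 1 := by
        intro σ hσ i
        simp only [Finsupp.add_apply, Finsupp.smul_apply, smul_eq_mul]
        rcases lt_or_ge i n with hi | hi
        · rw [hθ'p i hi, mul_zero, add_zero]; exact hθ i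
        · rw [hθn i hi, zero_add, abs_mul, hσ, one_mul]; exact hθ' i
      have hsup : ∀ σ : ℝ, ∀ i, n' ≤ i → (θ + σ • θ') i = 0 := by
        intro σ i hi
        simp only [Finsupp.add_apply, Finsupp.smul_apply, smul_eq_mul]
        rw [hθn i (hn'.trans hi), hθ'n i hi, mul_zero, add_zero]
      have hcyl : ∀ σ : ℝ, Cyl D (max N m) (G + σ • g) := fun σ =>
        (hGN.mono (le_max_left _ _)).add ((hgm.mono (le_max_right _ _)).smul σ)
      have hsq : (S + Real.sqrt K + η) ^ 2 + 1 ≤ (S + η + Real.sqrt ((K + 1 : ℕ) : ℝ)) ^ 2 := by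
        have h1 : Real.sqrt (K : ℝ) ^ 2 = K := Real.sq_sqrt (Nat.cast_nonneg _)
        have h2 : Real.sqrt ((K + 1 : ℕ) : ℝ) ^ 2 = K + 1 := by
          rw [Real.sq_sqrt (Nat.cast_nonneg _)]; push_cast; ring
        have h3 : Real.sqrt (K : ℝ) ≤ Real.sqrt ((K + 1 : ℕ) : ℝ) :=
          Real.sqrt_le_sqrt (by push_cast; linarith)
        nlinarith [mul_le_mul_of_nonneg_left h3 (by positivity : 0 ≤ S + η)]
      have hRL : ∀ σ : ℝ, |σ| = 1 → RL (S + η + Real.sqrt ((K + 1 : ℕ) : ℝ)) (G + σ • g) := by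
        intro σ hσ
        exact tail_step D hD (by positivity) hη (by positivity) hsq hG hGN hgL σ hσ
      by_cases hs : 0 ≤ Phi μ θ g + Phi μ θ' G
      · refine ⟨G + (1:ℝ) • g, max N m, n', S + η, θ + (1:ℝ) • θ', hcyl 1, by positivity,
          hRL 1 (by simp), habs 1 (by simp), hsup 1, ?_⟩
        rw [Phi_add_left, Phi_smul_left, Phi_add_right, Phi_add_right, Phi_smul_right,
          Phi_smul_right]
        push_cast
        linarith
      · refine ⟨G + (-1:ℝ) • g, max N m, n', S + η, θ + (-1:ℝ) • θ', hcyl _, by positivity,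
          hRL _ (by simp), habs _ (by simp), hsup _, ?_⟩
        rw [Phi_add_left, Phi_smul_left, Phi_add_right, Phi_add_right, Phi_smul_right,
          Phi_smul_right]
        push_cast
        linarith
  obtain ⟨r, hr⟩ := exists_nat_gt (b / δ)
  have hr0 : (0:ℝ) < r := lt_of_le_of_lt (by positivity) hr
  obtain ⟨G, N, n, S, θ, hGN, hS, hG, hθ, hθn, hKδ⟩ := key (r ^ 2)
  have hsr : Real.sqrt ((r ^ 2 : ℕ) : ℝ) = r := by
    push_cast
    exact Real.sqrt_sq hr0.le
  rw [hsr] at hG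
  have h1 := hW θ hθ G (S + r) (by positivity) hG
  rw [div_lt_iff₀ hδ] at hr
  push_cast at hKδ
  nlinarith [mul_lt_mul_of_pos_left hr hr0]

/-- The main theorem in abstract form. -/
theorem main (D : DG E) (hD : Split2 D) {μ : ℕ → E →₀ ℝ} {b : ℝ} (hb : 0 ≤ b) (hW : WUC μ b)
    {a : ℝ} (ha : 0 < a) {f : ℕ → E → ℝ} (hf : ∀ j, RL 1 (f j)) (hf0 : ∀ j, f j 0 = 0)
    (hfM : ∀ j, a ≤ M (μ j) (f j)) : False := by
  set c : ℝ := a / 4 with hcdef
  have hc : 0 < c := by positivity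
  obtain ⟨N, p, htail⟩ := tail D hD hb hW (show 0 < c / 12 by positivity)
  have hsup : Supply D μ N c := supply D ha (fun ε hε => smallsup hW ha hf hf0 hfM hε) N
  have hNB : NB μ b := fun j g K hK hg => hW.single j hK hg
  set κ : ℝ := c / (8 * (b + 1)) with hκdef
  have hκpos : 0 < κ := by positivity
  have hκ : 2 * b * κ ≤ c / 4 := by
    have h1 : 2 * b * κ = (b / (b + 1)) * (c / 4) := by rw [hκdef]; field_simp; ring
    have h2 : b / (b + 1) ≤ 1 := by rw [div_le_one (by positivity)]; linarith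
    rw [h1]
    nlinarith
  set L0 : ℝ := 4 * N / κ + 1 with hL0
  have hL0a : 0 ≤ 4 * N / κ := by positivity
  have hL0b : 4 * N ≤ κ * L0 ^ 2 := by
    have h1 : 4 * N = κ * (4 * N / κ) := by field_simp
    rw [h1]
    refine mul_le_mul_of_nonneg_left ?_ hκpos.le
    nlinarith
  obtain ⟨r, hr⟩ := exists_nat_gt (4 * b * (N * (L0 + 3)) / c + 1)
  have hr0 : 0 ≤ 4 * b * (N * (L0 + 3)) / c := by positivity
  have hr1 : (1:ℝ) < r := by linarith
  set m : ℕ := r ^ 2 with hm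
  have hmr : (m : ℝ) = (r:ℝ) ^ 2 := by rw [hm]; push_cast; ring
  set Λ : ℝ := r * L0 with hΛdef
  have hΛ : 0 < Λ := by positivity
  set η : ℝ := 1 / (m + 1) with hηdef
  have hη : 0 < η := by positivity
  have hSt : ∀ i, i ≤ m → St D μ N p Λ η c i := by
    intro i
    induction i with
    | zero => intro _; exact St_zero D μ N p hΛ
    | succ i ih =>
      intro hi
      refine St_succ D hb hNB N p hΛ hη hc hsup hκpos.le hκ i ?_ (ih (by omega))
      have h1 : (i:ℝ) ≤ m := by exact_mod_cast (by omega : i ≤ m)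
      calc (N:ℝ) * (i * 4) ≤ N * (m * 4) := by
            refine mul_le_mul_of_nonneg_left ?_ (Nat.cast_nonneg _)
            linarith
        _ = (r:ℝ) ^ 2 * (4 * N) := by rw [hmr]; ring
        _ ≤ (r:ℝ) ^ 2 * (κ * L0 ^ 2) := mul_le_mul_of_nonneg_left hL0b (by positivity)
        _ = κ * Λ ^ 2 := by rw [hΛdef]; ring
  obtain ⟨Ω, _, _, F, T, θ, n, q, C, hC, hFc, hTc, hFT, hTB, hTL, hFL, hT2, hθ1, hθp, hθq,
    hθc, hPhi⟩ := hSt m le_rfl
  have hcard : (0:ℝ) < Fintype.card Ω := by exact_mod_cast Fintype.card_pos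
  have hex : ∃ ω, (m:ℝ) * (c / 2) ≤ Phi μ (θ ω) (F ω) := by
    by_contra hcon
    push Not at hcon
    have h1 : ∑ ω, Phi μ (θ ω) (F ω) < ∑ ω : Ω, (m:ℝ) * (c / 2) :=
      Finset.sum_lt_sum_of_nonempty Finset.univ_nonempty fun ω _ => hcon ω
    rw [Finset.sum_const, Finset.card_univ, nsmul_eq_mul] at h1
    linarith
  obtain ⟨ω, hω⟩ := hex
  have hdir : ∀ k, k < N → ∀ (x : E) (t : ℝ), |F ω (x + t • D.e k) - F ω x| ≤
      (Λ + 3) * |t| := by
    intro k hk x t
    have h1 : ∀ u s : ℝ, |F ω (x + (u + s) • D.e k) - F ω (x + u • D.e k)| ≤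
        (Λ + 3) * |s| + C * s ^ 2 := by
      intro u s
      have h2 := hFT ω k hk (x + u • D.e k) s
      have h3 := hTB ω k hk (x + u • D.e k)
      rw [add_smul, ← add_assoc]
      have h4 : (m:ℝ) * η ≤ 1 := by
        rw [hηdef, mul_one_div, div_le_one (by positivity)]; linarith
      have h5 := abs_add_le (F ω (x + u • D.e k + s • D.e k) - F ω (x + u • D.e k) -
        s * T ω k (x + u • D.e k)) (s * T ω k (x + u • D.e k))
      rw [sub_add_cancel, abs_mul s] at h5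
      have h6 : |s| * |T ω k (x + u • D.e k)| ≤ |s| * (Λ + 2) :=
        mul_le_mul_of_nonneg_left h3 (abs_nonneg _)
      have h7 : (m:ℝ) * η * |s| ≤ 1 * |s| := mul_le_mul_of_nonneg_right h4 (abs_nonneg _)
      linarith
    have h2 := subdiv (F := fun u => F ω (x + u • D.e k)) h1 t
    simpa using h2
  have hLN : LipN D N (N * (Λ + 3)) (m * 3) (F ω) :=
    LipN_of_dir D (by positivity) hdir (hFL ω)
  have hfin := htail (θ ω) (hθ1 ω) (hθp ω) n (F ω) (N * (Λ + 3)) (m * 3) (hFc ω) (by positivity)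
    (by positivity) hLN
  have h1 : (m:ℝ) * (c / 4) ≤ b * (N * (Λ + 3)) := by linarith
  rw [hmr, hΛdef] at h1
  have hN0 : (0:ℝ) ≤ N := Nat.cast_nonneg _
  have h2 : b * (N * (r * L0 + 3)) ≤ b * (N * (r * (L0 + 3))) := by
    refine mul_le_mul_of_nonneg_left (mul_le_mul_of_nonneg_left ?_ hN0) hb
    nlinarith
  have h3 : (r:ℝ) * (r * (c / 4)) ≤ r * (b * (N * (L0 + 3))) := by nlinarith
  have h4 : (r:ℝ) * (c / 4) ≤ b * (N * (L0 + 3)) := le_of_mul_le_mul_left h3 (by linarith)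
  have h5 : 4 * b * (N * (L0 + 3)) / c < r := by linarith
  rw [div_lt_iff₀ hc] at h5
  linarith

end Pool.Agent.R276.G
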