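import Pool.Agent.R276.Gc

set_option autoImplicit false

namespace Pool.Agent.R276.G

open scoped BigOperators

/-- the space `ℓ₂` -/
abbrev X2 : Type := lp (fun _ : ℕ => ℝ) 2

/-- truncation to the first `n` coordinates -/
noncomputable def P2 (n : ℕ) : X2 →ₗ[ℝ] X2 where
  toFun x := ∑ i ∈ Finset.range n, lp.single 2 i (x i)
  map_add' x y := by
    rw [← Finset.sum_add_distrib]
    refine Finset.sum_congr rfl fun i _ => ?_
    rw [← lp.single_add]
    rfl
  map_smul' c x := by
    rw [Finset.smul_sum]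
    refine Finset.sum_congr rfl fun i _ => ?_
    rw [RingHom.id_apply, ← lp.single_smul]
    rfl

theorem P2_def (n : ℕ) (x : X2) : P2 n x = ∑ i ∈ Finset.range n, lp.single 2 i (x i) := rfl

theorem P2_apply (n : ℕ) (x : X2) (j : ℕ) : (P2 n x) j = if j < n then x j else 0 := by
  rw [P2_def, lp.coeFn_sum, Finset.sum_apply]
  simp only [lp.coeFn_single, Finset.sum_pi_single, Finset.mem_range]

theorem norm_P2 (n : ℕ) (x : X2) : ‖P2 n x‖ ^ 2 = ∑ i ∈ Finset.range n, |x i| ^ 2 := by
  have h := lp.norm_sum_single (p := 2) (E := fun _ : ℕ => ℝ) (by simp) (fun i => x i)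
    (Finset.range n)
  simpa [P2_def] using h

theorem split2 (n : ℕ) (x : X2) : ‖x‖ ^ 2 = ‖P2 n x‖ ^ 2 + ‖x - P2 n x‖ ^ 2 := by
  have h := lp.norm_sub_norm_compl_sub_single (p := 2) (E := fun _ : ℕ => ℝ) (by simp) x
    (Finset.range n)
  have h2 := norm_P2 n x
  simp only [ENNReal.toReal_ofNat, Real.rpow_ofNat, Real.norm_eq_abs] at h
  rw [← P2_def] at h
  linarith

theorem coord_le (n : ℕ) (x : X2) : |x n| ≤ ‖x‖ := by
  have := lp.norm_apply_le_norm (p := 2) (by simp) x n
  simpa using this

/-- the coordinate structure of `ℓ₂` -/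
noncomputable def D2 : DG X2 where
  P := P2
  c := fun n x => x n
  e := fun n => lp.single 2 n 1
  P_zero := fun x => by rw [P2_def]; simp
  P_succ := fun n x => by
    rw [P2_def, P2_def, Finset.sum_range_succ, ← lp.single_smul, smul_eq_mul, mul_one]
  norm_e := fun n => by rw [lp.norm_single (by simp)]; simp
  c_le := coord_le
  c_P := fun m n x h => by rw [P2_apply, if_pos h]
  P_low := fun m n x h => by
    ext j
    rw [P2_apply, P2_apply, P2_apply]
    split_ifs <;> first | rfl | omega
  P_high := fun m n x h => by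
    ext j
    rw [P2_apply, P2_apply]
    split_ifs <;> first | rfl | omega
  norm_P := fun n x => by
    have h := split2 n x
    have h2 : ‖P2 n x‖ ^ 2 ≤ ‖x‖ ^ 2 := by linarith [sq_nonneg ‖x - P2 n x‖]
    exact abs_le_of_sq_le_sq' h2 (norm_nonneg _) |>.2
  tend := fun x => (lp.hasSum_single (by simp) x).tendsto_sum_nat

theorem D2_split : Split2 D2 := split2

end Pool.Agent.R276.G
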