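import Mathlib

set_option autoImplicit false
set_option linter.unusedSectionVars false

/-!
Bounded sums of Banach spaces, complemented subspaces and the decomposition method.
-/

noncomputable section

open Filter Topology
open scoped ENNReal

namespace Pool.Agent.R276.LR

variable {𝕜 : Type*} [RCLike 𝕜]

section lpinf

variable {ι : Type*} {E : ι → Type*} [∀ i, NormedAddCommGroup (E i)] [∀ i, NormedSpace 𝕜 (E i)]
variable {X : Type*} [NormedAddCommGroup X] [NormedSpace 𝕜 X]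

theorem memInf (f : ∀ i, E i) (C : ℝ) (h : ∀ i, ‖f i‖ ≤ C) : Memℓp f ∞ :=
  memℓp_infty_iff.2 ⟨C, by rintro _ ⟨i, rfl⟩; exact h i⟩

theorem norm_coord_le (f : lp E ∞) (i : ι) : ‖f i‖ ≤ ‖f‖ :=
  lp.norm_apply_le_norm ENNReal.top_ne_zero f i

variable (𝕜) in
/-- coordinate operators -/
def coord (i : ι) : lp E ∞ →L[𝕜] E i :=
  LinearMap.mkContinuous
    { toFun := fun f => f i
      map_add' := fun _ _ => rfl
      map_smul' := fun _ _ => rfl } 1 (fun f => by rw [one_mul]; exact norm_coord_le f i)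

theorem coord_apply (i : ι) (f : lp E ∞) : coord 𝕜 i f = f i := rfl

theorem norm_coord (i : ι) : ‖(coord 𝕜 i : lp E ∞ →L[𝕜] E i)‖ ≤ 1 :=
  LinearMap.mkContinuous_norm_le _ zero_le_one _

/-- an operator into a bounded sum -/
def into (T : ∀ i, X →L[𝕜] E i) (C : ℝ) (h : ∀ i x, ‖T i x‖ ≤ C * ‖x‖) : X →L[𝕜] lp E ∞ :=
  LinearMap.mkContinuous
    { toFun := fun x => ⟨fun i => T i x, memInf _ (C * ‖x‖) (fun i => h i x)⟩
      map_add' := fun x y => by
        ext i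
        exact (T i).map_add x y
      map_smul' := fun c x => by
        ext i
        exact (T i).map_smul c x } (max C 0) (fun x => by
        refine lp.norm_le_of_forall_le (by positivity) fun i => ?_
        exact (h i x).trans (mul_le_mul_of_nonneg_right (le_max_left _ _) (norm_nonneg _)))

theorem into_apply (T : ∀ i, X →L[𝕜] E i) (C : ℝ) (h : ∀ i x, ‖T i x‖ ≤ C * ‖x‖) (x : X)
    (i : ι) : into T C h x i = T i x := rfl

end lpinf

variable (𝕜) in
/-- `X` is isomorphic to a complemented subspace of `Y` -/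
def Compl (X Y : Type*) [NormedAddCommGroup X] [NormedSpace 𝕜 X] [NormedAddCommGroup Y]
    [NormedSpace 𝕜 Y] : Prop :=
  ∃ (i : X →L[𝕜] Y) (q : Y →L[𝕜] X), ∀ x, q (i x) = x

section pel

variable {X : Type*} [NormedAddCommGroup X] [NormedSpace 𝕜 X]
variable {Y : Type*} [NormedAddCommGroup Y] [NormedSpace 𝕜 Y]

theorem bound_of_norm {Z : Type*} [NormedAddCommGroup Z] [NormedSpace 𝕜 Z] {ι : Type*}
    (T : ι → (X →L[𝕜] Z)) (C : ℝ) (h : ∀ i, ‖T i‖ ≤ C) : ∀ i x, ‖T i x‖ ≤ C * ‖x‖ := fun i x =>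
  ((T i).le_opNorm x).trans (mul_le_mul_of_nonneg_right (h i) (norm_nonneg _))

theorem absorb (φ : Y ≃L[𝕜] lp (fun _ : ℕ => Y) ∞) (h : Compl 𝕜 X Y) :
    Nonempty (Y ≃L[𝕜] (X × Y)) := by
  obtain ⟨i, q, hq⟩ := h
  let φ' : Y →L[𝕜] lp (fun _ : ℕ => Y) ∞ := φ
  let ψ' : lp (fun _ : ℕ => Y) ∞ →L[𝕜] Y := φ.symm
  let c : ℕ → (Y →L[𝕜] Y) := fun k => (coord 𝕜 k).comp φ'
  have hc : ∀ k, ‖c k‖ ≤ ‖φ'‖ := fun k => by
    refine (ContinuousLinearMap.opNorm_comp_le _ _).trans ?_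
    calc ‖(coord 𝕜 k : lp (fun _ : ℕ => Y) ∞ →L[𝕜] Y)‖ * ‖φ'‖ ≤ 1 * ‖φ'‖ :=
          mul_le_mul_of_nonneg_right (norm_coord k) (norm_nonneg _)
      _ = ‖φ'‖ := one_mul _
  let e : Y →L[𝕜] Y := i.comp q
  let T : ℕ → (Y →L[𝕜] Y) := fun k => e.comp (c (k + 1)) + (c k - e.comp (c k))
  have hT : ∀ k, ‖T k‖ ≤ ‖e‖ * ‖φ'‖ + (‖φ'‖ + ‖e‖ * ‖φ'‖) := fun k => by
    refine (norm_add_le _ _).trans (add_le_add ?_ ((norm_sub_le _ _).trans (add_le_add (hc k) ?_)))
    · exact (ContinuousLinearMap.opNorm_comp_le _ _).trans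
        (mul_le_mul_of_nonneg_left (hc _) (norm_nonneg _))
    · exact (ContinuousLinearMap.opNorm_comp_le _ _).trans
        (mul_le_mul_of_nonneg_left (hc _) (norm_nonneg _))
  let F : Y →L[𝕜] (X × Y) := (q.comp (c 0)).prod (ψ'.comp (into T _ (bound_of_norm T _ hT)))
  let p1 : (X × Y) →L[𝕜] X := ContinuousLinearMap.fst 𝕜 X Y
  let p2 : (X × Y) →L[𝕜] Y := ContinuousLinearMap.snd 𝕜 X Y
  let T' : ℕ → ((X × Y) →L[𝕜] Y) := fun k => Nat.rec
    (i.comp p1 + ((c 0).comp p2 - e.comp ((c 0).comp p2)))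
    (fun k _ => e.comp ((c k).comp p2) + ((c (k + 1)).comp p2 - e.comp ((c (k + 1)).comp p2))) k
  have hcp : ∀ k, ‖(c k).comp p2‖ ≤ ‖φ'‖ * ‖p2‖ := fun k =>
    (ContinuousLinearMap.opNorm_comp_le _ _).trans
      (mul_le_mul_of_nonneg_right (hc k) (norm_nonneg _))
  have hecp : ∀ k, ‖e.comp ((c k).comp p2)‖ ≤ ‖e‖ * (‖φ'‖ * ‖p2‖) := fun k =>
    (ContinuousLinearMap.opNorm_comp_le _ _).trans
      (mul_le_mul_of_nonneg_left (hcp k) (norm_nonneg _))
  have hT' : ∀ k, ‖T' k‖ ≤ (‖i.comp p1‖ + ‖e‖ * (‖φ'‖ * ‖p2‖)) +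
      (‖φ'‖ * ‖p2‖ + ‖e‖ * (‖φ'‖ * ‖p2‖)) := by
    intro k
    have h0 : 0 ≤ ‖i.comp p1‖ := norm_nonneg _
    have h1 : 0 ≤ ‖e‖ * (‖φ'‖ * ‖p2‖) := by positivity
    cases k with
    | zero =>
      refine (norm_add_le _ _).trans (add_le_add ?_ ((norm_sub_le _ _).trans
        (add_le_add (hcp 0) (hecp 0))))
      linarith
    | succ k =>
      refine (norm_add_le _ _).trans (add_le_add ?_ ((norm_sub_le _ _).trans
        (add_le_add (hcp _) (hecp _))))
      have := hecp k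
      linarith
  let G : (X × Y) →L[𝕜] Y := ψ'.comp (into T' _ (bound_of_norm T' _ hT'))
  have hφψ : ∀ z, φ' (ψ' z) = z := fun z => φ.apply_symm_apply z
  have hψφ : ∀ z, ψ' (φ' z) = z := fun z => φ.symm_apply_apply z
  have he : ∀ y, e (e y) = e y := fun y => by
    show i (q (i (q y))) = i (q y)
    rw [hq]
  have hei : ∀ x, e (i x) = i x := fun x => by
    show i (q (i x)) = i x
    rw [hq]
  have hqe : ∀ y, q (e y) = q y := fun y => hq _
  -- the coordinates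
  have cF : ∀ y k, c k (F y).2 = e (c (k + 1) y) + (c k y - e (c k y)) := by
    intro y k
    show φ' (ψ' (into T _ (bound_of_norm T _ hT) y)) k = _
    rw [hφψ]
    rfl
  have cG0 : ∀ z : X × Y, c 0 (G z) = i z.1 + (c 0 z.2 - e (c 0 z.2)) := by
    intro z
    show φ' (ψ' (into T' _ (bound_of_norm T' _ hT') z)) 0 = _
    rw [hφψ]
    rfl
  have cGs : ∀ (z : X × Y) k, c (k + 1) (G z) =
      e (c k z.2) + (c (k + 1) z.2 - e (c (k + 1) z.2)) := by
    intro z k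
    show φ' (ψ' (into T' _ (bound_of_norm T' _ hT') z)) (k + 1) = _
    rw [hφψ]
    rfl
  have extc : ∀ y y' : Y, (∀ k, c k y = c k y') → y = y' := by
    intro y y' h
    rw [← hψφ y, ← hψφ y']
    congr 1
    ext k
    exact h k
  refine ⟨ContinuousLinearEquiv.equivOfInverse F G ?_ ?_⟩
  · intro y
    refine extc _ _ fun k => ?_
    cases k with
    | zero =>
      rw [cG0, cF]
      show i (q (c 0 y)) + _ = _
      have : i (q (c 0 y)) = e (c 0 y) := rfl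
      rw [this, map_add, map_sub, he, he]
      abel
    | succ k =>
      rw [cGs, cF, cF]
      simp only [map_add, map_sub, he, hei]
      abel
  · intro z
    refine Prod.ext ?_ (extc _ _ fun k => ?_)
    · show q (c 0 (G z)) = z.1
      rw [cG0, map_add, map_sub, hq, hqe]
      abel
    · rw [cF]
      cases k with
      | zero =>
        rw [cGs, cG0, map_add, map_add, map_sub, map_sub, he, hei, he]
        abel
      | succ k =>
        rw [cGs, cGs]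
        simp only [map_add, map_sub, he, hei]
        abel

/-- the decomposition method -/
theorem pelczynski (φ : Y ≃L[𝕜] lp (fun _ : ℕ => Y) ∞) (h1 : Compl 𝕜 X Y) (h2 : Compl 𝕜 Y X) :
    Nonempty (X ≃L[𝕜] Y) := by
  obtain ⟨i, q, hq⟩ := h2
  obtain ⟨e1⟩ := absorb φ h1
  have hYY : Compl 𝕜 Y Y := ⟨ContinuousLinearMap.id 𝕜 Y, ContinuousLinearMap.id 𝕜 Y, fun x => rfl⟩
  obtain ⟨e2⟩ := absorb φ hYY
  -- `X ≃ Y × V`
  let V := LinearMap.ker (q : X →ₗ[𝕜] Y)
  let e3 : X ≃L[𝕜] (Y × V) := ContinuousLinearEquiv.equivOfRightInverse q i hq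
  -- `X ≃ Y × V ≃ (Y × Y) × V ≃ Y × (Y × V) ≃ Y × X ≃ X × Y ≃ Y`
  exact ⟨e3.trans ((e2.prodCongr (ContinuousLinearEquiv.refl 𝕜 V)).trans
    ((ContinuousLinearEquiv.prodAssoc 𝕜 Y Y V).trans
      (((ContinuousLinearEquiv.refl 𝕜 Y).prodCongr e3.symm).trans
        ((ContinuousLinearEquiv.prodComm 𝕜 Y X).trans e1.symm))))⟩

end pel

end Pool.Agent.R276.LR
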