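import Pool.Agent.R276.LRa

set_option autoImplicit false
set_option linter.unusedSectionVars false

/-!
The bounded sum `W` of all `ℓ_p^{2^m}`, each repeated infinitely often.
-/

noncomputable section

open Filter Topology
open scoped ENNReal

namespace Pool.Agent.R276.LR

variable (𝕜 : Type*) [RCLike 𝕜] (p : ℝ≥0∞)

/-- the space `ℓ_p^n` -/
def El (n : ℕ) : Type _ := PiLp p (fun _ : Fin n => 𝕜)

variable [Fact (1 ≤ p)]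

instance (n : ℕ) : NormedAddCommGroup (El 𝕜 p n) :=
  inferInstanceAs (NormedAddCommGroup (PiLp p (fun _ : Fin n => 𝕜)))

instance (n : ℕ) : NormedSpace 𝕜 (El 𝕜 p n) :=
  inferInstanceAs (NormedSpace 𝕜 (PiLp p (fun _ : Fin n => 𝕜)))

/-- all the spaces `ℓ_p^{2^m}`, each repeated infinitely often -/
abbrev Wsp : Type _ := lp (fun z : ℕ × ℕ => El 𝕜 p (2 ^ z.2)) ∞

/-- the bounded sum of the spaces `ℓ_p^n`, `n ≥ 1` -/
abbrev Bsp : Type _ := lp (fun n : ℕ => El 𝕜 p (n + 1)) ∞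

variable {𝕜 p}

/-- coordinates -/
def El.co {n : ℕ} (v : El 𝕜 p n) (j : Fin n) : 𝕜 := (WithLp.ofLp v : Fin n → 𝕜) j

/-- vector with given coordinates -/
def El.mk {n : ℕ} (f : Fin n → 𝕜) : El 𝕜 p n := (WithLp.toLp p f : PiLp p (fun _ : Fin n => 𝕜))

theorem El.ext {n : ℕ} {v w : El 𝕜 p n} (h : ∀ j, v.co j = w.co j) : v = w := by
  have : (WithLp.ofLp v : Fin n → 𝕜) = WithLp.ofLp w := funext h
  exact WithLp.ofLp_injective p this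

theorem El.co_mk {n : ℕ} (f : Fin n → 𝕜) (j : Fin n) : (El.mk f : El 𝕜 p n).co j = f j := rfl

theorem El.co_add {n : ℕ} (v w : El 𝕜 p n) (j : Fin n) : (v + w).co j = v.co j + w.co j := rfl

theorem El.co_smul {n : ℕ} (c : 𝕜) (v : El 𝕜 p n) (j : Fin n) : (c • v).co j = c * v.co j := rfl

/-- extension by zero -/
def ext0 {a : ℕ} (v : El 𝕜 p a) (j : ℕ) : 𝕜 := if h : j < a then v.co ⟨j, h⟩ else 0

theorem ext0_of_le {a : ℕ} (v : El 𝕜 p a) {j : ℕ} (h : a ≤ j) : ext0 v j = 0 := by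
  rw [ext0, dif_neg (not_lt.2 h)]

theorem ext0_fin {a : ℕ} (v : El 𝕜 p a) (j : Fin a) : ext0 v j = v.co j := by
  rw [ext0, dif_pos j.2]

theorem toReal_pos (hp : p ≠ ∞) : 0 < p.toReal :=
  ENNReal.toReal_pos (ne_of_gt (lt_of_lt_of_le zero_lt_one Fact.out)) hp

theorem norm_rpow (hp : p ≠ ∞) {a : ℕ} (v : El 𝕜 p a) :
    ‖v‖ ^ p.toReal = ∑ j, ‖v.co j‖ ^ p.toReal := by
  have h : ‖v‖ = (∑ j, ‖v.co j‖ ^ p.toReal) ^ (1 / p.toReal) :=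
    PiLp.norm_eq_sum (β := fun _ : Fin a => 𝕜) (toReal_pos hp) v
  rw [h, ← Real.rpow_mul (Finset.sum_nonneg fun i _ =>
    Real.rpow_nonneg (norm_nonneg _) _), one_div, inv_mul_cancel₀ (toReal_pos hp).ne',
    Real.rpow_one]

theorem norm_rpow_ext0 (hp : p ≠ ∞) {a : ℕ} (v : El 𝕜 p a) :
    ‖v‖ ^ p.toReal = ∑ j ∈ Finset.range a, ‖ext0 v j‖ ^ p.toReal := by
  rw [norm_rpow hp, ← Fin.sum_univ_eq_sum_range (fun j => ‖ext0 v j‖ ^ p.toReal)]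
  refine Finset.sum_congr rfl fun j _ => ?_
  rw [ext0_fin]

/-- truncation, or extension by zero -/
def trl (a b : ℕ) : El 𝕜 p a →ₗ[𝕜] El 𝕜 p b where
  toFun v := El.mk (fun j : Fin b => ext0 v j)
  map_add' v w := by
    refine El.ext fun j => ?_
    show ext0 (v + w) j = ext0 v j + ext0 w j
    unfold ext0
    split_ifs
    · exact El.co_add _ _ _
    · rw [add_zero]
  map_smul' c v := by
    refine El.ext fun j => ?_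
    show ext0 (c • v) j = c * ext0 v j
    unfold ext0
    split_ifs
    · exact El.co_smul _ _ _
    · rw [mul_zero]

theorem trl_apply (a b : ℕ) (v : El 𝕜 p a) (j : Fin b) : (trl a b v).co j = ext0 v j := rfl

theorem trl_norm (hp : p ≠ ∞) (a b : ℕ) (v : El 𝕜 p a) : ‖trl a b v‖ ≤ ‖v‖ := by
  have hp0 := toReal_pos (p := p) hp
  rw [← Real.rpow_le_rpow_iff (norm_nonneg _) (norm_nonneg _) hp0, norm_rpow hp,
    norm_rpow_ext0 hp v]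
  have h1 : ∑ j, ‖(trl a b v).co j‖ ^ p.toReal = ∑ j ∈ Finset.range b, ‖ext0 v j‖ ^ p.toReal := by
    rw [← Fin.sum_univ_eq_sum_range (fun j => ‖ext0 v j‖ ^ p.toReal)]
    rfl
  rw [h1]
  rcases le_total a b with h | h
  · refine le_of_eq (Finset.sum_subset (Finset.range_subset_range.2 h) fun j _ hj => ?_).symm
    rw [ext0_of_le v (not_lt.1 (fun h' => hj (Finset.mem_range.2 h'))), norm_zero,
      Real.zero_rpow hp0.ne']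
  · exact Finset.sum_le_sum_of_subset_of_nonneg (Finset.range_subset_range.2 h)
      fun j _ _ => Real.rpow_nonneg (norm_nonneg _) _

theorem trl_trl (a b : ℕ) (h : a ≤ b) (v : El 𝕜 p a) : trl b a (trl a b v) = v := by
  refine El.ext fun j => ?_
  rw [trl_apply, ext0, dif_pos (lt_of_lt_of_le j.2 h), trl_apply, ext0_fin]

/-- truncation, or extension by zero -/
def tr (hp : p ≠ ∞) (a b : ℕ) : El 𝕜 p a →L[𝕜] El 𝕜 p b :=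
  (trl a b).mkContinuous 1 (fun v => by rw [one_mul]; exact trl_norm hp a b v)

theorem tr_norm (hp : p ≠ ∞) (a b : ℕ) : ‖(tr hp a b : El 𝕜 p a →L[𝕜] El 𝕜 p b)‖ ≤ 1 :=
  LinearMap.mkContinuous_norm_le _ zero_le_one _

theorem tr_tr (hp : p ≠ ∞) (a b : ℕ) (h : a ≤ b) (v : El 𝕜 p a) :
    tr hp b a (tr hp a b v) = v := trl_trl a b h v

theorem comp_le_one {X Y Z : Type*} [NormedAddCommGroup X] [NormedSpace 𝕜 X]
    [NormedAddCommGroup Y] [NormedSpace 𝕜 Y] [NormedAddCommGroup Z] [NormedSpace 𝕜 Z]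
    (S : Y →L[𝕜] Z) (T : X →L[𝕜] Y) (hS : ‖S‖ ≤ 1) (hT : ‖T‖ ≤ 1) (x : X) :
    ‖(S.comp T) x‖ ≤ 1 * ‖x‖ := by
  refine ((S.comp T).le_opNorm x).trans (mul_le_mul_of_nonneg_right ?_ (norm_nonneg _))
  refine (ContinuousLinearMap.opNorm_comp_le _ _).trans ?_
  calc ‖S‖ * ‖T‖ ≤ 1 * 1 := mul_le_mul hS hT (norm_nonneg _) zero_le_one
    _ = 1 := one_mul 1

theorem coord_bound {ι : Type*} {E : ι → Type*} [∀ i, NormedAddCommGroup (E i)]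
    [∀ i, NormedSpace 𝕜 (E i)] (i : ι) (x : lp E ∞) : ‖coord 𝕜 i x‖ ≤ 1 * ‖x‖ := by
  rw [one_mul]
  exact norm_coord_le x i

variable (𝕜 p) in
/-- coordinates on `B` -/
def bco (n : ℕ) : Bsp 𝕜 p →L[𝕜] El 𝕜 p (n + 1) := coord 𝕜 (E := fun n : ℕ => El 𝕜 p (n + 1)) n

variable (𝕜 p) in
/-- coordinates on `W` -/
def wco (z : ℕ × ℕ) : Wsp 𝕜 p →L[𝕜] El 𝕜 p (2 ^ z.2) :=
  coord 𝕜 (E := fun z : ℕ × ℕ => El 𝕜 p (2 ^ z.2)) z

theorem bco_norm (n : ℕ) : ‖bco 𝕜 p n‖ ≤ 1 := norm_coord _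

theorem wco_norm (z : ℕ × ℕ) : ‖wco 𝕜 p z‖ ≤ 1 := norm_coord _

/-- operators into `B` -/
def intoB {X : Type*} [NormedAddCommGroup X] [NormedSpace 𝕜 X]
    (T : ∀ n : ℕ, X →L[𝕜] El 𝕜 p (n + 1)) (C : ℝ) (h : ∀ i x, ‖T i x‖ ≤ C * ‖x‖) :
    X →L[𝕜] Bsp 𝕜 p := into (E := fun n : ℕ => El 𝕜 p (n + 1)) T C h

/-- operators into `W` -/
def intoW {X : Type*} [NormedAddCommGroup X] [NormedSpace 𝕜 X]
    (T : ∀ z : ℕ × ℕ, X →L[𝕜] El 𝕜 p (2 ^ z.2)) (C : ℝ) (h : ∀ i x, ‖T i x‖ ≤ C * ‖x‖) :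
    X →L[𝕜] Wsp 𝕜 p := into (E := fun z : ℕ × ℕ => El 𝕜 p (2 ^ z.2)) T C h

/-- from `B` to `ℓ_p^n` -/
def bW (hp : p ≠ ∞) (k n : ℕ) : Bsp 𝕜 p →L[𝕜] El 𝕜 p n := (tr hp (k + 1) n).comp (bco 𝕜 p k)

/-- from `W` to `ℓ_p^n` -/
def wB (hp : p ≠ ∞) (z : ℕ × ℕ) (n : ℕ) : Wsp 𝕜 p →L[𝕜] El 𝕜 p n :=
  (tr hp (2 ^ z.2) n).comp (wco 𝕜 p z)

theorem bW_bound (hp : p ≠ ∞) (k n : ℕ) (x : Bsp 𝕜 p) : ‖bW hp k n x‖ ≤ 1 * ‖x‖ :=
  comp_le_one (tr hp (k + 1) n) (bco 𝕜 p k) (tr_norm hp _ _) (bco_norm _) x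

theorem wB_bound (hp : p ≠ ∞) (z : ℕ × ℕ) (n : ℕ) (x : Wsp 𝕜 p) : ‖wB hp z n x‖ ≤ 1 * ‖x‖ :=
  comp_le_one (tr hp (2 ^ z.2) n) (wco 𝕜 p z) (tr_norm hp _ _) (wco_norm _) x

/-- `B` is complemented in `W` -/
theorem B_compl_W (hp : p ≠ ∞) : Compl 𝕜 (Bsp 𝕜 p) (Wsp 𝕜 p) := by
  refine ⟨intoW (fun z => bW hp z.2 (2 ^ z.2)) 1 (fun z x => bW_bound hp _ _ x),
    intoB (fun n => wB hp (0, n) (n + 1)) 1 (fun n x => wB_bound hp _ _ x), fun b => ?_⟩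
  refine lp.ext (funext fun n => ?_)
  exact tr_tr hp (n + 1) (2 ^ n) Nat.lt_two_pow_self (b n)

theorem aux_dep (hp : p ≠ ∞) (w : Wsp 𝕜 p) (z z' : ℕ × ℕ) (h : z' = z) (N : ℕ)
    (hN : 2 ^ z.2 ≤ N) :
    tr hp N (2 ^ z.2) (tr hp (2 ^ z'.2) N (w z')) = w z := by
  subst h
  exact tr_tr hp _ _ hN _

/-- decoding -/
def dec (N : ℕ) : ℕ × ℕ := ((Nat.unpair N).1, Nat.log 2 (Nat.unpair N).2)

theorem dec_pair (z : ℕ × ℕ) : dec (Nat.pair z.1 (2 ^ z.2)) = z := by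
  unfold dec
  rw [Nat.unpair_pair]
  show (z.1, Nat.log 2 (2 ^ z.2)) = z
  rw [Nat.log_pow one_lt_two]

/-- `W` is complemented in `B` -/
theorem W_compl_B (hp : p ≠ ∞) : Compl 𝕜 (Wsp 𝕜 p) (Bsp 𝕜 p) := by
  refine ⟨intoB (fun N => wB hp (dec N) (N + 1)) 1 (fun z x => wB_bound hp _ _ x),
    intoW (fun z => bW hp (Nat.pair z.1 (2 ^ z.2)) (2 ^ z.2)) 1
      (fun z x => bW_bound hp _ _ x), fun w => ?_⟩
  refine lp.ext (funext fun z => ?_)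
  exact aux_dep hp w z _ (dec_pair z) _ ((Nat.right_le_pair _ _).trans (Nat.le_succ _))

/-- `W ≃ ℓ_∞(W)`, forwards -/
def wf : Wsp 𝕜 p →L[𝕜] lp (fun _ : ℕ => Wsp 𝕜 p) ∞ :=
  into (E := fun _ : ℕ => Wsp 𝕜 p)
    (fun k => intoW (fun z : ℕ × ℕ => wco 𝕜 p (Nat.pair k z.1, z.2)) 1
      (fun z x => coord_bound _ x)) 1 (fun k x => by
        rw [one_mul]
        exact lp.norm_le_of_forall_le (norm_nonneg _) fun z => norm_coord_le x _)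

/-- `W ≃ ℓ_∞(W)`, backwards -/
def wb : lp (fun _ : ℕ => Wsp 𝕜 p) ∞ →L[𝕜] Wsp 𝕜 p :=
  intoW (fun z : ℕ × ℕ => (wco 𝕜 p ((Nat.unpair z.1).2, z.2)).comp
      (coord 𝕜 (E := fun _ : ℕ => Wsp 𝕜 p) (Nat.unpair z.1).1)) 1
      (fun z x => comp_le_one (wco 𝕜 p ((Nat.unpair z.1).2, z.2))
        (coord 𝕜 (E := fun _ : ℕ => Wsp 𝕜 p) (Nat.unpair z.1).1) (wco_norm _) (norm_coord _) x)

theorem wb_wf (w : Wsp 𝕜 p) : wb (wf w) = w := by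
  refine lp.ext (funext fun z => ?_)
  have h : ∀ a : ℕ, a = z.1 → w ((a, z.2) : ℕ × ℕ) = w ((z.1, z.2) : ℕ × ℕ) := by
    intro a h1
    rw [h1]
  exact h (Nat.pair (Nat.unpair z.1).1 (Nat.unpair z.1).2) (Nat.pair_unpair _)

theorem wf_wb (v : lp (fun _ : ℕ => Wsp 𝕜 p) ∞) : wf (wb v) = v := by
  refine lp.ext (funext fun k => ?_)
  refine lp.ext (funext fun z => ?_)
  have h : ∀ (k' a' : ℕ), k' = k → a' = z.1 →
      (v k') ((a', z.2) : ℕ × ℕ) = (v k) ((z.1, z.2) : ℕ × ℕ) := by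
    intro k' a' h1 h2
    subst h1 h2
    rfl
  refine h (Nat.unpair (Nat.pair k z.1)).1 (Nat.unpair (Nat.pair k z.1)).2 ?_ ?_
  · rw [Nat.unpair_pair]
  · rw [Nat.unpair_pair]

/-- `W ≃ ℓ_∞(W)` -/
def Wself : Wsp 𝕜 p ≃L[𝕜] lp (fun _ : ℕ => Wsp 𝕜 p) ∞ :=
  ContinuousLinearEquiv.equivOfInverse wf wb wb_wf wf_wb

/-- `W ≃ B` -/
theorem W_equiv_B (hp : p ≠ ∞) : Nonempty (Bsp 𝕜 p ≃L[𝕜] Wsp 𝕜 p) :=
  pelczynski Wself (B_compl_W hp) (W_compl_B hp)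

end Pool.Agent.R276.LR
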