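import Pool.Agent.R276.LRb

set_option autoImplicit false
set_option linter.unusedSectionVars false

/-!
Dyadic intervals, averages.
-/

noncomputable section

open Filter Topology MeasureTheory
open scoped ENNReal

namespace Pool.Agent.R276.LR

/-- Lebesgue measure on the unit interval -/
def mu : Measure ℝ := volume.restrict (Set.Icc (0 : ℝ) 1)

instance : IsProbabilityMeasure mu := ⟨by simp [mu]⟩

/-- index of the dyadic interval containing a point -/
def kap (m : ℕ) (t : ℝ) : ℕ := ⌊(2 : ℝ) ^ m * t⌋₊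

theorem kap_meas (m : ℕ) : Measurable (kap m) :=
  Nat.measurable_floor.comp (measurable_const.mul measurable_id)

/-- dyadic interval -/
def S (m k : ℕ) : Set ℝ := kap m ⁻¹' {k}

theorem S_meas (m k : ℕ) : MeasurableSet (S m k) := kap_meas m (measurableSet_singleton k)

theorem kap_half (m : ℕ) (t : ℝ) : kap m t = kap (m + 1) t / 2 := by
  unfold kap
  have h := Nat.floor_div_natCast ((2 : ℝ) ^ (m + 1) * t) 2
  rw [← h]
  congr 1
  rw [pow_succ]
  push_cast
  ring

theorem mem_S {m k : ℕ} {t : ℝ} (ht : 0 ≤ t) :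
    t ∈ S m k ↔ (k : ℝ) / 2 ^ m ≤ t ∧ t < ((k : ℝ) + 1) / 2 ^ m := by
  have h2 : (0 : ℝ) < 2 ^ m := by positivity
  show ⌊(2 : ℝ) ^ m * t⌋₊ = k ↔ _
  rw [Nat.floor_eq_iff (by positivity), div_le_iff₀ h2, lt_div_iff₀ h2, mul_comm t]

theorem mu_S (m k : ℕ) (hk : k < 2 ^ m) : mu (S m k) = ENNReal.ofReal ((2 ^ m : ℝ)⁻¹) := by
  have h2 : (0 : ℝ) < 2 ^ m := by positivity
  have h1 : S m k ∩ Set.Icc 0 1 = Set.Ico ((k : ℝ) / 2 ^ m) (((k : ℝ) + 1) / 2 ^ m) := by
    ext t
    constructor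
    · rintro ⟨h, h0, h1⟩
      exact (mem_S h0).1 h
    · rintro ⟨h0, h1⟩
      have ht : 0 ≤ t := le_trans (by positivity) h0
      refine ⟨(mem_S ht).2 ⟨h0, h1⟩, ht, h1.le.trans ?_⟩
      rw [div_le_one h2]
      exact_mod_cast hk
  rw [mu, Measure.restrict_apply (S_meas m k), h1, Real.volume_Ico]
  congr 1
  field_simp
  ring

theorem mu_real_S (m k : ℕ) (hk : k < 2 ^ m) : mu.real (S m k) = (2 ^ m : ℝ)⁻¹ := by
  rw [measureReal_def, mu_S m k hk, ENNReal.toReal_ofReal (by positivity)]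

theorem kap_lt (m : ℕ) : ∀ᵐ t ∂mu, kap m t < 2 ^ m := by
  have h2 : (0 : ℝ) < 2 ^ m := by positivity
  have h1 : ∀ᵐ t : ℝ ∂volume, t ≠ 1 := by
    simp [ae_iff]
  have h3 : ∀ᵐ t : ℝ ∂mu, t ≠ 1 := ae_restrict_of_ae h1
  have h4 : ∀ᵐ t : ℝ ∂mu, t ∈ Set.Icc (0 : ℝ) 1 := ae_restrict_mem measurableSet_Icc
  filter_upwards [h3, h4] with t h5 h6
  have h7 : t < 1 := lt_of_le_of_ne h6.2 h5
  unfold kap
  rw [Nat.floor_lt (mul_nonneg h2.le h6.1)]
  push_cast
  nlinarith

theorem mu_S_zero (m k : ℕ) (hk : 2 ^ m ≤ k) : mu (S m k) = 0 := by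
  rw [← nonpos_iff_eq_zero]
  refine (measure_mono (fun t ht => ?_)).trans (le_of_eq (ae_iff.1 (kap_lt m)))
  show ¬ kap m t < 2 ^ m
  have : kap m t = k := ht
  omega

variable {E : Type*} [NormedAddCommGroup E] [NormedSpace ℝ E]

theorem decomp (m : ℕ) (f : ℝ → E) :
    (∀ᵐ t ∂mu, f t = ∑ k ∈ Finset.range (2 ^ m), (S m k).indicator f t) := by
  filter_upwards [kap_lt m] with t ht
  rw [Finset.sum_eq_single (kap m t)]
  · rw [Set.indicator_of_mem]
    exact rfl
  · intro k _ hk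
    rw [Set.indicator_of_notMem]
    intro h
    exact hk (Eq.symm h)
  · intro h
    exact absurd (Finset.mem_range.2 ht) h

theorem setint_const [CompleteSpace E] (m k : ℕ) (hk : k < 2 ^ m) (s : ℕ → E) :
    ∫ t in S m k, s (kap m t) ∂mu = (2 ^ m : ℝ)⁻¹ • s k := by
  have h : ∀ᵐ t ∂(mu.restrict (S m k)), s (kap m t) = s k := by
    filter_upwards [ae_restrict_mem (S_meas m k)] with t ht
    have : kap m t = k := ht
    rw [this]
  rw [integral_congr_ae h, integral_const, measureReal_restrict_apply MeasurableSet.univ,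
    Set.univ_inter, mu_real_S m k hk]

theorem sm_kap (m : ℕ) (s : ℕ → E) : StronglyMeasurable (fun t => s (kap m t)) :=
  (StronglyMeasurable.of_discrete (f := s)).comp_measurable (kap_meas m)

theorem bdd_kap (m : ℕ) (s : ℕ → E) :
    ∀ᵐ t ∂mu, ‖s (kap m t)‖ ≤ ∑ k ∈ Finset.range (2 ^ m), ‖s k‖ := by
  filter_upwards [kap_lt m] with t ht
  exact Finset.single_le_sum (f := fun k => ‖s k‖) (fun _ _ => norm_nonneg _)
    (Finset.mem_range.2 ht)

theorem int_kap (m : ℕ) (s : ℕ → E) : Integrable (fun t => s (kap m t)) mu :=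
  Integrable.of_bound (sm_kap m s).aestronglyMeasurable _ (bdd_kap m s)

theorem integral_split (m : ℕ) (f : ℝ → E) (hf : Integrable f mu) :
    ∫ t, f t ∂mu = ∑ k ∈ Finset.range (2 ^ m), ∫ t in S m k, f t ∂mu := by
  rw [integral_congr_ae (decomp m f), integral_finsetSum _ (fun k _ => hf.indicator (S_meas m k))]
  refine Finset.sum_congr rfl fun k _ => ?_
  rw [integral_indicator (S_meas m k)]

theorem integral_kap [CompleteSpace E] (m : ℕ) (s : ℕ → E) :
    ∫ t, s (kap m t) ∂mu = (2 ^ m : ℝ)⁻¹ • ∑ k ∈ Finset.range (2 ^ m), s k := by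
  rw [integral_split m _ (int_kap m s), Finset.smul_sum]
  exact Finset.sum_congr rfl fun k hk => setint_const m k (Finset.mem_range.1 hk) s

/-- average over a dyadic interval -/
def av (m k : ℕ) (f : ℝ → E) : E := (mu.real (S m k))⁻¹ • ∫ t in S m k, f t ∂mu

theorem av_zero_of_le (m k : ℕ) (hk : 2 ^ m ≤ k) (f : ℝ → E) : av m k f = 0 := by
  rw [av, measureReal_def, mu_S_zero m k hk]
  simp

theorem av_eq (m k : ℕ) (hk : k < 2 ^ m) (f : ℝ → E) :
    av m k f = (2 ^ m : ℝ) • ∫ t in S m k, f t ∂mu := by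
  rw [av, mu_real_S m k hk, inv_inv]

theorem setint_eq (m k : ℕ) (hk : k < 2 ^ m) (f : ℝ → E) :
    ∫ t in S m k, f t ∂mu = (2 ^ m : ℝ)⁻¹ • av m k f := by
  rw [av_eq m k hk, smul_smul, inv_mul_cancel₀ (by positivity), one_smul]

theorem av_congr (m k : ℕ) {f g : ℝ → E} (h : ∀ᵐ t ∂mu, f t = g t) : av m k f = av m k g := by
  rw [av, av, integral_congr_ae (ae_restrict_of_ae h)]

theorem av_add (m k : ℕ) {f g : ℝ → E} (hf : Integrable f mu) (hg : Integrable g mu) :
    av m k (fun t => f t + g t) = av m k f + av m k g := by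
  rw [av, av, av, integral_add hf.integrableOn hg.integrableOn, smul_add]

theorem S_split (m k : ℕ) : S m k = S (m + 1) (2 * k) ∪ S (m + 1) (2 * k + 1) := by
  ext t
  show kap m t = k ↔ (kap (m + 1) t = 2 * k ∨ kap (m + 1) t = 2 * k + 1)
  rw [kap_half]
  omega

theorem S_disj (m : ℕ) {k l : ℕ} (h : k ≠ l) : Disjoint (S m k) (S m l) := by
  rw [Set.disjoint_left]
  intro t h1 h2
  exact h ((Eq.symm h1).trans h2)

theorem av_half (m k : ℕ) (f : ℝ → E) (hf : Integrable f mu) :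
    av m k f = (2 : ℝ)⁻¹ • (av (m + 1) (2 * k) f + av (m + 1) (2 * k + 1) f) := by
  by_cases hk : k < 2 ^ m
  · have h1 : 2 * k < 2 ^ (m + 1) := by rw [pow_succ]; omega
    have h2 : 2 * k + 1 < 2 ^ (m + 1) := by rw [pow_succ]; omega
    rw [av_eq m k hk, av_eq _ _ h1, av_eq _ _ h2, S_split m k,
      setIntegral_union (S_disj _ (by omega)) (S_meas _ _) hf.integrableOn hf.integrableOn,
      ← smul_add, smul_smul]
    congr 1
    rw [pow_succ]
    field_simp
  · rw [av_zero_of_le m k (not_lt.1 hk), av_zero_of_le _ _ (by rw [pow_succ]; omega),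
      av_zero_of_le _ _ (by rw [pow_succ]; omega), add_zero, smul_zero]

theorem norm_av_le' (m k : ℕ) (f : ℝ → E) (C : ℝ) (hC : 0 ≤ C)
    (h : ∀ᵐ t ∂mu, t ∈ S m k → ‖f t‖ ≤ C) : ‖av m k f‖ ≤ C := by
  rw [av, norm_smul, norm_inv, Real.norm_of_nonneg measureReal_nonneg]
  have h1 : ‖∫ t in S m k, f t ∂mu‖ ≤ C * mu.real (S m k) :=
    norm_setIntegral_le_of_norm_le_const_ae' (measure_lt_top _ _) h
  rcases eq_or_lt_of_le (measureReal_nonneg (μ := mu) (s := S m k)) with h0 | h0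
  · rw [← h0]
    simpa using hC
  · rw [inv_mul_le_iff₀ h0, mul_comm]
    exact h1

theorem norm_av_le (m k : ℕ) (f : ℝ → E) (C : ℝ) (hC : 0 ≤ C) (h : ∀ᵐ t ∂mu, ‖f t‖ ≤ C) :
    ‖av m k f‖ ≤ C :=
  norm_av_le' m k f C hC (by filter_upwards [h] with t ht _ using ht)

theorem av_kap [CompleteSpace E] (m k : ℕ) (hk : k < 2 ^ m) (s : ℕ → E) :
    av m k (fun t => s (kap m t)) = s k := by
  rw [av_eq m k hk, setint_const m k hk, smul_smul, mul_inv_cancel₀ (by positivity), one_smul]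

theorem av_clm {F : Type*} [NormedAddCommGroup F] [NormedSpace ℝ F] [CompleteSpace E]
    [CompleteSpace F] (m k : ℕ) (f : ℝ → E)
    (hf : Integrable f mu) (T : E →L[ℝ] F) : av m k (fun t => T (f t)) = T (av m k f) := by
  rw [av, av, ContinuousLinearMap.integral_comp_comm T hf.integrableOn, map_smul]

/-- Jensen -/
theorem av_rpow_le (m k : ℕ) (f : ℝ → E) (q : ℝ) (hq : 1 ≤ q) (hf : Integrable f mu)
    (hf' : Integrable (fun t => ‖f t‖ ^ q) mu) :
    ‖av m k f‖ ^ q ≤ av m k (fun t => ‖f t‖ ^ q) := by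
  by_cases hk : k < 2 ^ m
  · have h0 : mu (S m k) ≠ 0 := by
      rw [mu_S m k hk]
      simp
    have h1 : ‖av m k f‖ ≤ ⨍ t in S m k, ‖f t‖ ∂mu := by
      rw [setAverage_eq, av, norm_smul, norm_inv, Real.norm_of_nonneg measureReal_nonneg,
        smul_eq_mul]
      exact mul_le_mul_of_nonneg_left (norm_integral_le_integral_norm _)
        (inv_nonneg.2 measureReal_nonneg)
    have h2 := ConvexOn.map_set_average_le (μ := mu) (t := S m k) (f := fun t => ‖f t‖)
      (convexOn_rpow hq) (Real.continuous_rpow_const (by linarith)).continuousOn isClosed_Ici h0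
      (measure_ne_top _ _) (Eventually.of_forall fun t => norm_nonneg (f t))
      hf.norm.integrableOn hf'.integrableOn
    refine (Real.rpow_le_rpow (norm_nonneg _) h1 (by linarith)).trans (h2.trans (le_of_eq ?_))
    rw [setAverage_eq, av]
  · rw [av_zero_of_le m k (not_lt.1 hk), av_zero_of_le m k (not_lt.1 hk), norm_zero,
      Real.zero_rpow (by linarith)]

end Pool.Agent.R276.LR
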