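import Pool.Agent.R276.LRc

set_option autoImplicit false
set_option linter.unusedSectionVars false

/-!
The spaces `ℓ_p^{2^m}` inside `L_p`.
-/

noncomputable section

open Filter Topology MeasureTheory
open scoped ENNReal

namespace Pool.Agent.R276.LR

variable {𝕜 : Type*} [RCLike 𝕜] {p : ℝ≥0∞} [Fact (1 ≤ p)]

variable (p) in
/-- normalizing constant -/
def cc (m : ℕ) : ℝ := (2 : ℝ) ^ ((m : ℝ) / p.toReal)

theorem cc_pos (m : ℕ) : 0 < cc p m := Real.rpow_pos_of_pos two_pos _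

theorem cc_rpow (hp : p ≠ ∞) (m : ℕ) : cc p m ^ p.toReal = 2 ^ m := by
  rw [cc, ← Real.rpow_mul two_pos.le, div_mul_cancel₀ _ (toReal_pos hp).ne', Real.rpow_natCast]

/-- the step function -/
def sf (m : ℕ) (v : El 𝕜 p (2 ^ m)) (k : ℕ) : 𝕜 := cc p m • ext0 v k

theorem sf_add (m : ℕ) (v w : El 𝕜 p (2 ^ m)) (k : ℕ) : sf m (v + w) k = sf m v k + sf m w k := by
  unfold sf ext0
  split_ifs
  · rw [El.co_add, smul_add]
  · simp

theorem sf_smul (m : ℕ) (c : 𝕜) (v : El 𝕜 p (2 ^ m)) (k : ℕ) : sf m (c • v) k = c * sf m v k := by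
  unfold sf ext0
  split_ifs
  · rw [El.co_smul, mul_smul_comm]
  · simp

theorem sf_memLp (m : ℕ) (v : El 𝕜 p (2 ^ m)) : MemLp (fun x => sf m v (kap m x)) p mu :=
  MemLp.of_bound (sm_kap m (sf m v)).aestronglyMeasurable _ (bdd_kap m (sf m v))

/-- embedding, linear map -/
def embL (m : ℕ) : El 𝕜 p (2 ^ m) →ₗ[𝕜] Lp 𝕜 p mu where
  toFun v := (sf_memLp m v).toLp _
  map_add' v w := by
    refine Lp.ext ?_
    filter_upwards [(sf_memLp m (v + w)).coeFn_toLp, (sf_memLp m v).coeFn_toLp,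
      (sf_memLp m w).coeFn_toLp, Lp.coeFn_add ((sf_memLp m v).toLp _) ((sf_memLp m w).toLp _)]
      with x h1 h2 h3 h4
    rw [h1, h4, Pi.add_apply, h2, h3, sf_add]
  map_smul' c v := by
    refine Lp.ext ?_
    filter_upwards [(sf_memLp m (c • v)).coeFn_toLp, (sf_memLp m v).coeFn_toLp,
      Lp.coeFn_smul c ((sf_memLp m v).toLp _)] with x h1 h2 h3
    rw [h1, RingHom.id_apply, h3, Pi.smul_apply, h2, sf_smul, smul_eq_mul]

theorem embL_coe (m : ℕ) (v : El 𝕜 p (2 ^ m)) :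
    ∀ᵐ x ∂mu, (embL m v : Lp 𝕜 p mu) x = sf m v (kap m x) := (sf_memLp m v).coeFn_toLp

theorem Lp_norm_rpow {E : Type*} [NormedAddCommGroup E] (hp : p ≠ ∞) (g : Lp E p mu) :
    ‖g‖ ^ p.toReal = ∫ x, ‖g x‖ ^ p.toReal ∂mu := by
  have h0 : p ≠ 0 := ne_of_gt (lt_of_lt_of_le zero_lt_one Fact.out)
  have h1 : 0 ≤ ∫ x, ‖g x‖ ^ p.toReal ∂mu :=
    integral_nonneg fun x => Real.rpow_nonneg (norm_nonneg _) _
  rw [Lp.norm_def, MemLp.eLpNorm_eq_integral_rpow_norm h0 hp (Lp.memLp g),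
    ENNReal.toReal_ofReal (Real.rpow_nonneg h1 _), ← Real.rpow_mul h1,
    inv_mul_cancel₀ (toReal_pos hp).ne', Real.rpow_one]

theorem rpow_inj' (hp : p ≠ ∞) {a b : ℝ} (ha : 0 ≤ a) (hb : 0 ≤ b)
    (h : a ^ p.toReal ≤ b ^ p.toReal) : a ≤ b :=
  (Real.rpow_le_rpow_iff ha hb (toReal_pos hp)).1 h

theorem embL_norm (hp : p ≠ ∞) (m : ℕ) (v : El 𝕜 p (2 ^ m)) : ‖embL m v‖ ≤ ‖v‖ := by
  refine rpow_inj' hp (norm_nonneg _) (norm_nonneg _) (le_of_eq ?_)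
  rw [Lp_norm_rpow hp, norm_rpow_ext0 hp]
  have h1 : ∫ x, ‖(embL m v : Lp 𝕜 p mu) x‖ ^ p.toReal ∂mu =
      ∫ x, (fun k => ‖sf m v k‖ ^ p.toReal) (kap m x) ∂mu := by
    refine integral_congr_ae ?_
    filter_upwards [embL_coe m v] with x hx
    rw [hx]
  rw [h1, integral_kap m (fun k => ‖sf m v k‖ ^ p.toReal), Finset.smul_sum]
  refine Finset.sum_congr rfl fun k _ => ?_
  rw [sf, norm_smul, Real.mul_rpow (norm_nonneg _) (norm_nonneg _),
    Real.norm_of_nonneg (cc_pos m).le, cc_rpow hp, smul_eq_mul, ← mul_assoc,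
    inv_mul_cancel₀ (by positivity), one_mul]

/-- embedding -/
def emb (hp : p ≠ ∞) (m : ℕ) : El 𝕜 p (2 ^ m) →L[𝕜] Lp 𝕜 p mu :=
  (embL m).mkContinuous 1 (fun v => by rw [one_mul]; exact embL_norm hp m v)

theorem emb_norm (hp : p ≠ ∞) (m : ℕ) (v : El 𝕜 p (2 ^ m)) : ‖emb hp m v‖ ≤ ‖v‖ :=
  embL_norm hp m v

theorem emb_coe (hp : p ≠ ∞) (m : ℕ) (v : El 𝕜 p (2 ^ m)) :
    ∀ᵐ x ∂mu, (emb hp m v : Lp 𝕜 p mu) x = sf m v (kap m x) := embL_coe m v

theorem Lp_int {E : Type*} [NormedAddCommGroup E] (g : Lp E p mu) : Integrable g mu :=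
  (Lp.memLp g).integrable Fact.out

/-- projection, linear map -/
def PL (m : ℕ) : Lp 𝕜 p mu →ₗ[𝕜] El 𝕜 p (2 ^ m) where
  toFun g := El.mk (fun j => (cc p m)⁻¹ • av m j g)
  map_add' g h := by
    refine El.ext fun j => ?_
    show (cc p m)⁻¹ • av m j (g + h : Lp 𝕜 p mu) = (cc p m)⁻¹ • av m j g + (cc p m)⁻¹ • av m j h
    rw [← smul_add, ← av_add m j (Lp_int g) (Lp_int h)]
    congr 1
    exact av_congr m j (Lp.coeFn_add g h)
  map_smul' c g := by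
    refine El.ext fun j => ?_
    show (cc p m)⁻¹ • av m j (c • g : Lp 𝕜 p mu) = c * ((cc p m)⁻¹ • av m j g)
    have h1 : av m j (c • g : Lp 𝕜 p mu) = c * av m j g := by
      rw [av_congr m j (Lp.coeFn_smul c g), av, av, mul_smul_comm]
      congr 1
      exact integral_const_mul c _
    rw [h1, mul_smul_comm]

theorem PL_co (m : ℕ) (g : Lp 𝕜 p mu) (j : Fin (2 ^ m)) :
    (PL m g).co j = (cc p m)⁻¹ • av m j g := rfl

theorem Lp_int_rpow {E : Type*} [NormedAddCommGroup E] (hp : p ≠ ∞) (g : Lp E p mu) :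
    Integrable (fun x => ‖g x‖ ^ p.toReal) mu :=
  (Lp.memLp g).integrable_norm_rpow (ne_of_gt (lt_of_lt_of_le zero_lt_one Fact.out)) hp

theorem one_le_toReal (hp : p ≠ ∞) : 1 ≤ p.toReal := by
  rw [← ENNReal.toReal_one]
  exact (ENNReal.toReal_le_toReal ENNReal.one_ne_top hp).2 Fact.out

theorem PL_norm (hp : p ≠ ∞) (m : ℕ) (g : Lp 𝕜 p mu) : ‖PL m g‖ ≤ ‖g‖ := by
  refine rpow_inj' hp (norm_nonneg _) (norm_nonneg _) ?_
  rw [Lp_norm_rpow hp, norm_rpow hp, integral_split m _ (Lp_int_rpow hp g),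
    ← Fin.sum_univ_eq_sum_range (fun j => ∫ x in S m j, ‖g x‖ ^ p.toReal ∂mu)]
  refine Finset.sum_le_sum fun j _ => ?_
  rw [PL_co, norm_smul, Real.mul_rpow (norm_nonneg _) (norm_nonneg _), norm_inv,
    Real.norm_of_nonneg (cc_pos m).le, Real.inv_rpow (cc_pos m).le, cc_rpow hp, setint_eq m j j.2,
    smul_eq_mul]
  exact mul_le_mul_of_nonneg_left
    (av_rpow_le m j g p.toReal (one_le_toReal hp) (Lp_int g) (Lp_int_rpow hp g)) (by positivity)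

/-- projection -/
def P (hp : p ≠ ∞) (m : ℕ) : Lp 𝕜 p mu →L[𝕜] El 𝕜 p (2 ^ m) :=
  (PL m).mkContinuous 1 (fun v => by rw [one_mul]; exact PL_norm hp m v)

theorem P_norm (hp : p ≠ ∞) (m : ℕ) (g : Lp 𝕜 p mu) : ‖P hp m g‖ ≤ ‖g‖ := PL_norm hp m g

theorem P_co (hp : p ≠ ∞) (m : ℕ) (g : Lp 𝕜 p mu) (j : Fin (2 ^ m)) :
    (P hp m g).co j = (cc p m)⁻¹ • av m j g := rfl

theorem P_emb (hp : p ≠ ∞) (m : ℕ) (v : El 𝕜 p (2 ^ m)) : P hp m (emb hp m v) = v := by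
  refine El.ext fun j => ?_
  rw [P_co, av_congr m j (emb_coe hp m v), av_kap m j j.2, sf, smul_smul,
    inv_mul_cancel₀ (cc_pos m).ne', one_smul, ext0_fin]

theorem ext0_P (hp : p ≠ ∞) (m : ℕ) (g : Lp 𝕜 p mu) (k : ℕ) :
    ext0 (P hp m g) k = (cc p m)⁻¹ • av m k g := by
  unfold ext0
  split_ifs with h
  · rw [P_co]
  · rw [av_zero_of_le m k (not_lt.1 h), smul_zero]

theorem sf_P (hp : p ≠ ∞) (m : ℕ) (g : Lp 𝕜 p mu) (k : ℕ) : sf m (P hp m g) k = av m k g := by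
  rw [sf, ext0_P, smul_smul, mul_inv_cancel₀ (cc_pos m).ne', one_smul]

theorem Q_coe (hp : p ≠ ∞) (m : ℕ) (g : Lp 𝕜 p mu) :
    ∀ᵐ x ∂mu, (emb hp m (P hp m g) : Lp 𝕜 p mu) x = av m (kap m x) g := by
  filter_upwards [emb_coe hp m (P hp m g)] with x hx
  rw [hx, sf_P]

theorem av_const {E : Type*} [NormedAddCommGroup E] [NormedSpace ℝ E] [CompleteSpace E]
    (m k : ℕ) (hk : k < 2 ^ m) (c : E) : av m k (fun _ => c) = c :=
  av_kap m k hk (fun _ => c)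

theorem Q_cont (hp : p ≠ ∞) (f : BoundedContinuousFunction ℝ 𝕜) (ε : ℝ) (hε : 0 < ε) :
    ∃ N, ∀ m ≥ N, ‖emb hp m (P hp m (BoundedContinuousFunction.toLp p mu 𝕜 f)) -
      BoundedContinuousFunction.toLp p mu 𝕜 f‖ ≤ ε := by
  have h1 : UniformContinuousOn f (Set.Icc (0 : ℝ) 1) :=
    isCompact_Icc.uniformContinuousOn_of_continuous f.continuous.continuousOn
  obtain ⟨δ, hδ, h2⟩ := Metric.uniformContinuousOn_iff.1 h1 ε hε
  obtain ⟨N, hN⟩ := exists_pow_lt_of_lt_one hδ (show (2 : ℝ)⁻¹ < 1 by norm_num)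
  refine ⟨N, fun m hm => ?_⟩
  have hm' : ((2 : ℝ) ^ m)⁻¹ < δ := by
    rw [← inv_pow]
    exact lt_of_le_of_lt (pow_le_pow_of_le_one (by norm_num) (by norm_num) hm) hN
  set g : Lp 𝕜 p mu := BoundedContinuousFunction.toLp p mu 𝕜 f with hg
  have hgf : ∀ᵐ x ∂mu, g x = f x := BoundedContinuousFunction.coeFn_toLp p mu 𝕜 f
  have h4 : ∀ᵐ t : ℝ ∂mu, t ∈ Set.Icc (0 : ℝ) 1 := ae_restrict_mem measurableSet_Icc
  have hbound : ∀ᵐ x ∂mu, ‖(emb hp m (P hp m g) - g : Lp 𝕜 p mu) x‖ ≤ ε := by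
    filter_upwards [Lp.coeFn_sub (emb hp m (P hp m g)) g, Q_coe hp m g, hgf, h4, kap_lt m]
      with x h5 h6 h7 h8 h9
    rw [h5, Pi.sub_apply, h6, h7]
    have hfi : Integrable f mu := (Lp_int g).congr hgf
    have h10 : av m (kap m x) g - f x = av m (kap m x) (fun y => f y + (- f x)) := by
      rw [av_add m _ hfi (integrable_const _), av_const m _ h9, av_congr m _ hgf]
      exact sub_eq_add_neg _ _
    rw [h10]
    refine norm_av_le' m _ _ ε hε.le ?_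
    filter_upwards [h4] with y h11 h12
    rw [← sub_eq_add_neg, ← dist_eq_norm]
    refine (h2 y h11 x h8 ?_).le
    have h13 := (mem_S h11.1).1 h12
    have h14 := (mem_S (k := kap m x) h8.1).1 rfl
    refine lt_of_le_of_lt ?_ hm'
    rw [Real.dist_eq, abs_le]
    have h15 : ((kap m x : ℝ) + 1) / 2 ^ m = (kap m x : ℝ) / 2 ^ m + (2 ^ m)⁻¹ := by
      rw [add_div, one_div]
    rw [h15] at h13 h14
    constructor <;> linarith [h13.1, h13.2, h14.1, h14.2]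
  have h16 := Lp.norm_le_of_ae_bound hε.le hbound
  have h17 : mu.real Set.univ = 1 := by simp
  rw [measureUnivNNReal] at h16
  simpa using h16

theorem Q_tendsto (hp : p ≠ ∞) (g : Lp 𝕜 p mu) :
    Tendsto (fun m => emb hp m (P hp m g)) atTop (𝓝 g) := by
  rw [Metric.tendsto_atTop]
  intro ε hε
  have hd : DenseRange (BoundedContinuousFunction.toLp p mu 𝕜 :
      BoundedContinuousFunction ℝ 𝕜 → Lp 𝕜 p mu) :=
    BoundedContinuousFunction.toLp_denseRange 𝕜 mu 𝕜 hp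
  obtain ⟨f, hf⟩ := hd.exists_dist_lt g (show 0 < ε / 4 by positivity)
  obtain ⟨N, hN⟩ := Q_cont hp f (ε / 4) (by positivity)
  refine ⟨N, fun m hm => ?_⟩
  set h : Lp 𝕜 p mu := BoundedContinuousFunction.toLp p mu 𝕜 f
  have h1 := hN m hm
  rw [dist_eq_norm] at hf ⊢
  have h2 : emb hp m (P hp m g) - g = emb hp m (P hp m (g - h)) +
      ((emb hp m (P hp m h) - h) - (g - h)) := by
    rw [map_sub, map_sub]
    abel
  rw [h2]
  have h3 : ‖emb hp m (P hp m (g - h))‖ ≤ ‖g - h‖ := (emb_norm hp m _).trans (P_norm hp m _)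
  calc _ ≤ ‖emb hp m (P hp m (g - h))‖ + (‖emb hp m (P hp m h) - h‖ + ‖g - h‖) :=
        (norm_add_le _ _).trans (add_le_add_right (norm_sub_le _ _) _)
    _ < ε := by linarith

end Pool.Agent.R276.LR
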