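import Pool.Agent.R276.LRd

set_option autoImplicit false
set_option linter.unusedSectionVars false

/-!
`W` is complemented in `L_∞(L_p)`; the averaging operator `L_∞(L_p) → W`.
-/

noncomputable section

open Filter Topology MeasureTheory
open scoped ENNReal

namespace Pool.Agent.R276.LR

variable {𝕜 : Type*} [RCLike 𝕜] {p : ℝ≥0∞} [Fact (1 ≤ p)]

variable (𝕜 p) in
/-- the space `L_∞(L_p)` -/
abbrev LL : Type _ := Lp (Lp 𝕜 p mu) ∞ mu

theorem LL_bound {E : Type*} [NormedAddCommGroup E] (f : Lp E ∞ mu) :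
    ∀ᵐ t ∂mu, ‖f t‖ ≤ ‖f‖ := by
  filter_upwards [ae_le_eLpNormEssSup (f := (f : ℝ → E)) (μ := mu)] with t ht
  have h1 : ‖f‖ = (eLpNormEssSup f mu).toReal := by
    rw [Lp.norm_def, eLpNorm_exponent_top]
  have h2 : eLpNormEssSup f mu ≠ ∞ := by
    rw [← eLpNorm_exponent_top]
    exact (Lp.memLp f).eLpNorm_ne_top
  rw [h1, ← toReal_enorm]
  exact ENNReal.toReal_mono h2 ht

theorem LL_int {E : Type*} [NormedAddCommGroup E] (f : Lp E ∞ mu) : Integrable f mu :=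
  (Lp.memLp f).integrable le_top

theorem norm_le_of_bound {E : Type*} [NormedAddCommGroup E] (f : Lp E ∞ mu) {C : ℝ} (hC : 0 ≤ C)
    (h : ∀ᵐ t ∂mu, ‖f t‖ ≤ C) : ‖f‖ ≤ C := by
  have := Lp.norm_le_of_ae_bound hC h
  simpa using this

/-- the averaging operator, linear map -/
def avl (A : Set ℝ) : LL 𝕜 p →ₗ[𝕜] Lp 𝕜 p mu where
  toFun f := (mu.real A)⁻¹ • ∫ t in A, f t ∂mu
  map_add' f g := by
    rw [← smul_add, ← integral_add (LL_int f).integrableOn (LL_int g).integrableOn]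
    congr 1
    exact integral_congr_ae (ae_restrict_of_ae (Lp.coeFn_add f g))
  map_smul' c f := by
    have h : ∫ t in A, (c • f : LL 𝕜 p) t ∂mu = c • ∫ t in A, f t ∂mu := by
      rw [integral_congr_ae (ae_restrict_of_ae (Lp.coeFn_smul c f))]
      exact integral_smul c _
    rw [h, RingHom.id_apply, smul_comm]

theorem avl_norm (A : Set ℝ) (f : LL 𝕜 p) : ‖avl A f‖ ≤ ‖f‖ := by
  show ‖(mu.real A)⁻¹ • ∫ t in A, f t ∂mu‖ ≤ ‖f‖
  rw [norm_smul, norm_inv, Real.norm_of_nonneg measureReal_nonneg]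
  have h1 : ‖∫ t in A, f t ∂mu‖ ≤ ‖f‖ * mu.real A :=
    norm_setIntegral_le_of_norm_le_const_ae' (measure_lt_top _ _)
      (by filter_upwards [LL_bound f] with t ht _ using ht)
  rcases eq_or_lt_of_le (measureReal_nonneg (μ := mu) (s := A)) with h0 | h0
  · rw [← h0]
    simp
  · rw [inv_mul_le_iff₀ h0, mul_comm]
    exact h1

/-- the averaging operator -/
def avc (A : Set ℝ) : LL 𝕜 p →L[𝕜] Lp 𝕜 p mu :=
  (avl A).mkContinuous 1 (fun v => by rw [one_mul]; exact avl_norm A v)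

theorem avc_norm (A : Set ℝ) (f : LL 𝕜 p) : ‖avc A f‖ ≤ ‖f‖ := avl_norm A f

theorem avc_apply (A : Set ℝ) (f : LL 𝕜 p) : avc A f = (mu.real A)⁻¹ • ∫ t in A, f t ∂mu := rfl

theorem avc_S (m k : ℕ) (f : LL 𝕜 p) : avc (S m k) f = av m k f := rfl

/-- the operator `L_∞(L_p) → ℓ_p^{2^m}` -/
def PA (hp : p ≠ ∞) (m : ℕ) (A : Set ℝ) : LL 𝕜 p →L[𝕜] El 𝕜 p (2 ^ m) := (P hp m).comp (avc A)

theorem PA_bound (hp : p ≠ ∞) (m : ℕ) (A : Set ℝ) (f : LL 𝕜 p) : ‖PA hp m A f‖ ≤ 1 * ‖f‖ := by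
  rw [one_mul]
  exact (P_norm hp m _).trans (avc_norm A f)

/-- operator into `W` given by averages over sets -/
def toW (hp : p ≠ ∞) (A : ℕ × ℕ → Set ℝ) : LL 𝕜 p →L[𝕜] Wsp 𝕜 p :=
  intoW (fun z => PA hp z.2 (A z)) 1 (fun z f => PA_bound hp z.2 (A z) f)

theorem toW_apply (hp : p ≠ ∞) (A : ℕ × ℕ → Set ℝ) (f : LL 𝕜 p) (z : ℕ × ℕ) :
    toW hp A f z = P hp z.2 (avc (A z) f) := rfl

/-- the partition of `(0,1]` into countably many intervals -/
def zet (t : ℝ) : ℕ × ℕ := Nat.unpair (⌊t⁻¹⌋₊ - 1)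

theorem zet_meas : Measurable zet := by
  have h1 : Measurable (fun t : ℝ => ⌊t⁻¹⌋₊) := Nat.measurable_floor.comp measurable_inv
  have h2 : Measurable (fun n : ℕ => Nat.unpair (n - 1)) := measurable_from_nat
  exact h2.comp h1

/-- pieces of the partition -/
def Z (z : ℕ × ℕ) : Set ℝ := zet ⁻¹' {z}

theorem Z_meas (z : ℕ × ℕ) : MeasurableSet (Z z) := zet_meas (measurableSet_singleton z)

theorem mu_Z_pos (z : ℕ × ℕ) : 0 < mu.real (Z z) := by
  set n := Nat.pair z.1 z.2 with hn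
  have h1 : Set.Ioo (1 / ((n : ℝ) + 2)) (1 / ((n : ℝ) + 1)) ⊆ Z z ∩ Set.Icc 0 1 := by
    rintro t ⟨h1, h2⟩
    have h0 : 0 < t := lt_trans (by positivity) h1
    have hn1 : (0 : ℝ) < (n : ℝ) + 1 := by positivity
    have hn2 : (0 : ℝ) < (n : ℝ) + 2 := by positivity
    rw [div_lt_iff₀ hn2] at h1
    rw [lt_div_iff₀ hn1] at h2
    have h3 : (n : ℝ) + 1 ≤ t⁻¹ := by
      rw [← one_div, le_div_iff₀ h0]
      linarith
    have h4 : t⁻¹ < (n : ℝ) + 2 := by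
      rw [← one_div, div_lt_iff₀ h0]
      linarith
    have h5 : ⌊t⁻¹⌋₊ = n + 1 := by
      rw [Nat.floor_eq_iff (inv_nonneg.2 h0.le)]
      push_cast
      exact ⟨h3, by linarith⟩
    refine ⟨?_, h0.le, ?_⟩
    · show zet t = z
      rw [zet, h5, Nat.add_sub_cancel, hn, Nat.unpair_pair]
    · have : (1 : ℝ) ≤ (n : ℝ) + 1 := by linarith [Nat.cast_nonneg (α := ℝ) n]
      nlinarith
  have h2 : 0 < mu (Z z) := by
    rw [mu, Measure.restrict_apply (Z_meas z)]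
    refine lt_of_lt_of_le ?_ (measure_mono h1)
    rw [Real.volume_Ioo, ENNReal.ofReal_pos, sub_pos]
    exact one_div_lt_one_div_of_lt (by positivity) (by linarith)
  exact ENNReal.toReal_pos h2.ne' (measure_ne_top _ _)

theorem bdd_zet {E : Type*} [NormedAddCommGroup E] (s : ℕ × ℕ → E) (C : ℝ) (h : ∀ z, ‖s z‖ ≤ C) :
    MemLp (fun t => s (zet t)) ∞ mu :=
  MemLp.of_bound ((StronglyMeasurable.of_discrete (f := s)).comp_measurable
    zet_meas).aestronglyMeasurable C (Eventually.of_forall fun _ => h _)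

theorem memW (hp : p ≠ ∞) (w : Wsp 𝕜 p) :
    MemLp (fun t => (fun z : ℕ × ℕ => emb hp z.2 (w z)) (zet t)) ∞ mu :=
  bdd_zet _ ‖w‖ (fun z => (emb_norm hp _ _).trans (norm_coord_le w z))

/-- `W → L_∞(L_p)`, linear map -/
def wl (hp : p ≠ ∞) : Wsp 𝕜 p →ₗ[𝕜] LL 𝕜 p where
  toFun w := (memW hp w).toLp _
  map_add' v w := by
    refine Lp.ext ?_
    filter_upwards [(memW hp (v + w)).coeFn_toLp, (memW hp v).coeFn_toLp,
      (memW hp w).coeFn_toLp, Lp.coeFn_add ((memW hp v).toLp _) ((memW hp w).toLp _)]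
      with x h1 h2 h3 h4
    rw [h1, h4, Pi.add_apply, h2, h3]
    exact (emb hp _).map_add _ _
  map_smul' c v := by
    refine Lp.ext ?_
    filter_upwards [(memW hp (c • v)).coeFn_toLp, (memW hp v).coeFn_toLp,
      Lp.coeFn_smul c ((memW hp v).toLp _)] with x h1 h2 h3
    rw [h1, RingHom.id_apply, h3, Pi.smul_apply, h2]
    exact (emb hp _).map_smul _ _

theorem wl_coe (hp : p ≠ ∞) (w : Wsp 𝕜 p) :
    ∀ᵐ t ∂mu, (wl hp w : LL 𝕜 p) t = emb hp (zet t).2 (w (zet t)) := (memW hp w).coeFn_toLp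

theorem wl_norm (hp : p ≠ ∞) (w : Wsp 𝕜 p) : ‖wl hp w‖ ≤ ‖w‖ := by
  refine norm_le_of_bound _ (norm_nonneg _) ?_
  filter_upwards [wl_coe hp w] with t ht
  rw [ht]
  exact (emb_norm hp _ _).trans (norm_coord_le w _)

/-- `W → L_∞(L_p)` -/
def wc (hp : p ≠ ∞) : Wsp 𝕜 p →L[𝕜] LL 𝕜 p :=
  (wl hp).mkContinuous 1 (fun v => by rw [one_mul]; exact wl_norm hp v)

theorem avc_wl (hp : p ≠ ∞) (w : Wsp 𝕜 p) (z : ℕ × ℕ) :
    avc (Z z) (wl hp w) = emb hp z.2 (w z) := by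
  rw [avc_apply]
  have h : ∀ᵐ t ∂(mu.restrict (Z z)), (wl hp w : LL 𝕜 p) t = emb hp z.2 (w z) := by
    filter_upwards [ae_restrict_mem (Z_meas z), ae_restrict_of_ae (wl_coe hp w)] with t h1 h2
    have h3 : zet t = z := h1
    rw [h2, h3]
  rw [integral_congr_ae h, integral_const, measureReal_restrict_apply MeasurableSet.univ,
    Set.univ_inter, smul_smul, inv_mul_cancel₀ (mu_Z_pos z).ne', one_smul]

/-- `W` is complemented in `L_∞(L_p)` -/
theorem W_compl_L (hp : p ≠ ∞) : Compl 𝕜 (Wsp 𝕜 p) (LL 𝕜 p) := by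
  refine ⟨wc hp, toW hp Z, fun w => ?_⟩
  refine lp.ext (funext fun z => ?_)
  rw [toW_apply]
  show P hp z.2 (avc (Z z) (wl hp w)) = w z
  rw [avc_wl, P_emb]

/-- the dyadic averaging operator -/
def RR (hp : p ≠ ∞) : LL 𝕜 p →L[𝕜] Wsp 𝕜 p := toW hp (fun z => S z.2 z.1)

theorem RR_apply (hp : p ≠ ∞) (f : LL 𝕜 p) (k m : ℕ) :
    RR hp f ((k, m) : ℕ × ℕ) = P hp m (av m k f) := rfl

end Pool.Agent.R276.LR
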