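import Pool.Agent.R276.LRe

set_option autoImplicit false
set_option linter.unusedSectionVars false

/-!
Consistent families and the projection onto them.
-/

noncomputable section

open Filter Topology MeasureTheory
open scoped ENNReal

namespace Pool.Agent.R276.LR

section ulim

variable {X : Type*} [NormedAddCommGroup X]

/-- a free ultrafilter -/
def Ul : Ultrafilter ℕ := hyperfilter ℕ

theorem Ul_le : (Ul : Filter ℕ) ≤ atTop := Nat.hyperfilter_le_atTop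

open Classical in
/-- limit along the ultrafilter -/
def ulim (u : ℕ → X) : X := if h : ∃ x, Tendsto u Ul (𝓝 x) then h.choose else 0

theorem ulim_tendsto [ProperSpace X] (u : ℕ → X) (C : ℝ) (h : ∀ n, ‖u n‖ ≤ C) :
    Tendsto u Ul (𝓝 (ulim u)) := by
  have hex : ∃ x, Tendsto u Ul (𝓝 x) := by
    have hc : IsCompact (Metric.closedBall (0 : X) C) := isCompact_closedBall 0 C
    have h1 : ((Ul.map u : Ultrafilter X) : Filter X) ≤ 𝓟 (Metric.closedBall (0 : X) C) := by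
      rw [le_principal_iff]
      refine mem_map.2 (Eventually.of_forall fun n => ?_)
      exact mem_closedBall_zero_iff.2 (h n)
    obtain ⟨x, _, hx⟩ := isCompact_iff_ultrafilter_le_nhds.1 hc (Ul.map u) h1
    exact ⟨x, hx⟩
  unfold ulim
  rw [dif_pos hex]
  exact hex.choose_spec

theorem ulim_eq (u : ℕ → X) (x : X) (h : Tendsto u Ul (𝓝 x)) : ulim u = x := by
  have hex : ∃ x, Tendsto u Ul (𝓝 x) := ⟨x, h⟩
  unfold ulim
  rw [dif_pos hex]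
  exact tendsto_nhds_unique hex.choose_spec h

theorem ulim_norm [ProperSpace X] (u : ℕ → X) (C : ℝ) (h : ∀ n, ‖u n‖ ≤ C) : ‖ulim u‖ ≤ C :=
  le_of_tendsto (ulim_tendsto u C h).norm (Eventually.of_forall h)

end ulim

variable {𝕜 : Type*} [RCLike 𝕜] {p : ℝ≥0∞} [Fact (1 ≤ p)]

instance (n : ℕ) : FiniteDimensional 𝕜 (El 𝕜 p n) :=
  inferInstanceAs (FiniteDimensional 𝕜 (PiLp p (fun _ : Fin n => 𝕜)))

instance (n : ℕ) : ProperSpace (El 𝕜 p n) := FiniteDimensional.proper_rclike 𝕜 _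

/-- averaging from level `m+1` to level `m` -/
def T (hp : p ≠ ∞) (m : ℕ) : El 𝕜 p (2 ^ (m + 1)) →L[𝕜] El 𝕜 p (2 ^ m) :=
  (P hp m).comp (emb hp (m + 1))

theorem T_norm (hp : p ≠ ∞) (m : ℕ) (v : El 𝕜 p (2 ^ (m + 1))) : ‖T hp m v‖ ≤ ‖v‖ :=
  (P_norm hp m _).trans (emb_norm hp _ _)

theorem av_emb (hp : p ≠ ∞) (m : ℕ) (v : El 𝕜 p (2 ^ m)) (j : ℕ) (hj : j < 2 ^ m) :
    av m j (emb hp m v : Lp 𝕜 p mu) = sf m v j := by
  rw [av_congr m j (emb_coe hp m v), av_kap m j hj]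

theorem sf_of_le (m : ℕ) (v : El 𝕜 p (2 ^ m)) (j : ℕ) (hj : 2 ^ m ≤ j) : sf m v j = 0 := by
  rw [sf, ext0_of_le v hj, smul_zero]

theorem av_emb' (hp : p ≠ ∞) (m : ℕ) (v : El 𝕜 p (2 ^ m)) (j : ℕ) :
    av m j (emb hp m v : Lp 𝕜 p mu) = sf m v j := by
  by_cases hj : j < 2 ^ m
  · exact av_emb hp m v j hj
  · rw [av_zero_of_le m j (not_lt.1 hj), sf_of_le m v j (not_lt.1 hj)]

theorem sf_T (hp : p ≠ ∞) (m : ℕ) (v : El 𝕜 p (2 ^ (m + 1))) (j : ℕ) :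
    sf m (T hp m v) j = (2 : ℝ)⁻¹ • (sf (m + 1) v (2 * j) + sf (m + 1) v (2 * j + 1)) := by
  show sf m (P hp m (emb hp (m + 1) v)) j = _
  rw [sf_P, av_half m j _ (Lp_int _), av_emb', av_emb']

theorem El_ext_sf (m : ℕ) (v w : El 𝕜 p (2 ^ m)) (h : ∀ j, sf m v j = sf m w j) : v = w := by
  refine El.ext fun j => ?_
  have h1 := h j
  unfold sf at h1
  rw [ext0_fin, ext0_fin] at h1
  exact smul_right_injective 𝕜 (cc_pos (p := p) m).ne' h1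

theorem T_P (hp : p ≠ ∞) (m : ℕ) (g : Lp 𝕜 p mu) : T hp m (P hp (m + 1) g) = P hp m g := by
  refine El_ext_sf m _ _ fun j => ?_
  rw [sf_T, sf_P, sf_P, sf_P, ← av_half m j _ (Lp_int _)]

/-- averaging, both in time and space -/
def Dc (hp : p ≠ ∞) (z : ℕ × ℕ) : Wsp 𝕜 p →L[𝕜] El 𝕜 p (2 ^ z.2) :=
  (T hp z.2).comp ((2 : 𝕜)⁻¹ • (wco 𝕜 p (2 * z.1, z.2 + 1) + wco 𝕜 p (2 * z.1 + 1, z.2 + 1)))

theorem Dc_apply (hp : p ≠ ∞) (z : ℕ × ℕ) (w : Wsp 𝕜 p) :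
    Dc hp z w = T hp z.2 ((2 : 𝕜)⁻¹ • (w ((2 * z.1, z.2 + 1) : ℕ × ℕ) +
      w ((2 * z.1 + 1, z.2 + 1) : ℕ × ℕ))) := rfl

theorem half_norm {X : Type*} [NormedAddCommGroup X] [NormedSpace 𝕜 X] (a b : X) (C : ℝ)
    (ha : ‖a‖ ≤ C) (hb : ‖b‖ ≤ C) : ‖(2 : 𝕜)⁻¹ • (a + b)‖ ≤ C := by
  rw [norm_smul, norm_inv, RCLike.norm_two]
  have := norm_add_le a b
  linarith

theorem Dc_bound (hp : p ≠ ∞) (z : ℕ × ℕ) (w : Wsp 𝕜 p) : ‖Dc hp z w‖ ≤ 1 * ‖w‖ := by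
  rw [Dc_apply, one_mul]
  exact (T_norm hp _ _).trans (half_norm _ _ _ (norm_coord_le w _) (norm_coord_le w _))

/-- the averaging operator on families -/
def D (hp : p ≠ ∞) : Wsp 𝕜 p →L[𝕜] Wsp 𝕜 p := intoW (Dc hp) 1 (Dc_bound hp)

theorem D_apply (hp : p ≠ ∞) (w : Wsp 𝕜 p) (k m : ℕ) :
    D hp w ((k, m) : ℕ × ℕ) = T hp m ((2 : 𝕜)⁻¹ • (w ((2 * k, m + 1) : ℕ × ℕ) +
      w ((2 * k + 1, m + 1) : ℕ × ℕ))) := rfl

theorem D_norm (hp : p ≠ ∞) (w : Wsp 𝕜 p) : ‖D hp w‖ ≤ ‖w‖ :=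
  lp.norm_le_of_forall_le (norm_nonneg _) fun z => by
    have := Dc_bound hp z w
    rwa [one_mul] at this

theorem Dpow_norm (hp : p ≠ ∞) (n : ℕ) (w : Wsp 𝕜 p) : ‖((D hp) ^ n) w‖ ≤ ‖w‖ := by
  induction n with
  | zero => rw [pow_zero]; exact le_rfl
  | succ n ih =>
    rw [pow_succ']
    exact (D_norm hp _).trans ih

theorem Dpow_coord_norm (hp : p ≠ ∞) (n : ℕ) (w : Wsp 𝕜 p) (z : ℕ × ℕ) :
    ‖((D hp) ^ n) w z‖ ≤ ‖w‖ := (norm_coord_le _ z).trans (Dpow_norm hp n w)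

/-- coordinates of the projection onto the consistent families -/
def Yc (hp : p ≠ ∞) (z : ℕ × ℕ) (w : Wsp 𝕜 p) : El 𝕜 p (2 ^ z.2) :=
  ulim (fun n => ((D hp) ^ (n - z.2)) w z)

theorem Yc_tendsto (hp : p ≠ ∞) (z : ℕ × ℕ) (w : Wsp 𝕜 p) :
    Tendsto (fun n => ((D hp) ^ (n - z.2)) w z) Ul (𝓝 (Yc hp z w)) :=
  ulim_tendsto _ ‖w‖ (fun _ => Dpow_coord_norm hp _ w z)

theorem Yc_norm (hp : p ≠ ∞) (z : ℕ × ℕ) (w : Wsp 𝕜 p) : ‖Yc hp z w‖ ≤ ‖w‖ :=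
  ulim_norm _ ‖w‖ (fun _ => Dpow_coord_norm hp _ w z)

/-- coordinates of the projection, linear map -/
def Yl (hp : p ≠ ∞) (z : ℕ × ℕ) : Wsp 𝕜 p →ₗ[𝕜] El 𝕜 p (2 ^ z.2) where
  toFun := Yc hp z
  map_add' v w := by
    refine ulim_eq _ _ ?_
    refine ((Yc_tendsto hp z v).add (Yc_tendsto hp z w)).congr fun n => ?_
    rw [map_add]
    rfl
  map_smul' c w := by
    refine ulim_eq _ _ ?_
    refine ((Yc_tendsto hp z w).const_smul c).congr fun n => ?_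
    rw [map_smul]
    rfl

/-- the projection onto the consistent families -/
def Y (hp : p ≠ ∞) : Wsp 𝕜 p →L[𝕜] Wsp 𝕜 p :=
  intoW (fun z => (Yl hp z).mkContinuous 1 (fun w => by rw [one_mul]; exact Yc_norm hp z w)) 1
    (fun z w => by rw [one_mul]; exact Yc_norm hp z w)

theorem Y_apply (hp : p ≠ ∞) (w : Wsp 𝕜 p) (z : ℕ × ℕ) : Y hp w z = Yc hp z w := rfl

theorem Y_norm (hp : p ≠ ∞) (w : Wsp 𝕜 p) : ‖Y hp w‖ ≤ ‖w‖ :=
  lp.norm_le_of_forall_le (norm_nonneg _) fun z => Yc_norm hp z w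

theorem D_Y (hp : p ≠ ∞) (w : Wsp 𝕜 p) : D hp (Y hp w) = Y hp w := by
  refine lp.ext (funext fun z => ?_)
  obtain ⟨k, m⟩ := z
  rw [D_apply, Y_apply, Y_apply, Y_apply]
  refine (ulim_eq _ _ ?_).symm
  have h1 := ((Yc_tendsto hp (2 * k, m + 1) w).add (Yc_tendsto hp (2 * k + 1, m + 1) w)).const_smul
    (2 : 𝕜)⁻¹
  have h2 := ((T hp m).continuous.tendsto _).comp h1
  refine Tendsto.congr' ?_ h2
  have h3 : ∀ᶠ n in (Ul : Filter ℕ), m + 1 ≤ n := Ul_le (eventually_ge_atTop (m + 1))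
  filter_upwards [h3] with n hn
  show T hp m ((2 : 𝕜)⁻¹ • (((D hp) ^ (n - (m + 1))) w ((2 * k, m + 1) : ℕ × ℕ) +
    ((D hp) ^ (n - (m + 1))) w ((2 * k + 1, m + 1) : ℕ × ℕ))) = ((D hp) ^ (n - m)) w ((k, m) : ℕ × ℕ)
  have h4 : n - m = (n - (m + 1)) + 1 := by omega
  have h5 : (D hp : Wsp 𝕜 p →L[𝕜] Wsp 𝕜 p) ^ (n - m) =
      D hp * (D hp : Wsp 𝕜 p →L[𝕜] Wsp 𝕜 p) ^ (n - (m + 1)) := by
    rw [h4]
    exact pow_succ' (D hp : Wsp 𝕜 p →L[𝕜] Wsp 𝕜 p) _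
  rw [h5]
  rfl

theorem Y_of_D (hp : p ≠ ∞) (w : Wsp 𝕜 p) (h : D hp w = w) : Y hp w = w := by
  have h1 : ∀ n, ((D hp) ^ n) w = w := by
    intro n
    induction n with
    | zero => rw [pow_zero]; rfl
    | succ n ih =>
      rw [pow_succ']
      show D hp (((D hp) ^ n) w) = w
      rw [ih, h]
  refine lp.ext (funext fun z => ?_)
  rw [Y_apply]
  refine ulim_eq _ _ ?_
  refine tendsto_const_nhds.congr fun n => ?_
  rw [h1]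

theorem D_RR (hp : p ≠ ∞) (f : LL 𝕜 p) : D hp (RR hp f) = RR hp f := by
  refine lp.ext (funext fun z => ?_)
  obtain ⟨k, m⟩ := z
  rw [D_apply, RR_apply, RR_apply, RR_apply, ← map_add, ← map_smul, T_P, av_half m k _ (LL_int f)]
  congr 1
  have h2 : ((2 : ℝ)⁻¹ : ℝ) • (av (m + 1) (2 * k) f + av (m + 1) (2 * k + 1) f) =
      (((2 : ℝ)⁻¹ : ℝ) : 𝕜) • (av (m + 1) (2 * k) f + av (m + 1) (2 * k + 1) f) := by
    rw [RCLike.real_smul_eq_coe_smul (K := 𝕜)]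
  rw [h2]
  congr 1
  push_cast
  rfl

end Pool.Agent.R276.LR
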