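import Pool.Agent.R276.LRf

set_option autoImplicit false
set_option linter.unusedSectionVars false

/-!
Dyadic martingales on the unit square.
-/

noncomputable section

open Filter Topology MeasureTheory
open scoped ENNReal

namespace Pool.Agent.R276.LR

/-- dyadic square containing a point -/
def kk (l : ℕ) (z : ℝ × ℝ) : ℕ × ℕ := (kap l z.1, kap l z.2)

theorem kk_meas (l : ℕ) : Measurable (kk l) :=
  ((kap_meas l).comp measurable_fst).prodMk ((kap_meas l).comp measurable_snd)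

theorem kk_half (l : ℕ) (z : ℝ × ℝ) : kk l z = ((kk (l + 1) z).1 / 2, (kk (l + 1) z).2 / 2) := by
  unfold kk
  rw [← kap_half, ← kap_half]

/-- the dyadic filtration -/
def Fil : Filtration ℕ (inferInstance : MeasurableSpace (ℝ × ℝ)) where
  seq l := (inferInstance : MeasurableSpace (ℕ × ℕ)).comap (kk l)
  mono' := monotone_nat_of_le_succ fun l => by
    rintro s ⟨B, _, rfl⟩
    refine ⟨(fun q : ℕ × ℕ => (q.1 / 2, q.2 / 2)) ⁻¹' B, MeasurableSet.of_discrete, ?_⟩
    ext z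
    show ((kk (l + 1) z).1 / 2, (kk (l + 1) z).2 / 2) ∈ B ↔ kk l z ∈ B
    rw [kk_half l z]
  le' l := by
    rintro s ⟨B, hB, rfl⟩
    exact kk_meas l hB

theorem ae_kk (l : ℕ) : ∀ᵐ z ∂(mu.prod mu), kap l z.1 < 2 ^ l ∧ kap l z.2 < 2 ^ l := by
  have h1 := Measure.quasiMeasurePreserving_fst (μ := mu) (ν := mu) |>.ae (kap_lt l)
  have h2 := Measure.quasiMeasurePreserving_snd (μ := mu) (ν := mu) |>.ae (kap_lt l)
  filter_upwards [h1, h2] with z h3 h4
  exact ⟨h3, h4⟩

theorem sm_kk {E : Type*} [NormedAddCommGroup E] (l : ℕ) (s : ℕ → ℕ → E) :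
    StronglyMeasurable (fun z : ℝ × ℝ => s (kap l z.1) (kap l z.2)) :=
  (StronglyMeasurable.of_discrete (f := fun q : ℕ × ℕ => s q.1 q.2)).comp_measurable (kk_meas l)

theorem int_kk {E : Type*} [NormedAddCommGroup E] (l : ℕ) (s : ℕ → ℕ → E) :
    Integrable (fun z : ℝ × ℝ => s (kap l z.1) (kap l z.2)) (mu.prod mu) := by
  refine Integrable.of_bound (sm_kk l s).aestronglyMeasurable
    (∑ K ∈ Finset.range (2 ^ l), ∑ J ∈ Finset.range (2 ^ l), ‖s K J‖) ?_
  filter_upwards [ae_kk l] with z hz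
  exact (Finset.single_le_sum (f := fun J => ‖s (kap l z.1) J‖) (fun _ _ => norm_nonneg _)
    (Finset.mem_range.2 hz.2)).trans
    (Finset.single_le_sum (f := fun K => ∑ J ∈ Finset.range (2 ^ l), ‖s K J‖)
      (fun _ _ => Finset.sum_nonneg fun _ _ => norm_nonneg _) (Finset.mem_range.2 hz.1))

theorem integral_kk (l : ℕ) (s : ℕ → ℕ → ℝ) :
    ∫ z, s (kap l z.1) (kap l z.2) ∂(mu.prod mu) =
      (2 ^ l : ℝ)⁻¹ * ∑ K ∈ Finset.range (2 ^ l),
        ((2 ^ l : ℝ)⁻¹ * ∑ J ∈ Finset.range (2 ^ l), s K J) := by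
  rw [integral_prod _ (int_kk l s)]
  have h1 : ∀ t, ∫ x, s (kap l t) (kap l x) ∂mu =
      (fun K => (2 ^ l : ℝ)⁻¹ * ∑ J ∈ Finset.range (2 ^ l), s K J) (kap l t) :=
    fun t => integral_kap l (s (kap l t))
  rw [integral_congr_ae (Eventually.of_forall h1), integral_kap l
    (fun K => (2 ^ l : ℝ)⁻¹ * ∑ J ∈ Finset.range (2 ^ l), s K J), smul_eq_mul]

theorem sum_double (n : ℕ) (f : ℕ → ℝ) :
    ∑ i ∈ Finset.range (2 * n), f i = ∑ i ∈ Finset.range n, (f (2 * i) + f (2 * i + 1)) := by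
  induction n with
  | zero => simp
  | succ n ih =>
    rw [show 2 * (n + 1) = 2 * n + 1 + 1 by ring, Finset.sum_range_succ, Finset.sum_range_succ,
      ih, Finset.sum_range_succ]
    ring

/-- consistency of the densities -/
def Cons (r : ℕ → ℕ → ℕ → ℝ) : Prop :=
  ∀ l K J, r l K J = (4 : ℝ)⁻¹ * (r (l + 1) (2 * K) (2 * J) + r (l + 1) (2 * K) (2 * J + 1) +
    (r (l + 1) (2 * K + 1) (2 * J) + r (l + 1) (2 * K + 1) (2 * J + 1)))

theorem set_eq (r : ℕ → ℕ → ℕ → ℝ) (hr : Cons r) (l : ℕ) (b : ℕ → ℕ → ℝ) :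
    ∫ z, (fun K J => b K J * r l K J) (kap l z.1) (kap l z.2) ∂(mu.prod mu) =
      ∫ z, (fun K J => b (K / 2) (J / 2) * r (l + 1) K J) (kap (l + 1) z.1) (kap (l + 1) z.2)
        ∂(mu.prod mu) := by
  rw [integral_kk l (fun K J => b K J * r l K J),
    integral_kk (l + 1) (fun K J => b (K / 2) (J / 2) * r (l + 1) K J),
    pow_succ' (2 : ℝ) l, pow_succ' (2 : ℕ) l, sum_double]
  simp only [sum_double]
  have h1 : ∀ K J, b K J * r l K J = (4 : ℝ)⁻¹ *
      (b (2 * K / 2) (2 * J / 2) * r (l + 1) (2 * K) (2 * J) +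
        b (2 * K / 2) ((2 * J + 1) / 2) * r (l + 1) (2 * K) (2 * J + 1) +
      (b ((2 * K + 1) / 2) (2 * J / 2) * r (l + 1) (2 * K + 1) (2 * J) +
        b ((2 * K + 1) / 2) ((2 * J + 1) / 2) * r (l + 1) (2 * K + 1) (2 * J + 1))) := by
    intro K J
    have e1 : ∀ a : ℕ, 2 * a / 2 = a := fun a => by omega
    have e2 : ∀ a : ℕ, (2 * a + 1) / 2 = a := fun a => by omega
    rw [e1, e1, e2, e2, hr l K J]
    ring
  simp only [h1]
  simp only [← Finset.mul_sum, Finset.sum_add_distrib, mul_add, mul_inv]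
  ring

/-- dyadic martingales -/
theorem mart (r : ℕ → ℕ → ℕ → ℝ) (hr : Cons r) :
    Martingale (fun l (z : ℝ × ℝ) => r l (kap l z.1) (kap l z.2)) Fil (mu.prod mu) := by
  refine martingale_of_setIntegral_eq_succ (fun l => ?_) (fun l => int_kk l (r l)) ?_
  · show StronglyMeasurable[(inferInstance : MeasurableSpace (ℕ × ℕ)).comap (kk l)] _
    exact (StronglyMeasurable.of_discrete (f := fun q : ℕ × ℕ => r l q.1 q.2)).comp_measurable
      (comap_measurable (kk l))
  · rintro l s ⟨B, _, rfl⟩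
    have hs : MeasurableSet (kk l ⁻¹' B) := kk_meas l MeasurableSet.of_discrete
    classical
    rw [← integral_indicator hs, ← integral_indicator hs]
    have h := set_eq r hr l (fun K J => if (K, J) ∈ B then 1 else 0)
    have h1 : ∀ z : ℝ × ℝ, (kk l ⁻¹' B).indicator
        (fun z : ℝ × ℝ => r l (kap l z.1) (kap l z.2)) z =
        (fun K J => (if (K, J) ∈ B then 1 else 0) * r l K J) (kap l z.1) (kap l z.2) := by
      intro z
      by_cases hz : z ∈ kk l ⁻¹' B
      · rw [Set.indicator_of_mem hz]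
        have hz' : (kap l z.1, kap l z.2) ∈ B := hz
        beta_reduce
        rw [if_pos hz', one_mul]
      · rw [Set.indicator_of_notMem hz]
        have hz' : (kap l z.1, kap l z.2) ∉ B := hz
        beta_reduce
        rw [if_neg hz', zero_mul]
    have h2 : ∀ z : ℝ × ℝ, (kk l ⁻¹' B).indicator
        (fun z : ℝ × ℝ => r (l + 1) (kap (l + 1) z.1) (kap (l + 1) z.2)) z =
        (fun K J => (if (K / 2, J / 2) ∈ B then 1 else 0) * r (l + 1) K J)
          (kap (l + 1) z.1) (kap (l + 1) z.2) := by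
      intro z
      by_cases hz : z ∈ kk l ⁻¹' B
      · rw [Set.indicator_of_mem hz]
        have hz' : (kap (l + 1) z.1 / 2, kap (l + 1) z.2 / 2) ∈ B := by
          rw [← kap_half, ← kap_half]
          exact hz
        beta_reduce
        rw [if_pos hz', one_mul]
      · rw [Set.indicator_of_notMem hz]
        have hz' : (kap (l + 1) z.1 / 2, kap (l + 1) z.2 / 2) ∉ B := by
          rw [← kap_half, ← kap_half]
          exact hz
        beta_reduce
        rw [if_neg hz', zero_mul]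
    rw [integral_congr_ae (Eventually.of_forall h1), integral_congr_ae (Eventually.of_forall h2)]
    exact h

theorem mart_conv (r : ℕ → ℕ → ℕ → ℝ) (hr : Cons r) (C : ℝ)
    (hC : ∀ l, (2 ^ l : ℝ)⁻¹ * ∑ K ∈ Finset.range (2 ^ l),
        ((2 ^ l : ℝ)⁻¹ * ∑ J ∈ Finset.range (2 ^ l), |r l K J|) ≤ C) :
    ∀ᵐ z ∂(mu.prod mu), ∃ c, Tendsto (fun l => r l (kap l z.1) (kap l z.2)) atTop (𝓝 c) := by
  refine Submartingale.exists_ae_tendsto_of_bdd (R := C.toNNReal) (mart r hr).submartingale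
    (fun l => ?_)
  rw [eLpNorm_one_eq_lintegral_enorm, ← ofReal_integral_norm_eq_lintegral_enorm (int_kk l (r l))]
  refine ENNReal.ofReal_le_ofReal ?_
  have h := integral_kk l (fun K J => |r l K J|)
  exact (le_of_eq h).trans (hC l)

end Pool.Agent.R276.LR
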