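import Pool.Agent.R276.LRg

set_option autoImplicit false
set_option linter.unusedSectionVars false

/-!
Differentiation along dyadic intervals.
-/

noncomputable section

open Filter Topology MeasureTheory
open scoped ENNReal

namespace Pool.Agent.R276.LR

theorem S_inter (m k : ℕ) (hk : k < 2 ^ m) :
    S m k ∩ Set.Icc 0 1 = Set.Ico ((k : ℝ) / 2 ^ m) (((k : ℝ) + 1) / 2 ^ m) := by
  have h2 : (0 : ℝ) < 2 ^ m := by positivity
  ext t
  constructor
  · rintro ⟨h, h0, h1⟩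
    exact (mem_S h0).1 h
  · rintro ⟨h0, h1⟩
    have ht : 0 ≤ t := le_trans (by positivity) h0
    refine ⟨(mem_S ht).2 ⟨h0, h1⟩, ht, h1.le.trans ?_⟩
    rw [div_le_one h2]
    exact_mod_cast hk

variable {E : Type*} [NormedAddCommGroup E] [NormedSpace ℝ E] [CompleteSpace E]

theorem av_eq_ball (l k : ℕ) (hk : k < 2 ^ l) (f : ℝ → E) :
    ⨍ y in Metric.closedBall (((k : ℝ) + 1 / 2) / 2 ^ l) (1 / 2 / 2 ^ l),
      (Set.Icc (0 : ℝ) 1).indicator f y ∂volume = av l k f := by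
  have h2 : (0 : ℝ) < 2 ^ l := by positivity
  have hb : Metric.closedBall (((k : ℝ) + 1 / 2) / 2 ^ l) (1 / 2 / 2 ^ l) =
      Set.Icc ((k : ℝ) / 2 ^ l) (((k : ℝ) + 1) / 2 ^ l) := by
    rw [Real.closedBall_eq_Icc]
    congr 1 <;> field_simp <;> ring
  have h1 : Set.Icc ((k : ℝ) / 2 ^ l) (((k : ℝ) + 1) / 2 ^ l) ⊆ Set.Icc (0 : ℝ) 1 := by
    refine Set.Icc_subset_Icc (by positivity) ?_
    rw [div_le_one h2]
    exact_mod_cast hk
  rw [hb, setAverage_eq, av_eq l k hk]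
  have h3 : volume.real (Set.Icc ((k : ℝ) / 2 ^ l) (((k : ℝ) + 1) / 2 ^ l)) = (2 ^ l : ℝ)⁻¹ := by
    rw [Real.volume_real_Icc, max_eq_left]
    · field_simp
      ring
    · rw [sub_nonneg]
      gcongr
      linarith
  rw [h3, inv_inv]
  congr 1
  rw [setIntegral_indicator measurableSet_Icc, Set.inter_eq_left.2 h1, mu,
    Measure.restrict_restrict (S_meas l k), S_inter l k hk, integral_Icc_eq_integral_Ico]

theorem av_tendsto (f : ℝ → E) (hf : Integrable f mu) :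
    ∀ᵐ t ∂mu, Tendsto (fun l => av l (kap l t) f) atTop (𝓝 (f t)) := by
  have hf0 : Integrable ((Set.Icc (0 : ℝ) 1).indicator f) volume := by
    rw [integrable_indicator_iff measurableSet_Icc]
    exact hf
  have h1 := IsUnifLocDoublingMeasure.ae_tendsto_average (μ := (volume : Measure ℝ))
    hf0.locallyIntegrable 1
  have h2 : ∀ᵐ t ∂mu, ∀ l, kap l t < 2 ^ l := ae_all_iff.2 kap_lt
  have h4 : ∀ᵐ t : ℝ ∂mu, t ∈ Set.Icc (0 : ℝ) 1 := ae_restrict_mem measurableSet_Icc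
  have h1' := ae_restrict_of_ae (s := Set.Icc (0 : ℝ) 1) h1
  filter_upwards [h1', h2, h4] with t h5 h6 h7
  have h8 := h5 (l := atTop) (fun l => ((kap l t : ℝ) + 1 / 2) / 2 ^ l) (fun l => 1 / 2 / 2 ^ l) ?_ ?_
  · rw [Set.indicator_of_mem h7] at h8
    refine h8.congr fun l => ?_
    exact av_eq_ball l (kap l t) (h6 l) f
  · refine tendsto_nhdsWithin_iff.2 ⟨?_, Eventually.of_forall fun l => ?_⟩
    · have h9 : Tendsto (fun l : ℕ => ((2 : ℝ)⁻¹) ^ l) atTop (𝓝 0) :=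
        tendsto_pow_atTop_nhds_zero_of_lt_one (by norm_num) (by norm_num)
      have h10 := h9.const_mul (1 / 2 : ℝ)
      rw [mul_zero] at h10
      refine h10.congr fun l => ?_
      rw [inv_pow, div_eq_mul_inv (1 / 2 : ℝ)]
    · show (0 : ℝ) < 1 / 2 / 2 ^ l
      positivity
  · refine Eventually.of_forall fun l => ?_
    have h9 := (mem_S (m := l) (k := kap l t) h7.1).1 rfl
    have h11 : (0 : ℝ) < 2 ^ l := by positivity
    rw [one_mul, Metric.mem_closedBall, Real.dist_eq, abs_le]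
    have h12 : ((kap l t : ℝ) + 1 / 2) / 2 ^ l = (kap l t : ℝ) / 2 ^ l + 1 / 2 / 2 ^ l := by
      rw [add_div]
    have h13 : ((kap l t : ℝ) + 1) / 2 ^ l = (kap l t : ℝ) / 2 ^ l + 1 / 2 / 2 ^ l +
        1 / 2 / 2 ^ l := by
      field_simp
      ring
    rw [h13] at h9
    rw [h12]
    constructor <;> linarith [h9.1, h9.2]

end Pool.Agent.R276.LR
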