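import Pool.Agent.R276.LRh

set_option autoImplicit false
set_option linter.unusedSectionVars false

/-!
Limits of consistent families; `L_∞(L_p)` is complemented in `W`.
-/

noncomputable section

open Filter Topology MeasureTheory
open scoped ENNReal

namespace Pool.Agent.R276.LR

variable {𝕜 : Type*} [RCLike 𝕜] {p : ℝ≥0∞} [Fact (1 ≤ p)]

/-- densities of a family -/
def rho (w : Wsp 𝕜 p) (l K J : ℕ) : 𝕜 := sf l (w ((K, l) : ℕ × ℕ)) J

theorem rho_add (v w : Wsp 𝕜 p) (l K J : ℕ) : rho (v + w) l K J = rho v l K J + rho w l K J :=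
  sf_add l _ _ J

theorem rho_smul (c : 𝕜) (w : Wsp 𝕜 p) (l K J : ℕ) : rho (c • w) l K J = c * rho w l K J :=
  sf_smul l c _ J

theorem rho_cons (hp : p ≠ ∞) (w : Wsp 𝕜 p) (h : D hp w = w) (l K J : ℕ) :
    rho w l K J = (4 : ℝ)⁻¹ • (rho w (l + 1) (2 * K) (2 * J) + rho w (l + 1) (2 * K) (2 * J + 1) +
    (rho w (l + 1) (2 * K + 1) (2 * J) + rho w (l + 1) (2 * K + 1) (2 * J + 1))) := by
  have h0 : rho w l K J = rho (D hp w) l K J := by rw [h]
  have hh : ∀ x : 𝕜, (2 : 𝕜)⁻¹ * x = (2 : ℝ)⁻¹ • x := by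
    intro x
    rw [RCLike.real_smul_eq_coe_mul]
    push_cast
    rfl
  rw [h0]
  unfold rho
  rw [D_apply, sf_T, sf_smul, sf_smul, sf_add, sf_add, hh, hh, ← smul_add, smul_smul]
  have e : ((2 : ℝ)⁻¹ * (2 : ℝ)⁻¹) = (4 : ℝ)⁻¹ := by norm_num
  rw [e]
  congr 1
  abel

theorem L1_le {E : Type*} [NormedAddCommGroup E] (g : Lp E p mu) : ∫ x, ‖g x‖ ∂mu ≤ ‖g‖ := by
  rw [Lp.norm_def, integral_norm_eq_lintegral_enorm (Lp_int g).aestronglyMeasurable,
    ← eLpNorm_one_eq_lintegral_enorm]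
  refine ENNReal.toReal_mono (Lp.memLp g).eLpNorm_ne_top ?_
  exact eLpNorm_le_eLpNorm_of_exponent_le Fact.out (Lp.memLp g).aestronglyMeasurable

theorem sf_L1 (hp : p ≠ ∞) (l : ℕ) (v : El 𝕜 p (2 ^ l)) :
    (2 ^ l : ℝ)⁻¹ * ∑ J ∈ Finset.range (2 ^ l), ‖sf l v J‖ ≤ ‖v‖ := by
  have h1 := integral_kap l (fun J => ‖sf l v J‖)
  rw [smul_eq_mul] at h1
  rw [← h1]
  refine le_trans (le_of_eq ?_) ((L1_le (emb hp l v)).trans (emb_norm hp l v))
  refine integral_congr_ae ?_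
  filter_upwards [emb_coe hp l v] with x hx
  rw [hx]

theorem rho_bound (hp : p ≠ ∞) (w : Wsp 𝕜 p) (l : ℕ) :
    (2 ^ l : ℝ)⁻¹ * ∑ K ∈ Finset.range (2 ^ l),
        ((2 ^ l : ℝ)⁻¹ * ∑ J ∈ Finset.range (2 ^ l), ‖rho w l K J‖) ≤ ‖w‖ := by
  rw [inv_mul_le_iff₀ (by positivity)]
  refine (Finset.sum_le_sum (fun K _ => (sf_L1 hp l _).trans
    (norm_coord_le w ((K, l) : ℕ × ℕ)))).trans ?_
  rw [Finset.sum_const, Finset.card_range, nsmul_eq_mul]
  push_cast
  exact le_rfl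

theorem rho_conv (hp : p ≠ ∞) (w : Wsp 𝕜 p) (h : D hp w = w) :
    ∀ᵐ z ∂(mu.prod mu), ∃ c, Tendsto (fun l => rho w l (kap l z.1) (kap l z.2)) atTop (𝓝 c) := by
  have h1 := mart_conv (fun l K J => RCLike.re (rho w l K J)) (fun l K J => by
    beta_reduce
    rw [rho_cons hp w h l K J]
    simp only [RCLike.smul_re, map_add]) ‖w‖ (fun l => by
    refine le_trans ?_ (rho_bound hp w l)
    gcongr with K _ J _
    exact RCLike.abs_re_le_norm _)
  have h2 := mart_conv (fun l K J => RCLike.im (rho w l K J)) (fun l K J => by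
    beta_reduce
    rw [rho_cons hp w h l K J]
    simp only [RCLike.smul_im, map_add]) ‖w‖ (fun l => by
    refine le_trans ?_ (rho_bound hp w l)
    gcongr with K _ J _
    exact RCLike.abs_im_le_norm _)
  filter_upwards [h1, h2] with z h3 h4
  obtain ⟨a, ha⟩ := h3
  obtain ⟨b, hb⟩ := h4
  refine ⟨(a : 𝕜) + (b : 𝕜) * RCLike.I, ?_⟩
  have h5 : Tendsto (fun l => ((RCLike.re (rho w l (kap l z.1) (kap l z.2)) : ℝ) : 𝕜) +
      ((RCLike.im (rho w l (kap l z.1) (kap l z.2)) : ℝ) : 𝕜) * RCLike.I) atTop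
      (𝓝 ((a : 𝕜) + (b : 𝕜) * RCLike.I)) :=
    ((RCLike.continuous_ofReal.tendsto a).comp ha).add
      (((RCLike.continuous_ofReal.tendsto b).comp hb).mul_const _)
  refine h5.congr fun l => ?_
  exact RCLike.re_add_im _

/-- `F` is the limit of the family `w` -/
def Lim (w : Wsp 𝕜 p) (F : LL 𝕜 p) : Prop :=
  ∀ᵐ t ∂mu, ∀ᵐ x ∂mu, Tendsto (fun l => rho w l (kap l t) (kap l x)) atTop (𝓝 ((F t) x))

theorem Lim_unique {w : Wsp 𝕜 p} {F G : LL 𝕜 p} (hF : Lim w F) (hG : Lim w G) : F = G := by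
  refine Lp.ext ?_
  filter_upwards [hF, hG] with t h1 h2
  refine Lp.ext ?_
  filter_upwards [h1, h2] with x h3 h4
  exact tendsto_nhds_unique h3 h4

theorem Lim_add {v w : Wsp 𝕜 p} {F G : LL 𝕜 p} (hF : Lim v F) (hG : Lim w G) :
    Lim (v + w) (F + G) := by
  filter_upwards [hF, hG, Lp.coeFn_add F G] with t h1 h2 h3
  rw [h3, Pi.add_apply]
  filter_upwards [h1, h2, Lp.coeFn_add (F t) (G t)] with x h4 h5 h6
  rw [h6, Pi.add_apply]
  refine (h4.add h5).congr fun l => ?_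
  rw [rho_add]

theorem Lim_smul {w : Wsp 𝕜 p} {F : LL 𝕜 p} (c : 𝕜) (hF : Lim w F) : Lim (c • w) (c • F) := by
  filter_upwards [hF, Lp.coeFn_smul c F] with t h1 h3
  rw [h3, Pi.smul_apply]
  filter_upwards [h1, Lp.coeFn_smul c (F t)] with x h4 h6
  rw [h6, Pi.smul_apply, smul_eq_mul]
  refine (h4.const_mul c).congr fun l => ?_
  rw [rho_smul]

theorem sf_eLpNorm (hp : p ≠ ∞) (l : ℕ) (v : El 𝕜 p (2 ^ l)) :
    eLpNorm (fun x => sf l v (kap l x)) p mu ≤ ENNReal.ofReal ‖v‖ := by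
  rw [← ENNReal.ofReal_toReal (sf_memLp l v).eLpNorm_ne_top]
  refine ENNReal.ofReal_le_ofReal ?_
  have h := embL_norm hp l v
  rwa [Lp.norm_def, eLpNorm_congr_ae (embL_coe l v)] at h

theorem exists_lim (hp : p ≠ ∞) (w : Wsp 𝕜 p) (h : D hp w = w) :
    ∃ F : LL 𝕜 p, Lim w F ∧ ‖F‖ ≤ ‖w‖ := by
  obtain ⟨G, hGm, hG⟩ := exists_stronglyMeasurable_limit_of_tendsto_ae
    (fun l => (sm_kk l (rho w l)).aestronglyMeasurable (μ := mu.prod mu)) (rho_conv hp w h)
  have hG2 : ∀ᵐ t ∂mu, ∀ᵐ x ∂mu,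
      Tendsto (fun l => rho w l (kap l t) (kap l x)) atTop (𝓝 (G (t, x))) :=
    Measure.ae_ae_of_ae_prod hG
  have hGt : ∀ t, StronglyMeasurable (fun x => G (t, x)) := fun t =>
    hGm.comp_measurable measurable_prodMk_left
  -- the norm of the slices
  have hnorm : ∀ᵐ t ∂mu, eLpNorm (fun x => G (t, x)) p mu ≤ ENNReal.ofReal ‖w‖ := by
    filter_upwards [hG2] with t ht
    refine (Lp.eLpNorm_lim_le_liminf_eLpNorm
      (fun l => (sm_kap l (rho w l (kap l t))).aestronglyMeasurable) _ ht).trans ?_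
    refine liminf_le_of_le (by isBoundedDefault) fun b hb => ?_
    obtain ⟨l, hl⟩ := hb.exists
    refine hl.trans ((sf_eLpNorm hp l _).trans (ENNReal.ofReal_le_ofReal ?_))
    exact norm_coord_le w _
  have hmem : ∀ᵐ t ∂mu, MemLp (fun x => G (t, x)) p mu := by
    filter_upwards [hnorm] with t ht
    exact ⟨(hGt t).aestronglyMeasurable, lt_of_le_of_lt ht ENNReal.ofReal_lt_top⟩
  classical
  let F : ℝ → Lp 𝕜 p mu := fun t =>
    if ht : MemLp (fun x => G (t, x)) p mu then ht.toLp _ else 0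
  have hF : ∀ᵐ t ∂mu, ∀ᵐ x ∂mu, F t x = G (t, x) := by
    filter_upwards [hmem] with t ht
    have : F t = ht.toLp _ := dif_pos ht
    rw [this]
    exact ht.coeFn_toLp
  have hFn : ∀ᵐ t ∂mu, ‖F t‖ ≤ ‖w‖ := by
    filter_upwards [hF, hnorm] with t h1 h2
    rw [Lp.norm_def, eLpNorm_congr_ae h1]
    exact (ENNReal.toReal_mono ENNReal.ofReal_ne_top h2).trans
      (le_of_eq (ENNReal.toReal_ofReal (norm_nonneg _)))
  -- measurability
  have hFm : AEStronglyMeasurable F mu := by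
    let Fa : ℕ → ℝ → Lp 𝕜 p mu := fun a t =>
      emb hp a (El.mk (fun j : Fin (2 ^ a) => (cc p a)⁻¹ • av a j (fun x => G (t, x))))
    have hco : ∀ a (j : ℕ), StronglyMeasurable (fun t => av a j (fun x => G (t, x))) := by
      intro a j
      have h1 : StronglyMeasurable (fun t => ∫ x, G (t, x) ∂(mu.restrict (S a j))) :=
        hGm.integral_prod_right'
      exact h1.const_smul _
    have hFa : ∀ a, StronglyMeasurable (Fa a) := by
      intro a
      have h1 : Measurable (fun t => (fun j : Fin (2 ^ a) =>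
          (cc p a)⁻¹ • av a j (fun x => G (t, x)))) :=
        measurable_pi_iff.2 fun j => ((hco a j).const_smul _).measurable
      have h2 : Continuous (fun f : Fin (2 ^ a) → 𝕜 => (El.mk f : El 𝕜 p (2 ^ a))) :=
        PiLp.continuous_toLp p (fun _ : Fin (2 ^ a) => 𝕜)
      exact ((emb hp a).continuous.comp h2).comp_stronglyMeasurable h1.stronglyMeasurable
    refine aestronglyMeasurable_of_tendsto_ae atTop (fun a => (hFa a).aestronglyMeasurable) ?_
    filter_upwards [hF] with t ht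
    refine (Q_tendsto hp (F t)).congr fun a => ?_
    show emb hp a (P hp a (F t)) = emb hp a _
    congr 1
    refine El.ext fun j => ?_
    rw [P_co, El.co_mk, av_congr a j ht]
  have hFL : MemLp F ∞ mu := MemLp.of_bound hFm ‖w‖ hFn
  refine ⟨hFL.toLp F, ?_, ?_⟩
  · filter_upwards [hFL.coeFn_toLp, hF, hG2] with t h1 h2 h3
    rw [h1]
    filter_upwards [h2, h3] with x h4 h5
    rw [h4]
    exact h5
  · refine norm_le_of_bound _ (norm_nonneg _) ?_
    filter_upwards [hFL.coeFn_toLp, hFn] with t h1 h2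
    rw [h1]
    exact h2

theorem Lim_RR (hp : p ≠ ∞) (f : LL 𝕜 p) : Lim (RR hp f) f := by
  obtain ⟨F, hF, _⟩ := exists_lim hp (RR hp f) (D_RR hp f)
  have h1 : F = f := by
    refine Lp.ext ?_
    filter_upwards [hF, av_tendsto f (LL_int f)] with t h2 h3
    -- convergence in `L_p`
    have h4 : Tendsto (fun l => emb hp l (P hp l (av l (kap l t) f))) atTop (𝓝 (f t)) := by
      have h5 : Tendsto (fun l => emb hp l (P hp l (av l (kap l t) f - f t))) atTop (𝓝 0) := by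
        have h6 : Tendsto (fun l => ‖av l (kap l t) f - f t‖) atTop (𝓝 0) := by
          have := (h3.sub_const (f t)).norm
          simpa using this
        exact squeeze_zero_norm (fun l => (emb_norm hp l _).trans (P_norm hp l _)) h6
      have h7 := h5.add (Q_tendsto hp (f t))
      rw [zero_add] at h7
      refine h7.congr fun l => ?_
      rw [← map_add, ← map_add, sub_add_cancel]
    have h5 : TendstoInMeasure mu
        (fun l => (emb hp l (P hp l (av l (kap l t) f)) : ℝ → 𝕜)) atTop (f t) :=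
      tendstoInMeasure_of_tendsto_Lp h4
    obtain ⟨ns, hns, h6⟩ := h5.exists_seq_tendsto_ae
    have h7 : ∀ᵐ x ∂mu, ∀ l, (emb hp l (P hp l (av l (kap l t) f)) : Lp 𝕜 p mu) x =
        rho (RR hp f) l (kap l t) (kap l x) := ae_all_iff.2 fun l => emb_coe hp l _
    refine Lp.ext ?_
    filter_upwards [h2, h6, h7] with x h8 h9 h10
    refine tendsto_nhds_unique (h8.comp hns.tendsto_atTop) ?_
    refine h9.congr fun i => ?_
    exact h10 (ns i)
  rw [← h1]
  rw [h1] at hF ⊢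
  exact hF

/-- the left inverse, linear map -/
def Lal (hp : p ≠ ∞) : Wsp 𝕜 p →ₗ[𝕜] LL 𝕜 p where
  toFun w := (exists_lim hp (Y hp w) (D_Y hp w)).choose
  map_add' v w := by
    refine Lim_unique (exists_lim hp (Y hp (v + w)) (D_Y hp (v + w))).choose_spec.1 ?_
    have h := Lim_add (exists_lim hp (Y hp v) (D_Y hp v)).choose_spec.1
      (exists_lim hp (Y hp w) (D_Y hp w)).choose_spec.1
    rwa [← map_add] at h
  map_smul' c w := by
    refine Lim_unique (exists_lim hp (Y hp (c • w)) (D_Y hp (c • w))).choose_spec.1 ?_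
    have h := Lim_smul c (exists_lim hp (Y hp w) (D_Y hp w)).choose_spec.1
    rwa [← map_smul] at h

theorem Lal_spec (hp : p ≠ ∞) (w : Wsp 𝕜 p) : Lim (Y hp w) (Lal hp w) :=
  (exists_lim hp (Y hp w) (D_Y hp w)).choose_spec.1

theorem Lal_norm (hp : p ≠ ∞) (w : Wsp 𝕜 p) : ‖Lal hp w‖ ≤ ‖w‖ :=
  (exists_lim hp (Y hp w) (D_Y hp w)).choose_spec.2.trans (Y_norm hp w)

/-- `L_∞(L_p)` is complemented in `W` -/
theorem L_compl_W (hp : p ≠ ∞) : Compl 𝕜 (LL 𝕜 p) (Wsp 𝕜 p) := by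
  refine ⟨RR hp, (Lal hp).mkContinuous 1 (fun v => by rw [one_mul]; exact Lal_norm hp v),
    fun f => ?_⟩
  show Lal hp (RR hp f) = f
  refine Lim_unique (Lal_spec hp (RR hp f)) ?_
  rw [Y_of_D hp _ (D_RR hp f)]
  exact Lim_RR hp f

/-- `L_∞(L_p) ≃ B` -/
theorem L_equiv_B (hp : p ≠ ∞) : Nonempty (LL 𝕜 p ≃L[𝕜] Bsp 𝕜 p) := by
  obtain ⟨e1⟩ := pelczynski (Wself (𝕜 := 𝕜) (p := p)) (L_compl_W hp) (W_compl_L hp)
  obtain ⟨e2⟩ := W_equiv_B (𝕜 := 𝕜) hp
  exact ⟨e1.trans e2.symm⟩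

end Pool.Agent.R276.LR
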