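import Pool.Agent.TH326.L1b

set_option autoImplicit false

/-!
Upper power type estimates of exponent less than one replace weak unconditional Cauchyness in the
smallness results.
-/

namespace Pool.Agent.R276.P

open scoped BigOperators
open Pool.Agent.TH326.L1 (RL M Phi M_eq M_add M_sub M_smul M_neg M_zero M_congr M_sum M_close
  Phi_add_left Phi_smul_left Phi_single Phi_add_right Phi_smul_right Phi_zero_left
  cl cl_of_abs_le abs_cl_le abs_cl_le_abs abs_sub_cl RL_norm RL_tent exists_radius tight1_aux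
  tight2_aux net)
open Pool.Agent.TH326

variable {E : Type} [NormedAddCommGroup E] [NormedSpace ℝ E]

/-- upper estimate of exponent `α` for the sequence `μ` -/
def WA (μ : ℕ → E →₀ ℝ) (b α : ℝ) : Prop :=
  ∀ θ : ℕ →₀ ℝ, (∀ j, |θ j| ≤ 1) → ∀ (g : E → ℝ) (K : ℝ), 0 ≤ K → RL K g →
    Phi μ θ g ≤ b * (θ.support.card : ℝ) ^ α * K

omit [NormedSpace ℝ E] in
theorem WA.single {μ : ℕ → E →₀ ℝ} {b α : ℝ} (hb : 0 ≤ b) (hW : WA μ b α) (j : ℕ) {g : E → ℝ}
    {K : ℝ} (hK : 0 ≤ K) (hg : RL K g) : |M (μ j) g| ≤ b * K := by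
  have h0 : ∀ s : ℝ, s ≠ 0 → (Finsupp.single j s).support.card = 1 := by
    intro s hs
    rw [Finsupp.support_single _ hs]
    simp
  rw [abs_le]
  have h1 := hW (Finsupp.single j 1) (fun i => by
    rw [Finsupp.single_apply]; split_ifs <;> simp) g K hK hg
  have h2 := hW (Finsupp.single j (-1)) (fun i => by
    rw [Finsupp.single_apply]; split_ifs <;> simp) g K hK hg
  rw [Phi_single, h0 _ (by norm_num)] at h1 h2
  simp only [Nat.cast_one, Real.one_rpow, mul_one] at h1 h2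
  constructor <;> linarith

/-- sublinear growth -/
theorem exists_large {α c δ : ℝ} (hα : α < 1) (hδ : 0 < δ) :
    ∃ K : ℕ, c * (K : ℝ) ^ α < K * δ := by
  have h1 : Filter.Tendsto (fun n : ℕ => ((n : ℝ)) ^ (1 - α)) Filter.atTop Filter.atTop :=
    (tendsto_rpow_atTop (by linarith)).comp tendsto_natCast_atTop_atTop
  obtain ⟨K, hK1, hK2⟩ := ((h1.eventually_gt_atTop (c / δ)).and
    (Filter.eventually_gt_atTop 0)).exists
  refine ⟨K, ?_⟩
  have hK0 : (0 : ℝ) < K := by exact_mod_cast hK2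
  rw [div_lt_iff₀ hδ] at hK1
  have h2 : (K : ℝ) ^ (1 - α) * (K : ℝ) ^ α = K := by
    rw [← Real.rpow_add hK0]; simp
  have h3 : 0 < (K : ℝ) ^ α := Real.rpow_pos_of_pos hK0 α
  calc c * (K : ℝ) ^ α < (K : ℝ) ^ (1 - α) * δ * (K : ℝ) ^ α := by
        exact mul_lt_mul_of_pos_right hK1 h3
    _ = ((K : ℝ) ^ (1 - α) * (K : ℝ) ^ α) * δ := by ring
    _ = K * δ := by rw [h2]

omit [NormedSpace ℝ E] in
theorem card_add_single (θ : ℕ →₀ ℝ) (σ : ℝ) (j K : ℕ) (h : θ.support.card ≤ K) :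
    (θ + σ • Finsupp.single j (1:ℝ)).support.card ≤ K + 1 := by
  classical
  refine (Finset.card_le_card Finsupp.support_add).trans ((Finset.card_union_le _ _).trans ?_)
  refine add_le_add h ?_
  rw [Finsupp.smul_single]
  exact (Finset.card_le_card Finsupp.support_single_subset).trans (by simp)

omit [NormedSpace ℝ E] in
/-- Greedy lemma. -/
theorem greedy {μ : ℕ → E →₀ ℝ} {b α C δ : ℝ} (hb : 0 ≤ b) (hα0 : 0 ≤ α) (hα : α < 1)
    (hW : WA μ b α) (hδ : 0 < δ) (hC : 0 ≤ C)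
    (Q : (E → ℝ) → Prop) (h0 : Q 0) (hLip : ∀ G, Q G → RL C G)
    (hstep : ∀ G, Q G → ∀ n : ℕ, ∃ j, n ≤ j ∧ ∃ h, δ ≤ M (μ j) h ∧ Q (G + h) ∧ Q (G - h)) :
    False := by
  have key : ∀ K : ℕ, ∃ (G : E → ℝ) (θ : ℕ →₀ ℝ) (n : ℕ), Q G ∧ (∀ j, |θ j| ≤ 1) ∧
      (∀ j, n ≤ j → θ j = 0) ∧ θ.support.card ≤ K ∧ (K : ℝ) * δ ≤ Phi μ θ G := by
    intro K
    induction K with
    | zero => exact ⟨0, 0, 0, h0, by simp, by simp, by simp, by simp [Phi_zero_left]⟩
    | succ K ih =>
      obtain ⟨G, θ, n, hG, hθ, hn, hc, hK⟩ := ih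
      obtain ⟨j, hj, h, hh, hp, hm⟩ := hstep G hG n
      have habs : ∀ σ : ℝ, |σ| ≤ 1 → ∀ i, |(θ + σ • Finsupp.single j (1:ℝ)) i| ≤ 1 := by
        intro σ hσ i
        simp only [Finsupp.add_apply, Finsupp.smul_apply, smul_eq_mul, Finsupp.single_apply]
        by_cases hij : j = i
        · subst hij
          simp [hn j hj, hσ]
        · simp [hij, hθ i]
      have hsup : ∀ σ : ℝ, ∀ i, j + 1 ≤ i → (θ + σ • Finsupp.single j (1:ℝ)) i = 0 := by
        intro σ i hi
        simp only [Finsupp.add_apply, Finsupp.smul_apply, smul_eq_mul, Finsupp.single_apply]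
        rw [hn i (by omega), if_neg (by omega)]
        simp
      by_cases hs : 0 ≤ Phi μ θ h + M (μ j) G
      · refine ⟨G + h, θ + (1:ℝ) • Finsupp.single j (1:ℝ), j + 1, hp, habs 1 (by simp), hsup 1,
          card_add_single θ 1 j K hc, ?_⟩
        rw [Phi_add_left, Phi_smul_left, Phi_add_right, Phi_add_right, Phi_single, Phi_single]
        push_cast
        linarith
      · refine ⟨G - h, θ + (-1:ℝ) • Finsupp.single j (1:ℝ), j + 1, hm, habs (-1) (by simp),
          hsup (-1), card_add_single θ (-1) j K hc, ?_⟩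
        rw [sub_eq_add_neg, ← neg_one_smul ℝ h, Phi_add_left, Phi_smul_left, Phi_add_right,
          Phi_add_right, Phi_single, Phi_single, Phi_smul_right, M_smul]
        push_cast
        linarith
  obtain ⟨K, hK⟩ := exists_large (c := b * C) hα hδ
  obtain ⟨G, θ, n, hG, hθ, hn, hc, hKδ⟩ := key K
  have h1 := hW θ hθ G C hC (hLip G hG)
  have h2 : ((θ.support.card : ℝ)) ^ α ≤ (K : ℝ) ^ α :=
    Real.rpow_le_rpow (Nat.cast_nonneg _) (by exact_mod_cast hc) hα0
  have h3 : b * (θ.support.card : ℝ) ^ α * C ≤ b * (K : ℝ) ^ α * C :=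
    mul_le_mul_of_nonneg_right (mul_le_mul_of_nonneg_left h2 hb) hC
  have h4 : b * (K : ℝ) ^ α * C = b * C * (K : ℝ) ^ α := by ring
  linarith

omit [NormedSpace ℝ E] in
/-- uniform tightness at infinity -/
theorem tight1 {μ : ℕ → E →₀ ℝ} {b α : ℝ} (hb : 0 ≤ b) (hα0 : 0 ≤ α) (hα : α < 1)
    (hW : WA μ b α) {δ : ℝ} (hδ : 0 < δ) :
    ∃ ρ : ℝ, 0 ≤ ρ ∧ ∃ p : ℕ, ∀ j, p ≤ j → ∀ f : E → ℝ, RL 1 f →
      (∀ x, |f x| ≤ max (‖x‖ - ρ) 0) → M (μ j) f ≤ δ := by
  by_contra hcon
  push Not at hcon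
  refine greedy hb hα0 hα hW hδ zero_le_one (fun G => RL 1 G ∧ ∃ ρ : ℝ, 0 ≤ ρ ∧
    ∀ x, |G x| ≤ max (ρ - ‖x‖) 0) ⟨L1.RL.zero zero_le_one, 0, le_rfl, fun x => by simp⟩
    (fun G hG => hG.1) ?_
  rintro G ⟨hG, ρ, hρ, hGρ⟩ n
  obtain ⟨j, hj, f, hf, hfρ, hfM⟩ := hcon ρ hρ n
  obtain ⟨R, hR, hRx⟩ := exists_radius (μ j)
  set ρ' : ℝ := max ρ (2 * R) with hρ'
  have hρρ' : ρ ≤ ρ' := le_max_left _ _
  have h2R : 2 * R ≤ ρ' := le_max_right _ _
  set u : E → ℝ := fun x => max (ρ' - ‖x‖) 0 with hu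
  have hu0 : ∀ x, 0 ≤ u x := fun x => le_max_right _ _
  set h : E → ℝ := fun x => cl (u x) (f x) with hh
  have hh1 : RL 1 h := hf.cl (RL_tent ρ')
  have hf0 : f 0 = 0 := by
    have := hfρ 0
    rw [norm_zero, max_eq_right (by linarith)] at this
    exact abs_eq_zero.mp (le_antisymm this (abs_nonneg _))
  have hfn : ∀ x, |f x| ≤ ‖x‖ := by
    intro x
    have := hf x 0
    rwa [hf0, sub_zero, sub_zero, one_mul] at this
  have hMh : M (μ j) h = M (μ j) f := by
    refine M_congr _ ?_ fun x hx => ?_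
    · simp only [hh]
      refine cl_of_abs_le ?_
      rw [hf0, abs_zero]
      exact hu0 0
    · simp only [hh]
      refine cl_of_abs_le ?_
      refine (hfn x).trans ?_
      simp only [hu]
      refine le_trans ?_ (le_max_left _ _)
      have := hRx x hx
      linarith
  have hhρ : ∀ x, |h x| ≤ max (‖x‖ - ρ) 0 := fun x =>
    (abs_cl_le_abs _ (hu0 x)).trans (hfρ x)
  have hh' : ∀ x, |h x| ≤ max (ρ' - ‖x‖) 0 := fun x => abs_cl_le _ (hu0 x)
  refine ⟨j, hj, h, ?_, ?_, ?_⟩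
  · rw [hMh]; exact le_of_lt hfM
  · obtain ⟨h1, h2⟩ := tight1_aux hρρ' hG hh1 hGρ hhρ hh'
    exact ⟨h1, ρ', hρ.trans hρρ', h2⟩
  · obtain ⟨h1, h2⟩ := tight1_aux (h := -h) hρρ' hG hh1.neg hGρ
      (fun x => by rw [Pi.neg_apply, abs_neg]; exact hhρ x)
      (fun x => by rw [Pi.neg_apply, abs_neg]; exact hh' x)
    rw [sub_eq_add_neg]
    exact ⟨h1, ρ', hρ.trans hρρ', h2⟩

omit [NormedSpace ℝ E] in
/-- uniform tightness: bounded functions vanishing near a finite set -/
theorem tight2 {μ : ℕ → E →₀ ℝ} {b α : ℝ} (hb : 0 ≤ b) (hα0 : 0 ≤ α) (hα : α < 1)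
    (hW : WA μ b α) {R κ δ : ℝ} (hR : 0 < R) (hκ : 0 < κ)
    (hδ : 0 < δ) :
    ∃ K : Finset E, ∃ p : ℕ, ∀ j, p ≤ j → ∀ f : E → ℝ, RL 1 f →
      (∀ x, |f x| ≤ R) → (∀ x, ∀ y ∈ K, ‖x - y‖ ≤ κ → f x = 0) → M (μ j) f ≤ δ := by
  classical
  by_contra hcon
  push Not at hcon
  set C : ℝ := 1 + 4 * R / κ with hCdef
  have hRκ : 0 ≤ 4 * R / κ := by positivity
  have hC1 : 1 ≤ C := by linarith
  refine greedy hb hα0 hα hW hδ (by linarith : (0:ℝ) ≤ C) (fun G => RL C G ∧ (∀ x, |G x| ≤ R) ∧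
    ∃ A : Finset E, ∀ x, G x ≠ 0 → ∃ y ∈ A, ‖x - y‖ ≤ κ / 4)
    ⟨L1.RL.zero (by linarith), fun x => by simp [hR.le], ∅, fun x hx => absurd rfl hx⟩
    (fun G hG => hG.1) ?_
  rintro G ⟨hG, hGR, A, hGA⟩ n
  obtain ⟨j, hj, f, hf, hfR, hfA, hfM⟩ := hcon (insert 0 A) n
  set S : Finset E := insert 0 (μ j).support with hS
  have hSne : (S : Set E).Nonempty := ⟨0, by simp [hS]⟩
  set u : E → ℝ := fun x => max (R - 4 * R / κ * Metric.infDist x (S : Set E)) 0 with hu
  have hu0 : ∀ x, 0 ≤ u x := fun x => le_max_right _ _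
  have huL : RL C u := by
    have h1 : RL C (fun x : E => R - 4 * R / κ * Metric.infDist x (S : Set E)) := by
      intro x y
      have h2 := (Metric.lipschitz_infDist_pt (S : Set E)).dist_le_mul x y
      rw [NNReal.coe_one, one_mul, Real.dist_eq, dist_eq_norm] at h2
      calc |R - 4 * R / κ * Metric.infDist x (S : Set E) -
              (R - 4 * R / κ * Metric.infDist y (S : Set E))|
          = |-(4 * R / κ * (Metric.infDist x (S : Set E) - Metric.infDist y (S : Set E)))| := by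
            ring_nf
        _ = 4 * R / κ * |Metric.infDist x (S : Set E) - Metric.infDist y (S : Set E)| := by
            rw [abs_neg, abs_mul, abs_of_nonneg hRκ]
        _ ≤ 4 * R / κ * ‖x - y‖ := mul_le_mul_of_nonneg_left h2 hRκ
        _ ≤ C * ‖x - y‖ := mul_le_mul_of_nonneg_right (by linarith) (norm_nonneg _)
    exact h1.max (L1.RL.const (by linarith) 0)
  set h : E → ℝ := fun x => cl (u x) (f x) with hh
  have hhL : RL C h := (hf.mono hC1).cl huL
  have hhS : ∀ x ∈ S, h x = f x := by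
    intro x hx
    simp only [hh]
    refine cl_of_abs_le ?_
    have : u x = R := by
      simp only [hu]
      rw [Metric.infDist_zero_of_mem (by exact_mod_cast hx), mul_zero, sub_zero,
        max_eq_left hR.le]
    rw [this]; exact hfR x
  have hMh : M (μ j) h = M (μ j) f := by
    refine M_congr _ (hhS 0 (by simp [hS])) fun x hx => hhS x (by simp [hS, hx])
  have hhR : ∀ x, |h x| ≤ R := fun x => (abs_cl_le_abs _ (hu0 x)).trans (hfR x)
  have hhf : ∀ x, h x ≠ 0 → f x ≠ 0 := by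
    intro x hx h0
    apply hx
    have := abs_cl_le_abs (f x) (hu0 x)
    rw [h0, abs_zero] at this
    simp only [hh]
    rw [h0]
    exact abs_eq_zero.mp (le_antisymm this (abs_nonneg _))
  have hhA : ∀ x, h x ≠ 0 → ∀ y ∈ A, κ < ‖x - y‖ := by
    intro x hx y hy
    by_contra hle
    exact hhf x hx (hfA x y (Finset.mem_insert_of_mem hy) (not_lt.mp hle))
  have hhA' : ∀ x, h x ≠ 0 → ∃ y ∈ S, ‖x - y‖ ≤ κ / 4 := by
    intro x hx
    have hux : u x ≠ 0 := by
      intro h0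
      apply hx
      have := abs_cl_le (f x) (hu0 x)
      rw [h0] at this
      simp only [hh]
      rw [h0]
      exact abs_eq_zero.mp (le_antisymm this (abs_nonneg _))
    have hpos : 0 < R - 4 * R / κ * Metric.infDist x (S : Set E) := by
      by_contra hle
      apply hux
      simp only [hu]
      rw [max_eq_right (not_lt.mp hle)]
    have hlt : Metric.infDist x (S : Set E) < κ / 4 := by
      by_contra hle
      have h1 := mul_le_mul_of_nonneg_left (not_lt.mp hle) hRκ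
      have h2 : 4 * R / κ * (κ / 4) = R := by field_simp
      linarith
    obtain ⟨y, hy, hxy⟩ := (Metric.infDist_lt_iff hSne).mp hlt
    refine ⟨y, by exact_mod_cast hy, ?_⟩
    rw [dist_eq_norm] at hxy
    exact hxy.le
  refine ⟨j, hj, h, ?_, ?_, ?_⟩
  · rw [hMh]; exact hfM.le
  · obtain ⟨h1, h2, h3⟩ := tight2_aux hR hκ (by linarith) hG hhL hGR hhR hGA hhA hhA'
    exact ⟨h1, h2, _, h3⟩
  · obtain ⟨h1, h2, h3⟩ := tight2_aux (h := -h) hR hκ (by linarith) hG hhL.neg hGR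
      (fun x => by rw [Pi.neg_apply, abs_neg]; exact hhR x) hGA
      (fun x hx => hhA x (by simpa using hx)) (fun x hx => hhA' x (by simpa using hx))
    rw [sub_eq_add_neg]
    exact ⟨h1, h2, _, h3⟩

omit [NormedSpace ℝ E] in
theorem decay {μ : ℕ → E →₀ ℝ} {b α : ℝ} (hb : 0 ≤ b) (hα0 : 0 ≤ α) (hα : α < 1)
    (hW : WA μ b α) {q : E → ℝ} {K : ℝ} (hK : 0 ≤ K)
    (hq : RL K q) {δ : ℝ} (hδ : 0 < δ) : ∃ p : ℕ, ∀ j, p ≤ j → |M (μ j) q| ≤ δ := by
  by_contra hcon
  push Not at hcon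
  have key : ∀ k : ℕ, ∃ (θ : ℕ →₀ ℝ) (n : ℕ), (∀ j, |θ j| ≤ 1) ∧
      (∀ j, n ≤ j → θ j = 0) ∧ θ.support.card ≤ k ∧ (k : ℝ) * δ ≤ Phi μ θ q := by
    intro k
    induction k with
    | zero => exact ⟨0, 0, by simp, by simp, by simp, by simp [Phi_zero_left]⟩
    | succ k ih =>
      obtain ⟨θ, n, hθ, hn, hc, hk⟩ := ih
      obtain ⟨j, hj, hjq⟩ := hcon n
      have habs : ∀ σ : ℝ, |σ| ≤ 1 → ∀ i, |(θ + σ • Finsupp.single j (1:ℝ)) i| ≤ 1 := by
        intro σ hσ i
        simp only [Finsupp.add_apply, Finsupp.smul_apply, smul_eq_mul, Finsupp.single_apply]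
        by_cases hij : j = i
        · subst hij
          simp [hn j hj, hσ]
        · simp [hij, hθ i]
      have hsup : ∀ σ : ℝ, ∀ i, j + 1 ≤ i → (θ + σ • Finsupp.single j (1:ℝ)) i = 0 := by
        intro σ i hi
        simp only [Finsupp.add_apply, Finsupp.smul_apply, smul_eq_mul, Finsupp.single_apply]
        rw [hn i (by omega), if_neg (by omega)]
        simp
      rcases le_total 0 (M (μ j) q) with hs | hs
      · refine ⟨θ + (1:ℝ) • Finsupp.single j (1:ℝ), j + 1, habs 1 (by simp), hsup 1,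
          card_add_single θ 1 j k hc, ?_⟩
        rw [Phi_add_left, Phi_smul_left, Phi_single]
        rw [abs_of_nonneg hs] at hjq
        push_cast
        linarith
      · refine ⟨θ + (-1:ℝ) • Finsupp.single j (1:ℝ), j + 1, habs (-1) (by simp),
          hsup (-1), card_add_single θ (-1) j k hc, ?_⟩
        rw [Phi_add_left, Phi_smul_left, Phi_single]
        rw [abs_of_nonpos hs] at hjq
        push_cast
        linarith
  obtain ⟨k, hk⟩ := exists_large (c := b * K) hα hδ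
  obtain ⟨θ, n, hθ, hn, hc, hkδ⟩ := key k
  have h1 := hW θ hθ q K hK hq
  have h2 : ((θ.support.card : ℝ)) ^ α ≤ (k : ℝ) ^ α :=
    Real.rpow_le_rpow (Nat.cast_nonneg _) (by exact_mod_cast hc) hα0
  have h3 : b * (θ.support.card : ℝ) ^ α * K ≤ b * (k : ℝ) ^ α * K :=
    mul_le_mul_of_nonneg_right (mul_le_mul_of_nonneg_left h2 hb) hK
  have h4 : b * (k : ℝ) ^ α * K = b * K * (k : ℝ) ^ α := by ring
  linarith

omit [NormedSpace ℝ E] in
/-- small sup norm functions -/
theorem smallsup {μ : ℕ → E →₀ ℝ} {b α : ℝ} (hb : 0 ≤ b) (hα0 : 0 ≤ α) (hα : α < 1)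
    (hW : WA μ b α) {a : ℝ} (ha : 0 < a)
    {f : ℕ → E → ℝ} (hf : ∀ j, RL 1 (f j)) (hf0 : ∀ j, f j 0 = 0) (hfM : ∀ j, a ≤ M (μ j) (f j))
    {ε : ℝ} (hε : 0 < ε) :
    ∃ p : ℕ, ∀ j, p ≤ j → ∃ g : E → ℝ, RL 2 g ∧ (∀ x, |g x| ≤ ε) ∧ a / 2 ≤ M (μ j) g := by
  set δ : ℝ := a / 10 with hδdef
  have hδ : 0 < δ := by positivity
  set κ : ℝ := ε / 3 with hκdef
  have hκ : 0 < κ := by positivity
  obtain ⟨ρ, hρ, p1, hp1⟩ := tight1 hb hα0 hα hW hδ
  set R : ℝ := 2 * ρ + 1 with hRdef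
  have hR : 0 < R := by positivity
  obtain ⟨K, p2, hp2⟩ := tight2 hb hα0 hα hW hR hκ hδ
  obtain ⟨T, hTf, hTq, hT⟩ := net K R hκ
  have hev : ∀ᶠ j in Filter.atTop, ∀ q ∈ T, |M (μ j) q| ≤ δ := by
    rw [Filter.eventually_all_finite hTf]
    intro q hq
    obtain ⟨p, hp⟩ := decay hb hα0 hα hW zero_le_one (hTq q hq).1 hδ
    exact Filter.eventually_atTop.mpr ⟨p, hp⟩
  obtain ⟨p3, hp3⟩ := Filter.eventually_atTop.mp hev
  refine ⟨max p1 (max p2 p3), fun j hj => ?_⟩
  have hj1 : p1 ≤ j := (le_max_left _ _).trans hj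
  have hj2 : p2 ≤ j := ((le_max_left _ _).trans (le_max_right _ _)).trans hj
  have hj3 : p3 ≤ j := ((le_max_right _ _).trans (le_max_right _ _)).trans hj
  set u : E → ℝ := fun x => max (2 * ρ - ‖x‖) 0 with hu
  have hu0 : ∀ x, 0 ≤ u x := fun x => le_max_right _ _
  have hu2 : ∀ x, u x ≤ 2 * ρ := fun x => max_le (by linarith [norm_nonneg x]) (by linarith)
  set f1 : E → ℝ := fun x => cl (u x) (f j x) with hf1
  have hf1L : RL 1 f1 := (hf j).cl (RL_tent _)
  have hf1R : ∀ x, |f1 x| ≤ R := fun x =>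
    (abs_cl_le _ (hu0 x)).trans ((hu2 x).trans (by linarith))
  have hfn : ∀ x, |f j x| ≤ ‖x‖ := by
    intro x
    have := hf j x 0
    rwa [hf0 j, sub_zero, sub_zero, one_mul] at this
  -- f2 = f - f1
  have hf2 : M (μ j) (f j - f1) ≤ 2 * δ := by
    have h1 : RL 1 ((1/2 : ℝ) • (f j - f1)) := by
      have := ((hf j).sub hf1L).smul (1/2 : ℝ)
      refine this.mono ?_
      rw [abs_of_pos (by norm_num)]; norm_num
    have h2 := hp1 j hj1 _ h1 ?_
    · rw [M_smul] at h2
      linarith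
    · intro x
      simp only [Pi.smul_apply, Pi.sub_apply, smul_eq_mul]
      rw [abs_mul, abs_of_pos (by norm_num : (0:ℝ) < 1/2)]
      have h3 := abs_sub_cl (f j x) (hu0 x)
      simp only [hf1]
      have h4 := hfn x
      have h5 : 2 * ρ - ‖x‖ ≤ u x := le_max_left _ _
      have h6 : 0 ≤ u x := hu0 x
      rcases le_total ‖x‖ ρ with hx | hx
      · have h7 : |f j x| ≤ u x := by linarith
        rw [max_eq_right (by linarith)] at h3
        have := le_max_right (‖x‖ - ρ) 0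
        linarith
      · have h8 : max (|f j x| - u x) 0 ≤ 2 * (‖x‖ - ρ) := max_le (by linarith) (by linarith)
        have := le_max_left (‖x‖ - ρ) 0
        linarith
  obtain ⟨q, hqT, hq⟩ := hT f1 hf1L hf1R
  obtain ⟨hqL, hqR⟩ := hTq q hqT
  have hMq : |M (μ j) q| ≤ δ := hp3 j hj3 q hqT
  set k : E → ℝ := f1 - q with hk
  have hkL : RL 2 k := (hf1L.sub hqL).mono (by norm_num)
  have hkR : ∀ x, |k x| ≤ 2 * R := by
    intro x
    simp only [hk, Pi.sub_apply]
    refine (abs_sub _ _).trans ?_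
    linarith [hf1R x, hqR x]
  set g : E → ℝ := fun x => cl ε (k x) with hg
  have hgL : RL 2 g := hkL.cl (L1.RL.const (by norm_num) ε)
  have hkg : M (μ j) (k - g) ≤ 2 * δ := by
    -- `k - g` is a composition of `k` with a 1-Lipschitz function
    have hcomp : ∀ s t : ℝ, |(s - cl ε s) - (t - cl ε t)| ≤ |s - t| := by
      have mono : ∀ s t : ℝ, s ≤ t → 0 ≤ (t - cl ε t) - (s - cl ε s) ∧
          (t - cl ε t) - (s - cl ε s) ≤ t - s := by
        intro s t hst
        unfold cl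
        have a1 : max (min s ε) (-ε) ≤ max (min t ε) (-ε) :=
          max_le_max (min_le_min hst le_rfl) le_rfl
        have a2 : max (min t ε) (-ε) ≤ max (min s ε) (-ε) + (t - s) := by
          refine max_le ?_ ?_
          · have : min t ε ≤ min s ε + (t - s) := by
              rcases le_total s ε with h | h
              · rw [min_eq_left h]; linarith [min_le_left t ε]
              · rw [min_eq_right h]; linarith [min_le_right t ε]
            linarith [le_max_left (min s ε) (-ε)]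
          · linarith [le_max_right (min s ε) (-ε)]
        constructor <;> linarith
      intro s t
      rcases le_total s t with h | h
      · have := mono s t h
        rw [abs_sub_comm, abs_sub_comm s t, abs_of_nonneg this.1, abs_of_nonneg (by linarith)]
        exact this.2
      · have := mono t s h
        rw [abs_of_nonneg this.1, abs_of_nonneg (by linarith)]
        exact this.2
    have h1 : RL 1 ((1/2 : ℝ) • (k - g)) := by
      have h2 : RL 2 (k - g) := by
        intro x y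
        exact (hcomp (k x) (k y)).trans (hkL x y)
      have := h2.smul (1/2 : ℝ)
      refine this.mono ?_
      rw [abs_of_pos (by norm_num)]; norm_num
    have h2 := hp2 j hj2 _ h1 ?_ ?_
    · rw [M_smul] at h2
      linarith
    · intro x
      simp only [Pi.smul_apply, Pi.sub_apply, smul_eq_mul]
      rw [abs_mul, abs_of_pos (by norm_num : (0:ℝ) < 1/2)]
      have h3 := hcomp (k x) 0
      have h4 : cl ε (0:ℝ) = 0 := cl_of_abs_le (by simpa using hε.le)
      rw [h4, sub_zero, sub_zero, sub_zero] at h3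
      have h5 := hkR x
      simp only [hg]
      linarith
    · intro x y hy hxy
      simp only [Pi.smul_apply, Pi.sub_apply, smul_eq_mul, hg]
      have h3 : |k x| ≤ ε := by
        have h4 := hkL x y
        have h5 : |k y| ≤ κ := by
          simp only [hk, Pi.sub_apply]; exact hq y hy
        have h6 : |k x| ≤ |k x - k y| + |k y| := by
          have := abs_add_le (k x - k y) (k y)
          simpa using this
        have h7 : 3 * κ = ε := by rw [hκdef]; ring
        nlinarith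
      rw [cl_of_abs_le h3]
      ring
  refine ⟨g, hgL, fun x => abs_cl_le _ hε.le, ?_⟩
  have e1 : M (μ j) (f j) = M (μ j) g + M (μ j) (k - g) + M (μ j) q + M (μ j) (f j - f1) := by
    rw [← M_add, ← M_add, ← M_add]
    congr 1
    rw [hk]; abel
  have h0 := hfM j
  rw [e1] at h0
  have h1 := (abs_le.mp hMq).2
  have : 5 * δ = a / 2 := by rw [hδdef]; ring
  linarith

end Pool.Agent.R276.P
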