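import Pool.Agent.R276.Gb
import Pool.Agent.R276.Pa

set_option autoImplicit false

/-!
Normalised sequences in free spaces over finite-dimensional spaces have no upper estimates of
exponent less than one half.
-/

namespace Pool.Agent.R276.P

open scoped BigOperators
open Pool.Agent.TH326.L1 (RL M Phi subdiv)
open Pool.Agent.R276.G (DG LipN Cyl NB Supply supply St St_zero St_succ LipN_of_dir)

variable {E : Type} [NormedAddCommGroup E] [NormedSpace ℝ E]

theorem finmain (D : DG E) {N : ℕ} (hN : ∀ x, D.P N x = x) {μ : ℕ → E →₀ ℝ} {b α : ℝ}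
    (hb : 0 ≤ b) (hα0 : 0 ≤ α) (hα : α < 1 / 2) (hW : WA μ b α)
    {a : ℝ} (ha : 0 < a) {f : ℕ → E → ℝ} (hf : ∀ j, RL 1 (f j)) (hf0 : ∀ j, f j 0 = 0)
    (hfM : ∀ j, a ≤ M (μ j) (f j)) : False := by
  set c : ℝ := a / 4 with hcdef
  have hc : 0 < c := by positivity
  have hsup : Supply D μ N c := supply D ha (fun ε hε =>
    smallsup hb hα0 (by linarith) hW ha hf hf0 hfM hε) N
  have hNB : NB μ b := fun j g K hK hg => hW.single hb j hK hg
  set κ : ℝ := c / (8 * (b + 1)) with hκdef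
  have hκpos : 0 < κ := by positivity
  have hκ : 2 * b * κ ≤ c / 4 := by
    have h1 : 2 * b * κ = (b / (b + 1)) * (c / 4) := by rw [hκdef]; field_simp; ring
    have h2 : b / (b + 1) ≤ 1 := by rw [div_le_one (by positivity)]; linarith
    rw [h1]
    nlinarith
  set L0 : ℝ := 4 * N / κ + 1 with hL0
  have hL0a : 0 ≤ 4 * N / κ := by positivity
  have hL0b : 4 * N ≤ κ * L0 ^ 2 := by
    have h1 : 4 * N = κ * (4 * N / κ) := by field_simp
    rw [h1]
    refine mul_le_mul_of_nonneg_left ?_ hκpos.le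
    nlinarith
  obtain ⟨r, hr⟩ := exists_large (α := 2 * α) (c := b * N * (L0 + 3)) (δ := c / 2)
    (by linarith) (by positivity)
  have hcc : 0 ≤ b * N * (L0 + 3) := by positivity
  have hr0 : 0 < r := by
    rcases Nat.eq_zero_or_pos r with h | h
    · subst h
      exfalso
      have h1 : (0:ℝ) ≤ b * N * (L0 + 3) * ((0:ℕ):ℝ) ^ (2 * α) := by
        have : (0:ℝ) ≤ ((0:ℕ):ℝ) ^ (2 * α) := Real.rpow_nonneg (by simp) _
        positivity
      simp only [Nat.cast_zero, zero_mul] at hr h1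
      linarith
    · exact h
  have hr1 : (1:ℝ) ≤ r := by exact_mod_cast hr0
  set m : ℕ := r ^ 2 with hm
  have hmr : (m : ℝ) = (r:ℝ) ^ 2 := by rw [hm]; push_cast; ring
  set Λ : ℝ := r * L0 with hΛdef
  have hΛ : 0 < Λ := by positivity
  set η : ℝ := 1 / (m + 1) with hηdef
  have hη : 0 < η := by positivity
  have hSt : ∀ i, i ≤ m → St D μ N 0 Λ η c i := by
    intro i
    induction i with
    | zero => intro _; exact St_zero D μ N 0 hΛ
    | succ i ih =>
      intro hi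
      refine St_succ D hb hNB N 0 hΛ hη hc hsup hκpos.le hκ i ?_ (ih (by omega))
      have h1 : (i:ℝ) ≤ m := by exact_mod_cast (by omega : i ≤ m)
      calc (N:ℝ) * (i * 4) ≤ N * (m * 4) := by
            refine mul_le_mul_of_nonneg_left ?_ (Nat.cast_nonneg _)
            linarith
        _ = (r:ℝ) ^ 2 * (4 * N) := by rw [hmr]; ring
        _ ≤ (r:ℝ) ^ 2 * (κ * L0 ^ 2) := mul_le_mul_of_nonneg_left hL0b (by positivity)
        _ = κ * Λ ^ 2 := by rw [hΛdef]; ring
  obtain ⟨Ω, _, _, F, T, θ, n, q, C, hC, hFc, hTc, hFT, hTB, hTL, hFL, hT2, hθ1, hθp, hθq,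
    hθc, hPhi⟩ := hSt m le_rfl
  have hcard : (0:ℝ) < Fintype.card Ω := by exact_mod_cast Fintype.card_pos
  have hex : ∃ ω, (m:ℝ) * (c / 2) ≤ Phi μ (θ ω) (F ω) := by
    by_contra hcon
    push Not at hcon
    have h1 : ∑ ω, Phi μ (θ ω) (F ω) < ∑ ω : Ω, (m:ℝ) * (c / 2) :=
      Finset.sum_lt_sum_of_nonempty Finset.univ_nonempty fun ω _ => hcon ω
    rw [Finset.sum_const, Finset.card_univ, nsmul_eq_mul] at h1
    linarith
  obtain ⟨ω, hω⟩ := hex
  have hdir : ∀ k, k < N → ∀ (x : E) (t : ℝ), |F ω (x + t • D.e k) - F ω x| ≤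
      (Λ + 3) * |t| := by
    intro k hk x t
    have h1 : ∀ u s : ℝ, |F ω (x + (u + s) • D.e k) - F ω (x + u • D.e k)| ≤
        (Λ + 3) * |s| + C * s ^ 2 := by
      intro u s
      have h2 := hFT ω k hk (x + u • D.e k) s
      have h3 := hTB ω k hk (x + u • D.e k)
      rw [add_smul, ← add_assoc]
      have h4 : (m:ℝ) * η ≤ 1 := by
        rw [hηdef, mul_one_div, div_le_one (by positivity)]; linarith
      have h5 := abs_add_le (F ω (x + u • D.e k + s • D.e k) - F ω (x + u • D.e k) -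
        s * T ω k (x + u • D.e k)) (s * T ω k (x + u • D.e k))
      rw [sub_add_cancel, abs_mul s] at h5
      have h6 : |s| * |T ω k (x + u • D.e k)| ≤ |s| * (Λ + 2) :=
        mul_le_mul_of_nonneg_left h3 (abs_nonneg _)
      have h7 : (m:ℝ) * η * |s| ≤ 1 * |s| := mul_le_mul_of_nonneg_right h4 (abs_nonneg _)
      linarith
    have h2 := subdiv (F := fun u => F ω (x + u • D.e k)) h1 t
    simpa using h2
  have hLN : LipN D N (N * (Λ + 3)) (m * 3) (F ω) :=
    LipN_of_dir D (by positivity) hdir (hFL ω)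
  have hRL : RL (N * (Λ + 3)) (F ω) := by
    intro x y
    have := hLN x y
    rwa [hN, sub_self, norm_zero, mul_zero, add_zero] at this
  have hfin := hW (θ ω) (hθ1 ω) (F ω) (N * (Λ + 3)) (by positivity) hRL
  have hpow : ((θ ω).support.card : ℝ) ^ α ≤ (r : ℝ) ^ (2 * α) := by
    have h1 : ((θ ω).support.card : ℝ) ^ α ≤ (m : ℝ) ^ α :=
      Real.rpow_le_rpow (Nat.cast_nonneg _) (by exact_mod_cast hθc ω) hα0
    refine h1.trans (le_of_eq ?_)
    rw [hmr, Real.rpow_mul (by positivity)]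
    norm_num
  have hN0 : (0:ℝ) ≤ N := Nat.cast_nonneg _
  have hrp : 0 ≤ (r : ℝ) ^ (2 * α) := Real.rpow_nonneg (by positivity) _
  have h1 : b * ((θ ω).support.card : ℝ) ^ α * (N * (Λ + 3)) ≤
      b * (r : ℝ) ^ (2 * α) * (N * (r * (L0 + 3))) := by
    have h2 : Λ + 3 ≤ r * (L0 + 3) := by rw [hΛdef]; nlinarith
    gcongr
  have h3 : (m:ℝ) * (c / 2) ≤ r * (b * N * (L0 + 3) * (r : ℝ) ^ (2 * α)) := by linarith
  rw [hmr] at h3
  have h4 : r * (b * N * (L0 + 3) * (r : ℝ) ^ (2 * α)) < r * (r * (c / 2)) :=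
    mul_lt_mul_of_pos_left hr (by linarith)
  nlinarith

end Pool.Agent.R276.P
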