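import Pool.Agent.R276.Pb

set_option autoImplicit false

/-!
Transfer of the non-existence of upper estimates to all finite-dimensional normed spaces.
-/

namespace Pool.Agent.R276.P

open scoped BigOperators
open Pool.Agent.TH326.L1 (RL M Phi)
open Pool.Agent.R276.G (DG)

/-- truncation -/
def PV (d n : ℕ) : (Fin (d + 1) → ℝ) →ₗ[ℝ] (Fin (d + 1) → ℝ) where
  toFun x i := if i.val < n then x i else 0
  map_add' x y := by
    funext i
    simp only [Pi.add_apply]
    split_ifs <;> simp
  map_smul' c x := by
    funext i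
    simp only [Pi.smul_apply, RingHom.id_apply]
    split_ifs <;> simp

theorem PV_apply (d n : ℕ) (x : Fin (d + 1) → ℝ) (i : Fin (d + 1)) :
    PV d n x i = if i.val < n then x i else 0 := rfl

theorem norm_single' {d : ℕ} (i : Fin (d + 1)) : ‖(Pi.single i 1 : Fin (d + 1) → ℝ)‖ = 1 := by
  apply le_antisymm
  · rw [pi_norm_le_iff_of_nonneg zero_le_one]
    intro j
    by_cases h : j = i
    · subst h; simp
    · simp [Pi.single_eq_of_ne h]
  · have := norm_le_pi_norm (Pi.single i 1 : Fin (d + 1) → ℝ) i
    simpa using this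

/-- coordinate structure of the sup-normed space -/
noncomputable def DV (d : ℕ) : DG (Fin (d + 1) → ℝ) where
  P := PV d
  c := fun n x => if h : n < d + 1 then x ⟨n, h⟩ else 0
  e := fun n => if h : n < d + 1 then Pi.single ⟨n, h⟩ 1 else Pi.single 0 1
  P_zero := fun x => by
    funext i
    simp [PV_apply]
  P_succ := fun n x => by
    funext i
    by_cases h : n < d + 1
    · simp only [dif_pos h, Pi.add_apply, Pi.smul_apply, PV_apply, smul_eq_mul]
      by_cases hi : i = ⟨n, h⟩
      · subst hi
        simp
      · have h1 : i.val ≠ n := fun h2 => hi (Fin.ext h2)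
        rw [Pi.single_eq_of_ne hi, mul_zero, add_zero]
        by_cases h3 : i.val < n
        · rw [if_pos h3, if_pos (by omega)]
        · rw [if_neg h3, if_neg (by omega)]
    · simp only [dif_neg h, zero_smul, add_zero, PV_apply]
      have := i.2
      rw [if_pos (by omega), if_pos (by omega)]
  norm_e := fun n => by
    by_cases h : n < d + 1
    · simp only [dif_pos h]; exact norm_single' _
    · simp only [dif_neg h]; exact norm_single' _
  c_le := fun n x => by
    by_cases h : n < d + 1
    · simp only [dif_pos h]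
      exact norm_le_pi_norm x _
    · simp only [dif_neg h, abs_zero]; exact norm_nonneg _
  c_P := fun m n x hmn => by
    by_cases h : m < d + 1
    · simp only [dif_pos h, PV_apply]
      rw [if_pos hmn]
    · simp only [dif_neg h]
  P_low := fun m n x h => by
    funext i
    simp only [PV_apply]
    split_ifs <;> first | rfl | omega
  P_high := fun m n x h => by
    funext i
    simp only [PV_apply]
    split_ifs <;> first | rfl | omega
  norm_P := fun n x => by
    rw [pi_norm_le_iff_of_nonneg (norm_nonneg _)]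
    intro i
    rw [PV_apply]
    split_ifs
    · exact norm_le_pi_norm x i
    · rw [norm_zero]; exact norm_nonneg _
  tend := fun x => by
    refine tendsto_const_nhds.congr' ?_
    filter_upwards [Filter.eventually_ge_atTop (d + 1)] with n hn
    funext i
    rw [PV_apply, if_pos (lt_of_lt_of_le i.2 hn)]

theorem DV_full (d : ℕ) (x : Fin (d + 1) → ℝ) : (DV d).P (d + 1) x = x := by
  funext i
  change PV d (d + 1) x i = x i
  rw [PV_apply, if_pos i.2]

theorem M_map {E E' : Type} [NormedAddCommGroup E] [NormedSpace ℝ E] [NormedAddCommGroup E']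
    [NormedSpace ℝ E'] (φ : E' → E) (h0 : φ 0 = 0) (μ : E' →₀ ℝ) (g : E → ℝ) :
    M (μ.mapDomain φ) g = M μ (fun x => g (φ x)) := by
  unfold M
  rw [Finsupp.sum_mapDomain_index (fun _ => by ring) (fun _ _ _ => by ring)]
  simp only [h0]

/-- No upper estimate of exponent below one half over a finite-dimensional space. -/
theorem finE {E' : Type} [NormedAddCommGroup E'] [NormedSpace ℝ E'] [FiniteDimensional ℝ E']
    {μ : ℕ → E' →₀ ℝ} {b α : ℝ} (hb : 0 ≤ b) (hα0 : 0 ≤ α) (hα : α < 1 / 2) (hW : WA μ b α)
    {a : ℝ} (ha : 0 < a) {f : ℕ → E' → ℝ} (hf : ∀ j, RL 1 (f j)) (hf0 : ∀ j, f j 0 = 0)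
    (hfM : ∀ j, a ≤ M (μ j) (f j)) : False := by
  set d : ℕ := Module.finrank ℝ E' with hd
  have hfr : Module.finrank ℝ E' = Module.finrank ℝ (Fin d → ℝ) := by simp [hd]
  let φ : E' ≃L[ℝ] (Fin d → ℝ) := ContinuousLinearEquiv.ofFinrankEq hfr
  let ext : (Fin d → ℝ) →ₗ[ℝ] (Fin (d + 1) → ℝ) :=
    { toFun := fun x i => if h : i.val < d then x ⟨i.val, h⟩ else 0
      map_add' := fun x y => by
        funext i
        simp only [Pi.add_apply]
        split_ifs <;> simp
      map_smul' := fun c x => by
        funext i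
        simp only [Pi.smul_apply, RingHom.id_apply]
        split_ifs <;> simp }
  let res : (Fin (d + 1) → ℝ) →ₗ[ℝ] (Fin d → ℝ) :=
    { toFun := fun x i => x (Fin.castSucc i)
      map_add' := fun x y => rfl
      map_smul' := fun c x => rfl }
  have hres : ∀ x, res (ext x) = x := by
    intro x
    funext i
    change (if h : (Fin.castSucc i).val < d then x ⟨(Fin.castSucc i).val, h⟩ else 0) = x i
    have : (Fin.castSucc i).val < d := i.2
    rw [dif_pos this]
    rfl
  let ι : E' →L[ℝ] (Fin (d + 1) → ℝ) := (LinearMap.toContinuousLinearMap ext).comp (φ : E' →L[ℝ] _)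
  let π : (Fin (d + 1) → ℝ) →L[ℝ] E' :=
    ((φ.symm : _ →L[ℝ] E')).comp (LinearMap.toContinuousLinearMap res)
  have hπι : ∀ x, π (ι x) = x := by
    intro x
    change φ.symm (res (ext (φ x))) = x
    rw [hres, ContinuousLinearEquiv.symm_apply_apply]
  set Cπ : ℝ := ‖π‖ + 1 with hCπ
  have hCπ0 : 0 < Cπ := by positivity
  have hW' : WA (fun j => (μ j).mapDomain ι) (b * ‖ι‖) α := by
    intro θ hθ g K hK hg
    have h1 : Phi (fun j => (μ j).mapDomain ι) θ g = Phi μ θ (fun x => g (ι x)) := by
      unfold Phi
      refine Finsupp.sum_congr fun j _ => ?_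
      rw [M_map _ (map_zero ι)]
    rw [h1]
    have h2 : RL (K * ‖ι‖) (fun x => g (ι x)) := by
      intro x y
      refine (hg _ _).trans ?_
      rw [← map_sub, mul_assoc]
      exact mul_le_mul_of_nonneg_left (ι.le_opNorm _) hK
    refine (hW θ hθ _ _ (by positivity) h2).trans (le_of_eq ?_)
    ring
  have hf' : ∀ j, RL 1 ((1 / Cπ) • fun x => f j (π x)) := by
    intro j
    have h2 : RL Cπ (fun x => f j (π x)) := by
      intro x y
      refine (hf j _ _).trans ?_
      rw [← map_sub, one_mul]
      refine (π.le_opNorm _).trans ?_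
      exact mul_le_mul_of_nonneg_right (by linarith) (norm_nonneg _)
    have h3 := h2.smul (1 / Cπ)
    rw [abs_of_pos (by positivity), one_div, inv_mul_cancel₀ hCπ0.ne'] at h3
    rw [one_div]
    exact h3
  refine finmain (DV d) (DV_full d) (μ := fun j => (μ j).mapDomain ι) (b := b * ‖ι‖) (α := α)
    (by positivity) hα0 hα hW' (a := a / Cπ) (by positivity) hf' ?_ ?_
  · intro j
    simp only [Pi.smul_apply, map_zero, hf0, smul_zero]
  · intro j
    rw [Pool.Agent.TH326.L1.M_smul, M_map _ (map_zero ι)]
    simp only [hπι]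
    rw [one_div, inv_mul_eq_div]
    exact div_le_div_of_nonneg_right (hfM j) hCπ0.le

end Pool.Agent.R276.P
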