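import Pool.Agent.R276.Pc

set_option autoImplicit false
set_option linter.unusedSectionVars false

/-!
A sequence of finitely supported measures with the upper estimate of a sequence of unit vectors
(a discretised Godefroy-Kalton lifting).
-/

namespace Pool.Agent.R276.P

open scoped BigOperators
open Pool.Agent.TH326.L1 (RL M Phi avg avg_RL avg_close avg_sub avg_bound cont_line Dir Dir_own)
open Pool.Agent.TH326

variable {E : Type} [NormedAddCommGroup E] [NormedSpace ℝ E]

/-- iterated averages -/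
noncomputable def IA (t : ℕ → ℝ) (e : ℕ → E) : ℕ → (E → ℝ) → (E → ℝ)
  | 0, g => g
  | n + 1, g => avg (t n) (e n) (IA t e n g)

/-- difference quotients of the iterated averages -/
noncomputable def QQ (t : ℕ → ℝ) (e : ℕ → E) (k : ℕ) (g : E → ℝ) (x : E) : ℝ :=
  (IA t e k g (x + t k • e k) - IA t e k g x) / t k

section

variable {t : ℕ → ℝ} {e : ℕ → E} (ht : ∀ k, 0 < t k) (he : ∀ k, ‖e k‖ = 1)

include ht in
theorem IA_RL {g : E → ℝ} {K : ℝ} (hK : 0 ≤ K) (hg : RL K g) (n : ℕ) : RL K (IA t e n g) := by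
  induction n with
  | zero => exact hg
  | succ n ih => exact avg_RL (ht n) hK ih

theorem quot_RL {g : E → ℝ} {K s : ℝ} (hs : 0 < s) (hg : RL K g) (v : E) :
    RL (2 * K / s) (fun x => (g (x + v) - g x) / s) := by
  intro x y
  have h1 := hg (x + v) (y + v)
  rw [add_sub_add_right_eq_sub] at h1
  have h2 := hg x y
  have h3 : |(g (x + v) - g x) / s - (g (y + v) - g y) / s| =
      |(g (x + v) - g (y + v)) - (g x - g y)| / s := by
    rw [← sub_div, abs_div, abs_of_pos hs]
    congr 2; ring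
  rw [h3, div_le_iff₀ hs]
  have h4 := abs_sub (g (x + v) - g (y + v)) (g x - g y)
  have h5 : 2 * K / s * ‖x - y‖ * s = 2 * K * ‖x - y‖ := by field_simp
  rw [h5]
  linarith

include ht he in
theorem dirs {g : E → ℝ} {K : ℝ} (hK : 0 ≤ K) (hg : RL K g) (n : ℕ) :
    ∃ d : ℕ → E → ℝ, ∀ k, k < n → Dir (2 * K / t k) (e k) (IA t e n g) (d k) ∧
      RL (2 * K / t k) (d k) ∧
      ∀ x, |d k x - QQ t e k g x| ≤ 2 * K / t k * ∑ i ∈ Finset.Ico (k + 1) n, t i := by
  induction n with
  | zero => exact ⟨fun _ => 0, fun k hk => absurd hk (Nat.not_lt_zero k)⟩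
  | succ n ih =>
    obtain ⟨d, hd⟩ := ih
    have hI := IA_RL (e := e) ht hK hg n
    refine ⟨fun k => if k = n then QQ t e n g else avg (t n) (e n) (d k), fun k hk => ?_⟩
    by_cases hkn : k = n
    · subst hkn
      simp only [if_true]
      refine ⟨Dir_own (he k) hK hI (ht k), quot_RL (ht k) hI _, fun x => ?_⟩
      simp
    · simp only [if_neg hkn]
      have hk' : k < n := by omega
      obtain ⟨h1, h2, h3⟩ := hd k hk'
      have hC : 0 ≤ 2 * K / t k := div_nonneg (by positivity) (ht k).le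
      refine ⟨h1.avg (hI.continuous hK) (h2.continuous hC) (ht n), avg_RL (ht n) hC h2,
        fun x => ?_⟩
      have h4 := avg_close (ht n) (he n) hC h2 x
      have h5 := h3 x
      have h6 := abs_add_le (avg (t n) (e n) (d k) x - d k x) (d k x - QQ t e k g x)
      rw [sub_add_sub_cancel] at h6
      rw [Finset.sum_Ico_succ_top (by omega), mul_add]
      linarith

/-- the linear estimate for functions with directional derivatives -/
theorem lin_bound {F : E → ℝ} {K : ℝ} (hF : RL K F) (n : ℕ) (C : ℕ → ℝ) (hC : ∀ k, k < n → 0 ≤ C k)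
    (d : ℕ → E → ℝ) (hd : ∀ k, k < n → Dir (C k) (e k) F (d k) ∧ RL (C k) (d k)) (θ : ℕ → ℝ) :
    ∑ k ∈ Finset.range n, θ k * d k 0 ≤ K * ‖∑ k ∈ Finset.range n, θ k • e k‖ := by
  have key : ∀ m, m ≤ n → ∃ C' : ℝ, 0 ≤ C' ∧ ∀ s : ℝ, 0 < s →
      |F (s • ∑ k ∈ Finset.range m, θ k • e k) - F 0 - s * ∑ k ∈ Finset.range m, θ k * d k 0| ≤
        C' * s ^ 2 := by
    intro m
    induction m with
    | zero =>
      intro _
      exact ⟨0, le_rfl, fun s _ => by simp⟩
    | succ m ih =>
      intro hm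
      obtain ⟨C', hC', h⟩ := ih (by omega)
      obtain ⟨h1, h2⟩ := hd m (by omega)
      have hCm := hC m (by omega)
      set w : E := ∑ k ∈ Finset.range m, θ k • e k with hw
      refine ⟨C' + C m * (θ m) ^ 2 + |θ m| * (C m * ‖w‖), by positivity, fun s hs => ?_⟩
      have h3 := h s hs
      have h4 := h1 (s • w) (s * θ m)
      have h5 := h2 (s • w) 0
      rw [sub_zero, norm_smul, Real.norm_eq_abs, abs_of_pos hs] at h5
      rw [Finset.sum_range_succ, Finset.sum_range_succ, smul_add, smul_smul]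
      have e1 : F (s • w + (s * θ m) • e m) - F 0 -
          s * (∑ k ∈ Finset.range m, θ k * d k 0 + θ m * d m 0) =
          (F (s • w) - F 0 - s * ∑ k ∈ Finset.range m, θ k * d k 0) +
          ((F (s • w + (s * θ m) • e m) - F (s • w) - s * θ m * d m (s • w)) +
          s * θ m * (d m (s • w) - d m 0)) := by ring
      rw [e1]
      have h6 : |s * θ m * (d m (s • w) - d m 0)| ≤ |θ m| * (C m * ‖w‖) * s ^ 2 := by
        rw [abs_mul, abs_mul, abs_of_pos hs]
        calc s * |θ m| * |d m (s • w) - d m 0| ≤ s * |θ m| * (C m * (s * ‖w‖)) :=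
              mul_le_mul_of_nonneg_left h5 (by positivity)
          _ = _ := by ring
      have h7 : C m * (s * θ m) ^ 2 = C m * (θ m) ^ 2 * s ^ 2 := by ring
      rw [h7] at h4
      have h8 := abs_add_le (F (s • w) - F 0 - s * ∑ k ∈ Finset.range m, θ k * d k 0)
        ((F (s • w + (s * θ m) • e m) - F (s • w) - s * θ m * d m (s • w)) +
          s * θ m * (d m (s • w) - d m 0))
      have h9 := abs_add_le (F (s • w + (s * θ m) • e m) - F (s • w) - s * θ m * d m (s • w))
        (s * θ m * (d m (s • w) - d m 0))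
      have h10 : (C' + C m * (θ m) ^ 2 + |θ m| * (C m * ‖w‖)) * s ^ 2 = C' * s ^ 2 +
        C m * (θ m) ^ 2 * s ^ 2 + |θ m| * (C m * ‖w‖) * s ^ 2 := by ring
      linarith
  obtain ⟨C', hC', h⟩ := key n le_rfl
  refine le_of_forall_pos_le_add fun ε hε => ?_
  set s : ℝ := ε / (C' + 1) with hs
  have hs0 : 0 < s := by positivity
  have hsε : C' * s ≤ ε := by
    have h1 : C' * s = (C' / (C' + 1)) * ε := by rw [hs]; field_simp
    rw [h1]
    have h2 : C' / (C' + 1) ≤ 1 := by rw [div_le_one (by positivity)]; linarith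
    nlinarith
  have h1 := h s hs0
  have h2 := hF (s • ∑ k ∈ Finset.range n, θ k • e k) 0
  rw [sub_zero, norm_smul, Real.norm_eq_abs, abs_of_pos hs0] at h2
  have h3 := (abs_le.mp h1).1
  have h4 := (abs_le.mp h2).2
  have h5 : s * ∑ k ∈ Finset.range n, θ k * d k 0 ≤
      s * (K * ‖∑ k ∈ Finset.range n, θ k • e k‖ + ε) := by
    have h6 : C' * s ^ 2 ≤ s * ε := by nlinarith
    linarith
  exact le_of_mul_le_mul_left h5 hs0

end

/-- discrete average -/
noncomputable def avgD (m : ℕ) (t : ℝ) (e : E) (g : E → ℝ) : E → ℝ :=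
  fun x => (m : ℝ)⁻¹ * ∑ r ∈ Finset.range m, g (x + ((r : ℝ) * (t / m)) • e)

theorem avg_avgD {m : ℕ} (hm : 0 < m) {t : ℝ} (ht : 0 < t) {e : E} (he : ‖e‖ = 1) {g : E → ℝ}
    {K : ℝ} (hK : 0 ≤ K) (hg : RL K g) (x : E) : |avg t e g x - avgD m t e g x| ≤ K * (t / m) := by
  have hm0 : (0 : ℝ) < m := by exact_mod_cast hm
  set s : ℝ := t / m with hs
  have hs0 : 0 < s := by positivity
  have hsm : (m : ℝ) * s = t := by rw [hs]; field_simp
  have hc := cont_line (hg.continuous hK) x e
  have h1 : (∫ τ in (0:ℝ)..t, g (x + τ • e)) =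
      ∑ r ∈ Finset.range m, ∫ τ in ((r : ℝ) * s)..(((r + 1 : ℕ) : ℝ) * s), g (x + τ • e) := by
    rw [intervalIntegral.sum_integral_adjacent_intervals (a := fun r : ℕ => (r : ℝ) * s)
      (fun k _ => hc.intervalIntegrable _ _)]
    rw [hsm]
    simp
  have h2 : ∀ r ∈ Finset.range m, |(∫ τ in ((r : ℝ) * s)..(((r + 1 : ℕ) : ℝ) * s), g (x + τ • e)) -
      s * g (x + ((r : ℝ) * s) • e)| ≤ s * (K * s) := by
    intro r _
    have hle : (r : ℝ) * s ≤ ((r + 1 : ℕ) : ℝ) * s := by push_cast; nlinarith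
    have e1 : (∫ τ in ((r : ℝ) * s)..(((r + 1 : ℕ) : ℝ) * s), g (x + τ • e)) -
        s * g (x + ((r : ℝ) * s) • e) =
        ∫ τ in ((r : ℝ) * s)..(((r + 1 : ℕ) : ℝ) * s), (g (x + τ • e) - g (x + ((r : ℝ) * s) • e)) := by
      rw [intervalIntegral.integral_sub (hc.intervalIntegrable _ _)
        (continuous_const.intervalIntegrable _ _), intervalIntegral.integral_const, smul_eq_mul]
      push_cast
      ring
    rw [e1]
    have h3 : ‖∫ τ in ((r : ℝ) * s)..(((r + 1 : ℕ) : ℝ) * s),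
        (g (x + τ • e) - g (x + ((r : ℝ) * s) • e))‖ ≤ (K * s) * |((r + 1 : ℕ) : ℝ) * s - (r : ℝ) * s| := by
      refine intervalIntegral.norm_integral_le_of_norm_le_const fun τ hτ => ?_
      rw [Set.uIoc_of_le hle] at hτ
      have h4 := hg (x + τ • e) (x + ((r : ℝ) * s) • e)
      rw [add_sub_add_left_eq_sub, ← sub_smul, norm_smul, he, mul_one] at h4
      refine h4.trans (mul_le_mul_of_nonneg_left ?_ hK)
      rw [Real.norm_eq_abs, abs_of_pos (by linarith [hτ.1])]
      have := hτ.2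
      push_cast at this
      linarith
    rw [Real.norm_eq_abs] at h3
    refine h3.trans (le_of_eq ?_)
    have h5 : ((r + 1 : ℕ) : ℝ) * s - (r : ℝ) * s = s := by push_cast; ring
    rw [h5, abs_of_pos hs0]
    ring
  have h3 : |(∫ τ in (0:ℝ)..t, g (x + τ • e)) - s * ∑ r ∈ Finset.range m, g (x + ((r : ℝ) * s) • e)| ≤
      m * (s * (K * s)) := by
    rw [h1, Finset.mul_sum, ← Finset.sum_sub_distrib]
    refine (Finset.abs_sum_le_sum_abs _ _).trans ((Finset.sum_le_sum h2).trans ?_)
    simp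
  have e2 : avg t e g x - avgD m t e g x = t⁻¹ * ((∫ τ in (0:ℝ)..t, g (x + τ • e)) -
      s * ∑ r ∈ Finset.range m, g (x + ((r : ℝ) * s) • e)) := by
    unfold avg avgD
    rw [mul_sub, ← mul_assoc]
    congr 2
    rw [← hsm]
    field_simp
  rw [e2, abs_mul, abs_of_pos (inv_pos.2 ht)]
  calc t⁻¹ * |(∫ τ in (0:ℝ)..t, g (x + τ • e)) -
      s * ∑ r ∈ Finset.range m, g (x + ((r : ℝ) * s) • e)| ≤ t⁻¹ * (m * (s * (K * s))) :=
        mul_le_mul_of_nonneg_left h3 (inv_pos.2 ht).le
    _ = t⁻¹ * (m * s) * (K * s) := by ring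
    _ = K * s := by rw [hsm, inv_mul_cancel₀ ht.ne', one_mul]

/-- pairing without normalisation -/
noncomputable def pr (ν : E →₀ ℝ) (g : E → ℝ) : ℝ := ν.sum fun y c => c * g y

theorem pr_add (ν ν' : E →₀ ℝ) (g : E → ℝ) : pr (ν + ν') g = pr ν g + pr ν' g :=
  Finsupp.sum_add_index' (fun _ => by ring) (fun _ _ _ => by ring)

theorem pr_smul (c : ℝ) (ν : E →₀ ℝ) (g : E → ℝ) : pr (c • ν) g = c * pr ν g := by
  unfold pr
  rw [Finsupp.sum_smul_index (fun _ => by ring), Finsupp.mul_sum]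
  exact Finsupp.sum_congr fun _ _ => by ring

theorem pr_map (ν : E →₀ ℝ) (φ : E → E) (g : E → ℝ) :
    pr (ν.mapDomain φ) g = pr ν (fun y => g (φ y)) :=
  Finsupp.sum_mapDomain_index (fun _ => by ring) (fun _ _ _ => by ring)

theorem pr_sum {ι : Type} (s : Finset ι) (ν : ι → E →₀ ℝ) (g : E → ℝ) :
    pr (∑ i ∈ s, ν i) g = ∑ i ∈ s, pr (ν i) g := by
  classical
  induction s using Finset.induction_on with
  | empty => simp [pr]
  | insert a s ha ih => rw [Finset.sum_insert ha, Finset.sum_insert ha, pr_add, ih]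

theorem pr_const (ν : E →₀ ℝ) (c : ℝ) : pr ν (fun _ => c) = pr ν (fun _ => 1) * c := by
  unfold pr
  rw [Finsupp.sum_mul]
  exact Finsupp.sum_congr fun _ _ => by ring

/-- finitely supported approximations of the iterated averages -/
theorem repr {t : ℕ → ℝ} {e : ℕ → E} (ht : ∀ k, 0 < t k) (he : ∀ k, ‖e k‖ = 1) (n : ℕ) :
    ∀ η : ℝ, 0 < η → ∃ ν : E →₀ ℝ, pr ν (fun _ => 1) = 1 ∧
      ∀ (g : E → ℝ) (K : ℝ), 0 ≤ K → RL K g → ∀ x,
        |IA t e n g x - pr ν (fun y => g (x + y))| ≤ η * K := by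
  induction n with
  | zero =>
    intro η hη
    refine ⟨Finsupp.single 0 1, ?_, fun g K hK hg x => ?_⟩
    · unfold pr
      rw [Finsupp.sum_single_index (by ring)]
      ring
    · unfold pr
      rw [Finsupp.sum_single_index (by ring)]
      simp only [add_zero, one_mul]
      change |g x - g x| ≤ _
      rw [sub_self, abs_zero]
      positivity
  | succ n ih =>
    intro η hη
    obtain ⟨ν, hν1, hν⟩ := ih (η / 2) (by positivity)
    obtain ⟨m, hm⟩ := exists_nat_gt (t n / (η / 2))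
    have htn := ht n
    have hm0 : (0 : ℝ) < m := lt_trans (by positivity) hm
    have hm0' : 0 < m := by exact_mod_cast hm0
    have hmt : t n / m ≤ η / 2 := by
      rw [div_lt_iff₀ (by positivity)] at hm
      rw [div_le_iff₀ hm0]
      linarith
    refine ⟨∑ r ∈ Finset.range m, (m : ℝ)⁻¹ •
      ν.mapDomain (fun y => ((r : ℝ) * (t n / m)) • e n + y), ?_, fun g K hK hg x => ?_⟩
    · rw [pr_sum]
      simp only [pr_smul, pr_map, hν1, mul_one]
      rw [Finset.sum_const, Finset.card_range, nsmul_eq_mul, mul_inv_cancel₀ hm0.ne']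
    · have h1 := avg_avgD hm0' (ht n) (he n) hK (IA_RL (e := e) ht hK hg n) x
      have h2 : |avgD m (t n) (e n) (IA t e n g) x - pr (∑ r ∈ Finset.range m, (m : ℝ)⁻¹ •
          ν.mapDomain (fun y => ((r : ℝ) * (t n / m)) • e n + y)) (fun y => g (x + y))| ≤
          η / 2 * K := by
        rw [pr_sum]
        simp only [pr_smul, pr_map]
        unfold avgD
        rw [Finset.mul_sum, ← Finset.sum_sub_distrib]
        refine (Finset.abs_sum_le_sum_abs _ _).trans ?_
        have h3 : ∀ r ∈ Finset.range m, |(m : ℝ)⁻¹ * IA t e n g (x + ((r : ℝ) * (t n / m)) • e n) -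
            (m : ℝ)⁻¹ * pr ν (fun y => g (x + (((r : ℝ) * (t n / m)) • e n + y)))| ≤
            (m : ℝ)⁻¹ * (η / 2 * K) := by
          intro r _
          rw [← mul_sub, abs_mul, abs_of_pos (inv_pos.2 hm0)]
          refine mul_le_mul_of_nonneg_left ?_ (inv_pos.2 hm0).le
          have := hν g K hK hg (x + ((r : ℝ) * (t n / m)) • e n)
          simpa only [add_assoc] using this
        refine (Finset.sum_le_sum h3).trans (le_of_eq ?_)
        rw [Finset.sum_const, Finset.card_range, nsmul_eq_mul, ← mul_assoc,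
          mul_inv_cancel₀ hm0.ne', one_mul]
      have h4 := abs_add_le (avg (t n) (e n) (IA t e n g) x - avgD m (t n) (e n) (IA t e n g) x)
        (avgD m (t n) (e n) (IA t e n g) x - pr (∑ r ∈ Finset.range m, (m : ℝ)⁻¹ •
          ν.mapDomain (fun y => ((r : ℝ) * (t n / m)) • e n + y)) (fun y => g (x + y)))
      rw [sub_add_sub_cancel] at h4
      have h5 : K * (t n / m) ≤ K * (η / 2) := mul_le_mul_of_nonneg_left hmt hK
      change |avg (t n) (e n) (IA t e n g) x - _| ≤ _
      linarith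

theorem M_pr (μ : E →₀ ℝ) (g : E → ℝ) (h : pr μ (fun _ => 1) = 0) : M μ g = pr μ g := by
  have h1 : M μ g = pr μ g - pr μ (fun _ => g 0) := by
    unfold M pr
    rw [← Finsupp.sum_sub]
    exact Finsupp.sum_congr fun _ _ => by ring
  rw [h1, pr_const, h, zero_mul, sub_zero]

/-- scales -/
noncomputable def tt : ℕ → ℝ
  | 0 => 1
  | k + 1 => tt k / 2 ^ (k + 3)

theorem tt_pos (k : ℕ) : 0 < tt k := by
  induction k with
  | zero => exact one_pos
  | succ k ih => unfold tt; positivity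

theorem tt_half (k : ℕ) : 2 * tt (k + 1) ≤ tt k := by
  have h : tt (k + 1) = tt k / 2 ^ (k + 3) := rfl
  have h0 := tt_pos k
  rw [h, mul_div_assoc', div_le_iff₀ (by positivity)]
  have : (2 : ℝ) ≤ 2 ^ (k + 3) := by
    calc (2:ℝ) = 2 ^ 1 := by norm_num
      _ ≤ 2 ^ (k + 3) := pow_le_pow_right₀ (by norm_num) (by omega)
  nlinarith

theorem tt_sum (k n : ℕ) : ∑ i ∈ Finset.Ico (k + 1) n, tt i ≤ tt k / 2 ^ (k + 2) := by
  have key : ∀ n, k + 1 ≤ n → (∑ i ∈ Finset.Ico (k + 1) n, tt i) + 2 * tt n ≤ 2 * tt (k + 1) := by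
    intro n hn
    induction n, hn using Nat.le_induction with
    | base => simp
    | succ n hn ih =>
      rw [Finset.sum_Ico_succ_top hn]
      have := tt_half n
      linarith
  have h2 : 2 * tt (k + 1) = tt k / 2 ^ (k + 2) := by
    have h : tt (k + 1) = tt k / 2 ^ (k + 3) := rfl
    rw [h, pow_succ]
    field_simp
  rcases le_or_gt (k + 1) n with h | h
  · have h3 := key n h
    have h4 := tt_pos n
    linarith
  · rw [Finset.Ico_eq_empty (by omega), Finset.sum_empty]
    have := tt_pos k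
    positivity

/-- The sequence of measures. -/
theorem exists_seq {e : ℕ → E} (he : ∀ k, ‖e k‖ = 1) {α : ℝ}
    (hα : ∀ θ : ℕ →₀ ℝ, (∀ j, |θ j| ≤ 1) → ‖θ.sum fun k c => c • e k‖ ≤ (θ.support.card : ℝ) ^ α)
    (hα0 : 0 ≤ α)
    {c : ℕ → E → ℝ} (hcL : ∀ k, RL 1 (c k))
    (hce : ∀ k i x (s : ℝ), i < k → c k (x + s • e i) = c k x)
    (hcs : ∀ k x (s : ℝ), c k (x + s • e k) = c k x + s) :
    ∃ μ : ℕ → E →₀ ℝ, WA μ 3 α ∧ ∀ k, 1 / 2 ≤ M (μ k) (c k) := by
  have hrep : ∀ k : ℕ, ∃ μ : E →₀ ℝ, ∀ (g : E → ℝ) (K : ℝ), 0 ≤ K → RL K g →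
      |M μ g - QQ tt e k g 0| ≤ K / 2 ^ (k + 1) := by
    intro k
    have htk := tt_pos k
    obtain ⟨ν, hν1, hν⟩ := repr tt_pos he k (tt k / 2 ^ (k + 2)) (by positivity)
    refine ⟨(tt k)⁻¹ • (ν.mapDomain (fun y => tt k • e k + y) + (-1 : ℝ) • ν), fun g K hK hg => ?_⟩
    have h1 : pr ((tt k)⁻¹ • (ν.mapDomain (fun y => tt k • e k + y) + (-1 : ℝ) • ν))
        (fun _ => 1) = 0 := by
      rw [pr_smul, pr_add, pr_smul, pr_map, hν1]
      ring
    rw [M_pr _ _ h1, pr_smul, pr_add, pr_smul, pr_map]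
    have h2 := hν g K hK hg (tt k • e k)
    have h3 := hν g K hK hg 0
    simp only [zero_add] at h3
    unfold QQ
    rw [zero_add]
    have e1 : (tt k)⁻¹ * (pr ν (fun y => g (tt k • e k + y)) + -1 * pr ν g) -
        (IA tt e k g (tt k • e k) - IA tt e k g 0) / tt k =
        (tt k)⁻¹ * ((IA tt e k g 0 - pr ν g) -
          (IA tt e k g (tt k • e k) - pr ν (fun y => g (tt k • e k + y)))) := by
      rw [div_eq_inv_mul]
      ring
    rw [e1, abs_mul, abs_of_pos (inv_pos.2 htk)]
    have h4 := abs_sub (IA tt e k g 0 - pr ν g)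
      (IA tt e k g (tt k • e k) - pr ν (fun y => g (tt k • e k + y)))
    calc (tt k)⁻¹ * |(IA tt e k g 0 - pr ν g) -
          (IA tt e k g (tt k • e k) - pr ν (fun y => g (tt k • e k + y)))|
        ≤ (tt k)⁻¹ * (tt k / 2 ^ (k + 2) * K + tt k / 2 ^ (k + 2) * K) :=
          mul_le_mul_of_nonneg_left (by linarith) (inv_pos.2 htk).le
      _ = K / 2 ^ (k + 1) := by
          rw [pow_succ (2 : ℝ) (k + 1)]
          field_simp
          ring
  choose μ hμ using hrep
  refine ⟨μ, ?_, ?_⟩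
  · intro θ hθ g K hK hg
    set n : ℕ := θ.support.sup id + 1 with hn
    have hsub : θ.support ⊆ Finset.range n := by
      intro j hj
      rw [Finset.mem_range]
      have : j ≤ θ.support.sup id := Finset.le_sup (f := id) hj
      omega
    obtain ⟨d, hd⟩ := dirs tt_pos he hK hg n
    have hlin := lin_bound (IA_RL (e := e) tt_pos hK hg n) n (fun k => 2 * K / tt k)
      (fun k _ => div_nonneg (by positivity) (tt_pos k).le) d
      (fun k hk => ⟨(hd k hk).1, (hd k hk).2.1⟩) θ
    have hPhi : Phi μ θ g = ∑ k ∈ Finset.range n, θ k * M (μ k) g := by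
      unfold Phi
      exact Finsupp.sum_of_support_subset _ hsub _ (fun _ _ => by ring)
    have hvec : (θ.sum fun k c => c • e k) = ∑ k ∈ Finset.range n, θ k • e k :=
      Finsupp.sum_of_support_subset _ hsub _ (fun _ _ => by simp)
    have hclose : ∀ k ∈ Finset.range n, θ k * M (μ k) g ≤ θ k * d k 0 + K * (1 / 2) ^ k := by
      intro k hk
      have hk' := Finset.mem_range.1 hk
      have h1 := hμ k g K hK hg
      have h2 := (hd k hk').2.2 0
      have h3 : 2 * K / tt k * ∑ i ∈ Finset.Ico (k + 1) n, tt i ≤ K / 2 ^ (k + 1) := by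
        have h4 := mul_le_mul_of_nonneg_left (tt_sum k n)
          (div_nonneg (by positivity : 0 ≤ 2 * K) (tt_pos k).le)
        refine h4.trans (le_of_eq ?_)
        have := (tt_pos k).ne'
        rw [pow_succ (2 : ℝ) (k + 1)]
        field_simp
      have h4 : |M (μ k) g - d k 0| ≤ K / 2 ^ (k + 1) + K / 2 ^ (k + 1) := by
        have h5 := abs_sub (M (μ k) g - QQ tt e k g 0) (d k 0 - QQ tt e k g 0)
        rw [sub_sub_sub_cancel_right] at h5
        linarith
      have h5 : K / 2 ^ (k + 1) + K / 2 ^ (k + 1) = K * (1 / 2) ^ k := by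
        rw [pow_succ, one_div, inv_pow]
        field_simp
        ring
      rw [h5] at h4
      have h6 : |θ k * (M (μ k) g - d k 0)| ≤ 1 * (K * (1 / 2) ^ k) := by
        rw [abs_mul]
        exact mul_le_mul (hθ k) h4 (abs_nonneg _) zero_le_one
      have h7 := (abs_le.1 h6).2
      linarith
    rw [hPhi]
    have h1 := Finset.sum_le_sum hclose
    rw [Finset.sum_add_distrib, ← Finset.mul_sum] at h1
    have h2 : ∑ k ∈ Finset.range n, (1 / 2 : ℝ) ^ k ≤ 2 := by
      have h3 := geom_sum_eq (by norm_num : (1 / 2 : ℝ) ≠ 1) n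
      rw [h3]
      have h4 : (0 : ℝ) ≤ (1 / 2) ^ n := by positivity
      rw [div_le_iff_of_neg (by norm_num)]
      linarith
    by_cases hz : θ = 0
    · subst hz
      have h3 : ∑ k ∈ Finset.range n, (0 : ℕ →₀ ℝ) k * M (μ k) g = 0 := by simp
      rw [h3]
      have : (0 : ℝ) ≤ (((0 : ℕ →₀ ℝ).support.card : ℕ) : ℝ) ^ α :=
        Real.rpow_nonneg (Nat.cast_nonneg _) _
      positivity
    · have hcard : (1 : ℝ) ≤ θ.support.card := by
        have : 0 < θ.support.card := by
          rw [Finset.card_pos]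
          exact Finsupp.support_nonempty_iff.2 hz
        exact_mod_cast this
      have hpow : (1 : ℝ) ≤ (θ.support.card : ℝ) ^ α := Real.one_le_rpow hcard hα0
      have h3 := hα θ hθ
      rw [hvec] at h3
      have h4 : K * ∑ k ∈ Finset.range n, (1 / 2 : ℝ) ^ k ≤ K * 2 :=
        mul_le_mul_of_nonneg_left h2 hK
      have h5 := mul_le_mul_of_nonneg_left h3 hK
      have h6 := mul_le_mul_of_nonneg_left hpow hK
      nlinarith
  · intro k
    have h1 := hμ k (c k) 1 zero_le_one (hcL k)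
    have hIA : ∀ n, n ≤ k → ∀ x, IA tt e n (c k) x = c k x := by
      intro n
      induction n with
      | zero => intro _ x; rfl
      | succ n ih =>
        intro hn x
        change avg (tt n) (e n) (IA tt e n (c k)) x = c k x
        have h2 : IA tt e n (c k) = c k := funext (ih (by omega))
        rw [h2]
        unfold avg
        have h3 : ∀ τ : ℝ, c k (x + τ • e n) = c k x := fun τ => hce k n x τ (by omega)
        simp only [h3]
        rw [intervalIntegral.integral_const, sub_zero, smul_eq_mul]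
        have := (tt_pos n).ne'
        field_simp
    have h2 : QQ tt e k (c k) 0 = 1 := by
      unfold QQ
      rw [hIA k le_rfl, hIA k le_rfl, hcs, add_sub_cancel_left]
      exact div_self (tt_pos k).ne'
    rw [h2] at h1
    have h3 := (abs_le.1 h1).1
    have h4 : (1 : ℝ) / 2 ^ (k + 1) ≤ 1 / 2 := by
      rw [pow_succ, div_le_div_iff₀ (by positivity) (by norm_num)]
      have : (1 : ℝ) ≤ 2 ^ k := one_le_pow₀ (by norm_num)
      linarith
    linarith

end Pool.Agent.R276.P
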