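import Pool.Agent.R276.Pd
import Pool.Agent.R276.FreeDef

set_option autoImplicit false
set_option linter.unusedSectionVars false

/-!
Upper estimates of exponent below one half are impossible for seminormalised sequences in free
spaces over finite-dimensional normed spaces and in their `ℓ₁`-sums.
-/

namespace Pool.Agent.R276.P

open scoped BigOperators ENNReal
open Pool.Agent.TH326.L1 (RL M Phi)
open Pool.Agent.TH326
open Pool.Agent.R276.FreeDef (IsFreeSpace)

variable {E : Type} [NormedAddCommGroup E] [NormedSpace ℝ E]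

section free

variable {F : Type} [NormedAddCommGroup F] [NormedSpace ℝ F] {δ : E → F}

/-- the element given by a finitely supported measure -/
noncomputable def ofM (δ : E → F) (μ : E →₀ ℝ) : F := μ.sum fun x c => c • δ x

theorem fun_RL (hδ : IsFreeSpace 0 δ) (φ : F →L[ℝ] ℝ) : RL ‖φ‖ (fun x => φ (δ x)) := by
  intro x y
  rw [← map_sub, ← Real.norm_eq_abs]
  refine (φ.le_opNorm _).trans ?_
  rw [hδ.isometric, dist_eq_norm]

theorem fun_ofM (hδ : IsFreeSpace 0 δ) (φ : F →L[ℝ] ℝ) (μ : E →₀ ℝ) :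
    φ (ofM δ μ) = M μ (fun x => φ (δ x)) := by
  unfold ofM M Finsupp.sum
  rw [map_sum]
  refine Finset.sum_congr rfl fun x _ => ?_
  rw [map_smul, smul_eq_mul]
  simp only [hδ.base, map_zero, sub_zero]

theorem exFun (hδ : IsFreeSpace 0 δ) {f : E → ℝ} {K : ℝ} (hK : 0 ≤ K) (hf : RL K f) :
    ∃ φ : F →L[ℝ] ℝ, ‖φ‖ ≤ K ∧ ∀ μ : E →₀ ℝ, φ (ofM δ μ) = M μ f := by
  obtain ⟨T, hT, hTK⟩ := hδ.lift ℝ (fun x => f x - f 0) K hK (sub_self _) (fun x y => by
    rw [Real.norm_eq_abs, dist_eq_norm]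
    refine le_trans (le_of_eq ?_) (hf x y)
    congr 1; ring)
  refine ⟨T, hTK, fun μ => ?_⟩
  rw [fun_ofM hδ]
  unfold M
  refine Finsupp.sum_congr fun x _ => ?_
  simp only [hT]
  ring

theorem norm_le_of {v : F} {C : ℝ} (hC : 0 ≤ C) (h : ∀ φ : F →L[ℝ] ℝ, φ v ≤ C * ‖φ‖) :
    ‖v‖ ≤ C := by
  obtain ⟨φ, hφ, hφv⟩ := exists_dual_vector'' ℝ v
  have h1 := h φ
  rw [hφv] at h1
  simp only [RCLike.ofReal_real_eq_id, id_eq] at h1
  nlinarith

theorem approx (hδ : IsFreeSpace 0 δ) (v : F) {ε : ℝ} (hε : 0 < ε) :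
    ∃ ν : E →₀ ℝ, ‖v - ofM δ ν‖ ≤ ε := by
  have htop : (Submodule.span ℝ (Set.range δ)).topologicalClosure = ⊤ := by
    by_contra hne
    obtain ⟨x, hx⟩ : ∃ x, x ∉ (Submodule.span ℝ (Set.range δ)).topologicalClosure := by
      by_contra h
      push Not at h
      exact hne (eq_top_iff.2 fun x _ => h x)
    obtain ⟨f, u, hf1, hf2⟩ := geometric_hahn_banach_closed_point
      ((Submodule.span ℝ (Set.range δ)).topologicalClosure.convex)
      (Submodule.isClosed_topologicalClosure _) hx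
    have hu : 0 < u := by
      have := hf1 0 (Submodule.zero_mem _)
      rwa [map_zero] at this
    have hf0 : ∀ y ∈ (Submodule.span ℝ (Set.range δ)).topologicalClosure, f y = 0 := by
      intro y hy
      by_contra hne
      have h2 := hf1 ((u / f y) • y) (Submodule.smul_mem _ _ hy)
      rw [map_smul, smul_eq_mul, div_mul_cancel₀ _ hne] at h2
      exact lt_irrefl _ h2
    have hfz : f = 0 := hδ.unique ℝ f 0 (fun y => by
      rw [hf0 _ (Submodule.le_topologicalClosure _ (Submodule.subset_span ⟨y, rfl⟩))]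
      rfl)
    rw [hfz, zero_apply] at hf2
    linarith
  have h1 : v ∈ closure ((Submodule.span ℝ (Set.range δ) : Submodule ℝ F) : Set F) := by
    have h2 : v ∈ (Submodule.span ℝ (Set.range δ)).topologicalClosure := by rw [htop]; trivial
    exact h2
  rw [Metric.mem_closure_iff] at h1
  obtain ⟨w, hw, hd⟩ := h1 ε hε
  obtain ⟨ν, rfl⟩ := (Finsupp.mem_span_range_iff_exists_finsupp).1 hw
  rw [dist_eq_norm] at hd
  exact ⟨ν, hd.le⟩

end free

/-- upper estimates in a normed space -/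
def UE {X : Type} [NormedAddCommGroup X] [NormedSpace ℝ X] (v : ℕ → X) (b α : ℝ) : Prop :=
  ∀ θ : ℕ →₀ ℝ, (∀ j, |θ j| ≤ 1) → ‖θ.sum fun j c => c • v j‖ ≤ b * (θ.support.card : ℝ) ^ α

theorem UE.map {X Y : Type} [NormedAddCommGroup X] [NormedSpace ℝ X] [NormedAddCommGroup Y]
    [NormedSpace ℝ Y] {v : ℕ → X} {b α : ℝ} (h : UE v b α) (T : X →L[ℝ] Y) :
    UE (fun j => T (v j)) (‖T‖ * b) α := by
  intro θ hθ
  have h1 : (θ.sum fun j c => c • T (v j)) = T (θ.sum fun j c => c • v j) := by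
    unfold Finsupp.sum
    rw [map_sum]
    exact Finset.sum_congr rfl fun j _ => by rw [map_smul]
  rw [h1]
  refine (T.le_opNorm _).trans ?_
  rw [mul_assoc]
  exact mul_le_mul_of_nonneg_left (h θ hθ) (norm_nonneg _)

theorem UE.subseq {X : Type} [NormedAddCommGroup X] [NormedSpace ℝ X] {v : ℕ → X} {b α : ℝ}
    (h : UE v b α) {φ : ℕ → ℕ} (hφ : Function.Injective φ) : UE (fun j => v (φ j)) b α := by
  intro θ hθ
  have h1 : (θ.sum fun j c => c • v (φ j)) = (θ.mapDomain φ).sum fun j c => c • v j := by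
    exact (Finsupp.sum_mapDomain_index (h := fun j c => c • v j) (fun _ => zero_smul _ _)
      (fun _ _ _ => add_smul _ _ _)).symm
  have h2 : (θ.mapDomain φ).support.card = θ.support.card := by
    classical
    rw [Finsupp.mapDomain_support_of_injective hφ, Finset.card_image_of_injective _ hφ]
  rw [h1, ← h2]
  refine h _ fun j => ?_
  by_cases hj : j ∈ Set.range φ
  · obtain ⟨i, rfl⟩ := hj
    rw [Finsupp.mapDomain_apply hφ]
    exact hθ i
  · rw [Finsupp.mapDomain_of_notMem_range _ _ hj, abs_zero]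
    exact zero_le_one

/-- sequences with upper estimates of exponent below one half in the free space over a
finite-dimensional space tend to zero in norm -/
theorem fin_null [FiniteDimensional ℝ E] {F : Type} [NormedAddCommGroup F] [NormedSpace ℝ F]
    {δ : E → F} (hδ : IsFreeSpace 0 δ) {v : ℕ → F} {b α : ℝ} (hb : 0 ≤ b)
    (hα0 : 0 ≤ α) (hα : α < 1 / 2) (hv : UE v b α) {a : ℝ} (ha : 0 < a) :
    ∃ p : ℕ, ∀ j, p ≤ j → ‖v j‖ ≤ a := by
  by_contra hcon
  push Not at hcon
  obtain ⟨φ, hφ, hφa⟩ : ∃ φ : ℕ → ℕ, StrictMono φ ∧ ∀ n, a < ‖v (φ n)‖ := by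
    refine Filter.extraction_of_frequently_atTop (P := fun n => a < ‖v n‖)
      (Filter.frequently_atTop.2 fun N => ?_)
    obtain ⟨j, hj, hja⟩ := hcon N
    exact ⟨j, hj, hja⟩
  have hw := hv.subseq hφ.injective
  have happ : ∀ n : ℕ, ∃ ν : E →₀ ℝ, ‖v (φ n) - ofM δ ν‖ ≤ min (a / 4) ((1 / 2) ^ (n + 1)) :=
    fun n => approx hδ _ (lt_min (by positivity) (by positivity))
  choose ν hν using happ
  have hnorm : ∀ n : ℕ, ∃ g : F →L[ℝ] ℝ, ‖g‖ ≤ 1 ∧ a ≤ g (v (φ n)) := by
    intro n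
    obtain ⟨g, hg, hga⟩ := exists_dual_vector'' ℝ (v (φ n))
    refine ⟨g, hg, ?_⟩
    rw [hga]
    simp only [RCLike.ofReal_real_eq_id, id_eq]
    exact (hφa n).le
  choose g hg1 hga using hnorm
  refine finE (μ := ν) (b := b + 1) (α := α) (by linarith) hα0 hα ?_ (a := a / 2) (by positivity)
    (f := fun n x => g n (δ x)) (fun n => (fun_RL hδ (g n)).mono (hg1 n))
    (fun n => by rw [hδ.base, map_zero]) ?_
  · intro θ hθ f K hK hf
    by_cases hz : θ = 0
    · subst hz
      rw [L1.Phi_zero_left]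
      have : (0 : ℝ) ≤ (((0 : ℕ →₀ ℝ).support.card : ℕ) : ℝ) ^ α :=
        Real.rpow_nonneg (Nat.cast_nonneg _) _
      positivity
    have hcard : (1 : ℝ) ≤ θ.support.card := by
      have : 0 < θ.support.card := by
        rw [Finset.card_pos]
        exact Finsupp.support_nonempty_iff.2 hz
      exact_mod_cast this
    have hpow : (1 : ℝ) ≤ (θ.support.card : ℝ) ^ α := Real.one_le_rpow hcard hα0
    obtain ⟨ψ, hψK, hψ⟩ := exFun hδ hK hf
    have e1 : Phi ν θ f = θ.sum fun j s => s * ψ (ofM δ (ν j)) := by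
      unfold Phi
      refine Finsupp.sum_congr fun j _ => ?_
      rw [hψ]
    have e2 : ψ (θ.sum fun j c => c • v (φ j)) = θ.sum fun j s => s * ψ (v (φ j)) := by
      unfold Finsupp.sum
      rw [map_sum]
      refine Finset.sum_congr rfl fun j _ => ?_
      rw [map_smul, smul_eq_mul]
    have h1 : ψ (θ.sum fun j c => c • v (φ j)) ≤ b * (θ.support.card : ℝ) ^ α * K := by
      have h2 := ψ.le_opNorm (θ.sum fun j c => c • v (φ j))
      rw [Real.norm_eq_abs] at h2
      refine (le_abs_self _).trans (h2.trans ?_)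
      rw [mul_comm]
      exact mul_le_mul (hw θ hθ) hψK (norm_nonneg _) (by positivity)
    have h3 : (θ.sum fun j s => s * ψ (ofM δ (ν j))) ≤ (θ.sum fun j s => s * ψ (v (φ j))) +
        ∑ j ∈ θ.support, K * (1 / 2) ^ (j + 1) := by
      unfold Finsupp.sum
      rw [← Finset.sum_add_distrib]
      refine Finset.sum_le_sum fun j _ => ?_
      have h4 : |ψ (v (φ j) - ofM δ (ν j))| ≤ (1 / 2) ^ (j + 1) * K := by
        have h5 := ψ.le_opNorm (v (φ j) - ofM δ (ν j))
        rw [Real.norm_eq_abs] at h5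
        refine h5.trans ?_
        rw [mul_comm]
        exact mul_le_mul ((hν j).trans (min_le_right _ _)) hψK (norm_nonneg _) (by positivity)
      rw [map_sub] at h4
      have h6 : |θ j * (ψ (v (φ j)) - ψ (ofM δ (ν j)))| ≤ 1 * ((1 / 2) ^ (j + 1) * K) := by
        rw [abs_mul]
        exact mul_le_mul (hθ j) h4 (abs_nonneg _) zero_le_one
      have h7 := (abs_le.1 h6).1
      linarith
    have h8 : ∑ j ∈ θ.support, K * (1 / 2 : ℝ) ^ (j + 1) ≤ K := by
      rw [← Finset.mul_sum]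
      have h9 : ∑ j ∈ θ.support, (1 / 2 : ℝ) ^ (j + 1) ≤ 1 := by
        have hs : Summable fun j : ℕ => (1 / 2 : ℝ) ^ (j + 1) := by
          have := summable_geometric_two
          exact (summable_nat_add_iff 1).2 this
        refine (hs.sum_le_tsum _ (fun j _ => by positivity)).trans (le_of_eq ?_)
        have h10 := (summable_geometric_two).tsum_eq_zero_add
        rw [tsum_geometric_two] at h10
        simp only [pow_zero] at h10
        linarith
      nlinarith
    rw [e1]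
    rw [e2] at h1
    have h10 : K ≤ (θ.support.card : ℝ) ^ α * K := by nlinarith
    linarith
  · intro n
    rw [← fun_ofM hδ]
    have h1 : |g n (v (φ n) - ofM δ (ν n))| ≤ 1 * (a / 4) := by
      have h5 := (g n).le_opNorm (v (φ n) - ofM δ (ν n))
      rw [Real.norm_eq_abs] at h5
      exact h5.trans (mul_le_mul (hg1 n) ((hν n).trans (min_le_left _ _)) (norm_nonneg _)
        zero_le_one)
    rw [map_sub] at h1
    have h3 := (abs_le.1 h1).2
    have h4 := hga n
    linarith

section sums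

variable {ι : Type} {Y : ι → Type} [∀ i, NormedAddCommGroup (Y i)] [∀ i, NormedSpace ℝ (Y i)]

theorem lp1_norm (z : lp Y 1) : ‖z‖ = ∑' i, ‖z i‖ := by
  have h := lp.norm_eq_tsum_rpow (E := Y) (p := 1) (by norm_num) z
  simpa using h

theorem lp1_summable (z : lp Y 1) : Summable fun i => ‖z i‖ := by
  have h := (lp.memℓp z).summable (by norm_num)
  simpa using h

theorem lp1_hump (z w : lp Y 1) (F : Finset ι) :
    ‖z‖ + ‖w‖ - 2 * (‖z‖ - ∑ i ∈ F, ‖z i‖) - 2 * ∑ i ∈ F, ‖w i‖ ≤ ‖z + w‖ := by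
  classical
  have hz := lp1_summable z
  have hw := lp1_summable w
  have hzw := lp1_summable (z + w)
  let u : ι → ℝ := fun i => if i ∈ F then ‖z i‖ - ‖w i‖ else ‖w i‖ - ‖z i‖
  have hfs : ∀ f : ι → ℝ, Summable fun i => if i ∈ F then f i else 0 := fun f =>
    summable_of_ne_finset_zero (s := F) (fun i hi => by simp [hi])
  have hu : ∀ i, u i = (‖w i‖ - ‖z i‖) + (if i ∈ F then 2 * ‖z i‖ - 2 * ‖w i‖ else 0) := by
    intro i
    simp only [u]
    split_ifs <;> ring
  have hus : Summable u := by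
    simp only [funext hu]
    exact (hw.sub hz).add (hfs _)
  have h1 : ∑' i, u i ≤ ∑' i, ‖(z + w) i‖ := by
    refine hus.tsum_le_tsum (fun i => ?_) hzw
    have h2 : (z + w) i = z i + w i := rfl
    rw [h2]
    simp only [u]
    split_ifs
    · have := norm_sub_norm_le (z i) (-(w i))
      rw [sub_neg_eq_add, norm_neg] at this
      exact this
    · have := norm_sub_norm_le (w i) (-(z i))
      rw [sub_neg_eq_add, norm_neg, add_comm] at this
      exact this
  have h3 : ∑' i, u i = ‖w‖ - ‖z‖ + (2 * ∑ i ∈ F, ‖z i‖ - 2 * ∑ i ∈ F, ‖w i‖) := by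
    rw [tsum_congr hu, (hw.sub hz).tsum_add (hfs _), hw.tsum_sub hz, ← lp1_norm, ← lp1_norm]
    congr 1
    rw [tsum_eq_sum (s := F) (fun i hi => by simp [hi]), Finset.mul_sum, Finset.mul_sum,
      ← Finset.sum_sub_distrib]
    exact Finset.sum_congr rfl fun i hi => by simp [hi]
  rw [lp1_norm (z + w)]
  linarith

/-- gliding hump -/
theorem hump {v : ℕ → lp Y 1} {b α : ℝ} (hb : 0 ≤ b) (hα0 : 0 ≤ α) (hα : α < 1) (hv : UE v b α)
    {a : ℝ} (ha : 0 < a) (hva : ∀ j, a ≤ ‖v j‖)
    (hco : ∀ i (ε : ℝ), 0 < ε → ∃ p : ℕ, ∀ j, p ≤ j → ‖v j i‖ ≤ ε) : False := by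
  classical
  have key : ∀ K : ℕ, ∃ (θ : ℕ →₀ ℝ) (n : ℕ), (∀ j, |θ j| ≤ 1) ∧ (∀ j, n ≤ j → θ j = 0) ∧
      θ.support.card ≤ K ∧ (K : ℝ) * (a / 2) ≤ ‖θ.sum fun j c => c • v j‖ := by
    intro K
    induction K with
    | zero => exact ⟨0, 0, by simp, by simp, by simp, by simp⟩
    | succ K ih =>
      obtain ⟨θ, n, hθ, hn, hc, hK⟩ := ih
      set z := θ.sum fun j c => c • v j with hz
      have hs := lp1_summable z
      have h1 : ∀ᶠ F : Finset ι in Filter.atTop, ‖z‖ - a / 8 < ∑ i ∈ F, ‖z i‖ := by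
        have h2 := hs.hasSum
        rw [← lp1_norm] at h2
        exact h2.eventually_const_lt (by linarith)
      obtain ⟨F, hF⟩ := h1.exists
      have h2 : ∀ᶠ j in Filter.atTop, ∀ i ∈ F, ‖v j i‖ ≤ a / (8 * (F.card + 1)) := by
        rw [Filter.eventually_all_finset]
        intro i _
        obtain ⟨p, hp⟩ := hco i (a / (8 * (F.card + 1))) (by positivity)
        exact Filter.eventually_atTop.2 ⟨p, hp⟩
      obtain ⟨j, hj1, hj2⟩ := (h2.and (Filter.eventually_ge_atTop n)).exists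
      have h3 : ∑ i ∈ F, ‖v j i‖ ≤ a / 8 := by
        refine (Finset.sum_le_sum hj1).trans ?_
        rw [Finset.sum_const, nsmul_eq_mul, mul_div_assoc', div_le_div_iff₀ (by positivity)
          (by norm_num)]
        nlinarith
      have h4 := lp1_hump z (v j) F
      have h5 := hva j
      have hθj : θ j = 0 := hn j hj2
      have h6 : ((θ + (1 : ℝ) • Finsupp.single j (1 : ℝ)).sum fun j c => c • v j) = z + v j := by
        rw [Finsupp.sum_add_index' (h := fun j c => c • v j) (fun _ => zero_smul _ _)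
          (fun _ _ _ => add_smul _ _ _), one_smul, Finsupp.sum_single_index (h := fun j c => c • v j) (zero_smul _ _),
          one_smul]
      refine ⟨θ + (1 : ℝ) • Finsupp.single j (1 : ℝ), j + 1, ?_, ?_,
        card_add_single θ 1 j K hc, ?_⟩
      · intro i
        simp only [Finsupp.add_apply, Finsupp.smul_apply, smul_eq_mul, Finsupp.single_apply]
        by_cases hij : j = i
        · subst hij
          simp [hθj]
        · simp [hij, hθ i]
      · intro i hi
        simp only [Finsupp.add_apply, Finsupp.smul_apply, smul_eq_mul, Finsupp.single_apply]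
        rw [hn i (by omega), if_neg (by omega)]
        simp
      · rw [h6]
        push_cast
        linarith
  obtain ⟨K, hK⟩ := exists_large (c := b) hα (half_pos ha)
  obtain ⟨θ, n, hθ, hn, hc, hKa⟩ := key K
  have h1 := hv θ hθ
  have h2 : ((θ.support.card : ℝ)) ^ α ≤ (K : ℝ) ^ α :=
    Real.rpow_le_rpow (Nat.cast_nonneg _) (by exact_mod_cast hc) hα0
  have h3 : b * (θ.support.card : ℝ) ^ α ≤ b * (K : ℝ) ^ α := mul_le_mul_of_nonneg_left h2 hb
  linarith

end sums

/-- evaluation at a coordinate of an `ℓ₁`-sum -/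
noncomputable def coord {ι : Type} {Y : ι → Type} [∀ i, NormedAddCommGroup (Y i)]
    [∀ i, NormedSpace ℝ (Y i)] (i : ι) : lp Y 1 →L[ℝ] Y i :=
  LinearMap.mkContinuous
    { toFun := fun z => z i
      map_add' := fun _ _ => rfl
      map_smul' := fun _ _ => rfl } 1 (fun z => by
        rw [one_mul]
        exact lp.norm_apply_le_norm (by norm_num) z i)

/-- The general theorem: no isomorphic embedding of the free space of a space containing a
sequence of unit vectors with a small upper estimate. -/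
theorem no_embedding {F : Type} [NormedAddCommGroup F] [NormedSpace ℝ F] {δ : E → F}
    (hδ : IsFreeSpace 0 δ) {ι : Type} {G H : ι → Type} [∀ i, NormedAddCommGroup (G i)]
    [∀ i, NormedSpace ℝ (G i)] [∀ i, FiniteDimensional ℝ (G i)]
    [∀ i, NormedAddCommGroup (H i)] [∀ i, NormedSpace ℝ (H i)] {δ' : ∀ i, G i → H i}
    (hδ' : ∀ i, IsFreeSpace 0 (δ' i))
    {e : ℕ → E} (he : ∀ k, ‖e k‖ = 1) {α : ℝ}
    (hα : ∀ θ : ℕ →₀ ℝ, (∀ j, |θ j| ≤ 1) → ‖θ.sum fun k c => c • e k‖ ≤ (θ.support.card : ℝ) ^ α)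
    (hα0 : 0 ≤ α) (hα1 : α < 1 / 2)
    {c : ℕ → E → ℝ} (hcL : ∀ k, RL 1 (c k)) 
    (hce : ∀ k i x (s : ℝ), i < k → c k (x + s • e i) = c k x)
    (hcs : ∀ k x (s : ℝ), c k (x + s • e k) = c k x + s)
    (T : F →L[ℝ] lp H 1) {κ : ℝ} (hκ : 0 < κ) (hT : ∀ v, κ * ‖v‖ ≤ ‖T v‖) : False := by
  obtain ⟨μ, hμ, hμc⟩ := exists_seq he hα hα0 hcL hce hcs
  have hu : UE (fun j => ofM δ (μ j)) 3 α := by
    intro θ hθ
    refine norm_le_of (mul_nonneg (by norm_num) (Real.rpow_nonneg (Nat.cast_nonneg _) _))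
      fun φ => ?_
    have e2 : φ (θ.sum fun j c => c • ofM δ (μ j)) = Phi μ θ (fun x => φ (δ x)) := by
      unfold Phi Finsupp.sum
      rw [map_sum]
      refine Finset.sum_congr rfl fun j _ => ?_
      rw [map_smul, smul_eq_mul, fun_ofM hδ]
    rw [e2]
    exact hμ θ hθ _ ‖φ‖ (norm_nonneg _) (fun_RL hδ φ)
  have hun : ∀ j, 1 / 2 ≤ ‖ofM δ (μ j)‖ := by
    intro j
    obtain ⟨ψ, hψK, hψ⟩ := exFun hδ zero_le_one (hcL j)
    have h1 := ψ.le_opNorm (ofM δ (μ j))
    rw [hψ, Real.norm_eq_abs] at h1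
    have h3 := (le_abs_self _).trans h1
    have h4 := hμc j
    have h5 := norm_nonneg (ofM δ (μ j))
    nlinarith
  have hv := hu.map T
  refine hump (v := fun j => T (ofM δ (μ j))) (b := ‖T‖ * 3) (α := α) (by positivity) hα0
    (by linarith) hv (a := κ / 2) (by positivity) (fun j => ?_) (fun i ε hε => ?_)
  · have h1 := hT (ofM δ (μ j))
    have h2 := mul_le_mul_of_nonneg_left (hun j) hκ.le
    linarith
  · have h1 := hv.map (coord (Y := H) i)
    exact fin_null (hδ' i) (by positivity) hα0 hα1 h1 hε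

end Pool.Agent.R276.P
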