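import Mathlib

set_option autoImplicit false
set_option linter.unusedSectionVars false

/-!
Joins and cuts: the peeling step (after Sebő's proof of Seymour's theorem on `T`-joins).
-/

noncomputable section

open Finset
open scoped Classical

namespace Pool.Agent.R276.TJ

variable {X : Type*}

/-- boundary modulo two of an edge -/
def bd (e : Sym2 X) : X → ZMod 2 :=
  Sym2.lift ⟨fun a b => Pi.single a 1 + Pi.single b 1, fun _ _ => add_comm _ _⟩ e

theorem bd_mk (a b : X) : bd s(a, b) = (Pi.single a 1 + Pi.single b 1 : X → ZMod 2) := rfl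

theorem cc (f : X → ZMod 2) : f + f = 0 := by
  funext x
  exact CharTwo.add_self_eq_zero (f x)

theorem bd_self (a : X) : bd s(a, a) = 0 := by rw [bd_mk, cc]

theorem bd_diag {e : Sym2 X} (h : e.IsDiag) : bd e = 0 := by
  induction e with
  | _ a b =>
    rw [Sym2.mk_isDiag_iff] at h
    subst h
    exact bd_self a

theorem bd_add (a b c : X) : bd s(a, b) + bd s(b, c) = bd s(a, c) := by
  rw [bd_mk, bd_mk, bd_mk]
  have := cc (Pi.single b 1 : X → ZMod 2)
  calc (Pi.single a 1 + Pi.single b 1 + (Pi.single b 1 + Pi.single c 1) : X → ZMod 2)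
      = Pi.single a 1 + (Pi.single b 1 + Pi.single b 1) + Pi.single c 1 := by abel
    _ = _ := by rw [this, add_zero]

theorem bd_of_notMem {e : Sym2 X} {v : X} (h : v ∉ e) : bd e v = 0 := by
  induction e with
  | _ a b =>
    rw [Sym2.mem_iff, not_or] at h
    rw [bd_mk, Pi.add_apply, Pi.single_eq_of_ne h.1, Pi.single_eq_of_ne h.2, add_zero]

theorem bd_of_mem {e : Sym2 X} {v : X} (h : v ∈ e) (hd : ¬ e.IsDiag) : bd e v = 1 := by
  obtain ⟨c, rfl⟩ := Sym2.mem_iff_exists.1 h
  rw [Sym2.mk_isDiag_iff] at hd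
  rw [bd_mk, Pi.add_apply, Pi.single_eq_same, Pi.single_eq_of_ne hd, add_zero]

/-- boundary of an edge set -/
def bds (C : Finset (Sym2 X)) : X → ZMod 2 := ∑ e ∈ C, bd e

theorem bds_empty : bds (∅ : Finset (Sym2 X)) = 0 := rfl

theorem bds_apply (C : Finset (Sym2 X)) (v : X) : bds C v = ∑ e ∈ C, bd e v := by
  unfold bds
  rw [Finset.sum_apply]

theorem bds_insert {C : Finset (Sym2 X)} {e : Sym2 X} (h : e ∉ C) :
    bds (insert e C) = bd e + bds C := by
  unfold bds
  rw [Finset.sum_insert h]

theorem bds_union {A B : Finset (Sym2 X)} (h : Disjoint A B) : bds (A ∪ B) = bds A + bds B := by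
  unfold bds
  rw [Finset.sum_union h]

theorem bds_sdiff {A B : Finset (Sym2 X)} (h : A ⊆ B) : bds (B \ A) = bds B + bds A := by
  have h1 : bds B = bds A + bds (B \ A) := by
    conv_lhs => rw [← Finset.union_sdiff_of_subset h]
    exact bds_union Finset.disjoint_sdiff
  rw [h1]
  have := cc (bds A)
  calc bds (B \ A) = (bds A + bds A) + bds (B \ A) := by rw [this, zero_add]
    _ = _ := by abel

theorem bds_symmDiff (A B : Finset (Sym2 X)) : bds (symmDiff A B) = bds A + bds B := by
  have h1 : symmDiff A B = (A \ B) ∪ (B \ A) := rfl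
  have hA : bds A = bds (A \ B) + bds (A ∩ B) := by
    rw [← bds_union (Finset.disjoint_sdiff_inter A B), Finset.sdiff_union_inter]
  have hB : bds B = bds (B \ A) + bds (A ∩ B) := by
    rw [Finset.inter_comm, ← bds_union (Finset.disjoint_sdiff_inter B A),
      Finset.sdiff_union_inter]
  rw [h1, bds_union (by
    rw [Finset.disjoint_left]
    intro x hx hx'
    exact (Finset.mem_sdiff.1 hx).2 (Finset.mem_sdiff.1 hx').1), hA, hB]
  have := cc (bds (A ∩ B))
  calc bds (A \ B) + bds (B \ A) = bds (A \ B) + bds (B \ A) + (bds (A ∩ B) + bds (A ∩ B)) := by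
        rw [this, add_zero]
    _ = _ := by abel

/-- no loops -/
def ND (C : Finset (Sym2 X)) : Prop := ∀ e ∈ C, ¬ e.IsDiag

theorem ND.symmDiff {A B : Finset (Sym2 X)} (hA : ND A) (hB : ND B) : ND (symmDiff A B) := by
  intro e he
  rw [Finset.mem_symmDiff] at he
  rcases he with h | h
  · exact hA e h.1
  · exact hB e h.1

theorem ND.subset {A B : Finset (Sym2 X)} (hB : ND B) (h : A ⊆ B) : ND A := fun e he =>
  hB e (h he)

/-- degree -/
def nb (b : X) (C : Finset (Sym2 X)) : ℕ := (C.filter (fun e => b ∈ e)).card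

theorem bds_nb {C : Finset (Sym2 X)} (hC : ND C) (b : X) : bds C b = (nb b C : ZMod 2) := by
  rw [bds_apply]
  have h : ∀ e ∈ C, bd e b = if b ∈ e then 1 else 0 := by
    intro e he
    by_cases hb : b ∈ e
    · rw [if_pos hb, bd_of_mem hb (hC e he)]
    · rw [if_neg hb, bd_of_notMem hb]
  rw [Finset.sum_congr rfl h, Finset.sum_boole]
  rfl

/-- vertices joined to `c` inside `C` -/
def DD (C : Finset (Sym2 X)) (c : X) : Set X := {u | ∃ C1, C1 ⊆ C ∧ bds C1 = bd s(c, u)}

theorem DD_self (C : Finset (Sym2 X)) (c : X) : c ∈ DD C c :=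
  ⟨∅, Finset.empty_subset _, by rw [bd_self, bds_empty]⟩

theorem DD_closed {C : Finset (Sym2 X)} {c : X} {e : Sym2 X} (he : e ∈ C) {u u' : X}
    (hu : u ∈ e) (hu' : u' ∈ e) (h : u ∈ DD C c) : u' ∈ DD C c := by
  obtain ⟨C1, h1, h2⟩ := h
  by_cases huu : u' = u
  · rw [huu]; exact ⟨C1, h1, h2⟩
  have he' : e = s(u, u') := by
    obtain ⟨z, rfl⟩ := Sym2.mem_iff_exists.1 hu
    rw [Sym2.mem_iff] at hu'
    rcases hu' with h | h
    · exact absurd h huu
    · rw [h]
  refine ⟨symmDiff C1 {e}, ?_, ?_⟩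
  · intro f hf
    rw [Finset.mem_symmDiff] at hf
    rcases hf with h | h
    · exact h1 h.1
    · rw [Finset.mem_singleton.1 h.1]; exact he
  · rw [bds_symmDiff, h2, he']
    have : bds {s(u, u')} = bd s(u, u') := by
      unfold bds; rw [Finset.sum_singleton]
    rw [this, bd_add]

/-- the edges of `A` at the vertices joined to `c` in `C` -/
def CB (C : Finset (Sym2 X)) (c : X) (A : Finset (Sym2 X)) : Finset (Sym2 X) :=
  A.filter (fun e => ∃ u, u ∈ e ∧ u ∈ DD C c)

theorem mem_CB {C A : Finset (Sym2 X)} {c : X} {e : Sym2 X} :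
    e ∈ CB C c A ↔ e ∈ A ∧ ∃ u, u ∈ e ∧ u ∈ DD C c := Finset.mem_filter

theorem CB_subset {C A : Finset (Sym2 X)} {c : X} : CB C c A ⊆ A := Finset.filter_subset _ _

theorem CB_apply {C A : Finset (Sym2 X)} {c : X} (hA : A ⊆ C) (v : X) :
    bds (CB C c A) v = if v ∈ DD C c then bds A v else 0 := by
  rw [bds_apply, bds_apply]
  split_ifs with hv
  · refine Finset.sum_subset (Finset.filter_subset _ _) ?_
    intro e he hne
    by_cases h : v ∈ e
    · exact absurd (Finset.mem_filter.2 ⟨he, v, h, hv⟩) hne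
    · exact bd_of_notMem h
  · refine Finset.sum_eq_zero fun e he => ?_
    obtain ⟨he1, u, hu, hud⟩ := Finset.mem_filter.1 he
    refine bd_of_notMem fun h => hv ?_
    exact DD_closed (hA he1) hu h hud

theorem bd_sum [Fintype X] (e : Sym2 X) : ∑ v, bd e v = 0 := by
  induction e with
  | _ a b =>
    rw [bd_mk]
    simp only [Pi.add_apply]
    rw [Finset.sum_add_distrib, Finset.sum_pi_single', Finset.sum_pi_single']
    simp only [Finset.mem_univ, if_true]
    decide

theorem bds_sum [Fintype X] (C : Finset (Sym2 X)) : ∑ v, bds C v = 0 := by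
  simp only [bds_apply]
  rw [Finset.sum_comm]
  exact Finset.sum_eq_zero fun e _ => bd_sum e

/-- every join of two vertices contains one with degree one at a given end -/
theorem exists_path [Fintype X] {a b : X} (hab : a ≠ b) : ∀ (n : ℕ) (C0 : Finset (Sym2 X)),
    C0.card ≤ n → ND C0 → bds C0 = bd s(b, a) →
    ∃ C' ⊆ C0, bds C' = bd s(b, a) ∧ nb b C' = 1 := by
  intro n
  induction n with
  | zero =>
    intro C0 hc _ h
    have : C0 = ∅ := Finset.card_eq_zero.1 (Nat.le_zero.1 hc)
    rw [this, bds_empty] at h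
    have h1 : (0 : X → ZMod 2) b = bd s(b, a) b := congrFun h b
    rw [bd_mk, Pi.add_apply, Pi.single_eq_same, Pi.single_eq_of_ne hab.symm, Pi.zero_apply] at h1
    exact absurd h1 (by decide)
  | succ n ih =>
    intro C0 hc hnd h
    -- an edge at b
    obtain ⟨f, hf, hbf⟩ : ∃ f ∈ C0, b ∈ f := by
      by_contra hcon
      push Not at hcon
      have h1 : bds C0 b = 0 := by
        rw [bds_apply]
        exact Finset.sum_eq_zero fun e he => bd_of_notMem (hcon e he)
      rw [h, bd_mk, Pi.add_apply, Pi.single_eq_same, Pi.single_eq_of_ne hab.symm] at h1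
      exact absurd h1 (by decide)
    obtain ⟨c, rfl⟩ := Sym2.mem_iff_exists.1 hbf
    set C0' := C0.erase s(b, c) with hC0'
    have hins : insert s(b, c) C0' = C0 := Finset.insert_erase hf
    have hnot : s(b, c) ∉ C0' := Finset.notMem_erase _ _
    have hsub : C0' ⊆ C0 := Finset.erase_subset _ _
    have hb0 : bds C0' = bd s(c, a) := by
      have h1 : bds C0 = bd s(b, c) + bds C0' := by rw [← hins, bds_insert hnot]
      have h2 : bds C0' = bd s(b, c) + bds C0 := by
        rw [h1, ← add_assoc, cc, zero_add]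
      rw [h2, h, Sym2.eq_swap, bd_add]
    by_cases hbD : b ∈ DD C0' c
    · obtain ⟨C1, hC1, hb1⟩ := hbD
      set A := insert s(b, c) C1 with hA
      have hnot1 : s(b, c) ∉ C1 := fun h => hnot (hC1 h)
      have hbA : bds A = 0 := by
        rw [hA, bds_insert hnot1, hb1, bd_add, bd_self]
      have hAs : A ⊆ C0 := by
        rw [hA, ← hins]
        exact Finset.insert_subset_insert _ hC1
      have hcard : (C0 \ A).card ≤ n := by
        have h1 : (C0 \ A).card < C0.card := by
          refine Finset.card_lt_card ⟨Finset.sdiff_subset, fun hh => ?_⟩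
          have := hh hf
          exact (Finset.mem_sdiff.1 this).2 (Finset.mem_insert_self _ _)
        omega
      obtain ⟨C', h1, h2, h3⟩ := ih (C0 \ A) hcard (hnd.subset Finset.sdiff_subset)
        (by rw [bds_sdiff hAs, hbA, add_zero, h])
      exact ⟨C', h1.trans Finset.sdiff_subset, h2, h3⟩
    · set ED := CB C0' c C0' with hED
      have haD : a ∈ DD C0' c := ⟨C0', Finset.Subset.refl _, hb0⟩
      have hbE : bds ED = bd s(c, a) := by
        funext v
        rw [hED, CB_apply (Finset.Subset.refl _), hb0]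
        split_ifs with hv
        · rfl
        · symm
          refine bd_of_notMem fun hm => ?_
          rw [Sym2.mem_iff] at hm
          rcases hm with rfl | rfl
          · exact hv (DD_self _ _)
          · exact hv haD
      have hfE : s(b, c) ∉ ED := fun h => hnot (mem_CB.1 h).1
      refine ⟨insert s(b, c) ED, ?_, ?_, ?_⟩
      · rw [← hins]
        exact Finset.insert_subset_insert _ CB_subset
      · rw [bds_insert hfE, hbE, bd_add]
      · unfold nb
        have h1 : (insert s(b, c) ED).filter (fun e => b ∈ e) = {s(b, c)} := by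
          ext e
          rw [Finset.mem_filter, Finset.mem_insert, Finset.mem_singleton]
          constructor
          · rintro ⟨h | h, hb⟩
            · exact h
            · exfalso
              obtain ⟨h2, u, hu, hud⟩ := mem_CB.1 h
              exact hbD (DD_closed h2 hu hb hud)
          · rintro rfl
            exact ⟨Or.inl rfl, Sym2.mem_mk_left _ _⟩
        rw [h1, Finset.card_singleton]

/-- total weight -/
def rs (r : Sym2 X → ℝ) (C : Finset (Sym2 X)) : ℝ := ∑ e ∈ C, r e

/-- weight with signs -/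
def ww (r : Sym2 X → ℝ) (K : Finset (Sym2 X)) (C : Finset (Sym2 X)) : ℝ :=
  ∑ e ∈ C, if e ∈ K then -r e else r e

theorem rs_symmDiff (r : Sym2 X → ℝ) (K C : Finset (Sym2 X)) :
    rs r (symmDiff K C) = rs r K + ww r K C := by
  have h1 : symmDiff K C = (K \ C) ∪ (C \ K) := rfl
  have hK : rs r K = rs r (K \ C) + rs r (K ∩ C) := by
    unfold rs
    rw [← Finset.sum_union (Finset.disjoint_sdiff_inter K C), Finset.sdiff_union_inter]
  have hC : ww r K C = rs r (C \ K) - rs r (K ∩ C) := by
    unfold ww rs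
    rw [← Finset.sdiff_union_inter C K, Finset.sum_union (Finset.disjoint_sdiff_inter C K),
      Finset.sdiff_union_inter, Finset.inter_comm C K, sub_eq_add_neg, ← Finset.sum_neg_distrib]
    congr 1
    · exact Finset.sum_congr rfl fun e he => if_neg (Finset.mem_sdiff.1 he).2
    · exact Finset.sum_congr rfl fun e he => if_pos (Finset.mem_inter.1 he).1
  rw [h1, hK, hC]
  have h2 : rs r ((K \ C) ∪ (C \ K)) = rs r (K \ C) + rs r (C \ K) := by
    unfold rs
    refine Finset.sum_union ?_
    rw [Finset.disjoint_left]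
    intro x hx hx'
    exact (Finset.mem_sdiff.1 hx).2 (Finset.mem_sdiff.1 hx').1
  rw [h2]
  ring

theorem ww_union (r : Sym2 X → ℝ) (K : Finset (Sym2 X)) {A B : Finset (Sym2 X)}
    (h : Disjoint A B) : ww r K (A ∪ B) = ww r K A + ww r K B := by
  unfold ww
  rw [Finset.sum_union h]

/-- minimum weight joins -/
structure MinJoin (r : Sym2 X → ℝ) (T : X → ZMod 2) (K : Finset (Sym2 X)) : Prop where
  nd : ND K
  bdry : bds K = T
  min : ∀ Z, ND Z → bds Z = T → rs r K ≤ rs r Z

theorem MinJoin.ww_nonneg {r : Sym2 X → ℝ} {T : X → ZMod 2} {K : Finset (Sym2 X)}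
    (hK : MinJoin r T K) {C : Finset (Sym2 X)} (hC : ND C) (h0 : bds C = 0) : 0 ≤ ww r K C := by
  have h1 := hK.min (symmDiff K C) (hK.nd.symmDiff hC) (by
    rw [bds_symmDiff, hK.bdry, h0, add_zero])
  rw [rs_symmDiff] at h1
  linarith

theorem minJoin_of_ww {r : Sym2 X → ℝ} {T : X → ZMod 2} {K : Finset (Sym2 X)} (hK : ND K)
    (hT : bds K = T) (h : ∀ C, ND C → bds C = 0 → 0 ≤ ww r K C) : MinJoin r T K where
  nd := hK
  bdry := hT
  min := by
    intro Z hZ hZT
    have h1 := h (symmDiff K Z) (hK.symmDiff hZ) (by rw [bds_symmDiff, hT, hZT, cc])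
    have h2 := rs_symmDiff r K (symmDiff K Z)
    rw [symmDiff_symmDiff_cancel_left] at h2
    linarith

/-- a path of length `m` in `K` -/
def IsP (K : Finset (Sym2 X)) (m : ℕ) (v : ℕ → X) : Prop :=
  (∀ i j, i ≤ m → j ≤ m → v i = v j → i = j) ∧ ∀ j, j < m → s(v j, v (j + 1)) ∈ K

/-- the edges of an initial segment of a path -/
def QQ (v : ℕ → X) (k : ℕ) : Finset (Sym2 X) := (range k).image (fun j => s(v j, v (j + 1)))

theorem QQ_succ (v : ℕ → X) (k : ℕ) : QQ v (k + 1) = insert s(v k, v (k + 1)) (QQ v k) := by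
  unfold QQ
  rw [Finset.range_add_one, Finset.image_insert]

theorem QQ_notMem {K : Finset (Sym2 X)} {m : ℕ} {v : ℕ → X} (h : IsP K m v) {k : ℕ}
    (hk : k < m) : s(v k, v (k + 1)) ∉ QQ v k := by
  intro hm
  unfold QQ at hm
  obtain ⟨j, hj, he⟩ := Finset.mem_image.1 hm
  have hj' := Finset.mem_range.1 hj
  have h1 : v (k + 1) ∈ s(v j, v (j + 1)) := by rw [he]; exact Sym2.mem_mk_right _ _
  rw [Sym2.mem_iff] at h1
  rcases h1 with h1 | h1
  · have := h.1 (k + 1) j (by omega) (by omega) h1
    omega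
  · have := h.1 (k + 1) (j + 1) (by omega) (by omega) h1
    omega

theorem bds_QQ {K : Finset (Sym2 X)} {m : ℕ} {v : ℕ → X} (h : IsP K m v) : ∀ k, k ≤ m →
    bds (QQ v k) = bd s(v 0, v k) := by
  intro k
  induction k with
  | zero => intro _; rw [bd_self]; rfl
  | succ k ih =>
    intro hk
    rw [QQ_succ, bds_insert (QQ_notMem h (by omega)), ih (by omega), add_comm, bd_add]

theorem QQ_subset {K : Finset (Sym2 X)} {m : ℕ} {v : ℕ → X} (h : IsP K m v) {k : ℕ}
    (hk : k ≤ m) : QQ v k ⊆ K := by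
  intro e he
  obtain ⟨j, hj, rfl⟩ := Finset.mem_image.1 he
  exact h.2 j (lt_of_lt_of_le (Finset.mem_range.1 hj) hk)

/-- prolongation of a path -/
theorem IsP.cons {K : Finset (Sym2 X)} {m : ℕ} {v : ℕ → X} (h : IsP K m v) {c : X}
    (hc : ∀ k, k ≤ m → c ≠ v k) (he : s(v 0, c) ∈ K) :
    IsP K (m + 1) (fun j => if j = 0 then c else v (j - 1)) := by
  refine ⟨fun i j hi hj hij => ?_, fun j hj => ?_⟩
  · rcases Nat.eq_zero_or_pos i with h1 | h1 <;> rcases Nat.eq_zero_or_pos j with h2 | h2
    · rw [h1, h2]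
    · simp only [h1, if_true, if_neg h2.ne'] at hij
      exact absurd hij (hc _ (by omega))
    · simp only [h2, if_true, if_neg h1.ne'] at hij
      exact absurd hij.symm (hc _ (by omega))
    · simp only [if_neg h1.ne', if_neg h2.ne'] at hij
      have := h.1 _ _ (by omega) (by omega) hij
      omega
  · rcases Nat.eq_zero_or_pos j with h1 | h1
    · subst h1
      simp only [if_true, zero_add, one_ne_zero, if_false, Nat.sub_self]
      rw [Sym2.eq_swap]
      exact he
    · simp only [if_neg h1.ne', Nat.add_sub_cancel, if_neg (Nat.succ_ne_zero j)]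
      have h2 := h.2 (j - 1) (by omega)
      rwa [Nat.sub_add_cancel h1] at h2

end Pool.Agent.R276.TJ
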