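import Pool.Agent.R276.TJa

set_option autoImplicit false
set_option linter.unusedSectionVars false

/-!
Joins and cuts: the peeling step.
-/

noncomputable section

open Finset
open scoped Classical

namespace Pool.Agent.R276.TJ

theorem exists_lb {ι : Type*} (s : Finset ι) (f : ι → ℝ) (h : ∀ i ∈ s, 0 < f i) :
    ∃ ε : ℝ, 0 < ε ∧ ∀ i ∈ s, ε ≤ f i := by
  rcases s.eq_empty_or_nonempty with rfl | hs
  · exact ⟨1, one_pos, fun i hi => absurd hi (Finset.notMem_empty i)⟩
  · obtain ⟨i, hi, hm⟩ := s.exists_min_image f hs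
    exact ⟨f i, h i hi, hm⟩

variable {X : Type*}

/-- lowered weights -/
def low (r : Sym2 X → ℝ) (b : X) (ε : ℝ) : Sym2 X → ℝ := fun e =>
  if b ∈ e ∧ ¬ e.IsDiag then r e - ε else r e

theorem low_pos {r : Sym2 X → ℝ} {b : X} {ε : ℝ} {e : Sym2 X} (h : b ∈ e) (hd : ¬ e.IsDiag) :
    low r b ε e = r e - ε := if_pos ⟨h, hd⟩

theorem low_neg {r : Sym2 X → ℝ} {b : X} {ε : ℝ} {e : Sym2 X} (h : b ∉ e) :
    low r b ε e = r e := if_neg fun hh => h hh.1

theorem low_diag {r : Sym2 X → ℝ} {b : X} {ε : ℝ} {e : Sym2 X} (h : e.IsDiag) :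
    low r b ε e = r e := if_neg fun hh => hh.2 h

theorem rs_low {r : Sym2 X → ℝ} {b : X} {ε : ℝ} {C : Finset (Sym2 X)} (hC : ND C) :
    rs (low r b ε) C = rs r C - ε * nb b C := by
  have h1 : ∀ e ∈ C, low r b ε e = r e - ε * (if b ∈ e then 1 else 0) := by
    intro e he
    unfold low
    by_cases hb : b ∈ e
    · rw [if_pos ⟨hb, hC e he⟩, if_pos hb, mul_one]
    · rw [if_neg (fun h => hb h.1), if_neg hb, mul_zero, sub_zero]
  unfold rs nb
  rw [Finset.sum_congr rfl h1, Finset.sum_sub_distrib, ← Finset.mul_sum, Finset.sum_boole]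

theorem ww_low {r : Sym2 X → ℝ} {b : X} {ε : ℝ} {K C : Finset (Sym2 X)} (hC : ND C)
    (h0 : ∀ e ∈ C, b ∈ e → e ∉ K) : ww (low r b ε) K C = ww r K C - ε * nb b C := by
  have h1 : ∀ e ∈ C, (if e ∈ K then -low r b ε e else low r b ε e) =
      (if e ∈ K then -r e else r e) - ε * (if b ∈ e then 1 else 0) := by
    intro e he
    by_cases hb : b ∈ e
    · rw [low_pos hb (hC e he), if_pos hb, mul_one, if_neg (h0 e he hb), if_neg (h0 e he hb)]
    · rw [low_neg hb, if_neg hb, mul_zero, sub_zero]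
  unfold ww nb
  rw [Finset.sum_congr rfl h1, Finset.sum_sub_distrib, ← Finset.mul_sum, Finset.sum_boole]

theorem nb_le {b : X} {C : Finset (Sym2 X)} : nb b C ≤ C.card := Finset.card_filter_le _ _

theorem ww_subset_neg {r : Sym2 X → ℝ} {K C : Finset (Sym2 X)} (h : C ⊆ K) :
    ww r K C = - rs r C := by
  unfold ww rs
  rw [← Finset.sum_neg_distrib]
  exact Finset.sum_congr rfl fun e he => if_pos (h he)

theorem rs_pos {r : Sym2 X → ℝ} (hr : ∀ e, 0 ≤ r e) (hp : ∀ e : Sym2 X, ¬ e.IsDiag → 0 < r e)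
    {C : Finset (Sym2 X)} {e : Sym2 X} (he : e ∈ C) (hd : ¬ e.IsDiag) : 0 < rs r C :=
  lt_of_lt_of_le (hp e hd) (Finset.single_le_sum (f := r) (fun i _ => hr i) he)

/-- the data of a longest path -/
structure Longest (r : Sym2 X → ℝ) (T : X → ZMod 2) (K : Finset (Sym2 X)) (m : ℕ)
    (v : ℕ → X) : Prop where
  mj : MinJoin r T K
  pth : IsP K m v
  pos : 1 ≤ m
  max : ∀ K' v', MinJoin r T K' → ¬ IsP K' (m + 1) v'

theorem Longest.claim0 {r : Sym2 X → ℝ} {T : X → ZMod 2} {K : Finset (Sym2 X)} {m : ℕ}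
    {v : ℕ → X} (h : Longest r T K m v) (hr : ∀ e, 0 ≤ r e)
    (hp : ∀ e : Sym2 X, ¬ e.IsDiag → 0 < r e) {e : Sym2 X} (he : e ∈ K) (hb : v 0 ∈ e) :
    e = s(v 0, v 1) := by
  obtain ⟨c, rfl⟩ := Sym2.mem_iff_exists.1 hb
  have hd := h.mj.nd _ he
  by_cases hc : ∀ k, k ≤ m → c ≠ v k
  · exact absurd (h.pth.cons hc he) (h.max _ _ h.mj)
  · push Not at hc
    obtain ⟨k, hk, rfl⟩ := hc
    have hk0 : k ≠ 0 := by
      rintro rfl
      exact hd (Sym2.mk_isDiag_iff.2 rfl)
    by_cases hk1 : k = 1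
    · rw [hk1]
    exfalso
    have hnot : s(v 0, v k) ∉ QQ v k := by
      intro hm
      unfold QQ at hm
      obtain ⟨j, hj, he'⟩ := Finset.mem_image.1 hm
      have hj' := Finset.mem_range.1 hj
      have h1 : v 0 ∈ s(v j, v (j + 1)) := by rw [he']; exact Sym2.mem_mk_left _ _
      have h2 : v k ∈ s(v j, v (j + 1)) := by rw [he']; exact Sym2.mem_mk_right _ _
      rw [Sym2.mem_iff] at h1 h2
      have e1 : j = 0 := by
        rcases h1 with h1 | h1
        · exact (h.pth.1 0 j (by omega) (by omega) h1).symm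
        · have := h.pth.1 0 (j + 1) (by omega) (by omega) h1
          omega
      rcases h2 with h2 | h2
      · have := h.pth.1 k j (by omega) (by omega) h2
        omega
      · have := h.pth.1 k (j + 1) (by omega) (by omega) h2
        omega
    have hs : insert s(v 0, v k) (QQ v k) ⊆ K := by
      rw [Finset.insert_subset_iff]
      exact ⟨he, QQ_subset h.pth hk⟩
    have h0 : bds (insert s(v 0, v k) (QQ v k)) = 0 := by
      rw [bds_insert hnot, bds_QQ h.pth k hk, cc]
    have h1 := h.mj.ww_nonneg (h.mj.nd.subset hs) h0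
    rw [ww_subset_neg hs] at h1
    have h2 := rs_pos hr hp (Finset.mem_insert_self s(v 0, v k) (QQ v k)) hd
    linarith

theorem Longest.claim1 {r : Sym2 X → ℝ} {T : X → ZMod 2} {K : Finset (Sym2 X)} {m : ℕ}
    {v : ℕ → X} (h : Longest r T K m v) (hr : ∀ e, 0 ≤ r e)
    (hp : ∀ e : Sym2 X, ¬ e.IsDiag → 0 < r e) {C : Finset (Sym2 X)} (hC : ND C)
    (h0 : bds C = 0) (he0 : s(v 0, v 1) ∉ C) (hw : ww r K C = 0) :
    ∀ e ∈ C, v 0 ∉ e := by
  intro e he hb
  set b := v 0 with hbdef
  set Cb := CB C b C with hCb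
  have hCbs : Cb ⊆ C := CB_subset
  have hbCb : bds Cb = 0 := by
    funext u
    rw [hCb, CB_apply (Finset.Subset.refl _), h0]
    split_ifs <;> rfl
  have hbr : bds (C \ Cb) = 0 := by rw [bds_sdiff hCbs, h0, hbCb, add_zero]
  have hNDb : ND Cb := hC.subset hCbs
  have hwCb : ww r K Cb = 0 := by
    have h1 := h.mj.ww_nonneg hNDb hbCb
    have h2 := h.mj.ww_nonneg (hC.subset (Finset.sdiff_subset (s := C) (t := Cb))) hbr
    have h3 : ww r K C = ww r K Cb + ww r K (C \ Cb) := by
      rw [← ww_union r K (Finset.disjoint_sdiff), Finset.union_sdiff_of_subset hCbs]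
    linarith
  have heCb : e ∈ Cb := mem_CB.2 ⟨he, b, hb, DD_self C b⟩
  by_cases hA : ∀ k, 1 ≤ k → k ≤ m → v k ∉ DD C b
  · -- Case A
    have hK' : MinJoin r T (symmDiff K Cb) := by
      refine ⟨h.mj.nd.symmDiff hNDb, ?_, ?_⟩
      · rw [bds_symmDiff, h.mj.bdry, hbCb, add_zero]
      · intro Z hZ hZT
        rw [rs_symmDiff, hwCb, add_zero]
        exact h.mj.min Z hZ hZT
    have hP' : IsP (symmDiff K Cb) m v := by
      refine ⟨h.pth.1, fun j hj => ?_⟩
      rw [Finset.mem_symmDiff]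
      refine Or.inl ⟨h.pth.2 j hj, fun hm => ?_⟩
      obtain ⟨h1, u, hu, hud⟩ := mem_CB.1 hm
      exact hA (j + 1) (by omega) (by omega)
        (DD_closed h1 hu (Sym2.mem_mk_right _ _) hud)
    obtain ⟨c, hc⟩ := Sym2.mem_iff_exists.1 hb
    have heK : e ∉ K := by
      intro hk
      have := h.claim0 hr hp hk hb
      rw [this] at he
      exact he0 he
    have heK' : s(v 0, c) ∈ symmDiff K Cb := by
      rw [← hbdef, ← hc, Finset.mem_symmDiff]
      exact Or.inr ⟨heCb, heK⟩
    refine h.max _ _ hK' (hP'.cons ?_ heK')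
    intro k hk hck
    have hcD : c ∈ DD C b := DD_closed he hb (by rw [hc]; exact Sym2.mem_mk_right _ _) (DD_self C b)
    rcases Nat.eq_zero_or_pos k with h1 | h1
    · subst h1
      refine hC e he ?_
      rw [hc, hck]
      exact Sym2.mk_isDiag_iff.2 rfl
    · rw [hck] at hcD
      exact hA k h1 hk hcD
  · -- Case B
    push Not at hA
    have hex : ∃ k, 1 ≤ k ∧ k ≤ m ∧ v k ∈ DD C b := hA
    set k := Nat.find hex with hkdef
    obtain ⟨hk1, hkm, hkD⟩ := Nat.find_spec hex
    rw [← hkdef] at hk1 hkm hkD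
    have hmin : ∀ j, 1 ≤ j → j < k → v j ∉ DD C b := by
      intro j hj1 hj2 hj3
      exact Nat.find_min hex hj2 ⟨hj1, by omega, hj3⟩
    obtain ⟨C1, hC1, hb1⟩ := hkD
    set C1' := CB C b C1 with hC1'
    have hb1' : bds C1' = bd s(b, v k) := by
      funext u
      rw [hC1', CB_apply hC1, hb1]
      split_ifs with hu
      · rfl
      · symm
        refine bd_of_notMem fun hm => ?_
        rw [Sym2.mem_iff] at hm
        rcases hm with rfl | rfl
        · exact hu (DD_self _ _)
        · exact hu ⟨C1, hC1, hb1⟩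
    have hC1s : C1' ⊆ Cb := by
      intro f hf
      obtain ⟨h1, h2⟩ := mem_CB.1 hf
      exact mem_CB.2 ⟨hC1 h1, h2⟩
    have hQb : bds (QQ v k) = bd s(b, v k) := bds_QQ h.pth k hkm
    have hQK : QQ v k ⊆ K := QQ_subset h.pth hkm
    have hdisj : Disjoint Cb (QQ v k) := by
      rw [Finset.disjoint_left]
      intro f hf hfQ
      obtain ⟨j, hj, rfl⟩ := Finset.mem_image.1 hfQ
      have hj' := Finset.mem_range.1 hj
      rcases Nat.eq_zero_or_pos j with h1 | h1
      · subst h1
        exact he0 (hCbs hf)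
      · obtain ⟨h2, u, hu, hud⟩ := mem_CB.1 hf
        exact hmin j h1 hj' (DD_closed h2 hu (Sym2.mem_mk_left _ _) hud)
    have hd1 : Disjoint C1' (QQ v k) := Finset.disjoint_of_subset_left hC1s hdisj
    have hd2 : Disjoint (Cb \ C1') (QQ v k) :=
      Finset.disjoint_of_subset_left Finset.sdiff_subset hdisj
    have hNQ : ND (QQ v k) := h.mj.nd.subset hQK
    have w1 := h.mj.ww_nonneg (C := C1' ∪ QQ v k) (by
      intro f hf
      rcases Finset.mem_union.1 hf with hf | hf
      · exact hNDb f (hC1s hf)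
      · exact hNQ f hf) (by rw [bds_union hd1, hb1', hQb, cc])
    have w2 := h.mj.ww_nonneg (C := (Cb \ C1') ∪ QQ v k) (by
      intro f hf
      rcases Finset.mem_union.1 hf with hf | hf
      · exact hNDb f (Finset.sdiff_subset hf)
      · exact hNQ f hf) (by
        rw [bds_union hd2, bds_sdiff hC1s, hb1', hQb, hbCb, zero_add, cc])
    rw [ww_union r K hd1, ww_subset_neg hQK] at w1
    rw [ww_union r K hd2, ww_subset_neg hQK] at w2
    have w3 : ww r K Cb = ww r K C1' + ww r K (Cb \ C1') := by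
      rw [← ww_union r K (Finset.disjoint_sdiff), Finset.union_sdiff_of_subset hC1s]
    have hQe : s(v 0, v 1) ∈ QQ v k := by
      unfold QQ
      exact Finset.mem_image.2 ⟨0, Finset.mem_range.2 (by omega), rfl⟩
    have w4 := rs_pos hr hp hQe (hNQ _ hQe)
    linarith

/-- the peeling step -/
theorem peel [Fintype X] {r : Sym2 X → ℝ} (hr : ∀ e, 0 ≤ r e)
    (hp : ∀ e : Sym2 X, ¬ e.IsDiag → 0 < r e) {H : Finset (Sym2 X)}
    (hH : MinJoin r (bds H) H) (hne : H.Nonempty) :
    ∃ (b : X) (ε : ℝ), 0 < ε ∧ (∀ e : Sym2 X, ¬ e.IsDiag → b ∈ e → ε ≤ r e) ∧ nb b H = 1 ∧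
      MinJoin (low r b ε) (bds H) H := by
  -- a longest path
  obtain ⟨K, m, v, hL⟩ : ∃ K m v, Longest r (bds H) K m v := by
    have hbound : ∀ (m : ℕ) (K : Finset (Sym2 X)) (v : ℕ → X), IsP K m v →
        m ≤ Fintype.card X := by
      intro m K v hP
      have h1 : Function.Injective (fun j : Fin (m + 1) => v j) := by
        intro i j hij
        exact Fin.ext (hP.1 i j (by omega) (by omega) hij)
      have := Fintype.card_le_of_injective _ h1
      rw [Fintype.card_fin] at this
      omega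
    let P : ℕ → Prop := fun m => ∃ K v, MinJoin r (bds H) K ∧ IsP K m v
    have hP1 : P 1 := by
      obtain ⟨e, he⟩ := hne
      have hd := hH.nd e he
      induction e with
      | _ p q =>
        rw [Sym2.mk_isDiag_iff] at hd
        refine ⟨H, fun j => if j = 0 then p else q, hH, ?_, ?_⟩
        · intro i j hi hj hij
          have hi' : i = 0 ∨ i = 1 := by omega
          have hj' : j = 0 ∨ j = 1 := by omega
          rcases hi' with rfl | rfl <;> rcases hj' with rfl | rfl
          · rfl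
          · exact absurd hij hd
          · exact absurd hij.symm hd
          · rfl
        · intro j hj
          have : j = 0 := by omega
          subst this
          exact he
    have hPb : ∀ m, P m → m ≤ Fintype.card X := fun m ⟨K, v, _, h⟩ => hbound m K v h
    have hc1 : 1 ≤ Fintype.card X := hPb 1 hP1
    set m := Nat.findGreatest P (Fintype.card X) with hm
    have h1 : P m := Nat.findGreatest_spec hc1 hP1
    obtain ⟨K, v, hK, hv⟩ := h1
    refine ⟨K, m, v, hK, hv, Nat.le_findGreatest hc1 hP1, ?_⟩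
    intro K' v' hK' hv'
    have h2 : P (m + 1) := ⟨K', v', hK', hv'⟩
    have h3 : m + 1 ≤ m := Nat.le_findGreatest (hPb _ h2) h2
    omega
  set b := v 0 with hb
  set a := v 1 with ha
  have he0K : s(b, a) ∈ K := hL.pth.2 0 hL.pos
  have hab : a ≠ b := by
    intro h
    have := hL.pth.1 1 0 hL.pos (Nat.zero_le _) h
    omega
  have hKb : ∀ e ∈ K, b ∈ e → e = s(b, a) := fun e he hbe => hL.claim0 hr hp he hbe
  have hnbK : nb b K = 1 := by
    unfold nb
    have : K.filter (fun e => b ∈ e) = {s(b, a)} := by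
      ext e
      rw [Finset.mem_filter, Finset.mem_singleton]
      constructor
      · rintro ⟨h1, h2⟩
        exact hKb e h1 h2
      · rintro rfl
        exact ⟨he0K, Sym2.mem_mk_left _ _⟩
    rw [this, Finset.card_singleton]
  -- the bounds
  obtain ⟨δ, hδ, hδ'⟩ := exists_lb
    ((Finset.univ : Finset (Finset (Sym2 X))).filter
      (fun C => ND C ∧ bds C = 0 ∧ s(b, a) ∉ C ∧ ∃ e ∈ C, b ∈ e)) (fun C => ww r K C) (by
        intro C hC
        obtain ⟨-, h1, h2, h3, e, h4, h5⟩ := Finset.mem_filter.1 hC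
        refine lt_of_le_of_ne (hL.mj.ww_nonneg h1 h2) fun h6 => ?_
        exact hL.claim1 hr hp h1 h2 h3 h6.symm e h4 h5)
  obtain ⟨ρ, hρ, hρ'⟩ := exists_lb
    ((Finset.univ : Finset (Sym2 X)).filter (fun e => ¬ e.IsDiag)) r (by
      intro e he
      exact hp e (Finset.mem_filter.1 he).2)
  set N : ℝ := (Fintype.card (Sym2 X) : ℝ) + 1 with hN
  have hNpos : 0 < N := by positivity
  set ε := min (δ / N) ρ with hε
  have hεpos : 0 < ε := lt_min (div_pos hδ hNpos) hρ
  have hεN : ε * N ≤ δ := by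
    have : ε ≤ δ / N := min_le_left _ _
    calc ε * N ≤ δ / N * N := mul_le_mul_of_nonneg_right this hNpos.le
      _ = δ := div_mul_cancel₀ _ hNpos.ne'
  have hnbN : ∀ C : Finset (Sym2 X), (nb b C : ℝ) ≤ N := by
    intro C
    have h1 : nb b C ≤ Fintype.card (Sym2 X) := nb_le.trans (Finset.card_le_univ C)
    have h2 : (nb b C : ℝ) ≤ (Fintype.card (Sym2 X) : ℝ) := by exact_mod_cast h1
    linarith
  have key : ∀ C, ND C → bds C = 0 → s(b, a) ∉ C → 0 ≤ ww (low r b ε) K C := by
    intro C hC h0 he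
    rw [ww_low hC (fun e heC hbe heK => he (by rw [← hKb e heK hbe]; exact heC))]
    by_cases hn : ∃ e ∈ C, b ∈ e
    · have h1 : δ ≤ ww r K C := hδ' C (Finset.mem_filter.2 ⟨Finset.mem_univ _, hC, h0, he, hn⟩)
      have h2 : ε * nb b C ≤ ε * N := mul_le_mul_of_nonneg_left (hnbN C) hεpos.le
      linarith
    · have h1 : nb b C = 0 := by
        unfold nb
        rw [Finset.card_eq_zero, Finset.filter_eq_empty_iff]
        intro e he' hb'
        exact hn ⟨e, he', hb'⟩
      rw [h1, Nat.cast_zero, mul_zero, sub_zero]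
      exact hL.mj.ww_nonneg hC h0
  have hK'' : MinJoin (low r b ε) (bds H) K := by
    refine minJoin_of_ww hL.mj.nd hL.mj.bdry ?_
    intro C hC h0
    by_cases he : s(b, a) ∈ C
    · set C0 := C.erase s(b, a) with hC0
      have hC0s : C0 ⊆ C := Finset.erase_subset _ _
      have hins : insert s(b, a) C0 = C := Finset.insert_erase he
      have hnot : s(b, a) ∉ C0 := Finset.notMem_erase _ _
      have hb0 : bds C0 = bd s(b, a) := by
        have h1 : bds C = bd s(b, a) + bds C0 := by rw [← hins, bds_insert hnot]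
        have h2 : bds C0 = bd s(b, a) + bds C := by rw [h1, ← add_assoc, cc, zero_add]
        rw [h2, h0, add_zero]
      obtain ⟨C', hC', hb', hn'⟩ := exists_path hab C0.card C0 le_rfl (hC.subset hC0s) hb0
      have hnot' : s(b, a) ∉ C' := fun h => hnot (hC' h)
      set A := insert s(b, a) C' with hA
      have hAC : A ⊆ C := by
        rw [hA, Finset.insert_subset_iff]
        exact ⟨he, hC'.trans hC0s⟩
      have hbA : bds A = 0 := by rw [hA, bds_insert hnot', hb', cc]
      have hsplit : ww (low r b ε) K C = ww (low r b ε) K A + ww (low r b ε) K (C \ A) := by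
        rw [← ww_union _ K (Finset.disjoint_sdiff), Finset.union_sdiff_of_subset hAC]
      have h1 : 0 ≤ ww (low r b ε) K (C \ A) := by
        refine key _ (hC.subset Finset.sdiff_subset) ?_ ?_
        · rw [bds_sdiff hAC, h0, hbA, add_zero]
        · intro h
          exact (Finset.mem_sdiff.1 h).2 (Finset.mem_insert_self _ _)
      have h2 : ww (low r b ε) K A = ww r K A := by
        have hA1 : ∀ r' : Sym2 X → ℝ, ww r' K A = - r' s(b, a) + ww r' K C' := by
          intro r'
          unfold ww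
          rw [hA, Finset.sum_insert hnot', if_pos he0K]
        rw [hA1, hA1, ww_low (hC.subset (hC'.trans hC0s)) (fun e heC hbe heK =>
          hnot' (by rw [← hKb e heK hbe]; exact heC)), hn']
        have : low r b ε s(b, a) = r s(b, a) - ε := by
          unfold low
          rw [if_pos ⟨Sym2.mem_mk_left _ _, hC _ he⟩]
        rw [this]
        push_cast
        ring
      have h3 : 0 ≤ ww r K A := hL.mj.ww_nonneg (hC.subset hAC) hbA
      rw [hsplit, h2]
      linarith
    · exact key C hC h0 he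
  -- comparison of `H` and `K`
  have hrs : rs r H = rs r K :=
    le_antisymm (hH.min K hL.mj.nd hL.mj.bdry) (hL.mj.min H hH.nd rfl)
  have h1 : rs (low r b ε) K ≤ rs (low r b ε) H := hK''.min H hH.nd rfl
  have h1' := h1
  rw [rs_low hL.mj.nd, rs_low hH.nd, hrs, hnbK] at h1
  have h2 : (nb b H : ℝ) ≤ 1 := by
    by_contra hcon
    push Not at hcon
    have : ε * 1 < ε * nb b H := mul_lt_mul_of_pos_left hcon hεpos
    push_cast at h1
    linarith
  have h3 : nb b H ≤ 1 := by exact_mod_cast h2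
  have h4 : nb b H = 1 := by
    have h5 : (nb b H : ZMod 2) = (nb b K : ZMod 2) := by
      rw [← bds_nb hH.nd, ← bds_nb hL.mj.nd, hL.mj.bdry]
    rw [hnbK] at h5
    interval_cases hh : nb b H
    · exact absurd h5 (by decide)
    · rfl
  refine ⟨b, ε, hεpos, fun e he _ => ?_, h4, ?_⟩
  · exact (min_le_right _ _).trans (hρ' e (Finset.mem_filter.2 ⟨Finset.mem_univ _, he⟩))
  · refine ⟨hH.nd, rfl, fun Z hZ hZT => ?_⟩
    have h5 : rs (low r b ε) H = rs (low r b ε) K := by
      rw [rs_low hL.mj.nd, rs_low hH.nd, hrs, hnbK, h4]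
    rw [h5]
    exact hK''.min Z hZ hZT

end Pool.Agent.R276.TJ
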