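import Pool.Agent.R276.TJb

set_option autoImplicit false
set_option linter.unusedSectionVars false

/-!
Joins and cuts: the packing theorem.
-/

noncomputable section

open Finset
open scoped Classical

namespace Pool.Agent.R276.TJ

variable {X : Type*} {I : Type*}

/-- the pairs as edges -/
def hh (x y : I → X) (i : I) : Sym2 X := s(x i, y i)

/-- the conservative condition -/
def Cons (x y : I → X) (r : Sym2 X → ℝ) : Prop :=
  ∀ (J : Finset I) (Z : Finset (Sym2 X)), bds Z = ∑ i ∈ J, bd (hh x y i) →
    ∑ i ∈ J, r (hh x y i) ≤ rs r Z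

/-- a solution -/
def Sol [Fintype I] (x y : I → X) (r : Sym2 X → ℝ) (F : X → I → ℝ) : Prop :=
  (∀ p q, ∑ j, |F p j - F q j| ≤ r s(p, q)) ∧ ∀ i, F (x i) i - F (y i) i = r (hh x y i)

theorem Cons.loop {x y : I → X} {r : Sym2 X → ℝ} (h : Cons x y r) (hr : ∀ e, 0 ≤ r e) {i : I}
    (hi : (hh x y i).IsDiag) : r (hh x y i) = 0 := by
  refine le_antisymm ?_ (hr _)
  have := h {i} ∅ (by rw [Finset.sum_singleton, bd_diag hi, bds_empty])
  rw [Finset.sum_singleton] at this
  simpa [rs] using this

theorem Cons.inj {x y : I → X} {r : Sym2 X → ℝ} (h : Cons x y r)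
    (hp : ∀ e : Sym2 X, ¬ e.IsDiag → 0 < r e) {i j : I}
    (hi : ¬ (hh x y i).IsDiag) (hij : hh x y i = hh x y j) : i = j := by
  by_contra hne
  have := h {i, j} ∅ (by rw [Finset.sum_pair hne, ← hij, cc, bds_empty])
  rw [Finset.sum_pair hne, ← hij] at this
  have h1 := hp _ hi
  have h2 : rs r ∅ = 0 := by simp [rs]
  linarith

/-! ### the identification of two points -/

/-- identification of `q` with `p` -/
def idp {p q : X} (hpq : p ≠ q) (v : X) : {v : X // v ≠ q} :=
  if h : v = q then ⟨p, hpq⟩ else ⟨v, h⟩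

theorem idp_q {p q : X} (hpq : p ≠ q) : idp hpq q = ⟨p, hpq⟩ := dif_pos rfl

theorem idp_ne {p q : X} (hpq : p ≠ q) {v : X} (h : v ≠ q) : idp hpq v = ⟨v, h⟩ := dif_neg h

theorem idp_surj {p q : X} (hpq : p ≠ q) : Function.Surjective (idp hpq) :=
  fun v => ⟨v.1, by rw [idp_ne hpq v.2]⟩

theorem idp_val {p q : X} (hpq : p ≠ q) (v : X) (w : {v : X // v ≠ q}) :
    (idp hpq v = w) ↔ (v = w.1 ∨ (v = q ∧ w.1 = p)) := by
  by_cases h : v = q
  · subst h
    rw [idp_q]
    constructor
    · intro h1
      exact Or.inr ⟨rfl, by rw [← h1]⟩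
    · rintro (h1 | ⟨-, h1⟩)
      · exact absurd h1.symm w.2
      · exact Subtype.ext h1.symm
  · rw [idp_ne hpq h]
    constructor
    · intro h1
      exact Or.inl (by rw [← h1])
    · rintro (h1 | ⟨h1, -⟩)
      · exact Subtype.ext h1
      · exact absurd h1 h

/-- the point mass -/
def sg {Y : Type*} (a : Y) : Y → ZMod 2 := Pi.single a 1

theorem sg_same {Y : Type*} (a : Y) : sg a a = 1 := Pi.single_eq_same _ _

theorem sg_ne {Y : Type*} {a v : Y} (h : v ≠ a) : sg a v = 0 := Pi.single_eq_of_ne h _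

theorem bd_sg {Y : Type*} (a b : Y) : bd s(a, b) = sg a + sg b := rfl

/-- the boundary of a projected edge -/
theorem bd_map {p q : X} (hpq : p ≠ q) (e : Sym2 X) (w : {v : X // v ≠ q}) :
    bd (Sym2.map (idp hpq) e) w = bd e w.1 + if w.1 = p then bd e q else 0 := by
  have h1 : ∀ v : X, sg (idp hpq v) w = sg v w.1 + if w.1 = p then sg v q else 0 := by
    intro v
    by_cases hv : v = q
    · subst hv
      rw [idp_q, sg_same, sg_ne w.2, zero_add]
      by_cases hw : w.1 = p
      · rw [if_pos hw]
        have : w = ⟨p, hpq⟩ := Subtype.ext hw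
        rw [this, sg_same]
      · rw [if_neg hw, sg_ne]
        intro h
        exact hw (by rw [h])
    · rw [idp_ne hpq hv]
      have h2 : (if w.1 = p then sg v q else 0) = 0 := by
        rw [sg_ne (Ne.symm hv)]
        split_ifs <;> rfl
      rw [h2, add_zero]
      by_cases hw : w.1 = v
      · have : w = ⟨v, hv⟩ := Subtype.ext hw
        rw [this, sg_same, sg_same]
      · rw [sg_ne hw, sg_ne]
        intro h
        exact hw (by rw [h])
  induction e with
  | _ a b =>
    rw [Sym2.map_mk, bd_sg, bd_sg, Pi.add_apply, h1, h1, Pi.add_apply, Pi.add_apply]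
    split_ifs
    · abel
    · abel

/-- a function whose projection vanishes -/
theorem of_proj_zero {p q : X} (hpq : p ≠ q) {D : X → ZMod 2}
    (h : ∀ w : {v : X // v ≠ q}, D w.1 + (if w.1 = p then D q else 0) = 0) :
    D = 0 ∨ D = bd s(p, q) := by
  have h1 : ∀ v, v ≠ q → v ≠ p → D v = 0 := by
    intro v hv hvp
    have := h ⟨v, hv⟩
    rwa [if_neg hvp, add_zero] at this
  have h2 : D p + D q = 0 := by
    have := h ⟨p, hpq⟩
    rwa [if_pos rfl] at this
  have h3 : D p = D q := by
    have h4 : D q + D q = 0 := CharTwo.add_self_eq_zero _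
    calc D p = D p + (D q + D q) := by rw [h4, add_zero]
      _ = (D p + D q) + D q := by ring
      _ = D q := by rw [h2, zero_add]
  have h5 : D q = 0 ∨ D q = 1 := by
    generalize D q = z
    revert z
    decide
  rcases h5 with h5 | h5
  · left
    funext v
    by_cases hv : v = q
    · rw [hv, h5]; rfl
    · by_cases hvp : v = p
      · rw [hvp, h3, h5]; rfl
      · rw [h1 v hv hvp]; rfl
  · right
    funext v
    rw [bd_mk, Pi.add_apply]
    by_cases hv : v = q
    · rw [hv, Pi.single_eq_same, Pi.single_eq_of_ne hpq.symm, h5, zero_add]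
    · by_cases hvp : v = p
      · rw [hvp, Pi.single_eq_same, Pi.single_eq_of_ne hpq, h3, h5, add_zero]
      · rw [h1 v hv hvp, Pi.single_eq_of_ne hv, Pi.single_eq_of_ne hvp, add_zero]

/-- the reduction by an edge of weight zero -/
theorem ident [Fintype X] {x y : I → X} {r : Sym2 X → ℝ} (hr : ∀ e, 0 ≤ r e)
    (hC : Cons x y r) {p q : X} (hpq : p ≠ q) (h0 : r s(p, q) = 0) :
    ∃ r1 : Sym2 {v : X // v ≠ q} → ℝ, (∀ e, 0 ≤ r1 e) ∧
      (∀ e, r1 (Sym2.map (idp hpq) e) ≤ r e) ∧
      Cons (fun i => idp hpq (x i)) (fun i => idp hpq (y i)) r1 ∧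
      ∀ i, r1 (hh (fun i => idp hpq (x i)) (fun i => idp hpq (y i)) i) = r (hh x y i) := by
  have hlift : ∀ e' : Sym2 {v : X // v ≠ q}, ∃ e : Sym2 X, Sym2.map (idp hpq) e = e' ∧
      ∀ f, Sym2.map (idp hpq) f = e' → r e ≤ r f := by
    intro e'
    have hne : ((Finset.univ : Finset (Sym2 X)).filter
        (fun e => Sym2.map (idp hpq) e = e')).Nonempty := by
      induction e' with
      | _ a b =>
        refine ⟨s(a.1, b.1), Finset.mem_filter.2 ⟨Finset.mem_univ _, ?_⟩⟩
        rw [Sym2.map_mk, idp_ne hpq a.2, idp_ne hpq b.2]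
    obtain ⟨e, he, hm⟩ := Finset.exists_min_image _ r hne
    exact ⟨e, (Finset.mem_filter.1 he).2, fun f hf =>
      hm f (Finset.mem_filter.2 ⟨Finset.mem_univ _, hf⟩)⟩
  choose L hL1 hL2 using hlift
  have hinj : Function.Injective L := fun a b hab => by rw [← hL1 a, hab, hL1 b]
  have hle : ∀ e, r (L (Sym2.map (idp hpq) e)) ≤ r e := fun e => hL2 _ e rfl
  have hmap : ∀ i, Sym2.map (idp hpq) (hh x y i) =
      hh (fun i => idp hpq (x i)) (fun i => idp hpq (y i)) i := fun i => rfl
  have key : ∀ (J : Finset I) (Z : Finset (Sym2 {v : X // v ≠ q})),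
      bds Z = ∑ i ∈ J, bd (hh (fun i => idp hpq (x i)) (fun i => idp hpq (y i)) i) →
      ∑ i ∈ J, r (hh x y i) ≤ rs (fun e => r (L e)) Z := by
    intro J Z hZ
    set Z' := Z.image L with hZ'
    have hrs : rs r Z' = rs (fun e => r (L e)) Z := by
      unfold rs
      rw [hZ', Finset.sum_image (fun a _ b _ h => hinj h)]
    set D : X → ZMod 2 := bds Z' + ∑ i ∈ J, bd (hh x y i) with hD
    have hD0 : ∀ w : {v : X // v ≠ q}, D w.1 + (if w.1 = p then D q else 0) = 0 := by
      intro w
      have h1 : bds Z' w.1 + (if w.1 = p then bds Z' q else 0) = bds Z w := by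
        have e1 : bds Z w = ∑ e ∈ Z, (bd (L e) w.1 + if w.1 = p then bd (L e) q else 0) := by
          rw [bds_apply]
          refine Finset.sum_congr rfl fun e _ => ?_
          rw [← bd_map hpq, hL1]
        rw [e1, Finset.sum_add_distrib, bds_apply, bds_apply, hZ',
          Finset.sum_image (fun a _ b _ h => hinj h), Finset.sum_image (fun a _ b _ h => hinj h)]
        congr 1
        split_ifs
        · rfl
        · rw [Finset.sum_const_zero]
      have h2 : (∑ i ∈ J, bd (hh x y i)) w.1 + (if w.1 = p then (∑ i ∈ J, bd (hh x y i)) q else 0)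
          = (∑ i ∈ J, bd (hh (fun i => idp hpq (x i)) (fun i => idp hpq (y i)) i)) w := by
        rw [Finset.sum_apply, Finset.sum_apply, Finset.sum_apply]
        have e1 : ∑ i ∈ J, bd (hh (fun i => idp hpq (x i)) (fun i => idp hpq (y i)) i) w =
            ∑ i ∈ J, (bd (hh x y i) w.1 + if w.1 = p then bd (hh x y i) q else 0) := by
          refine Finset.sum_congr rfl fun i _ => ?_
          rw [← bd_map hpq, hmap]
        rw [e1, Finset.sum_add_distrib]
        congr 1
        split_ifs
        · rfl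
        · rw [Finset.sum_const_zero]
      have h3 : D w.1 + (if w.1 = p then D q else 0) =
          (bds Z' w.1 + (if w.1 = p then bds Z' q else 0)) +
          ((∑ i ∈ J, bd (hh x y i)) w.1 +
            (if w.1 = p then (∑ i ∈ J, bd (hh x y i)) q else 0)) := by
        rw [hD, Pi.add_apply, Pi.add_apply]
        split_ifs <;> abel
      rw [h3, h1, h2, hZ]
      exact CharTwo.add_self_eq_zero _
    rw [← hrs]
    rcases of_proj_zero hpq hD0 with h | h
    · refine hC J Z' ?_
      have h4 := cc (∑ i ∈ J, bd (hh x y i))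
      calc bds Z' = bds Z' + (∑ i ∈ J, bd (hh x y i) + ∑ i ∈ J, bd (hh x y i)) := by
            rw [h4, add_zero]
        _ = D + ∑ i ∈ J, bd (hh x y i) := by rw [hD]; abel
        _ = _ := by rw [h, zero_add]
    · have h5 : bds (symmDiff Z' {s(p, q)}) = ∑ i ∈ J, bd (hh x y i) := by
        rw [bds_symmDiff]
        have : bds {s(p, q)} = bd s(p, q) := by unfold bds; rw [Finset.sum_singleton]
        rw [this, ← h, hD]
        have h4 := cc (bds Z')
        calc bds Z' + (bds Z' + ∑ i ∈ J, bd (hh x y i)) =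
            (bds Z' + bds Z') + ∑ i ∈ J, bd (hh x y i) := by abel
          _ = _ := by rw [h4, zero_add]
      have h6 := hC J _ h5
      have h7 : rs r (symmDiff Z' {s(p, q)}) ≤ rs r Z' := by
        have h8 : symmDiff Z' {s(p, q)} ⊆ insert s(p, q) Z' := by
          intro e he
          rw [Finset.mem_symmDiff] at he
          rw [Finset.mem_insert]
          rcases he with h | h
          · exact Or.inr h.1
          · exact Or.inl (Finset.mem_singleton.1 h.1)
        have h9 : rs r (symmDiff Z' {s(p, q)}) ≤ rs r (insert s(p, q) Z') :=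
          Finset.sum_le_sum_of_subset_of_nonneg h8 (fun e _ _ => hr e)
        have h10 : rs r (insert s(p, q) Z') ≤ rs r Z' := by
          by_cases hm : s(p, q) ∈ Z'
          · rw [Finset.insert_eq_of_mem hm]
          · unfold rs
            rw [Finset.sum_insert hm, h0, zero_add]
        exact h9.trans h10
      exact h6.trans h7
  refine ⟨fun e => r (L e), fun e => hr _, hle, ?_, ?_⟩
  · intro J Z hZ
    refine le_trans ?_ (key J Z hZ)
    refine Finset.sum_le_sum fun i _ => ?_
    rw [← hmap]
    exact hle _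
  · intro i
    refine le_antisymm ?_ ?_
    · rw [← hmap]; exact hle _
    · have := key {i} {hh (fun i => idp hpq (x i)) (fun i => idp hpq (y i)) i} (by
        unfold bds; rw [Finset.sum_singleton, Finset.sum_singleton])
      rw [Finset.sum_singleton] at this
      simpa [rs] using this

/-! ### the state space -/

/-- states: a partial solution and the remaining weight -/
def State [Fintype I] (x y : I → X) (r : Sym2 X → ℝ) (o : X)
    (P : (X → I → ℝ) × (Sym2 X → ℝ)) : Prop :=
  (∀ e, 0 ≤ P.2 e) ∧ Cons x y P.2 ∧ (∀ j, P.1 o j = 0) ∧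
    (∀ p q, ∑ j, |P.1 p j - P.1 q j| + P.2 s(p, q) ≤ r s(p, q)) ∧
    ∀ i, P.1 (x i) i - P.1 (y i) i = r (hh x y i) - P.2 (hh x y i)

theorem state_exists_min [Fintype X] [Fintype I] {x y : I → X} {r : Sym2 X → ℝ} {o : X}
    (hr : ∀ e, 0 ≤ r e) (hC : Cons x y r) :
    ∃ P, State x y r o P ∧ ∀ Q, State x y r o Q → ∑ e, P.2 e ≤ ∑ e, Q.2 e := by
  have hne : {P | State x y r o P}.Nonempty := by
    refine ⟨(0, r), hr, hC, fun j => rfl, fun p q => ?_, fun i => ?_⟩
    · simp
    · simp
  have hcont2 : ∀ e, Continuous (fun P : (X → I → ℝ) × (Sym2 X → ℝ) => P.2 e) := fun e =>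
    (continuous_apply e).comp continuous_snd
  have hcont1 : ∀ p j, Continuous (fun P : (X → I → ℝ) × (Sym2 X → ℝ) => P.1 p j) := fun p j =>
    (continuous_apply j).comp ((continuous_apply p).comp continuous_fst)
  have hclosed : IsClosed {P | State x y r o P} := by
    unfold State Cons
    simp only [Set.ofPred_and, Set.ofPred_forall]
    refine IsClosed.inter (isClosed_iInter fun e => isClosed_le continuous_const (hcont2 e)) ?_
    refine IsClosed.inter (isClosed_iInter fun J => isClosed_iInter fun Z =>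
      isClosed_iInter fun _ => isClosed_le ?_ ?_) ?_
    · exact continuous_finsetSum _ fun i _ => hcont2 _
    · exact continuous_finsetSum _ fun i _ => hcont2 _
    refine IsClosed.inter (isClosed_iInter fun j => isClosed_eq (hcont1 _ _) continuous_const) ?_
    refine IsClosed.inter (isClosed_iInter fun p => isClosed_iInter fun q =>
      isClosed_le ?_ continuous_const) ?_
    · exact (continuous_finsetSum _ fun j _ => ((hcont1 p j).sub (hcont1 q j)).abs).add (hcont2 _)
    · exact isClosed_iInter fun i => isClosed_eq ((hcont1 _ _).sub (hcont1 _ _))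
        (continuous_const.sub (hcont2 _))
  have hsub : {P | State x y r o P} ⊆
      (Set.univ.pi fun p => Set.univ.pi fun _ => Set.Icc (-(r s(p, o))) (r s(p, o))) ×ˢ
        (Set.univ.pi fun e => Set.Icc 0 (r e)) := by
    rintro P ⟨h1, h2, h3, h4, h5⟩
    refine ⟨?_, ?_⟩
    · intro p _ j _
      have h6 := h4 p o
      have h7 : |P.1 p j - P.1 o j| ≤ ∑ j, |P.1 p j - P.1 o j| :=
        Finset.single_le_sum (f := fun j => |P.1 p j - P.1 o j|) (fun i _ => abs_nonneg _)
          (Finset.mem_univ j)
      have h8 := h1 s(p, o)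
      rw [h3, sub_zero] at h7
      exact Set.mem_Icc.2 (abs_le.1 (by linarith))
    · intro e _
      refine ⟨h1 e, ?_⟩
      induction e with
      | _ p q =>
        have h6 := h4 p q
        have h7 : 0 ≤ ∑ j, |P.1 p j - P.1 q j| := Finset.sum_nonneg fun _ _ => abs_nonneg _
        linarith
  have hcomp : IsCompact {P | State x y r o P} := by
    refine IsCompact.of_isClosed_subset ?_ hclosed hsub
    exact (isCompact_univ_pi fun p => isCompact_univ_pi fun _ => isCompact_Icc).prod
      (isCompact_univ_pi fun e => isCompact_Icc)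
  obtain ⟨P, hP, hm⟩ := hcomp.exists_isMinOn hne
    (f := fun P : (X → I → ℝ) × (Sym2 X → ℝ) => ∑ e, P.2 e)
    (continuous_finsetSum _ fun e _ => hcont2 e).continuousOn
  exact ⟨P, hP, fun Q hQ => hm hQ⟩

end Pool.Agent.R276.TJ
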