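import Pool.Agent.R276.TJc

set_option autoImplicit false
set_option linter.unusedSectionVars false

/-!
Joins and cuts: the packing theorem.
-/

noncomputable section

open Finset
open scoped Classical

namespace Pool.Agent.R276.TJ

/-- removing loops -/
theorem bds_filter {X : Type*} (Z : Finset (Sym2 X)) :
    bds (Z.filter (fun e => ¬ e.IsDiag)) = bds Z := by
  unfold bds
  refine Finset.sum_subset (Finset.filter_subset _ _) ?_
  intro e he hn
  refine bd_diag ?_
  by_contra hd
  exact hn (Finset.mem_filter.2 ⟨he, hd⟩)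

/-- a strictly smaller state in the positive case -/
theorem improve {X I : Type*} [Fintype X] [Fintype I] {x y : I → X} {r : Sym2 X → ℝ} {o : X}
    {G : X → I → ℝ} {r' : Sym2 X → ℝ} (hS : State x y r o (G, r'))
    (hp : ∀ e : Sym2 X, ¬ e.IsDiag → 0 < r' e) (hex : ∃ i, r' (hh x y i) ≠ 0) :
    ∃ Q, State x y r o Q ∧ ∑ e, Q.2 e < ∑ e, r' e := by
  obtain ⟨h1, h2, h3, h4, h5⟩ := hS
  simp only at h1 h2 h3 h4 h5
  obtain ⟨i1, hi1⟩ := hex
  have hnd1 : ¬ (hh x y i1).IsDiag := fun h => hi1 (h2.loop h1 h)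
  set NL : Finset I := Finset.univ.filter (fun i => ¬ (hh x y i).IsDiag) with hNL
  have hmNL : ∀ i, i ∈ NL ↔ ¬ (hh x y i).IsDiag := fun i => by
    rw [hNL, Finset.mem_filter]; exact ⟨fun h => h.2, fun h => ⟨Finset.mem_univ _, h⟩⟩
  have hinj : ∀ J ⊆ NL, Set.InjOn (hh x y) J := by
    intro J hJ i hi j _ hij
    exact h2.inj hp ((hmNL i).1 (hJ hi)) hij
  have hbdsJ : ∀ J ⊆ NL, bds (J.image (hh x y)) = ∑ i ∈ J, bd (hh x y i) := by
    intro J hJ
    unfold bds
    rw [Finset.sum_image (hinj J hJ)]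
  have hrsJ : ∀ (ρ : Sym2 X → ℝ), ∀ J ⊆ NL, rs ρ (J.image (hh x y)) =
      ∑ i ∈ J, ρ (hh x y i) := by
    intro ρ J hJ
    unfold rs
    rw [Finset.sum_image (hinj J hJ)]
  set H : Finset (Sym2 X) := NL.image (hh x y) with hH
  have hNDJ : ∀ J ⊆ NL, ND (J.image (hh x y)) := by
    intro J hJ e he
    obtain ⟨i, hi, rfl⟩ := Finset.mem_image.1 he
    exact (hmNL i).1 (hJ hi)
  have hNDH : ND H := hNDJ NL (Finset.Subset.refl _)
  have hMJ : MinJoin r' (bds H) H := by
    refine ⟨hNDH, rfl, fun Z hZ hZT => ?_⟩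
    rw [hH, hrsJ _ NL (Finset.Subset.refl _)]
    refine h2 NL Z ?_
    rw [hZT, hH, hbdsJ _ (Finset.Subset.refl _)]
  obtain ⟨b, ε, hε, hεr, hnb, hMJ'⟩ := peel h1 hp hMJ
    ⟨hh x y i1, Finset.mem_image_of_mem _ ((hmNL i1).2 hnd1)⟩
  set r'' := low r' b ε with hr''
  have hr''0 : ∀ e, 0 ≤ r'' e := by
    intro e
    by_cases hd : e.IsDiag
    · rw [hr'', low_diag hd]; exact h1 e
    · by_cases hb : b ∈ e
      · rw [hr'', low_pos hb hd]
        linarith [hεr e hd hb]
      · rw [hr'', low_neg hb]; exact h1 e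
  have hr''le : ∀ e, r'' e ≤ r' e := by
    intro e
    by_cases hd : e.IsDiag
    · rw [hr'', low_diag hd]
    · by_cases hb : b ∈ e
      · rw [hr'', low_pos hb hd]
        linarith
      · rw [hr'', low_neg hb]
  have hCons : Cons x y r'' := by
    intro J Z hZ
    set J' := J ∩ NL with hJ'
    have hJ'N : J' ⊆ NL := Finset.inter_subset_right
    set Z' := Z.filter (fun e => ¬ e.IsDiag) with hZ'
    have hNZ : ND Z' := fun e he => (Finset.mem_filter.1 he).2
    have e1 : ∑ i ∈ J, bd (hh x y i) = ∑ i ∈ J', bd (hh x y i) := by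
      symm
      refine Finset.sum_subset Finset.inter_subset_left ?_
      intro i hi hn
      refine bd_diag ?_
      by_contra hd
      exact hn (Finset.mem_inter.2 ⟨hi, (hmNL i).2 hd⟩)
    have e2 : ∑ i ∈ J, r'' (hh x y i) = ∑ i ∈ J', r'' (hh x y i) := by
      symm
      refine Finset.sum_subset Finset.inter_subset_left ?_
      intro i hi hn
      have hd : (hh x y i).IsDiag := by
        by_contra hd
        exact hn (Finset.mem_inter.2 ⟨hi, (hmNL i).2 hd⟩)
      rw [hr'', low_diag hd, h2.loop h1 hd]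
    set HJ := J'.image (hh x y) with hHJ
    have hHJs : HJ ⊆ H := Finset.image_subset_image hJ'N
    have e3 : bds Z' = bds HJ := by
      rw [hZ', bds_filter, hZ, e1, hHJ, hbdsJ J' hJ'N]
    set Z2 := symmDiff Z' (H \ HJ) with hZ2
    have hN2 : ND Z2 := hNZ.symmDiff (hNDH.subset Finset.sdiff_subset)
    have e4 : bds Z2 = bds H := by
      rw [hZ2, bds_symmDiff, bds_sdiff hHJs, e3]
      have := cc (bds HJ)
      calc bds HJ + (bds H + bds HJ) = bds H + (bds HJ + bds HJ) := by abel
        _ = _ := by rw [this, add_zero]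
    have e5 := hMJ'.min Z2 hN2 e4
    have e6 : rs r'' Z2 ≤ rs r'' Z' + rs r'' (H \ HJ) := by
      have : Z2 ⊆ Z' ∪ (H \ HJ) := by
        intro e he
        rw [hZ2, Finset.mem_symmDiff] at he
        rcases he with h | h
        · exact Finset.mem_union_left _ h.1
        · exact Finset.mem_union_right _ h.1
      have f1 : rs r'' Z2 ≤ rs r'' (Z' ∪ (H \ HJ)) :=
        Finset.sum_le_sum_of_subset_of_nonneg this (fun e _ _ => hr''0 e)
      have f2 : rs r'' (Z' ∪ (H \ HJ)) + rs r'' (Z' ∩ (H \ HJ)) =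
          rs r'' Z' + rs r'' (H \ HJ) := Finset.sum_union_inter
      have f3 : 0 ≤ rs r'' (Z' ∩ (H \ HJ)) := Finset.sum_nonneg fun e _ => hr''0 e
      linarith
    have e7 : rs r'' H = rs r'' HJ + rs r'' (H \ HJ) := by
      unfold rs
      rw [← Finset.sum_union Finset.disjoint_sdiff, Finset.union_sdiff_of_subset hHJs]
    have e8 : rs r'' Z' ≤ rs r'' Z :=
      Finset.sum_le_sum_of_subset_of_nonneg (Finset.filter_subset _ _) (fun e _ _ => hr''0 e)
    have e9 : rs r'' HJ = ∑ i ∈ J', r'' (hh x y i) := hrsJ _ J' hJ'N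
    rw [e2, ← e9]
    linarith
  -- the distinguished index
  obtain ⟨i0, hi0, hbi0⟩ : ∃ i0 ∈ NL, b ∈ hh x y i0 := by
    have : (H.filter (fun e => b ∈ e)).Nonempty := by
      rw [← Finset.card_pos]
      unfold nb at hnb
      omega
    obtain ⟨e, he⟩ := this
    obtain ⟨he1, he2⟩ := Finset.mem_filter.1 he
    obtain ⟨i, hi, rfl⟩ := Finset.mem_image.1 he1
    exact ⟨i, hi, he2⟩
  have huniq : ∀ i ∈ NL, b ∈ hh x y i → i = i0 := by
    intro i hi hbi
    obtain ⟨e, he⟩ := Finset.card_eq_one.1 hnb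
    have g1 : hh x y i ∈ H.filter (fun e => b ∈ e) :=
      Finset.mem_filter.2 ⟨Finset.mem_image_of_mem _ hi, hbi⟩
    have g2 : hh x y i0 ∈ H.filter (fun e => b ∈ e) :=
      Finset.mem_filter.2 ⟨Finset.mem_image_of_mem _ hi0, hbi0⟩
    rw [he, Finset.mem_singleton] at g1 g2
    exact h2.inj hp ((hmNL i).1 hi) (g1.trans g2.symm)
  have hd0 : ¬ (hh x y i0).IsDiag := (hmNL i0).1 hi0
  set σ : ℝ := if b = x i0 then 1 else -1 with hσ
  have hσabs : |σ| = 1 := by
    rw [hσ]; split_ifs
    · exact abs_one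
    · rw [abs_neg, abs_one]
  set t : X → I → ℝ := fun p j => if p = b ∧ j = i0 then σ * ε else 0 with ht
  set G2 : X → I → ℝ := fun p j => G p j + t p j - t o j with hG2
  have htsum : ∀ p q, ∑ j, |G2 p j - G2 q j| ≤ ∑ j, |G p j - G q j| + ∑ j, |t p j - t q j| := by
    intro p q
    rw [← Finset.sum_add_distrib]
    refine Finset.sum_le_sum fun j _ => ?_
    have : G2 p j - G2 q j = (G p j - G q j) + (t p j - t q j) := by rw [hG2]; ring
    rw [this]
    exact abs_add_le _ _
  have ht0 : ∀ p j, p ≠ b → t p j = 0 := fun p j h => if_neg fun hh => h hh.1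
  have ht1 : ∀ p j, j ≠ i0 → t p j = 0 := fun p j h => if_neg fun hh => h hh.2
  have ht2 : t b i0 = σ * ε := if_pos ⟨rfl, rfl⟩
  have htb : ∑ j, |t b j| = ε := by
    rw [Finset.sum_eq_single i0]
    · rw [ht2, abs_mul, hσabs, one_mul, abs_of_pos hε]
    · intro j _ hj
      rw [ht1 b j hj, abs_zero]
    · intro h
      exact absurd (Finset.mem_univ _) h
  refine ⟨(G2, r''), ⟨hr''0, hCons, ?_, ?_, ?_⟩, ?_⟩
  · intro j
    show G o j + t o j - t o j = 0
    rw [h3]; ring
  · intro p q
    show ∑ j, |G2 p j - G2 q j| + r'' s(p, q) ≤ r s(p, q)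
    have k1 := htsum p q
    have k2 := h4 p q
    by_cases hpq : p = q
    · subst hpq
      have k3 : ∑ j, |t p j - t p j| = 0 := by simp
      have k4 : r'' s(p, p) = r' s(p, p) := by
        rw [hr'', low_diag (Sym2.mk_isDiag_iff.2 rfl)]
      linarith
    · have hd : ¬ (s(p, q)).IsDiag := by rw [Sym2.mk_isDiag_iff]; exact hpq
      by_cases hb : b ∈ s(p, q)
      · have k4 : r'' s(p, q) = r' s(p, q) - ε := by rw [hr'', low_pos hb hd]
        have k3 : ∑ j, |t p j - t q j| = ε := by
          rw [← htb]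
          rw [Sym2.mem_iff] at hb
          rcases hb with rfl | rfl
          · refine Finset.sum_congr rfl fun j _ => ?_
            rw [ht0 q j (Ne.symm hpq), sub_zero]
          · refine Finset.sum_congr rfl fun j _ => ?_
            rw [ht0 p j hpq, zero_sub, abs_neg]
        linarith
      · have k4 : r'' s(p, q) = r' s(p, q) := by rw [hr'', low_neg hb]
        have k3 : ∑ j, |t p j - t q j| = 0 := by
          refine Finset.sum_eq_zero fun j _ => ?_
          rw [Sym2.mem_iff, not_or] at hb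
          rw [ht0 p j (Ne.symm hb.1), ht0 q j (Ne.symm hb.2), sub_zero, abs_zero]
        linarith
  · intro i
    show (G (x i) i + t (x i) i - t o i) - (G (y i) i + t (y i) i - t o i) =
      r (hh x y i) - r'' (hh x y i)
    have k1 := h5 i
    by_cases hi : i = i0
    · subst hi
      have k2 : r'' (hh x y i) = r' (hh x y i) - ε := by rw [hr'', low_pos hbi0 hd0]
      have hne : x i ≠ y i := fun h => hd0 (Sym2.mk_isDiag_iff.2 h)
      have k3 : t (x i) i - t (y i) i = ε := by
        have hb' := hbi0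
        unfold hh at hb'
        rw [Sym2.mem_iff] at hb'
        by_cases hbx : b = x i
        · have : t (x i) i = σ * ε := by rw [← hbx]; exact ht2
          rw [this, ht0 (y i) i (by rw [hbx]; exact hne.symm), hσ, if_pos hbx]
          ring
        · rcases hb' with h | h
          · exact absurd h hbx
          · have : t (y i) i = σ * ε := by rw [← h]; exact ht2
            rw [this, ht0 (x i) i (Ne.symm hbx), hσ, if_neg hbx]
            ring
      linarith
    · have k3 : r'' (hh x y i) = r' (hh x y i) := by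
        by_cases hd : (hh x y i).IsDiag
        · rw [hr'', low_diag hd]
        · rw [hr'', low_neg]
          exact fun hb => hi (huniq i ((hmNL i).2 hd) hb)
      rw [ht1 (x i) i hi, ht1 (y i) i hi, ht1 o i hi]
      linarith
  · show ∑ e, r'' e < ∑ e, r' e
    refine Finset.sum_lt_sum (fun e _ => hr''le e) ⟨hh x y i0, Finset.mem_univ _, ?_⟩
    rw [hr'', low_pos hbi0 hd0]
    linarith

/-- the packing theorem -/
theorem packing.{u, v} : ∀ (n : ℕ) (X : Type u) [Fintype X] (I : Type v) [Fintype I] (x y : I → X)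
    (r : Sym2 X → ℝ), Fintype.card X ≤ n → (∀ e, 0 ≤ r e) → Cons x y r →
    ∃ F, Sol x y r F := by
  intro n
  induction n with
  | zero =>
    intro X _ I _ x y r hc _ _
    have hE : IsEmpty X := Fintype.card_eq_zero_iff.1 (Nat.le_zero.1 hc)
    exact ⟨0, fun p => (hE.false p).elim, fun i => (hE.false (x i)).elim⟩
  | succ n ih =>
    intro X _ I _ x y r hc hr hC
    rcases isEmpty_or_nonempty X with hE | ⟨⟨o⟩⟩
    · exact ⟨0, fun p => (hE.false p).elim, fun i => (hE.false (x i)).elim⟩
    obtain ⟨⟨G, r'⟩, hS, hmin⟩ := state_exists_min (o := o) hr hC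
    have hS' := hS
    obtain ⟨h1, h2, h3, h4, h5⟩ := hS'
    simp only at h1 h2 h3 h4 h5
    by_cases hz : ∃ p q : X, p ≠ q ∧ r' s(p, q) = 0
    · obtain ⟨p, q, hpq, h0⟩ := hz
      obtain ⟨r1, hr1, hle, hC1, heq⟩ := ident h1 h2 hpq h0
      have hcard : Fintype.card {v : X // v ≠ q} ≤ n := by
        have := Fintype.card_subtype_lt (p := fun v : X => v ≠ q) (x := q) (fun h => h rfl)
        omega
      obtain ⟨F', hF1, hF2⟩ := ih {v : X // v ≠ q} I _ _ r1 hcard hr1 hC1
      refine ⟨fun u j => G u j + F' (idp hpq u) j, fun u w => ?_, fun i => ?_⟩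
      · have k1 : ∑ j, |G u j + F' (idp hpq u) j - (G w j + F' (idp hpq w) j)| ≤
            ∑ j, |G u j - G w j| + ∑ j, |F' (idp hpq u) j - F' (idp hpq w) j| := by
          rw [← Finset.sum_add_distrib]
          refine Finset.sum_le_sum fun j _ => ?_
          have : G u j + F' (idp hpq u) j - (G w j + F' (idp hpq w) j) =
            (G u j - G w j) + (F' (idp hpq u) j - F' (idp hpq w) j) := by ring
          rw [this]
          exact abs_add_le _ _
        have k2 := hF1 (idp hpq u) (idp hpq w)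
        have k3 := hle s(u, w)
        rw [Sym2.map_mk] at k3
        have k4 := h4 u w
        linarith
      · have k1 := hF2 i
        rw [heq i] at k1
        have k2 := h5 i
        linarith
    · push Not at hz
      have hp : ∀ e : Sym2 X, ¬ e.IsDiag → 0 < r' e := by
        intro e he
        refine lt_of_le_of_ne (h1 e) fun h => ?_
        induction e with
        | _ p q =>
          exact hz p q (fun h' => he (Sym2.mk_isDiag_iff.2 h')) h.symm
      by_cases hall : ∀ i, r' (hh x y i) = 0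
      · refine ⟨G, fun p q => ?_, fun i => ?_⟩
        · have k1 := h4 p q
          have k2 := h1 s(p, q)
          linarith
        · rw [h5, hall, sub_zero]
      · exfalso
        push Not at hall
        obtain ⟨Q, hQ, hlt⟩ := improve hS hp hall
        have := hmin Q hQ
        simp only at this
        linarith

end Pool.Agent.R276.TJ
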