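import Pool.Agent.R276.TJd

set_option autoImplicit false
set_option linter.unusedSectionVars false

/-!
Balanced orientations, and the conservative condition from scalar interpolation.
-/

noncomputable section

open Finset
open scoped Classical

namespace Pool.Agent.R276.TJ

variable {X : Type*}

/-- a balanced orientation of an edge family with zero boundary -/
theorem orient {κ : Type*} : ∀ (n : ℕ) (S : Finset κ) (a b : κ → X), S.card ≤ n →
    ∑ k ∈ S, bd s(a k, b k) = 0 →
    ∃ s : κ → ℝ, (∀ k, |s k| = 1) ∧ ∀ g : X → ℝ, ∑ k ∈ S, s k * (g (a k) - g (b k)) = 0 := by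
  intro n
  induction n with
  | zero =>
    intro S a b hc _
    have : S = ∅ := Finset.card_eq_zero.1 (Nat.le_zero.1 hc)
    subst this
    exact ⟨fun _ => 1, fun _ => abs_one, fun g => by simp⟩
  | succ n ih =>
    intro S a b hc h0
    rcases S.eq_empty_or_nonempty with rfl | ⟨k0, hk0⟩
    · exact ⟨fun _ => 1, fun _ => abs_one, fun g => by simp⟩
    have hcard : (S.erase k0).card ≤ n := by
      have := Finset.card_erase_of_mem hk0
      omega
    by_cases hab : a k0 = b k0
    · obtain ⟨s, hs1, hs2⟩ := ih (S.erase k0) a b hcard (by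
        rw [← h0, ← Finset.add_sum_erase S _ hk0, hab, bd_self, zero_add])
      refine ⟨s, hs1, fun g => ?_⟩
      rw [← Finset.add_sum_erase S _ hk0, hs2, hab, sub_self, mul_zero, add_zero]
    · -- another edge at `b k0`
      obtain ⟨k1, hk1, hb1⟩ : ∃ k1 ∈ S.erase k0, b k0 ∈ s(a k1, b k1) := by
        by_contra hcon
        push Not at hcon
        have h1 : (∑ k ∈ S, bd s(a k, b k)) (b k0) = 0 := by rw [h0]; rfl
        rw [← Finset.add_sum_erase S _ hk0, Pi.add_apply, Finset.sum_apply,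
          Finset.sum_eq_zero (fun k hk => bd_of_notMem (hcon k hk)), add_zero,
          bd_of_mem (Sym2.mem_mk_right _ _) (by rw [Sym2.mk_isDiag_iff]; exact hab)] at h1
        exact absurd h1 (by decide)
      have hk10 : k1 ≠ k0 := Finset.ne_of_mem_erase hk1
      have hk1S : k1 ∈ S := Finset.mem_of_mem_erase hk1
      have hcard1 : (S.erase k1).card ≤ n := by
        have := Finset.card_erase_of_mem hk1S
        omega
      have hk0' : k0 ∈ S.erase k1 := Finset.mem_erase.2 ⟨hk10.symm, hk0⟩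
      obtain ⟨c, hc1⟩ := Sym2.mem_iff_exists.1 hb1
      set b' : κ → X := fun k => if k = k0 then c else b k with hb'
      have hb'0 : b' k0 = c := if_pos rfl
      have hb'1 : ∀ k, k ≠ k0 → b' k = b k := fun k hk => if_neg hk
      obtain ⟨s, hs1, hs2⟩ := ih (S.erase k1) a b' hcard1 (by
        rw [← h0, ← Finset.add_sum_erase S _ hk1S, ← Finset.add_sum_erase (S.erase k1) _ hk0',
          ← Finset.add_sum_erase (S.erase k1) (fun k => bd s(a k, b k)) hk0', hb'0, hc1,
          ← bd_add (a k0) (b k0) c]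
        have : ∑ k ∈ (S.erase k1).erase k0, bd s(a k, b' k) =
            ∑ k ∈ (S.erase k1).erase k0, bd s(a k, b k) :=
          Finset.sum_congr rfl fun k hk => by rw [hb'1 k (Finset.ne_of_mem_erase hk)]
        rw [this]
        abel)
      set τ : ℝ := if a k1 = b k0 then 1 else -1 with hτ
      have hτabs : |τ| = 1 := by
        rw [hτ]; split_ifs
        · exact abs_one
        · rw [abs_neg, abs_one]
      have hg : ∀ g : X → ℝ, τ * (g (a k1) - g (b k1)) = g (b k0) - g c := by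
        intro g
        rw [Sym2.eq_iff] at hc1
        by_cases h1 : a k1 = b k0
        · rw [hτ, if_pos h1, one_mul]
          rcases hc1 with ⟨h2, h3⟩ | ⟨h2, h3⟩
          · rw [h2, h3]
          · rw [h2, h3, ← h1, h2]
        · rw [hτ, if_neg h1]
          rcases hc1 with ⟨h2, h3⟩ | ⟨h2, h3⟩
          · exact absurd h2 h1
          · rw [h2, h3]; ring
      refine ⟨fun k => if k = k1 then τ * s k0 else s k, fun k => ?_, fun g => ?_⟩
      · beta_reduce
        split_ifs
        · rw [abs_mul, hτabs, hs1, one_mul]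
        · exact hs1 k
      · have e1 := hs2 g
        rw [← Finset.add_sum_erase (S.erase k1) _ hk0', hb'0] at e1
        have e2 : ∑ k ∈ (S.erase k1).erase k0, s k * (g (a k) - g (b' k)) =
            ∑ k ∈ (S.erase k1).erase k0,
              (if k = k1 then τ * s k0 else s k) * (g (a k) - g (b k)) := by
          refine Finset.sum_congr rfl fun k hk => ?_
          rw [hb'1 k (Finset.ne_of_mem_erase hk),
            if_neg (Finset.ne_of_mem_erase (Finset.mem_of_mem_erase hk))]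
        rw [← Finset.add_sum_erase S _ hk1S, ← Finset.add_sum_erase (S.erase k1) _ hk0', ← e2]
        beta_reduce
        rw [if_pos rfl, if_neg hk10.symm]
        have e3 := hg g
        linear_combination e1 + s k0 * e3

/-- length of an edge -/
def dE [MetricSpace X] (e : Sym2 X) : ℝ := Sym2.lift ⟨fun a b => dist a b, dist_comm⟩ e

theorem dE_mk [MetricSpace X] (a b : X) : dE s(a, b) = dist a b := rfl

theorem dE_nonneg [MetricSpace X] (e : Sym2 X) : 0 ≤ dE e := by
  induction e with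
  | _ a b => exact dist_nonneg

/-- scalar interpolation with constant `K` -/
def Interp [MetricSpace X] {I : Type*} (x y : I → X) (K : ℝ) : Prop :=
  ∀ α : I → ℝ, (∀ i, |α i| ≤ 1) → ∃ g : X → ℝ, (∀ p q, |g p - g q| ≤ K * dist p q) ∧
    ∀ i, g (x i) - g (y i) = α i * dist (x i) (y i)

theorem Interp.inj [MetricSpace X] {I : Type*} {x y : I → X} {K : ℝ} (h : Interp x y K)
    (hxy : ∀ i, x i ≠ y i) : Function.Injective (hh x y) := by
  intro i j hij
  by_contra hne
  unfold hh at hij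
  rw [Sym2.eq_iff] at hij
  have hd := dist_pos.2 (hxy i)
  rcases hij with ⟨h1, h2⟩ | ⟨h1, h2⟩
  · obtain ⟨g, -, hg⟩ := h (fun k => if k = i then 1 else -1) (fun k => by
      split_ifs <;> simp)
    have e1 := hg i
    have e2 := hg j
    rw [if_pos rfl] at e1
    rw [if_neg (Ne.symm hne), ← h1, ← h2] at e2
    linarith
  · obtain ⟨g, -, hg⟩ := h (fun k => 1) (fun k => by simp)
    have e1 := hg i
    have e2 := hg j
    rw [← h1, ← h2, dist_comm] at e2
    linarith

/-- the weights -/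
def wt [MetricSpace X] {I : Type*} (x y : I → X) (K : ℝ) (e : Sym2 X) : ℝ :=
  if e ∈ Set.range (hh x y) then dE e else K * dE e

/-- the conservative condition from scalar interpolation -/
theorem cons_of_interp [MetricSpace X] {I : Type*} {x y : I → X} {K : ℝ} (h : Interp x y K)
    (hxy : ∀ i, x i ≠ y i) : Cons x y (wt x y K) := by
  intro J Z hZ
  have hinj := h.inj hxy
  set Z1 := Z.filter (fun e => e ∉ Set.range (hh x y)) with hZ1
  set Z2 := Z.filter (fun e => e ∈ Set.range (hh x y)) with hZ2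
  -- the indices of the pair edges in `Z`
  obtain ⟨IZ, hIZ⟩ : ∃ IZ : Finset I, IZ.image (hh x y) = Z2 := by
    refine ⟨Z2.preimage (hh x y) hinj.injOn, ?_⟩
    ext e
    rw [Finset.mem_image]
    constructor
    · rintro ⟨i, hi, rfl⟩
      exact Finset.mem_preimage.1 hi
    · intro he
      obtain ⟨i, rfl⟩ := (Finset.mem_filter.1 he).2
      exact ⟨i, Finset.mem_preimage.2 he, rfl⟩
  have hsplit : ∀ f : Sym2 X → X → ZMod 2, ∑ e ∈ Z, f e = ∑ e ∈ Z2, f e + ∑ e ∈ Z1, f e :=
    fun f => (Finset.sum_filter_add_sum_filter_not Z _ f).symm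
  have hsplitr : ∀ f : Sym2 X → ℝ, ∑ e ∈ Z, f e = ∑ e ∈ Z2, f e + ∑ e ∈ Z1, f e :=
    fun f => (Finset.sum_filter_add_sum_filter_not Z _ f).symm
  have hZ2s : ∀ (f : Sym2 X → ℝ), ∑ e ∈ Z2, f e = ∑ i ∈ IZ, f (hh x y i) := by
    intro f
    rw [← hIZ, Finset.sum_image hinj.injOn]
  have hZ2s' : ∀ (f : Sym2 X → X → ZMod 2), ∑ e ∈ Z2, f e = ∑ i ∈ IZ, f (hh x y i) := by
    intro f
    rw [← hIZ, Finset.sum_image hinj.injOn]
  set J' := symmDiff J IZ with hJ'
  have hJsum : ∑ i ∈ J', bd (hh x y i) = ∑ i ∈ J, bd (hh x y i) + ∑ i ∈ IZ, bd (hh x y i) := by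
    have h1 : J' = (J \ IZ) ∪ (IZ \ J) := rfl
    have h2 : Disjoint (J \ IZ) (IZ \ J) := by
      rw [Finset.disjoint_left]
      intro i hi hi'
      exact (Finset.mem_sdiff.1 hi).2 (Finset.mem_sdiff.1 hi').1
    have h3 : ∑ i ∈ J, bd (hh x y i) =
        ∑ i ∈ J \ IZ, bd (hh x y i) + ∑ i ∈ J ∩ IZ, bd (hh x y i) := by
      rw [← Finset.sum_union (Finset.disjoint_sdiff_inter J IZ), Finset.sdiff_union_inter]
    have h4 : ∑ i ∈ IZ, bd (hh x y i) =
        ∑ i ∈ IZ \ J, bd (hh x y i) + ∑ i ∈ J ∩ IZ, bd (hh x y i) := by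
      rw [Finset.inter_comm, ← Finset.sum_union (Finset.disjoint_sdiff_inter IZ J),
        Finset.sdiff_union_inter]
    rw [h1, Finset.sum_union h2, h3, h4]
    have h5 := cc (∑ i ∈ J ∩ IZ, bd (hh x y i))
    calc ∑ i ∈ J \ IZ, bd (hh x y i) + ∑ i ∈ IZ \ J, bd (hh x y i)
        = ∑ i ∈ J \ IZ, bd (hh x y i) + ∑ i ∈ IZ \ J, bd (hh x y i) +
          (∑ i ∈ J ∩ IZ, bd (hh x y i) + ∑ i ∈ J ∩ IZ, bd (hh x y i)) := by rw [h5, add_zero]
      _ = _ := by abel
  have hbd : ∑ i ∈ J', bd (hh x y i) + bds Z1 = 0 := by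
    have h1 : bds Z = bds Z2 + bds Z1 := hsplit bd
    have h2 : bds Z2 = ∑ i ∈ IZ, bd (hh x y i) := hZ2s' bd
    rw [h2, hZ] at h1
    rw [hJsum, h1]
    have h3 := cc (∑ i ∈ IZ, bd (hh x y i))
    have h4 := cc (bds Z1)
    calc ∑ i ∈ IZ, bd (hh x y i) + bds Z1 + ∑ i ∈ IZ, bd (hh x y i) + bds Z1
        = (∑ i ∈ IZ, bd (hh x y i) + ∑ i ∈ IZ, bd (hh x y i)) + (bds Z1 + bds Z1) := by abel
      _ = 0 := by rw [h3, h4, add_zero]
  -- a balanced orientation of the whole family
  have hends : ∀ e : Sym2 X, ∃ p q : X, s(p, q) = e := by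
    intro e
    induction e with
    | _ p q => exact ⟨p, q, rfl⟩
  choose ea eb hab using hends
  obtain ⟨s, hs1, hs2⟩ := orient (J'.disjSum Z1).card (J'.disjSum Z1)
    (Sum.elim x ea) (Sum.elim y eb) le_rfl (by
      rw [Finset.sum_disjSum]
      simp only [Sum.elim_inl, Sum.elim_inr, hab]
      exact hbd)
  obtain ⟨g, hg1, hg2⟩ := h (fun i => if i ∈ J' then s (Sum.inl i) else 0) (fun i => by
    split_ifs
    · rw [hs1]
    · rw [abs_zero]; exact zero_le_one)
  have e1 := hs2 g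
  rw [Finset.sum_disjSum] at e1
  simp only [Sum.elim_inl, Sum.elim_inr] at e1
  have e2 : ∑ i ∈ J', s (Sum.inl i) * (g (x i) - g (y i)) = ∑ i ∈ J', dE (hh x y i) := by
    refine Finset.sum_congr rfl fun i hi => ?_
    rw [hg2 i, if_pos hi, ← mul_assoc, ← abs_mul_abs_self, hs1, one_mul, one_mul]
    rfl
  have e3 : ∑ e ∈ Z1, -(s (Sum.inr e) * (g (ea e) - g (eb e))) ≤ ∑ e ∈ Z1, K * dE e := by
    refine Finset.sum_le_sum fun e _ => ?_
    refine (neg_le_abs _).trans ?_
    rw [abs_mul, hs1, one_mul]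
    refine (hg1 _ _).trans ?_
    rw [← dE_mk, hab]
  rw [Finset.sum_neg_distrib] at e3
  have e4 : ∑ i ∈ J', dE (hh x y i) ≤ ∑ e ∈ Z1, K * dE e := by linarith
  have w1 : ∀ i, wt x y K (hh x y i) = dE (hh x y i) := fun i => if_pos ⟨i, rfl⟩
  have w2 : ∑ e ∈ Z1, wt x y K e = ∑ e ∈ Z1, K * dE e :=
    Finset.sum_congr rfl fun e he => if_neg (Finset.mem_filter.1 he).2
  have w3 : ∑ e ∈ Z2, wt x y K e = ∑ i ∈ IZ, dE (hh x y i) := by
    rw [hZ2s]
    exact Finset.sum_congr rfl fun i _ => w1 i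
  have w4 : ∑ i ∈ J, dE (hh x y i) ≤ ∑ i ∈ J', dE (hh x y i) + ∑ i ∈ IZ, dE (hh x y i) := by
    have h1 : J ⊆ J' ∪ IZ := by
      intro i hi
      by_cases h : i ∈ IZ
      · exact Finset.mem_union_right _ h
      · exact Finset.mem_union_left _ (Finset.mem_symmDiff.2 (Or.inl ⟨hi, h⟩))
    have h2 : ∑ i ∈ J, dE (hh x y i) ≤ ∑ i ∈ J' ∪ IZ, dE (hh x y i) :=
      Finset.sum_le_sum_of_subset_of_nonneg h1 (fun i _ _ => dE_nonneg _)
    have h3 := Finset.sum_union_inter (s₁ := J') (s₂ := IZ) (f := fun i => dE (hh x y i))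
    have h4 : 0 ≤ ∑ i ∈ J' ∩ IZ, dE (hh x y i) := Finset.sum_nonneg fun i _ => dE_nonneg _
    linarith
  unfold rs
  rw [hsplitr, w2, w3, Finset.sum_congr rfl (fun i _ => w1 i)]
  linarith

end Pool.Agent.R276.TJ
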