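import Pool.Agent.R276.TJe

set_option autoImplicit false
set_option linter.unusedSectionVars false

/-!
Beurling families from scalar interpolation.
-/

noncomputable section

open Finset Filter Topology
open scoped Classical

namespace Pool.Agent.R276.TJ

variable {X : Type*} [MetricSpace X] {I : Type*}

/-- the conservative condition is closed in the constant -/
theorem cons_limit {x y : I → X} {M : ℝ} (h : ∀ K, M < K → Cons x y (wt x y K)) :
    Cons x y (wt x y M) := by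
  intro J Z hZ
  have w1 : ∀ (K : ℝ) i, wt x y K (hh x y i) = dE (hh x y i) := fun K i => if_pos ⟨i, rfl⟩
  have w2 : ∀ K, M ≤ K → ∀ e, wt x y K e ≤ wt x y M e + (K - M) * dE e := by
    intro K hK e
    unfold wt
    have := mul_nonneg (sub_nonneg.2 hK) (dE_nonneg e)
    split_ifs
    · linarith
    · linarith
  have h1 : ∀ K, M < K → ∑ i ∈ J, wt x y M (hh x y i) ≤
      rs (wt x y M) Z + (K - M) * ∑ e ∈ Z, dE e := by
    intro K hK
    have h2 := h K hK J Z hZ
    rw [Finset.sum_congr rfl (fun i _ => w1 K i)] at h2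
    rw [Finset.sum_congr rfl (fun i _ => w1 M i)]
    refine h2.trans ?_
    unfold rs
    rw [Finset.mul_sum, ← Finset.sum_add_distrib]
    exact Finset.sum_le_sum fun e _ => w2 K hK.le e
  refine le_of_forall_pos_le_add fun ε hε => ?_
  have hs : 0 ≤ ∑ e ∈ Z, dE e := Finset.sum_nonneg fun e _ => dE_nonneg e
  refine (h1 (M + ε / (∑ e ∈ Z, dE e + 1)) (by
    have : 0 < ε / (∑ e ∈ Z, dE e + 1) := by positivity
    linarith)).trans ?_
  have : ε / (∑ e ∈ Z, dE e + 1) * ∑ e ∈ Z, dE e ≤ ε := by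
    rw [div_mul_eq_mul_div, div_le_iff₀ (by positivity)]
    nlinarith
  linarith [this]

/-- the finite case -/
theorem finite_case (o : X) {x y : I → X} (hxy : ∀ i, x i ≠ y i) {M : ℝ} (hM : 1 ≤ M)
    (h : ∀ K, M < K → Interp x y K) (A : Finset X) (ho : o ∈ A) :
    ∃ F : X → I → ℝ, (∀ j, F o j = 0) ∧
      (∀ p ∈ A, ∀ q ∈ A, ∀ S : Finset I, ∑ j ∈ S, |F p j - F q j| ≤ M * dist p q) ∧
      (∀ i, x i ∈ A → y i ∈ A → F (x i) i - F (y i) i = dist (x i) (y i) ∧
        ∀ S : Finset I, ∑ j ∈ S, |F (x i) j - F (y i) j| ≤ dist (x i) (y i)) := by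
  let IA := {i : I // x i ∈ A ∧ y i ∈ A}
  let xA : IA → {v : X // v ∈ A} := fun i => ⟨x i.1, i.2.1⟩
  let yA : IA → {v : X // v ∈ A} := fun i => ⟨y i.1, i.2.2⟩
  have hxyA : ∀ i, xA i ≠ yA i := fun i hh => hxy i.1 (congrArg Subtype.val hh)
  have hI : ∀ K, M < K → Interp xA yA K := by
    intro K hK α hα
    obtain ⟨g, hg1, hg2⟩ := h K hK (fun i => if hi : x i ∈ A ∧ y i ∈ A then α ⟨i, hi⟩ else 0)
      (fun i => by
        split_ifs
        · exact hα _
        · rw [abs_zero]; exact zero_le_one)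
    refine ⟨fun v => g v.1, fun p q => hg1 _ _, fun i => ?_⟩
    have := hg2 i.1
    rw [dif_pos i.2] at this
    exact this
  have hinjA := (hI (M + 1) (by linarith)).inj hxyA
  have hfin : Finite IA := Finite.of_injective _ hinjA
  have hft : Fintype IA := Fintype.ofFinite IA
  have hC : Cons xA yA (wt xA yA M) :=
    cons_limit fun K hK => cons_of_interp (hI K hK) hxyA
  have hw0 : ∀ e, 0 ≤ wt xA yA M e := by
    intro e
    unfold wt
    have := dE_nonneg e
    split_ifs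
    · exact this
    · exact mul_nonneg (by linarith) this
  have hwle : ∀ p q, wt xA yA M s(p, q) ≤ M * dist p q := by
    intro p q
    unfold wt
    rw [dE_mk]
    split_ifs
    · nlinarith [dist_nonneg (x := p) (y := q)]
    · exact le_rfl
  obtain ⟨F, hF1, hF2⟩ := packing (Fintype.card {v : X // v ∈ A}) _ IA xA yA _ le_rfl hw0 hC
  let G : X → I → ℝ := fun p j =>
    if hp : p ∈ A then
      if hj : x j ∈ A ∧ y j ∈ A then F ⟨p, hp⟩ ⟨j, hj⟩ - F ⟨o, ho⟩ ⟨j, hj⟩ else 0
    else 0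
  have hG : ∀ p (hp : p ∈ A) j, G p j =
      if hj : x j ∈ A ∧ y j ∈ A then F ⟨p, hp⟩ ⟨j, hj⟩ - F ⟨o, ho⟩ ⟨j, hj⟩ else 0 :=
    fun p hp j => dif_pos hp
  have hsum : ∀ p (hp : p ∈ A) q (hq : q ∈ A) (S : Finset I),
      ∑ j ∈ S, |G p j - G q j| ≤ ∑ j : IA, |F ⟨p, hp⟩ j - F ⟨q, hq⟩ j| := by
    intro p hp q hq S
    have e1 : ∀ j, |G p j - G q j| =
        if hj : x j ∈ A ∧ y j ∈ A then |F ⟨p, hp⟩ ⟨j, hj⟩ - F ⟨q, hq⟩ ⟨j, hj⟩| else 0 := by
      intro j
      rw [hG p hp, hG q hq]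
      by_cases hj : x j ∈ A ∧ y j ∈ A
      · rw [dif_pos hj, dif_pos hj, dif_pos hj]
        congr 1
        ring
      · rw [dif_neg hj, dif_neg hj, dif_neg hj, sub_self, abs_zero]
    have e2 : ∑ j ∈ S, |G p j - G q j| = ∑ j ∈ S.filter (fun j => x j ∈ A ∧ y j ∈ A),
        |G p j - G q j| := by
      symm
      refine Finset.sum_subset (Finset.filter_subset _ _) ?_
      intro j hj hn
      rw [e1, dif_neg]
      exact fun hh => hn (Finset.mem_filter.2 ⟨hj, hh⟩)
    rw [e2, ← Finset.sum_subtype_eq_sum_filter]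
    have e3 : ∀ j ∈ S.subtype (fun j => x j ∈ A ∧ y j ∈ A), |G p j.1 - G q j.1| =
        |F ⟨p, hp⟩ j - F ⟨q, hq⟩ j| := by
      intro j _
      rw [e1, dif_pos j.2]
    rw [Finset.sum_congr rfl e3]
    exact Finset.sum_le_sum_of_subset_of_nonneg (Finset.subset_univ _)
      (fun j _ _ => abs_nonneg _)
  refine ⟨G, fun j => ?_, fun p hp q hq S => ?_, fun i hxi hyi => ⟨?_, fun S => ?_⟩⟩
  · rw [hG o ho]
    split_ifs
    · ring
    · rfl
  · exact (hsum p hp q hq S).trans ((hF1 _ _).trans (hwle _ _))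
  · have := hF2 ⟨i, hxi, hyi⟩
    rw [hG _ hxi, hG _ hyi, dif_pos ⟨hxi, hyi⟩, dif_pos ⟨hxi, hyi⟩]
    have w : wt xA yA M (hh xA yA ⟨i, hxi, hyi⟩) = dist (x i) (y i) := if_pos ⟨_, rfl⟩
    rw [w] at this
    linarith
  · refine (hsum _ hxi _ hyi S).trans ((hF1 _ _).trans (le_of_eq ?_))
    exact if_pos ⟨(⟨i, hxi, hyi⟩ : IA), rfl⟩

/-- the Beurling family -/
theorem beurling (o : X) {x y : I → X} (hxy : ∀ i, x i ≠ y i) {M : ℝ} (hM : 1 ≤ M)
    (h : ∀ K, M < K → Interp x y K) :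
    ∃ f : I → X → ℝ, (∀ i, f i o = 0) ∧
      (∀ i j, f i (x j) - f i (y j) = if i = j then dist (x j) (y j) else 0) ∧
      ∀ p q, ∀ S : Finset I, ∑ i ∈ S, |f i p - f i q| ≤ M * dist p q := by
  have hfc : ∀ A : Finset X, ∃ F : X → I → ℝ, o ∈ A → (∀ j, F o j = 0) ∧
      (∀ p ∈ A, ∀ q ∈ A, ∀ S : Finset I, ∑ j ∈ S, |F p j - F q j| ≤ M * dist p q) ∧
      (∀ i, x i ∈ A → y i ∈ A → F (x i) i - F (y i) i = dist (x i) (y i) ∧
        ∀ S : Finset I, ∑ j ∈ S, |F (x i) j - F (y i) j| ≤ dist (x i) (y i)) := by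
    intro A
    by_cases ho : o ∈ A
    · obtain ⟨F, hF⟩ := finite_case o hxy hM h A ho
      exact ⟨F, fun _ => hF⟩
    · exact ⟨0, fun h => absurd h ho⟩
  choose F hF using hfc
  let U : Ultrafilter (Finset X) := Ultrafilter.of atTop
  have hU : (U : Filter (Finset X)) ≤ atTop := Ultrafilter.of_le _
  have hev : ∀ p : X, ∀ᶠ A in (U : Filter (Finset X)), p ∈ A := by
    intro p
    refine hU ?_
    filter_upwards [Filter.eventually_ge_atTop {p}] with A hA
    exact hA (Finset.mem_singleton_self p)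
  have hlim : ∀ p j, ∃ L : ℝ, Tendsto (fun A => F A p j) (U : Filter (Finset X)) (𝓝 L) := by
    intro p j
    have hb : ∀ᶠ A in (U : Filter (Finset X)), F A p j ∈ Set.Icc (-(M * dist p o)) (M * dist p o) := by
      filter_upwards [hev p, hev o] with A hp ho
      obtain ⟨h1, h2, -⟩ := hF A ho
      have := h2 p hp o ho {j}
      rw [Finset.sum_singleton, h1, sub_zero] at this
      exact Set.mem_Icc.2 (abs_le.1 this)
    obtain ⟨L, -, hL⟩ := (isCompact_Icc (a := -(M * dist p o)) (b := M * dist p o)).ultrafilter_le_nhds'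
      (U.map (fun A => F A p j)) hb
    exact ⟨L, hL⟩
  choose L hL using hlim
  have hLS : ∀ p q (S : Finset I), Tendsto (fun A => ∑ j ∈ S, |F A p j - F A q j|)
      (U : Filter (Finset X)) (𝓝 (∑ j ∈ S, |L p j - L q j|)) := fun p q S =>
    tendsto_finsetSum _ fun j _ => ((hL p j).sub (hL q j)).abs
  have hself : ∀ j, L (x j) j - L (y j) j = dist (x j) (y j) := by
    intro j
    have h1 : Tendsto (fun A => F A (x j) j - F A (y j) j) (U : Filter (Finset X))
        (𝓝 (L (x j) j - L (y j) j)) := (hL _ j).sub (hL _ j)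
    refine tendsto_nhds_unique h1 (tendsto_const_nhds.congr' ?_)
    filter_upwards [hev (x j), hev (y j), hev o] with A hx hy ho
    exact (((hF A ho).2.2 j hx hy).1).symm
  have hpair : ∀ j (S : Finset I), ∑ i ∈ S, |L (x j) i - L (y j) i| ≤ dist (x j) (y j) := by
    intro j S
    refine le_of_tendsto (hLS (x j) (y j) S) ?_
    filter_upwards [hev (x j), hev (y j), hev o] with A hx hy ho
    exact ((hF A ho).2.2 j hx hy).2 S
  refine ⟨fun i p => L p i, fun i => ?_, fun i j => ?_, fun p q S => ?_⟩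
  · refine tendsto_nhds_unique (hL o i) (tendsto_const_nhds.congr' ?_)
    filter_upwards [hev o] with A ho
    exact ((hF A ho).1 i).symm
  · show L (x j) i - L (y j) i = _
    split_ifs with hij
    · rw [hij]; exact hself j
    · have h1 := hpair j {i, j}
      rw [Finset.sum_pair hij, hself, abs_of_nonneg dist_nonneg] at h1
      have h2 : |L (x j) i - L (y j) i| ≤ 0 := by linarith
      exact abs_eq_zero.1 (le_antisymm h2 (abs_nonneg _))
  · refine le_of_tendsto (hLS p q S) ?_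
    filter_upwards [hev p, hev q, hev o] with A hp hq ho
    exact (hF A ho).2.1 p hp q hq S

end Pool.Agent.R276.TJ
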